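import Mathlib

set_option autoImplicit false
set_option linter.unusedSectionVars false

/-!
Listings of the components of graphs of maximum degree two along Hamiltonian paths.
-/

namespace Pool.Agent.R37

open Finset

/-- at most two neighbours -/
def Deg2 {V : Type} (J : SimpleGraph V) : Prop :=
  ∀ v a b c, J.Adj v a → J.Adj v b → J.Adj v c → a = b ∨ a = c ∨ b = c

/-- a path inside `K` -/
structure HPath {V : Type} (J : SimpleGraph V) (K : Set V) (L : ℕ) (u : ℕ → V) : Prop where
  pos : 0 < L
  inj : ∀ i < L, ∀ j < L, u i = u j → i = j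
  mem : ∀ i < L, u i ∈ K
  adj : ∀ i, i + 1 < L → J.Adj (u i) (u (i + 1))

theorem HPath.reverse {V : Type} {J : SimpleGraph V} {K : Set V} {L : ℕ} {u : ℕ → V}
    (h : HPath J K L u) : HPath J K L (fun i => u (L - 1 - i)) := by
  have hpos := h.pos
  refine ⟨h.pos, ?_, ?_, ?_⟩
  · intro i hi j hj hij
    have := h.inj _ (by omega) _ (by omega) hij
    omega
  · intro i hi
    exact h.mem _ (by omega)
  · intro i hi
    have h1 := h.adj (L - 1 - (i + 1)) (by omega)
    have h2 : L - 1 - (i + 1) + 1 = L - 1 - i := by omega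
    rw [h2] at h1
    exact h1.symm

theorem HPath.extend {V : Type} {J : SimpleGraph V} {K : Set V} {L : ℕ} {u : ℕ → V}
    (h : HPath J K L u) {y : V} (hy : y ∈ K) (hadj : J.Adj (u (L - 1)) y)
    (hnew : ∀ i < L, u i ≠ y) : HPath J K (L + 1) (Function.update u L y) := by
  have hpos := h.pos
  have hu : ∀ i, i < L → Function.update u L y i = u i := fun i hi =>
    Function.update_of_ne (by omega) _ _
  have hL : Function.update u L y L = y := Function.update_self _ _ _
  refine ⟨by omega, ?_, ?_, ?_⟩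
  · intro i hi j hj hij
    rcases Nat.lt_succ_iff_lt_or_eq.1 hi with h1 | h1 <;>
    rcases Nat.lt_succ_iff_lt_or_eq.1 hj with h2 | h2
    · rw [hu i h1, hu j h2] at hij
      exact h.inj i h1 j h2 hij
    · rw [hu i h1, h2, hL] at hij
      exact absurd hij (hnew i h1)
    · rw [hu j h2, h1, hL] at hij
      exact absurd hij.symm (hnew j h2)
    · omega
  · intro i hi
    rcases Nat.lt_succ_iff_lt_or_eq.1 hi with h1 | h1
    · rw [hu i h1]; exact h.mem i h1
    · rw [h1, hL]; exact hy
  · intro i hi
    by_cases h1 : i + 1 = L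
    · rw [h1, hL, hu i (by omega)]
      have : i = L - 1 := by omega
      rw [this]; exact hadj
    · rw [hu i (by omega), hu (i + 1) (by omega)]
      exact h.adj i (by omega)

theorem exists_hpath {V : Type} [Fintype V] {J : SimpleGraph V} (hJ : Deg2 J) (r : V) :
    ∃ (L : ℕ) (u : ℕ → V), HPath J {v | J.Reachable r v} L u ∧
      (∀ v, J.Reachable r v → ∃ i < L, u i = v) ∧
      ∀ i j, i < j → j < L → J.Adj (u i) (u j) → j = i + 1 ∨ (i = 0 ∧ j = L - 1) := by
  classical
  obtain ⟨S, hS⟩ : ∃ S : Set ℕ, S = {L | ∃ u, HPath J {v | J.Reachable r v} L u} := ⟨_, rfl⟩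
  have hne : S.Nonempty := by
    refine ⟨1, ?_⟩
    rw [hS]
    refine ⟨fun _ => r, by omega, fun i hi j hj _ => by omega, fun i _ => ?_, fun i hi => by omega⟩
    exact SimpleGraph.Reachable.refl r
  have hbdd : BddAbove S := by
    refine ⟨Fintype.card V, ?_⟩
    intro L hL
    rw [hS] at hL
    obtain ⟨u, hu⟩ := hL
    have h1 : (Finset.range L).card ≤ (univ : Finset V).card :=
      Finset.card_le_card_of_injOn u (fun _ _ => Finset.mem_coe.2 (Finset.mem_univ _))
        (fun i hi j hj hij => hu.inj i (Finset.mem_range.1 hi) j (Finset.mem_range.1 hj) hij)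
    simpa using h1
  have hmem := Nat.sSup_mem hne hbdd
  have hmax : ∀ L u, HPath J {v | J.Reachable r v} L u → L ≤ sSup S := by
    intro L u hu
    exact le_csSup hbdd (by rw [hS]; exact ⟨u, hu⟩)
  obtain ⟨L, hL⟩ : ∃ L, L = sSup S := ⟨_, rfl⟩
  rw [← hL] at hmem hmax
  rw [hS] at hmem
  obtain ⟨u, hu⟩ := hmem
  have hpos := hu.pos
  have hclosed : ∀ i < L, ∀ y, J.Adj (u i) y → ∃ j < L, u j = y := by
    intro i hi y hy
    by_contra hcon
    push Not at hcon
    have hyK : y ∈ {v | J.Reachable r v} :=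
      (hu.mem i hi).trans hy.reachable
    by_cases h1 : i = L - 1
    · subst h1
      have := hmax _ _ (hu.extend hyK hy (fun j hj => hcon j hj))
      omega
    · by_cases h0 : i = 0
      · subst h0
        have h2 := hu.reverse.extend hyK (y := y) (by
          show J.Adj (u (L - 1 - (L - 1))) y
          rw [Nat.sub_self]; exact hy) (fun j hj => hcon _ (by omega))
        have := hmax _ _ h2
        omega
      · have h2 := hu.adj i (by omega)
        have h3 := hu.adj (i - 1) (by omega)
        rw [show i - 1 + 1 = i by omega] at h3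
        rcases hJ (u i) (u (i - 1)) (u (i + 1)) y h3.symm h2 hy with h4 | h4 | h4
        · have := hu.inj _ (by omega) _ (by omega) h4
          omega
        · exact hcon (i - 1) (by omega) h4
        · exact hcon (i + 1) (by omega) h4
  refine ⟨L, u, hu, ?_, ?_⟩
  · have hr0 : J.Reachable (u 0) r := (hu.mem 0 hpos).symm
    intro v hv
    obtain ⟨p⟩ := hr0.trans hv
    have key : ∀ (a b : V) (q : J.Walk a b), (∃ i < L, u i = a) → ∃ i < L, u i = b := by
      intro a b q
      induction q with
      | nil => exact id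
      | @cons a c b hac q ih =>
        rintro ⟨i, hi, rfl⟩
        exact ih (hclosed i hi c hac)
    exact key _ _ p ⟨0, hpos, rfl⟩
  · intro i j hij hj hadj
    by_contra hcon
    push Not at hcon
    obtain ⟨h1, h2⟩ := hcon
    by_cases h0 : i = 0
    · have h3 := h2 h0
      have h4 := hu.adj j (by omega)
      have h5 := hu.adj (j - 1) (by omega)
      rw [show j - 1 + 1 = j by omega] at h5
      rcases hJ (u j) (u (j - 1)) (u (j + 1)) (u i) h5.symm h4 hadj.symm with h6 | h6 | h6
      · have := hu.inj _ (by omega) _ (by omega) h6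
        omega
      · have := hu.inj _ (by omega) _ (by omega) h6
        omega
      · have := hu.inj _ (by omega) _ (by omega) h6
        omega
    · have h4 := hu.adj i (by omega)
      have h5 := hu.adj (i - 1) (by omega)
      rw [show i - 1 + 1 = i by omega] at h5
      rcases hJ (u i) (u (i - 1)) (u (i + 1)) (u j) h5.symm h4 hadj with h6 | h6 | h6
      · have := hu.inj _ (by omega) _ (by omega) h6
        omega
      · have := hu.inj _ (by omega) _ (by omega) h6
        omega
      · have := hu.inj _ (by omega) _ (by omega) h6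
        omega

/-- A listing of all components of a graph along paths. -/
structure Listing {V : Type} (J : SimpleGraph V) (γ : Type) (C : V → γ) (L : γ → ℕ)
    (u : γ → ℕ → V) (pos : V → ℕ) : Prop where
  one : ∀ c, ∀ i < L c, C (u c i) = c ∧ pos (u c i) = i
  two : ∀ v, pos v < L (C v) ∧ u (C v) (pos v) = v
  adj : ∀ c i, i + 1 < L c → J.Adj (u c i) (u c (i + 1))
  cases : ∀ v w, J.Adj v w → C v = C w ∧ (pos w = pos v + 1 ∨ pos v = pos w + 1 ∨
    (pos v = 0 ∧ pos w = L (C v) - 1) ∨ (pos w = 0 ∧ pos v = L (C v) - 1))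

theorem exists_listing {V : Type} [Fintype V] {J : SimpleGraph V} (hJ : Deg2 J) :
    ∃ (γ : Type) (C : V → γ) (L : γ → ℕ) (u : γ → ℕ → V) (pos : V → ℕ),
      Listing J γ C L u pos := by
  classical
  have h : ∀ c : J.ConnectedComponent, ∃ (L : ℕ) (u : ℕ → V),
      (0 < L ∧ (∀ i < L, ∀ j < L, u i = u j → i = j) ∧
        (∀ i < L, J.connectedComponentMk (u i) = c) ∧
        (∀ i, i + 1 < L → J.Adj (u i) (u (i + 1)))) ∧
      (∀ v, J.connectedComponentMk v = c → ∃ i < L, u i = v) ∧
      ∀ i j, i < j → j < L → J.Adj (u i) (u j) → j = i + 1 ∨ (i = 0 ∧ j = L - 1) := by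
    intro c
    induction c using SimpleGraph.ConnectedComponent.ind with
    | _ r =>
      obtain ⟨L, u, h1, h2, h3⟩ := exists_hpath hJ r
      refine ⟨L, u, ⟨h1.pos, h1.inj, ?_, h1.adj⟩, ?_, h3⟩
      · intro i hi
        exact SimpleGraph.ConnectedComponent.sound (h1.mem i hi).symm
      · intro v hv
        exact h2 v (SimpleGraph.ConnectedComponent.exact hv).symm
  choose L u h1 h2 h3 using h
  have hpos : ∀ v, ∃ i, i < L (J.connectedComponentMk v) ∧ u (J.connectedComponentMk v) i = v := by
    intro v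
    obtain ⟨i, hi, hi'⟩ := h2 _ v rfl
    exact ⟨i, hi, hi'⟩
  choose pos hpos1 hpos2 using hpos
  have hposu : ∀ c, ∀ i < L c, J.connectedComponentMk (u c i) = c ∧ pos (u c i) = i := by
    intro c i hi
    obtain ⟨h4, h5, h6, h7⟩ := h1 c
    have h8 := h6 i hi
    refine ⟨h8, ?_⟩
    have h9 := hpos1 (u c i)
    have h10 := hpos2 (u c i)
    rw [h8] at h9 h10
    exact h5 _ h9 _ hi h10
  refine ⟨J.ConnectedComponent, fun v => J.connectedComponentMk v, L, u, pos, hposu,
    fun v => ⟨hpos1 v, hpos2 v⟩, fun c i hi => (h1 c).2.2.2 i hi, ?_⟩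
  intro v w hvw
  have hC : J.connectedComponentMk v = J.connectedComponentMk w :=
    SimpleGraph.ConnectedComponent.sound hvw.reachable
  refine ⟨hC, ?_⟩
  have hv1 := hpos1 v
  have hv2 := hpos2 v
  have hw1 := hpos1 w
  have hw2 := hpos2 w
  rw [← hC] at hw1 hw2
  have hadj : J.Adj (u (J.connectedComponentMk v) (pos v)) (u (J.connectedComponentMk v) (pos w)) := by
    rw [hv2, hw2]; exact hvw
  rcases lt_trichotomy (pos v) (pos w) with h4 | h4 | h4
  · rcases h3 _ _ _ h4 hw1 hadj with h5 | ⟨h5, h6⟩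
    · exact Or.inl h5
    · exact Or.inr (Or.inr (Or.inl ⟨h5, h6⟩))
  · exfalso
    rw [h4] at hadj
    exact hadj.ne rfl
  · rcases h3 _ _ _ h4 hv1 hadj.symm with h5 | ⟨h5, h6⟩
    · exact Or.inr (Or.inl h5)
    · exact Or.inr (Or.inr (Or.inr ⟨h5, h6⟩))

end Pool.Agent.R37
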