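import Mathlib
import Pool.Agent.Helper635.LLL

set_option autoImplicit false
set_option linter.unusedSectionVars false

/-!
Independent transversals from the local lemma.
-/

namespace Pool.Agent.R37

open Finset Pool.Agent.Helper635.LLL

open Classical in
theorem exists_transversal {T : Type} [Fintype T] {q D : ℕ} (hD : 1 ≤ D) (hq : 16 * D ≤ q)
    (Cf : T × Fin q → T × Fin q → Prop) (hsymm : ∀ a b, Cf a b → Cf b a)
    (hdeg : ∀ a, (univ.filter (fun b => Cf a b)).card ≤ D) :
    ∃ ω : T → Fin q, ∀ t t', t ≠ t' → ¬ Cf (t, ω t) (t', ω t') := by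
  have hq0 : 0 < q := by omega
  obtain ⟨I, hI⟩ : ∃ I : Finset ((T × Fin q) × (T × Fin q)),
    I = univ.filter (fun i => i.1.1 ≠ i.2.1 ∧ Cf i.1 i.2) := ⟨_, rfl⟩
  have hImem : ∀ i, i ∈ I ↔ i.1.1 ≠ i.2.1 ∧ Cf i.1 i.2 := by
    intro i; rw [hI, Finset.mem_filter]; simp
  have hfirst : ∀ t : T, (I.filter (fun i => i.1.1 = t)).card ≤ q * D := by
    intro t
    have h1 : (I.filter (fun i => i.1.1 = t)) ⊆
        (univ : Finset (Fin q)).biUnion (fun k =>
          (univ.filter (fun b => Cf (t, k) b)).image (fun b => ((t, k), b))) := by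
      intro i hi
      rw [Finset.mem_filter, hImem] at hi
      rw [Finset.mem_biUnion]
      refine ⟨i.1.2, Finset.mem_univ _, ?_⟩
      rw [Finset.mem_image]
      refine ⟨i.2, ?_, ?_⟩
      · rw [Finset.mem_filter, ← hi.2]
        exact ⟨Finset.mem_univ _, hi.1.2⟩
      · rw [← hi.2]
    refine (Finset.card_le_card h1).trans (Finset.card_biUnion_le.trans ?_)
    refine (Finset.sum_le_card_nsmul _ _ D ?_).trans ?_
    · intro k _
      exact Finset.card_image_le.trans (hdeg (t, k))
    · rw [Finset.card_univ, Fintype.card_fin, smul_eq_mul]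
  have hsecond : ∀ t : T, (I.filter (fun i => i.2.1 = t)).card ≤ q * D := by
    intro t
    refine le_trans ?_ (hfirst t)
    apply Finset.card_le_card_of_injOn (fun i => (i.2, i.1))
    · intro i hi
      rw [Finset.mem_coe, Finset.mem_filter, hImem] at hi
      rw [Finset.mem_coe, Finset.mem_filter, hImem]
      exact ⟨⟨hi.1.1.symm, hsymm _ _ hi.1.2⟩, hi.2⟩
    · intro i _ j _ hij
      have h := Prod.mk.inj hij
      exact Prod.ext h.2 h.1
  obtain ⟨ω, hω⟩ := lll (T := T) (C := Fin q) I (fun i ω => ω i.1.1 = i.1.2 ∧ ω i.2.1 = i.2.2)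
    (fun i => {i.1.1, i.2.1}) (by
      intro i _ ω ω' h hω
      show ω' i.1.1 = i.1.2 ∧ ω' i.2.1 = i.2.2
      rw [← h i.1.1 (by simp), ← h i.2.1 (by simp)]
      exact hω) (1 / ((q : ℝ) * q)) (4 * (q * D)) (by positivity) (by
      intro i hi
      rw [hImem] at hi
      have h1 : cnt (fun ω : T → Fin q => ω i.1.1 = i.1.2 ∧ ω i.2.1 = i.2.2) * (q * q) ≤
          Fintype.card (T → Fin q) := by
        have h2 : ((ev (fun ω : T → Fin q => ω i.1.1 = i.1.2 ∧ ω i.2.1 = i.2.2)) ×ˢ
            ((univ : Finset (Fin q)) ×ˢ (univ : Finset (Fin q)))).card ≤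
            (univ : Finset (T → Fin q)).card := by
          apply Finset.card_le_card_of_injOn (fun w =>
            Function.update (Function.update w.1 i.1.1 w.2.1) i.2.1 w.2.2)
          · intro _ _; exact Finset.mem_coe.2 (Finset.mem_univ _)
          · rintro ⟨ω, a, b⟩ hw ⟨ω', a', b'⟩ hw' heq
            rw [Finset.mem_coe, Finset.mem_product, mem_ev] at hw hw'
            simp only at hw hw' heq
            have hb : b = b' := by
              have := congrFun heq i.2.1
              rw [Function.update_self, Function.update_self] at this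
              exact this
            have ha : a = a' := by
              have := congrFun heq i.1.1
              rw [Function.update_of_ne hi.1, Function.update_of_ne hi.1, Function.update_self,
                Function.update_self] at this
              exact this
            have hωω : ω = ω' := by
              funext t
              by_cases h1 : t = i.1.1
              · rw [h1, hw.1.1, hw'.1.1]
              · by_cases h2 : t = i.2.1
                · rw [h2, hw.1.2, hw'.1.2]
                · have := congrFun heq t
                  rw [Function.update_of_ne h2, Function.update_of_ne h2,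
                    Function.update_of_ne h1, Function.update_of_ne h1] at this
                  exact this
            rw [ha, hb, hωω]
        rw [Finset.card_product, Finset.card_product, Finset.card_univ, Finset.card_univ,
          Fintype.card_fin] at h2
        exact h2
      have hq' : (0 : ℝ) < (q : ℝ) * q := by
        have : (0 : ℝ) < q := by exact_mod_cast hq0
        positivity
      rw [one_div, ← div_eq_inv_mul, le_div_iff₀ hq']
      exact_mod_cast h1) (by
      intro i hi
      have h1 : (I.filter (fun j => ¬ Disjoint ({i.1.1, i.2.1} : Finset T) {j.1.1, j.2.1})) ⊆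
          ((I.filter (fun j => j.1.1 = i.1.1)) ∪ (I.filter (fun j => j.1.1 = i.2.1))) ∪
          ((I.filter (fun j => j.2.1 = i.1.1)) ∪ (I.filter (fun j => j.2.1 = i.2.1))) := by
        intro j hj
        rw [Finset.mem_filter, Finset.not_disjoint_iff] at hj
        obtain ⟨hjI, t, ht1, ht2⟩ := hj
        simp only [Finset.mem_insert, Finset.mem_singleton] at ht1 ht2
        simp only [Finset.mem_union, Finset.mem_filter]
        rcases ht1 with rfl | rfl <;> rcases ht2 with h | h
        · exact Or.inl (Or.inl ⟨hjI, h.symm⟩)
        · exact Or.inr (Or.inl ⟨hjI, h.symm⟩)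
        · exact Or.inl (Or.inr ⟨hjI, h.symm⟩)
        · exact Or.inr (Or.inr ⟨hjI, h.symm⟩)
      have h2 := (Finset.card_le_card h1).trans (Finset.card_union_le _ _)
      have h3 := Finset.card_union_le (I.filter (fun j => j.1.1 = i.1.1))
        (I.filter (fun j => j.1.1 = i.2.1))
      have h4 := Finset.card_union_le (I.filter (fun j => j.2.1 = i.1.1))
        (I.filter (fun j => j.2.1 = i.2.1))
      have h5 := hfirst i.1.1
      have h6 := hfirst i.2.1
      have h7 := hsecond i.1.1
      have h8 := hsecond i.2.1
      omega) (by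
      have hq' : (0 : ℝ) < q := by exact_mod_cast hq0
      have h1 : (16 : ℝ) * D ≤ q := by exact_mod_cast hq
      push_cast
      rw [show (4 : ℝ) * (1 / ((q : ℝ) * q)) * (4 * (q * D)) = (16 * D) / q by
        field_simp; ring]
      rw [div_le_one hq']
      exact h1) (by
      have : 1 ≤ q * D := Nat.one_le_iff_ne_zero.2 (by positivity)
      omega) (by
      have : Nonempty (T → Fin q) := ⟨fun _ => ⟨0, hq0⟩⟩
      exact Fintype.card_pos)
  refine ⟨ω, ?_⟩
  intro t t' hne hcf
  exact hω ((t, ω t), (t', ω t')) ((hImem _).2 ⟨hne, hcf⟩) ⟨rfl, rfl⟩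

end Pool.Agent.R37
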