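import Mathlib
import Pool.Agent.R37.Listing
import Pool.Agent.R37.Transversal

set_option autoImplicit false
set_option linter.unusedSectionVars false

/-!
Blocking partitions of graphs of maximum degree three.
-/

namespace Pool.Agent.R37

open Finset

/-- at most three neighbours -/
def Deg3 {V : Type} (G : SimpleGraph V) : Prop :=
  ∀ v a b c d, G.Adj v a → G.Adj v b → G.Adj v c → G.Adj v d →
    a = b ∨ a = c ∨ a = d ∨ b = c ∨ b = d ∨ c = d

/-- adjacent or with a common neighbour -/
def Near {V : Type} (G : SimpleGraph V) (a b : V) : Prop :=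
  G.Adj a b ∨ ∃ d, G.Adj a d ∧ G.Adj d b

theorem Near.symm {V : Type} {G : SimpleGraph V} {a b : V} (h : Near G a b) : Near G b a := by
  rcases h with h | ⟨d, h1, h2⟩
  · exact Or.inl h.symm
  · exact Or.inr ⟨d, h2.symm, h1.symm⟩

/-- The combinatorial core: a 2-matching `J`, maximal, and a set of cut edges of `J` that are
pairwise far apart; `R` relates the vertices of each piece. -/
structure CutData {V : Type} (G J : SimpleGraph V) (Cut : V → V → Prop) (R : V → V → Prop) :
    Prop where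
  le : J ≤ G
  deg3 : Deg3 G
  max : ∀ a b, G.Adj a b → ¬ J.Adj a b → (∃ x y, x ≠ y ∧ J.Adj a x ∧ J.Adj a y) ∨
    ∃ x y, x ≠ y ∧ J.Adj b x ∧ J.Adj b y
  cut_symm : ∀ a b, Cut a b → Cut b a
  cut_adj : ∀ a b, Cut a b → J.Adj a b
  cut_other : ∀ a b, Cut a b → ∃ c, c ≠ b ∧ J.Adj a c
  cut_near : ∀ a b a' b', Cut a b → Cut a' b' → Near G a a' → a = a' ∨ Cut a a'
  cut_unique : ∀ a b b', Cut a b → Cut a b' → b = b'
  rel : ∀ a b, J.Adj a b → ¬ Cut a b → R a b

/-- There is no clean sequence of seven vertices. -/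
theorem CutData.no_seven {V : Type} {G J : SimpleGraph V} {Cut R : V → V → Prop}
    (h : CutData G J Cut R) (v : ℕ → V) (hadj : ∀ i < 6, G.Adj (v i) (v (i + 1)))
    (hclean : ∀ i ≤ 6, ∀ j ≤ 6, i ≠ j → v i ≠ v j ∧ ¬ R (v i) (v j)) : False := by
  have hne : ∀ i ≤ 6, ∀ j ≤ 6, i ≠ j → v i ≠ v j := fun i hi j hj hij => (hclean i hi j hj hij).1
  have hnr : ∀ i ≤ 6, ∀ j ≤ 6, i ≠ j → ¬ R (v i) (v j) :=
    fun i hi j hj hij => (hclean i hi j hj hij).2
  -- vertices of the path are not inside pieces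
  have hneR : ∀ i ≤ 6, ∀ j ≤ 6, i ≠ j → ∀ a, J.Adj (v i) a → ¬ Cut (v i) a → a ≠ v j := by
    intro i hi j hj hij a h1 h2 h3
    apply hnr i hi j hj hij
    rw [← h3]
    exact h.rel _ _ h1 h2
  have hDZ : ∀ i, 1 ≤ i → i ≤ 5 → (¬ ∃ x y, x ≠ y ∧ J.Adj (v i) x ∧ J.Adj (v i) y) ∨
      ∃ b, Cut (v i) b := by
    intro i h1 h5
    by_contra hcon
    push Not at hcon
    obtain ⟨⟨x, y, hxy, hx, hy⟩, hnc⟩ := hcon
    have ha := hadj i (by omega)
    have hb := hadj (i - 1) (by omega)
    rw [show i - 1 + 1 = i by omega] at hb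
    have e1 := hneR i (by omega) (i + 1) (by omega) (by omega) x hx (hnc x)
    have e2 := hneR i (by omega) (i - 1) (by omega) (by omega) x hx (hnc x)
    have e3 := hneR i (by omega) (i + 1) (by omega) (by omega) y hy (hnc y)
    have e4 := hneR i (by omega) (i - 1) (by omega) (by omega) y hy (hnc y)
    have e5 := hne (i - 1) (by omega) (i + 1) (by omega) (by omega)
    rcases h.deg3 (v i) x y (v (i - 1)) (v (i + 1)) (h.le hx) (h.le hy) hb.symm ha with
      h6 | h6 | h6 | h6 | h6 | h6
    · exact hxy h6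
    · exact e2 h6
    · exact e1 h6
    · exact e4 h6
    · exact e3 h6
    · exact e5 h6
  have hZnD : ∀ a b, Cut a b → ∃ x y, x ≠ y ∧ J.Adj a x ∧ J.Adj a y := by
    intro a b hab
    obtain ⟨c, hc, hac⟩ := h.cut_other a b hab
    exact ⟨c, b, hc, hac, h.cut_adj a b hab⟩
  have noDD : ∀ i, 1 ≤ i → i + 1 ≤ 5 → (∃ b, Cut (v i) b) ∨ ∃ b, Cut (v (i + 1)) b := by
    intro i h1 h5
    by_contra hcon
    push Not at hcon
    have hD1 := (hDZ i h1 (by omega)).resolve_right (fun ⟨b, hb⟩ => hcon.1 b hb)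
    have hD2 := (hDZ (i + 1) (by omega) h5).resolve_right (fun ⟨b, hb⟩ => hcon.2 b hb)
    have ha := hadj i (by omega)
    by_cases hJ : J.Adj (v i) (v (i + 1))
    · exact hneR i (by omega) (i + 1) (by omega) (by omega) _ hJ (hcon.1 _) rfl
    · rcases h.max _ _ ha hJ with h6 | h6
      · exact hD1 h6
      · exact hD2 h6
  have hpart : ∀ i, 1 ≤ i → i ≤ 5 → ∀ b, Cut (v i) b → b = v (i - 1) ∨ b = v (i + 1) := by
    intro i h1 h5 b hb
    by_contra hcon
    push Not at hcon
    obtain ⟨c, hc, hac⟩ := h.cut_other _ _ hb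
    have hnc : ¬ Cut (v i) c := fun h' => hc (h.cut_unique _ _ _ h' hb)
    have ha := hadj i (by omega)
    have hb' := hadj (i - 1) (by omega)
    rw [show i - 1 + 1 = i by omega] at hb'
    have e1 := hneR i (by omega) (i + 1) (by omega) (by omega) c hac hnc
    have e2 := hneR i (by omega) (i - 1) (by omega) (by omega) c hac hnc
    have e5 := hne (i - 1) (by omega) (i + 1) (by omega) (by omega)
    rcases h.deg3 (v i) c b (v (i - 1)) (v (i + 1)) (h.le hac) (h.le (h.cut_adj _ _ hb))
      hb'.symm ha with h6 | h6 | h6 | h6 | h6 | h6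
    · exact hc h6
    · exact e2 h6
    · exact e1 h6
    · exact hcon.1 h6
    · exact hcon.2 h6
    · exact e5 h6
  -- two cut vertices of the path near each other are partners
  have hnear : ∀ i j, i ≤ 6 → j ≤ 6 → i ≠ j → ∀ b b', Cut (v i) b → Cut (v j) b' →
      Near G (v i) (v j) → Cut (v i) (v j) := by
    intro i j hi hj hij b b' hb hb' hn
    rcases h.cut_near _ _ _ _ hb hb' hn with h1 | h1
    · exact absurd h1 (hne i hi j hj hij)
    · exact h1
  by_cases h3 : ∃ b, Cut (v 3) b
  · obtain ⟨b, hb⟩ := h3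
    rcases hpart 3 (by omega) (by omega) b hb with h4 | h4
    · -- partner is `v 2`
      have h4' : b = v 2 := h4
      rw [h4'] at hb
      have hno4 : ¬ ∃ b, Cut (v 4) b := by
        rintro ⟨b', hb'⟩
        have h5 := hnear 3 4 (by omega) (by omega) (by omega) _ _ hb hb' (Or.inl (hadj 3 (by omega)))
        exact hne 2 (by omega) 4 (by omega) (by omega) (h.cut_unique _ _ _ hb h5)
      obtain ⟨b', hb'⟩ := (noDD 4 (by omega) (by omega)).resolve_left hno4
      have h5 := hnear 3 5 (by omega) (by omega) (by omega) _ _ hb hb'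
        (Or.inr ⟨v 4, hadj 3 (by omega), hadj 4 (by omega)⟩)
      exact hne 2 (by omega) 5 (by omega) (by omega) (h.cut_unique _ _ _ hb h5)
    · have h4' : b = v 4 := h4
      rw [h4'] at hb
      have hno2 : ¬ ∃ b, Cut (v 2) b := by
        rintro ⟨b', hb'⟩
        have h5 := hnear 3 2 (by omega) (by omega) (by omega) _ _ hb hb'
          (Or.inl (hadj 2 (by omega)).symm)
        exact hne 4 (by omega) 2 (by omega) (by omega) (h.cut_unique _ _ _ hb h5)
      obtain ⟨b', hb'⟩ := (noDD 1 (by omega) (by omega)).resolve_right hno2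
      have h5 := hnear 3 1 (by omega) (by omega) (by omega) _ _ hb hb'
        (Or.inr ⟨v 2, (hadj 2 (by omega)).symm, (hadj 1 (by omega)).symm⟩)
      exact hne 4 (by omega) 1 (by omega) (by omega) (h.cut_unique _ _ _ hb h5)
  · obtain ⟨b2, hb2⟩ := (noDD 2 (by omega) (by omega)).resolve_right h3
    obtain ⟨b4, hb4⟩ := (noDD 3 (by omega) (by omega)).resolve_left h3
    have h5 := hnear 2 4 (by omega) (by omega) (by omega) _ _ hb2 hb4
      (Or.inr ⟨v 3, hadj 2 (by omega), hadj 3 (by omega)⟩)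
    rcases hpart 2 (by omega) (by omega) _ h5 with h6 | h6
    · exact hne 4 (by omega) 1 (by omega) (by omega) h6
    · exact hne 4 (by omega) 3 (by omega) (by omega) h6

/-- a subgraph of maximum degree two, maximal under inclusion -/
theorem exists_max_J {V : Type} [Fintype V] (G : SimpleGraph V) :
    ∃ J : SimpleGraph V, J ≤ G ∧ Deg2 J ∧
      ∀ a b, G.Adj a b → ¬ J.Adj a b → (∃ x y, x ≠ y ∧ J.Adj a x ∧ J.Adj a y) ∨
        ∃ x y, x ≠ y ∧ J.Adj b x ∧ J.Adj b y := by
  classical
  have hfin : {J : SimpleGraph V | J ≤ G ∧ Deg2 J}.Finite := Set.toFinite _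
  have hne : {J : SimpleGraph V | J ≤ G ∧ Deg2 J}.Nonempty :=
    ⟨⊥, bot_le, fun v a b c h => by cases h⟩
  obtain ⟨J, hJ⟩ := hfin.exists_maximal hne
  obtain ⟨hJG, hJ2⟩ := hJ.prop
  refine ⟨J, hJG, hJ2, ?_⟩
  intro a b hab hnab
  by_contra hcon
  push Not at hcon
  obtain ⟨ha, hb⟩ := hcon
  have ha' : ∀ x y, J.Adj a x → J.Adj a y → x = y := by
    intro x y hx hy
    by_contra hxy
    exact ha x y hxy hx hy
  have hb' : ∀ x y, J.Adj b x → J.Adj b y → x = y := by
    intro x y hx hy
    by_contra hxy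
    exact hb x y hxy hx hy
  let J' : SimpleGraph V := J ⊔ SimpleGraph.edge a b
  have hadj : ∀ x y, J'.Adj x y ↔ J.Adj x y ∨ ((x = a ∧ y = b) ∨ (x = b ∧ y = a)) := by
    intro x y
    show J.Adj x y ∨ (SimpleGraph.edge a b).Adj x y ↔ _
    rw [SimpleGraph.edge_adj]
    constructor
    · rintro (h | ⟨h, _⟩)
      · exact Or.inl h
      · exact Or.inr h
    · rintro (h | h)
      · exact Or.inl h
      · right
        refine ⟨h, ?_⟩
        rcases h with ⟨rfl, rfl⟩ | ⟨rfl, rfl⟩
        · exact hab.ne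
        · exact hab.ne.symm
  have hJ' : J' ∈ {J : SimpleGraph V | J ≤ G ∧ Deg2 J} := by
    refine ⟨?_, ?_⟩
    · intro x y hxy
      rw [hadj] at hxy
      rcases hxy with h | ⟨rfl, rfl⟩ | ⟨rfl, rfl⟩
      · exact hJG h
      · exact hab
      · exact hab.symm
    · intro v x y z hx hy hz
      rw [hadj] at hx hy hz
      by_cases hva : v = a
      · subst hva
        have hba : ∀ w, (J.Adj v w ∨ ((v = v ∧ w = b) ∨ (v = b ∧ w = v))) → J.Adj v w ∨ w = b := by
          rintro w (h | ⟨_, h⟩ | ⟨h, _⟩)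
          · exact Or.inl h
          · exact Or.inr h
          · exact absurd h hab.ne
        rcases hba x hx with h1 | h1 <;> rcases hba y hy with h2 | h2 <;>
          rcases hba z hz with h3 | h3
        · exact Or.inl (ha' _ _ h1 h2)
        · exact Or.inl (ha' _ _ h1 h2)
        · exact Or.inr (Or.inl (ha' _ _ h1 h3))
        · exact Or.inr (Or.inr (h2.trans h3.symm))
        · exact Or.inr (Or.inr (ha' _ _ h2 h3))
        · exact Or.inr (Or.inl (h1.trans h3.symm))
        · exact Or.inl (h1.trans h2.symm)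
        · exact Or.inl (h1.trans h2.symm)
      · by_cases hvb : v = b
        · subst hvb
          have hba : ∀ w, (J.Adj v w ∨ ((v = a ∧ w = v) ∨ (v = v ∧ w = a))) →
              J.Adj v w ∨ w = a := by
            rintro w (h | ⟨h, _⟩ | ⟨_, h⟩)
            · exact Or.inl h
            · exact absurd h hva
            · exact Or.inr h
          rcases hba x hx with h1 | h1 <;> rcases hba y hy with h2 | h2 <;>
            rcases hba z hz with h3 | h3
          · exact Or.inl (hb' _ _ h1 h2)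
          · exact Or.inl (hb' _ _ h1 h2)
          · exact Or.inr (Or.inl (hb' _ _ h1 h3))
          · exact Or.inr (Or.inr (h2.trans h3.symm))
          · exact Or.inr (Or.inr (hb' _ _ h2 h3))
          · exact Or.inr (Or.inl (h1.trans h3.symm))
          · exact Or.inl (h1.trans h2.symm)
          · exact Or.inl (h1.trans h2.symm)
        · apply hJ2 v x y z
          · tauto
          · tauto
          · tauto
  have h1 := hJ.le_of_ge hJ' le_sup_left
  apply hnab
  exact h1 ((hadj a b).2 (Or.inr (Or.inl ⟨rfl, rfl⟩)))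

end Pool.Agent.R37
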