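import Mathlib
import Pool.Agent.R37.Blocking

set_option autoImplicit false
set_option linter.unusedSectionVars false

/-!
Choosing the cut edges.
-/

namespace Pool.Agent.R37

open Finset

section cut

variable {V : Type} [Fintype V] {G J : SimpleGraph V} {γ : Type} {C : V → γ} {L : γ → ℕ}
  {u : γ → ℕ → V} {pos : V → ℕ}

/-- number of candidates in a window -/
def Q : ℕ := 384

/-- heads of windows -/
def Head (C : V → γ) (L : γ → ℕ) (pos : V → ℕ) (h : V) : Prop :=
  pos h % (2 * Q) = 0 ∧ pos h + 2 * Q + 2 ≤ L (C h)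

/-- the ends of the candidate edge `k` of the window `h` -/
def cx (C : V → γ) (u : γ → ℕ → V) (pos : V → ℕ) (h : V) (k : Fin Q) : V :=
  u (C h) (pos h + 2 * k.1 + 1)

/-- the ends of the candidate edge `k` of the window `h` -/
def cy (C : V → γ) (u : γ → ℕ → V) (pos : V → ℕ) (h : V) (k : Fin Q) : V :=
  u (C h) (pos h + 2 * k.1 + 2)

theorem pos_cx (hl : Listing J γ C L u pos) {h : V} (hh : Head C L pos h) (k : Fin Q) :
    C (cx C u pos h k) = C h ∧ pos (cx C u pos h k) = pos h + 2 * k.1 + 1 := by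
  have := k.2
  exact hl.one _ _ (by have := hh.2; omega)

theorem pos_cy (hl : Listing J γ C L u pos) {h : V} (hh : Head C L pos h) (k : Fin Q) :
    C (cy C u pos h k) = C h ∧ pos (cy C u pos h k) = pos h + 2 * k.1 + 2 := by
  have := k.2
  exact hl.one _ _ (by have := hh.2; omega)

/-- position ends determine the head and the candidate -/
theorem head_unique (hl : Listing J γ C L u pos) {h h' : V} (hh : Head C L pos h)
    (hh' : Head C L pos h') (k k' : Fin Q) {z : V} (hz : C z = C h) (hz' : C z = C h')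
    (h1 : pos h + 2 * k.1 + 1 ≤ pos z) (h2 : pos z ≤ pos h + 2 * k.1 + 2)
    (h1' : pos h' + 2 * k'.1 + 1 ≤ pos z) (h2' : pos z ≤ pos h' + 2 * k'.1 + 2) :
    h = h' ∧ k = k' := by
  have hk : k.1 < 384 := k.2
  have hk' : k'.1 < 384 := k'.2
  have e1 : pos h % 768 = 0 := hh.1
  have e2 : pos h' % 768 = 0 := hh'.1
  have hpos : pos h = pos h' := by omega
  have hhh : h = h' := by
    have a1 := (hl.two h).2
    have a2 := (hl.two h').2
    rw [← a1, ← a2, ← hz, hz', hpos]
  refine ⟨hhh, Fin.ext ?_⟩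
  omega

/-- the ends of a candidate edge -/
def IsEnd (C : V → γ) (u : γ → ℕ → V) (pos : V → ℕ) (a : V × Fin Q) (z : V) : Prop :=
  z = cx C u pos a.1 a.2 ∨ z = cy C u pos a.1 a.2

theorem IsEnd.range (hl : Listing J γ C L u pos) {a : V × Fin Q} (ha : Head C L pos a.1) {z : V}
    (hz : IsEnd C u pos a z) : C z = C a.1 ∧ pos a.1 + 2 * a.2.1 + 1 ≤ pos z ∧
      pos z ≤ pos a.1 + 2 * a.2.1 + 2 := by
  rcases hz with rfl | rfl
  · obtain ⟨h1, h2⟩ := pos_cx hl ha a.2
    exact ⟨h1, by omega, by omega⟩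
  · obtain ⟨h1, h2⟩ := pos_cy hl ha a.2
    exact ⟨h1, by omega, by omega⟩

/-- conflicts between candidates -/
def Cf (G : SimpleGraph V) (C : V → γ) (L : γ → ℕ) (u : γ → ℕ → V) (pos : V → ℕ)
    (a b : V × Fin Q) : Prop :=
  Head C L pos a.1 ∧ Head C L pos b.1 ∧ ∃ z z', IsEnd C u pos a z ∧ IsEnd C u pos b z' ∧ Near G z z'

open Classical in
theorem card_nbr_le (hG : Deg3 G) (z : V) : (univ.filter (fun w => G.Adj z w)).card ≤ 3 := by
  by_contra hc
  push Not at hc
  obtain ⟨S, hS1, hS2⟩ := Finset.exists_subset_card_eq (show 4 ≤ _ from hc)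
  obtain ⟨a, b, c, d, hab, hac, had, hbc, hbd, hcd, rfl⟩ := Finset.card_eq_four.1 hS2
  have hmem : ∀ w, w ∈ ({a, b, c, d} : Finset V) → G.Adj z w := by
    intro w hw
    exact (Finset.mem_filter.1 (hS1 hw)).2
  rcases hG z a b c d (hmem a (by simp)) (hmem b (by simp)) (hmem c (by simp))
    (hmem d (by simp)) with h | h | h | h | h | h
  · exact hab h
  · exact hac h
  · exact had h
  · exact hbc h
  · exact hbd h
  · exact hcd h

open Classical in
theorem card_near_le (hG : Deg3 G) (z : V) : (univ.filter (fun w => Near G z w)).card ≤ 12 := by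
  have hsub : univ.filter (fun w => Near G z w) ⊆ univ.filter (fun w => G.Adj z w) ∪
      (univ.filter (fun w => G.Adj z w)).biUnion (fun d => univ.filter (fun w => G.Adj d w)) := by
    intro w hw
    rw [Finset.mem_filter] at hw
    rw [Finset.mem_union, Finset.mem_biUnion, Finset.mem_filter]
    rcases hw.2 with h | ⟨d, h1, h2⟩
    · exact Or.inl ⟨Finset.mem_univ _, h⟩
    · right
      exact ⟨d, by rw [Finset.mem_filter]; exact ⟨Finset.mem_univ _, h1⟩,
        by rw [Finset.mem_filter]; exact ⟨Finset.mem_univ _, h2⟩⟩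
  have h1 := (Finset.card_le_card hsub).trans (Finset.card_union_le _ _)
  have h2 := card_nbr_le hG z
  have h3 : ((univ.filter (fun w => G.Adj z w)).biUnion
      (fun d => univ.filter (fun w => G.Adj d w))).card ≤
      (univ.filter (fun w => G.Adj z w)).card * 3 :=
    Finset.card_biUnion_le_card_mul _ _ _ (fun d _ => card_nbr_le hG d)
  omega

open Classical in
theorem card_cf_le (hG : Deg3 G) (hl : Listing J γ C L u pos) (a : V × Fin Q) :
    (univ.filter (fun b => Cf G C L u pos a b)).card ≤ 24 := by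
  obtain ⟨Z, hZ⟩ : ∃ Z, Z = univ.filter (fun w => Near G (cx C u pos a.1 a.2) w) ∪
    univ.filter (fun w => Near G (cy C u pos a.1 a.2) w) := ⟨_, rfl⟩
  have hZc : Z.card ≤ 24 := by
    rw [hZ]
    have h1 := card_near_le hG (cx C u pos a.1 a.2)
    have h2 := card_near_le hG (cy C u pos a.1 a.2)
    have h3 := Finset.card_union_le (univ.filter (fun w => Near G (cx C u pos a.1 a.2) w))
      (univ.filter (fun w => Near G (cy C u pos a.1 a.2) w))
    omega
  refine le_trans ?_ hZc
  -- choose an end near `a`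
  have hex : ∀ b, Cf G C L u pos a b → ∃ z', IsEnd C u pos b z' ∧ z' ∈ Z := by
    rintro b ⟨_, _, z, z', hz, hz', hn⟩
    refine ⟨z', hz', ?_⟩
    rw [hZ, Finset.mem_union, Finset.mem_filter, Finset.mem_filter]
    rcases hz with rfl | rfl
    · exact Or.inl ⟨Finset.mem_univ _, hn⟩
    · exact Or.inr ⟨Finset.mem_univ _, hn⟩
  have : Nonempty V := ⟨a.1⟩
  choose! f hf1 hf2 using hex
  apply Finset.card_le_card_of_injOn f
  · intro b hb
    exact hf2 b (Finset.mem_filter.1 hb).2
  · intro b hb b' hb' hbb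
    have h1 := (Finset.mem_filter.1 hb).2
    have h2 := (Finset.mem_filter.1 hb').2
    obtain ⟨e1, e2, e3⟩ := (hf1 b h1).range hl h1.2.1
    obtain ⟨e4, e5, e6⟩ := (hf1 b' h2).range hl h2.2.1
    rw [← hbb] at e4 e5 e6
    obtain ⟨h3, h4⟩ := head_unique hl h1.2.1 h2.2.1 b.2 b'.2 e1 e4 e2 e3 e5 e6
    exact Prod.ext h3 h4

/-- the cut relation for a choice `ω` -/
def CutRel (C : V → γ) (L : γ → ℕ) (u : γ → ℕ → V) (pos : V → ℕ) (ω : V → Fin Q) (a b : V) :
    Prop :=
  ∃ h, Head C L pos h ∧ ((a = cx C u pos h (ω h) ∧ b = cy C u pos h (ω h)) ∨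
    (a = cy C u pos h (ω h) ∧ b = cx C u pos h (ω h)))

variable {ω : V → Fin Q}

theorem CutRel.isEnd {a b : V} (h : CutRel C L u pos ω a b) : ∃ h, Head C L pos h ∧
    IsEnd C u pos (h, ω h) a ∧ IsEnd C u pos (h, ω h) b ∧
    ((a = cx C u pos h (ω h) ∧ b = cy C u pos h (ω h)) ∨
    (a = cy C u pos h (ω h) ∧ b = cx C u pos h (ω h))) := by
  obtain ⟨h, hh, h1 | h1⟩ := h
  · exact ⟨h, hh, Or.inl h1.1, Or.inr h1.2, Or.inl h1⟩
  · exact ⟨h, hh, Or.inr h1.1, Or.inl h1.2, Or.inr h1⟩

theorem cutData (hJG : J ≤ G) (hG : Deg3 G) (hl : Listing J γ C L u pos)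
    (hmax : ∀ a b, G.Adj a b → ¬ J.Adj a b → (∃ x y, x ≠ y ∧ J.Adj a x ∧ J.Adj a y) ∨
        ∃ x y, x ≠ y ∧ J.Adj b x ∧ J.Adj b y)
    (hω : ∀ t t', t ≠ t' → ¬ Cf G C L u pos (t, ω t) (t', ω t')) (R : V → V → Prop)
    (hR : ∀ a b, J.Adj a b → ¬ CutRel C L u pos ω a b → R a b) :
    CutData G J (CutRel C L u pos ω) R := by
  have hxy : ∀ h, Head C L pos h → J.Adj (cx C u pos h (ω h)) (cy C u pos h (ω h)) := by
    intro h hh
    have := (ω h).2
    exact hl.adj _ _ (by have := hh.2; omega)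
  have hne : ∀ h, Head C L pos h → cx C u pos h (ω h) ≠ cy C u pos h (ω h) :=
    fun h hh => (hxy h hh).ne
  have hsame : ∀ h h' z z', Head C L pos h → Head C L pos h' → IsEnd C u pos (h, ω h) z →
      IsEnd C u pos (h', ω h') z' → Near G z z' → h = h' := by
    intro h h' z z' hh hh' hz hz' hn
    by_contra hne
    exact hω h h' hne ⟨hh, hh', z, z', hz, hz', hn⟩
  refine ⟨hJG, hG, hmax, ?_, ?_, ?_, ?_, ?_, hR⟩
  · rintro a b ⟨h, hh, h1 | h1⟩
    · exact ⟨h, hh, Or.inr ⟨h1.2, h1.1⟩⟩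
    · exact ⟨h, hh, Or.inl ⟨h1.2, h1.1⟩⟩
  · rintro a b ⟨h, hh, ⟨rfl, rfl⟩ | ⟨rfl, rfl⟩⟩
    · exact hxy h hh
    · exact (hxy h hh).symm
  · rintro a b ⟨h, hh, ⟨rfl, rfl⟩ | ⟨rfl, rfl⟩⟩
    · have hk := (ω h).2
      refine ⟨u (C h) (pos h + 2 * (ω h).1), ?_, ?_⟩
      · intro h1
        have h2 := (hl.one (C h) (pos h + 2 * (ω h).1) (by have := hh.2; omega)).2
        have h3 := (pos_cy hl hh (ω h)).2
        rw [h1] at h2
        omega
      · exact (hl.adj _ _ (by have := hh.2; omega)).symm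
    · have hk := (ω h).2
      refine ⟨u (C h) (pos h + 2 * (ω h).1 + 3), ?_, ?_⟩
      · intro h1
        have h2 := (hl.one (C h) (pos h + 2 * (ω h).1 + 3) (by
          have := hh.2
          have := hh.1
          omega)).2
        have h3 := (pos_cx hl hh (ω h)).2
        rw [h1] at h2
        omega
      · exact hl.adj _ _ (by have := hh.2; omega)
  · intro a b a' b' hab hab' hn
    obtain ⟨h, hh, ha, hb, hc⟩ := hab.isEnd
    obtain ⟨h', hh', ha', hb', hc'⟩ := hab'.isEnd
    have heq := hsame h h' a a' hh hh' ha ha' hn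
    subst heq
    rcases hc with ⟨rfl, rfl⟩ | ⟨rfl, rfl⟩ <;> rcases hc' with ⟨rfl, rfl⟩ | ⟨rfl, rfl⟩
    · exact Or.inl rfl
    · exact Or.inr ⟨h, hh, Or.inl ⟨rfl, rfl⟩⟩
    · exact Or.inr ⟨h, hh, Or.inr ⟨rfl, rfl⟩⟩
    · exact Or.inl rfl
  · intro a b b' hab hab'
    obtain ⟨h, hh, ha, hb, hc⟩ := hab.isEnd
    obtain ⟨h', hh', ha', hb', hc'⟩ := hab'.isEnd
    have hab2 : G.Adj a b := by
      rcases hc with ⟨rfl, rfl⟩ | ⟨rfl, rfl⟩
      · exact hJG (hxy h hh)
      · exact hJG (hxy h hh).symm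
    have heq := hsame h h' a a hh hh' ha ha' (Or.inr ⟨b, hab2, hab2.symm⟩)
    subst heq
    rcases hc with ⟨h1, h2⟩ | ⟨h1, h2⟩ <;> rcases hc' with ⟨h3, h4⟩ | ⟨h3, h4⟩
    · rw [h2, h4]
    · exact absurd (h1.symm.trans h3) (hne h hh)
    · exact absurd (h3.symm.trans h1) (hne h hh)
    · rw [h2, h4]

/-- the pieces: the graph `J` without the cut edges -/
def pieces (J : SimpleGraph V) (Cut : V → V → Prop) (hs : ∀ a b, Cut a b → Cut b a) :
    SimpleGraph V where
  Adj a b := J.Adj a b ∧ ¬ Cut a b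
  symm := ⟨fun _ _ h => ⟨h.1.symm, fun h' => h.2 (hs _ _ h')⟩⟩
  loopless := ⟨fun _ h => h.1.ne rfl⟩

/-- the pieces are bounded -/
theorem piece_card (hl : Listing J γ C L u pos) (hs : ∀ a b, CutRel C L u pos ω a b →
    CutRel C L u pos ω b a) (v : V) :
    {x | (pieces J (CutRel C L u pos ω) hs).Reachable v x}.ncard ≤ 14 * Q + 6 := by
  classical
  obtain ⟨c, hc⟩ : ∃ c, c = C v := ⟨_, rfl⟩
  obtain ⟨w, hw⟩ : ∃ w, w = 2 * Q := ⟨_, rfl⟩
  have hQ : Q = 384 := rfl
  obtain ⟨Bk, hBk⟩ : ∃ Bk, Bk = pos v / w := ⟨_, rfl⟩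
  -- the position of the cut in the window `j`
  obtain ⟨p, hp⟩ : ∃ p : ℕ → ℕ, p = fun j => j * w + 2 * (ω (u c (j * w))).1 + 1 := ⟨_, rfl⟩
  have hpj : ∀ j, p j = j * w + 2 * (ω (u c (j * w))).1 + 1 := by intro j; rw [hp]
  have hprange : ∀ j, j * w + 1 ≤ p j ∧ p j + 1 ≤ j * w + w := by
    intro j
    have := (ω (u c (j * w))).2
    rw [hpj]
    omega
  have hhead : ∀ j, j * w + w + 2 ≤ L c → Head C L pos (u c (j * w)) ∧
      C (u c (j * w)) = c ∧ pos (u c (j * w)) = j * w := by
    intro j hj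
    obtain ⟨h1, h2⟩ := hl.one c (j * w) (by omega)
    refine ⟨⟨?_, ?_⟩, h1, h2⟩
    · rw [h2, ← hw]; exact Nat.mul_mod_left _ _
    · rw [h1, h2]; omega
  have hcut : ∀ j, j * w + w + 2 ≤ L c → ∀ a b, C a = c → C b = c → pos a = p j →
      pos b = p j + 1 → CutRel C L u pos ω a b := by
    intro j hj a b ha hb hpa hpb
    obtain ⟨h1, h2, h3⟩ := hhead j hj
    refine ⟨_, h1, Or.inl ⟨?_, ?_⟩⟩
    · unfold cx
      rw [h2, h3, ← hpj, ← hpa, ← ha]
      exact (hl.two a).2.symm
    · unfold cy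
      have e : j * w + 2 * (ω (u c (j * w))).1 + 2 = pos b := by rw [hpb, hpj]
      rw [h2, h3, e, ← hb]
      exact (hl.two b).2.symm
  -- the closed set
  let R1 : V → Prop := fun a => (∀ j, j * w + w + 2 ≤ L c → j + 2 ≤ Bk → p j < pos a) ∧
    (∀ j, j * w + w + 2 ≤ L c → Bk + 1 ≤ j → pos a ≤ p j)
  let R2 : V → Prop := fun a => ∀ j, j * w + w + 2 ≤ L c → pos a ≤ p j
  let R3 : V → Prop := fun a => ∀ j, j * w + w + 2 ≤ L c → p j < pos a
  have hstep : ∀ a b, C a = c → C b = c → J.Adj a b → ¬ CutRel C L u pos ω a b →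
      (pos b = pos a + 1 ∨ pos a = pos b + 1) → ∀ j, j * w + w + 2 ≤ L c →
      (p j < pos a ↔ p j < pos b) := by
    intro a b ha hb hab hn hpos j hj
    rcases hpos with h | h
    · constructor
      · intro h'; omega
      · intro h'
        by_contra hlt
        have h1 : pos a = p j := by omega
        exact hn (hcut j hj a b ha hb h1 (by omega))
    · constructor
      · intro h'
        by_contra hlt
        have h1 : pos b = p j := by omega
        exact hn (hs _ _ (hcut j hj b a hb ha h1 (by omega)))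
      · intro h'; omega
  have hclosed : ∀ a b, (pieces J (CutRel C L u pos ω) hs).Adj a b →
      (C a = c ∧ (R1 a ∨ R2 a ∨ R3 a)) → (C b = c ∧ (R1 b ∨ R2 b ∨ R3 b)) := by
    rintro a b ⟨hab, hn⟩ ⟨ha, hR⟩
    obtain ⟨h1, h2⟩ := hl.cases a b hab
    have hb : C b = c := h1.symm.trans ha
    refine ⟨hb, ?_⟩
    have hcons : (pos b = pos a + 1 ∨ pos a = pos b + 1) → (R1 b ∨ R2 b ∨ R3 b) := by
      intro h3
      have h4 := hstep a b ha hb hab hn h3
      rcases hR with ⟨h5, h6⟩ | h5 | h5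
      · left
        refine ⟨fun j hj hjB => (h4 j hj).1 (h5 j hj hjB), fun j hj hjB => ?_⟩
        by_contra hlt
        have := (h4 j hj).2 (by omega)
        have := h6 j hj hjB
        omega
      · right; left
        intro j hj
        by_contra hlt
        have := (h4 j hj).2 (by omega)
        have := h5 j hj
        omega
      · right; right
        exact fun j hj => (h4 j hj).1 (h5 j hj)
    rcases h2 with h3 | h3 | ⟨_, h3⟩ | ⟨h3, _⟩
    · exact hcons (Or.inl h3)
    · exact hcons (Or.inr h3)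
    · right; right
      intro j hj
      have := (hprange j).2
      rw [ha] at h3
      omega
    · right; left
      intro j hj
      omega
  have hv : C v = c ∧ (R1 v ∨ R2 v ∨ R3 v) := by
    refine ⟨hc.symm, Or.inl ⟨fun j hj hjB => ?_, fun j hj hjB => ?_⟩⟩
    · have h1 := (hprange j).2
      have h2 : Bk * w ≤ pos v := by rw [hBk]; exact Nat.div_mul_le_self _ _
      have h3 : (j + 2) * w ≤ Bk * w := Nat.mul_le_mul_right _ hjB
      rw [add_mul] at h3
      omega
    · have h1 := (hprange j).1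
      have hw0 : 0 < w := by omega
      have h2 : pos v < (Bk + 1) * w := by
        rw [hBk]
        have := Nat.div_add_mod (pos v) w
        have h3 := Nat.mod_lt (pos v) hw0
        rw [add_mul, one_mul, mul_comm (pos v / w)]
        omega
      have h3 : (Bk + 1) * w ≤ j * w := Nat.mul_le_mul_right _ hjB
      omega
  have hreach : ∀ x, (pieces J (CutRel C L u pos ω) hs).Reachable v x →
      (C x = c ∧ (R1 x ∨ R2 x ∨ R3 x)) := by
    rintro x ⟨q⟩
    have key : ∀ (a b : V) (q : (pieces J (CutRel C L u pos ω) hs).Walk a b),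
        (C a = c ∧ (R1 a ∨ R2 a ∨ R3 a)) → (C b = c ∧ (R1 b ∨ R2 b ∨ R3 b)) := by
      intro a b q
      induction q with
      | nil => exact id
      | @cons a d b had q ih => exact fun h => ih (hclosed a d had h)
    exact key _ _ q hv
  obtain ⟨Dv, hDv⟩ : ∃ Dv, Dv = (L c - 2) / w := ⟨_, rfl⟩
  obtain ⟨j0, hj0⟩ : ∃ j0, j0 = Dv - 1 := ⟨_, rfl⟩
  have hsub : {x | (pieces J (CutRel C L u pos ω) hs).Reachable v x} ⊆
      (((Finset.Ico ((Bk - 2) * w) ((Bk + 2) * w + 2)) ∪ (Finset.range (w + 2)) ∪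
        (Finset.Ico (j0 * w) (j0 * w + 2 * w + 2))).image (u c) : Finset V) := by
    intro x hx
    obtain ⟨hxc, hxR⟩ := hreach x hx
    have hx2 := hl.two x
    rw [hxc] at hx2
    rw [Finset.mem_coe, Finset.mem_image]
    refine ⟨pos x, ?_, hx2.2⟩
    rw [Finset.mem_union, Finset.mem_union, Finset.mem_Ico, Finset.mem_range, Finset.mem_Ico]
    rcases hxR with ⟨h1, h2⟩ | h1 | h1
    · left; left
      constructor
      · by_cases hB : 2 ≤ Bk
        · have hvL := (hl.two v).1
          rw [← hc] at hvL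
          have h4 : Bk * w ≤ pos v := by rw [hBk]; exact Nat.div_mul_le_self _ _
          have h5 : (Bk - 2) * w + 2 * w = Bk * w := by
            rw [← add_mul]; congr 1; omega
          have h3 := h1 (Bk - 2) (by omega) (by omega)
          have h6 := (hprange (Bk - 2)).1
          omega
        · have : Bk - 2 = 0 := by omega
          rw [this, zero_mul]; omega
      · by_cases hB : (Bk + 1) * w + w + 2 ≤ L c
        · have h3 := h2 (Bk + 1) hB le_rfl
          have h6 := (hprange (Bk + 1)).2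
          have h7 : (Bk + 2) * w = (Bk + 1) * w + w := by ring
          omega
        · have h7 : (Bk + 2) * w = (Bk + 1) * w + w := by ring
          omega
    · left; right
      by_cases hB : w + 2 ≤ L c
      · have h3 := h1 0 (by omega)
        have h6 := (hprange 0).2
        omega
      · omega
    · right
      have hw0 : 0 < w := by omega
      have hdm := Nat.div_add_mod (L c - 2) w
      have hml := Nat.mod_lt (L c - 2) hw0
      rw [← hDv] at hdm
      by_cases hB : 1 ≤ Dv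
      · have h8 : w * Dv = j0 * w + w := by
          have : Dv = j0 + 1 := by omega
          rw [this]; ring
        have h3 := h1 j0 (by omega)
        have h6 := (hprange j0).1
        omega
      · have h8 : Dv = 0 := by omega
        have h9 : j0 = 0 := by omega
        rw [h8] at hdm
        rw [h9, zero_mul]
        omega
  refine (Set.ncard_le_ncard hsub (Set.toFinite _)).trans ?_
  rw [Set.ncard_coe_finset]
  refine Finset.card_image_le.trans ?_
  have h1 := Finset.card_union_le ((Finset.Ico ((Bk - 2) * w) ((Bk + 2) * w + 2)) ∪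
    (Finset.range (w + 2))) (Finset.Ico (j0 * w) (j0 * w + 2 * w + 2))
  have h2 := Finset.card_union_le (Finset.Ico ((Bk - 2) * w) ((Bk + 2) * w + 2))
    (Finset.range (w + 2))
  rw [Nat.card_Ico] at h1 h2
  rw [Finset.card_range] at h2
  have h3 : (Bk + 2) * w ≤ (Bk - 2) * w + 4 * w := by
    rw [← add_mul]
    exact Nat.mul_le_mul_right _ (by omega)
  omega

end cut

end Pool.Agent.R37
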