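import Mathlib

set_option autoImplicit false

/-!
Constructing trees from parent functions.
-/

namespace Pool.Agent.R37

universe u

/-- the graph whose edges join every node to its parent -/
def parGraph {ι : Type u} (p : ι → ι) : SimpleGraph ι := SimpleGraph.fromRel (fun s t => p s = t)

theorem parGraph_adj {ι : Type u} {p : ι → ι} {s t : ι} :
    (parGraph p).Adj s t ↔ s ≠ t ∧ (p s = t ∨ p t = s) := by
  unfold parGraph
  rw [SimpleGraph.fromRel_adj]

/-- A set closed under parents up to a top node is connected. -/
theorem connected_of_top {ι : Type u} {p : ι → ι} {dep : ι → ℕ} {S : Set ι} {τ : ι} (hτ : τ ∈ S)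
    (h : ∀ s ∈ S, s ≠ τ → dep (p s) < dep s ∧ p s ∈ S) : ((parGraph p).induce S).Connected := by
  have key : ∀ n, ∀ s (hs : s ∈ S), dep s = n →
      ((parGraph p).induce S).Reachable ⟨s, hs⟩ ⟨τ, hτ⟩ := by
    intro n
    induction n using Nat.strong_induction_on with
    | _ n ih =>
      intro s hs hn
      by_cases hst : s = τ
      · subst hst
        exact SimpleGraph.Reachable.refl _
      · obtain ⟨h1, h2⟩ := h s hs hst
        have h3 := ih (dep (p s)) (by omega) (p s) h2 rfl
        refine SimpleGraph.Reachable.trans (SimpleGraph.Adj.reachable ?_) h3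
        show (parGraph p).Adj s (p s)
        rw [parGraph_adj]
        refine ⟨?_, Or.inl rfl⟩
        intro h4
        rw [← h4] at h1
        omega
  have : Nonempty S := ⟨⟨τ, hτ⟩⟩
  refine SimpleGraph.Connected.mk ?_
  intro a b
  exact (key _ a.1 a.2 rfl).trans (key _ b.1 b.2 rfl).symm

theorem isTree_parGraph {ι : Type u} [Finite ι] {p : ι → ι} {dep : ι → ℕ} (r : ι)
    (h : ∀ s, s ≠ r → dep (p s) < dep s) (hr : p r = r) : (parGraph p).IsTree := by
  classical
  have := Fintype.ofFinite ι
  have hconn : (parGraph p).Connected := by
    have key : ∀ n, ∀ s, dep s = n → (parGraph p).Reachable s r := by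
      intro n
      induction n using Nat.strong_induction_on with
      | _ n ih =>
        intro s hn
        by_cases hst : s = r
        · subst hst
          exact SimpleGraph.Reachable.refl _
        · have h1 := h s hst
          have h3 := ih (dep (p s)) (by omega) (p s) rfl
          refine SimpleGraph.Reachable.trans (SimpleGraph.Adj.reachable ?_) h3
          rw [parGraph_adj]
          refine ⟨?_, Or.inl rfl⟩
          intro h4
          rw [← h4] at h1
          omega
    have : Nonempty ι := ⟨r⟩
    refine SimpleGraph.Connected.mk ?_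
    intro a b
    exact (key _ a rfl).trans (key _ b rfl).symm
  rw [SimpleGraph.isTree_iff_connected_and_card]
  refine ⟨hconn, ?_⟩
  have h1 := hconn.card_vert_le_card_edgeSet_add_one
  have h2 : (parGraph p).edgeSet ⊆ ((Finset.univ.erase r).image (fun s => s(s, p s)) : Finset (Sym2 ι)) := by
    intro e he
    induction e using Sym2.ind with
    | _ a b =>
      rw [SimpleGraph.mem_edgeSet, parGraph_adj] at he
      rw [Finset.mem_coe, Finset.mem_image]
      rcases he with ⟨hab, h3 | h3⟩
      · refine ⟨a, ?_, ?_⟩
        · rw [Finset.mem_erase]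
          refine ⟨?_, Finset.mem_univ _⟩
          rintro rfl
          exact hab (hr.symm.trans h3)
        · rw [h3]
      · refine ⟨b, ?_, ?_⟩
        · rw [Finset.mem_erase]
          refine ⟨?_, Finset.mem_univ _⟩
          rintro rfl
          exact hab (hr.symm.trans h3).symm
        · rw [h3]; exact Sym2.eq_swap
  have h3 : Nat.card (parGraph p).edgeSet ≤ Fintype.card ι - 1 := by
    have h4 : Nat.card (parGraph p).edgeSet = ((parGraph p).edgeSet).ncard := rfl
    rw [h4]
    refine (Set.ncard_le_ncard h2 (Finset.finite_toSet _)).trans ?_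
    rw [Set.ncard_coe_finset]
    refine Finset.card_image_le.trans ?_
    rw [Finset.card_erase_of_mem (Finset.mem_univ _), Finset.card_univ]
  have h5 : 0 < Fintype.card ι := Fintype.card_pos_iff.mpr ⟨r⟩
  have h6 : Nat.card ι = Fintype.card ι := Nat.card_eq_fintype_card
  omega

end Pool.Agent.R37
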