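import Pool.Agent.R37.Side
import Pool.Agent.R37.TreeMk

/-! Branch decompositions and sim-width. -/

set_option autoImplicit false
set_option linter.unusedSectionVars false

namespace Pool.Agent.R37

/-- A branch decomposition of (a graph with vertex set) `W`: a tree `T` whose internal vertices all
have degree `3`, and a bijection `L` from `W` to the leaves of `T`. -/
structure IsBranchDec {N W : Type} (T : SimpleGraph N) (L : W → N) : Prop where
  tree : T.IsTree
  inj : Function.Injective L
  leaf : ∀ w, (T.neighborSet (L w)).ncard = 1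
  internal : ∀ x, x ∉ Set.range L → (T.neighborSet x).ncard = 3

/-- The side of `a` of the bipartition of `W` induced by the edge `ab` of `T`. -/
def cutSide {N W : Type} (T : SimpleGraph N) (L : W → N) (a b : N) : Set W :=
  {w | (T.deleteEdges {s(a, b)}).Reachable a (L w)}

/-- There is an induced matching of `G` of size `t` whose edges join `A` to its complement: the
edges are `a i`, `b i` with `a i ∈ A` and `b i ∉ A`. -/
def CrossMatching {W : Type} (G : SimpleGraph W) (A : Set W) (t : ℕ) : Prop :=
  ∃ a b : Fin t → W, (∀ i, a i ∈ A) ∧ (∀ i, b i ∉ A) ∧ (∀ i, G.Adj (a i) (b i)) ∧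
    ∀ i j, i ≠ j → a i ≠ a j ∧ b i ≠ b j ∧ ¬ G.Adj (a i) (a j) ∧ ¬ G.Adj (b i) (b j) ∧
      ¬ G.Adj (a i) (b j)

/-- The largest size of an induced matching of `G` all of whose edges join `A` to its
complement. -/
noncomputable def simval {W : Type} (G : SimpleGraph W) (A : Set W) : ℕ :=
  sSup {t | CrossMatching G A t}

open Classical in
/-- The sim-width of `G`. -/
noncomputable def simWidth {W : Type} (G : SimpleGraph W) : ℕ :=
  if Nat.card W ≤ 1 then 0 else
    sInf {k | ∃ (N : Type) (_ : Finite N) (T : SimpleGraph N) (L : W → N), IsBranchDec T L ∧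
      ∀ a b, T.Adj a b → simval G (cutSide T L a b) ≤ k}

namespace BrDec

theorem crossMatching_le {W : Type} [Finite W] {G : SimpleGraph W} {A : Set W} {t : ℕ}
    (h : CrossMatching G A t) : t ≤ Nat.card W := by
  obtain ⟨a, b, h1, h2, h3, h4⟩ := h
  have hinj : Function.Injective a := by
    intro i j hij
    by_contra hne
    exact (h4 i j hne).1 hij
  have := Nat.card_le_card_of_injective a hinj
  simpa using this

theorem bddAbove {W : Type} [Finite W] {G : SimpleGraph W} {A : Set W} :
    BddAbove {t | CrossMatching G A t} := ⟨Nat.card W, fun _ h => crossMatching_le h⟩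

theorem le_simval {W : Type} [Finite W] {G : SimpleGraph W} {A : Set W} {t : ℕ}
    (h : CrossMatching G A t) : t ≤ simval G A := le_csSup bddAbove h

theorem simval_le {W : Type} {G : SimpleGraph W} {A : Set W} {k : ℕ}
    (h : ∀ t, CrossMatching G A t → t ≤ k) : simval G A ≤ k := by
  apply csSup_le
  · exact ⟨0, Fin.elim0, Fin.elim0, fun i => i.elim0, fun i => i.elim0, fun i => i.elim0,
      fun i => i.elim0⟩
  · exact h

section reach

variable {ι : Type} [Fintype ι] {T : SimpleGraph ι} (R : Rooting T)

theorem side_of_reach {s i u : ι} (hsi : T.Adj s i)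
    (h : (T.deleteEdges {s(s, i)}).Reachable i u) : u ∈ side R s i := by
  obtain ⟨p⟩ := h
  have key : ∀ (x y : ι) (q : (T.deleteEdges {s(s, i)}).Walk x y), x ∈ side R s i →
      y ∈ side R s i := by
    intro x y q
    induction q with
    | nil => exact id
    | @cons x z y hxz q ih =>
      intro hx
      apply ih
      by_contra hz
      rw [SimpleGraph.deleteEdges_adj] at hxz
      obtain ⟨h1, h2⟩ := side_crossing R hsi hxz.1 hx hz
      apply hxz.2
      rw [h1, h2]
      exact Sym2.eq_swap
  exact key i u p (mem_side_self R hsi)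

theorem reach_iff (hT : T.Connected) {s i u : ι} (hsi : T.Adj s i) :
    (T.deleteEdges {s(s, i)}).Reachable i u ↔ u ∈ side R s i := by
  constructor
  · exact side_of_reach R hsi
  · intro hu
    have key : ∀ (x y : ι) (q : T.Walk x y),
        ((T.deleteEdges {s(s, i)}).Reachable i x ∨ (T.deleteEdges {s(s, i)}).Reachable s x) →
        ((T.deleteEdges {s(s, i)}).Reachable i y ∨ (T.deleteEdges {s(s, i)}).Reachable s y) := by
      intro x y q
      induction q with
      | nil => exact id
      | @cons x z y hxz q ih =>
        intro hx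
        apply ih
        by_cases he : s(x, z) = s(s, i)
        · rw [Sym2.eq_iff] at he
          rcases he with ⟨-, h2⟩ | ⟨-, h2⟩
          · left; rw [h2]
          · right; rw [h2]
        · have hadj : (T.deleteEdges {s(s, i)}).Adj x z := by
            rw [SimpleGraph.deleteEdges_adj]
            exact ⟨hxz, he⟩
          rcases hx with hx | hx
          · left; exact hx.trans hadj.reachable
          · right; exact hx.trans hadj.reachable
    obtain ⟨p⟩ := hT.preconnected i u
    rcases key i u p (Or.inl (SimpleGraph.Reachable.refl _)) with h | h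
    · exact h
    · exfalso
      have h2 : u ∈ side R i s := side_of_reach R hsi.symm (by rw [Sym2.eq_swap]; exact h)
      exact (mem_side_swap R hsi).1 h2 hu

theorem mem_cutSide {W : Type} {L : W → ι} (hT : T.Connected) {a b : ι} (hab : T.Adj a b) {w : W} :
    w ∈ cutSide T L a b ↔ L w ∈ side R b a := by
  have h := reach_iff R hT (u := L w) hab.symm
  rw [← h]
  unfold cutSide
  rw [Set.mem_ofPred_eq, show s(a, b) = s(b, a) from Sym2.eq_swap]

include R in
/-- a sink of the orientation of the edges towards their large sides -/
theorem exists_sink {Small : ι → ι → Prop} (h : ∀ s i, T.Adj s i → Small s i ∨ Small i s)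
    (hne : ∃ s i, T.Adj s i) : ∃ s, ∀ i, T.Adj s i → Small s i := by
  classical
  let D : Finset (ι × ι) := Finset.univ.filter (fun e => T.Adj e.1 e.2 ∧ Small e.1 e.2)
  have hD : D.Nonempty := by
    obtain ⟨s, i, hsi⟩ := hne
    rcases h s i hsi with h1 | h1
    · exact ⟨(s, i), by simp [D, hsi, h1]⟩
    · exact ⟨(i, s), by simp [D, hsi.symm, h1]⟩
  obtain ⟨⟨s, i⟩, hsi, hmax⟩ := Finset.exists_max_image D (fun e => (side R e.1 e.2).ncard) hD
  simp only [D, Finset.mem_filter, Finset.mem_univ, true_and] at hsi hmax
  refine ⟨s, fun j hj => ?_⟩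
  by_contra hcon
  have hj' : Small j s := (h s j hj).resolve_left hcon
  have h1 := hmax (j, s) ⟨hj.symm, hj'⟩
  have hji : j ≠ i := by rintro rfl; exact hcon hsi.2
  have h2 : side R s i ⊂ side R j s := by
    rw [Set.ssubset_iff_of_subset]
    · exact ⟨s, mem_side_self R hj.symm, notMem_side_self R hsi.1⟩
    · intro u hu
      rw [mem_side_swap R hj]
      exact side_disjoint R hsi.1 hj (Ne.symm hji) hu
  have h3 := Set.ncard_lt_ncard h2 (Set.toFinite _)
  simp only at h1
  omega

end reach

/-! ### Construction -/

/-- nodes below `x` -/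
def Below {N : Type} (p : N → N) (x y : N) : Prop := ∃ k : ℕ, p^[k] y = x

/-- a partial branch decomposition all of whose cuts have a monochromatic side -/
structure PDec {W : Type} [DecidableEq W] (X : Finset W) (col : W → Fin 3) (N : Type)
    (p : N → N) (dep : N → ℕ) (r : N) (L : W → N) : Prop where
  hdep : ∀ s, s ≠ r → dep (p s) + 1 = dep s
  hdr : dep r = 0
  hr : p r = r
  inj : ∀ w ∈ X, ∀ w' ∈ X, L w = L w' → w = w'
  leaf : ∀ w ∈ X, ((parGraph p).neighborSet (L w)).ncard = 1
  internal : ∀ x, (∀ w ∈ X, L w ≠ x) → ((parGraph p).neighborSet x).ncard = 3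
  cut : ∀ x, x ≠ r → ∃ c, (∀ w ∈ X, Below p x (L w) → col w = c) ∨
    (∀ w ∈ X, ¬ Below p x (L w) → col w = c)

section step

variable {N : Type} (p : N → N) (ℓ : N)

/-- new parent function -/
def newPar : N ⊕ Bool → N ⊕ Bool
  | Sum.inl y => Sum.inl (p y)
  | Sum.inr _ => Sum.inl ℓ

theorem newPar_iter_inl (k : ℕ) (y : N) : (newPar p ℓ)^[k] (Sum.inl y) = Sum.inl (p^[k] y) := by
  induction k generalizing y with
  | zero => rfl
  | succ k ih =>
    rw [Function.iterate_succ_apply, Function.iterate_succ_apply]
    exact ih (p y)

theorem below_inl_inl {x y : N} : Below (newPar p ℓ) (Sum.inl x) (Sum.inl y) ↔ Below p x y := by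
  unfold Below
  constructor
  · rintro ⟨k, hk⟩
    rw [newPar_iter_inl] at hk
    exact ⟨k, Sum.inl.inj hk⟩
  · rintro ⟨k, hk⟩
    exact ⟨k, by rw [newPar_iter_inl, hk]⟩

theorem below_inl_inr {x : N} {b : Bool} :
    Below (newPar p ℓ) (Sum.inl x) (Sum.inr b) ↔ Below p x ℓ := by
  unfold Below
  constructor
  · rintro ⟨k, hk⟩
    cases k with
    | zero => exact absurd hk (by simp)
    | succ k =>
      rw [Function.iterate_succ_apply] at hk
      change (newPar p ℓ)^[k] (Sum.inl ℓ) = _ at hk
      rw [newPar_iter_inl] at hk
      exact ⟨k, Sum.inl.inj hk⟩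
  · rintro ⟨k, hk⟩
    refine ⟨k + 1, ?_⟩
    rw [Function.iterate_succ_apply]
    change (newPar p ℓ)^[k] (Sum.inl ℓ) = _
    rw [newPar_iter_inl, hk]

theorem below_inr {b : Bool} {z : N ⊕ Bool} (h : Below (newPar p ℓ) (Sum.inr b) z) :
    z = Sum.inr b := by
  obtain ⟨k, hk⟩ := h
  cases k with
  | zero => exact hk
  | succ k =>
    exfalso
    rw [Function.iterate_succ_apply] at hk
    rcases z with y | b'
    · change (newPar p ℓ)^[k] (Sum.inl (p y)) = _ at hk
      rw [newPar_iter_inl] at hk
      exact absurd hk (by simp)
    · change (newPar p ℓ)^[k] (Sum.inl ℓ) = _ at hk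
      rw [newPar_iter_inl] at hk
      exact absurd hk (by simp)

theorem adj_inl_inl {x y : N} :
    (parGraph (newPar p ℓ)).Adj (Sum.inl x) (Sum.inl y) ↔ (parGraph p).Adj x y := by
  rw [parGraph_adj, parGraph_adj]
  simp [newPar]

theorem adj_inl_inr {x : N} {b : Bool} :
    (parGraph (newPar p ℓ)).Adj (Sum.inl x) (Sum.inr b) ↔ x = ℓ := by
  rw [parGraph_adj]
  simp only [newPar, ne_eq, reduceCtorEq, not_false_eq_true, false_or, true_and, Sum.inl.injEq]
  exact eq_comm

theorem not_adj_inr_inr {b b' : Bool} :
    ¬ (parGraph (newPar p ℓ)).Adj (Sum.inr b) (Sum.inr b') := by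
  rw [parGraph_adj]
  simp [newPar]

theorem nbr_inl_ne {x : N} (hx : x ≠ ℓ) : ((parGraph (newPar p ℓ)).neighborSet (Sum.inl x)).ncard =
    ((parGraph p).neighborSet x).ncard := by
  have h : (parGraph (newPar p ℓ)).neighborSet (Sum.inl x) =
      Sum.inl '' ((parGraph p).neighborSet x) := by
    ext z
    rw [SimpleGraph.mem_neighborSet]
    rcases z with y | b
    · rw [adj_inl_inl]; simp
    · rw [adj_inl_inr]; simp [hx]
  rw [h, Set.ncard_image_of_injective _ Sum.inl_injective]

theorem nbr_inl_eq [Finite N] (h1 : ((parGraph p).neighborSet ℓ).ncard = 1) :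
    ((parGraph (newPar p ℓ)).neighborSet (Sum.inl ℓ)).ncard = 3 := by
  have h : (parGraph (newPar p ℓ)).neighborSet (Sum.inl ℓ) =
      Sum.inl '' ((parGraph p).neighborSet ℓ) ∪ {Sum.inr false, Sum.inr true} := by
    ext z
    rw [SimpleGraph.mem_neighborSet]
    rcases z with y | b
    · rw [adj_inl_inl]; simp
    · rw [adj_inl_inr]; cases b <;> simp
  rw [h, Set.ncard_union_eq, Set.ncard_image_of_injective _ Sum.inl_injective, h1,
    Set.ncard_pair (by simp)]
  rw [Set.disjoint_left]
  rintro z ⟨y, -, rfl⟩ hz
  simp at hz

theorem nbr_inr (b : Bool) : ((parGraph (newPar p ℓ)).neighborSet (Sum.inr b)).ncard = 1 := by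
  have h : (parGraph (newPar p ℓ)).neighborSet (Sum.inr b) = {Sum.inl ℓ} := by
    ext z
    rw [SimpleGraph.mem_neighborSet]
    rcases z with y | b'
    · rw [SimpleGraph.adj_comm, adj_inl_inr]; simp
    · simp [not_adj_inr_inr]
  rw [h, Set.ncard_singleton]

end step

theorem PDec.step {W : Type} [DecidableEq W] {X : Finset W} {col : W → Fin 3} {N : Type}
    [Finite N] {p : N → N} {dep : N → ℕ} {r : N} {L : W → N} (h : PDec X col N p dep r L)
    {a x : W} (ha : a ∈ X) (hx : x ∉ X) (hc : col a = col x ∨ ∃ b, X = {a, b}) :
    PDec (insert x X) col (N ⊕ Bool) (newPar p (L a))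
      (Sum.elim dep (fun _ => dep (L a) + 1)) (Sum.inl r)
      (fun w => if w = a then Sum.inr false else if w = x then Sum.inr true else Sum.inl (L w)) := by
  have hax : a ≠ x := by rintro rfl; exact hx ha
  set L' : W → N ⊕ Bool :=
    fun w => if w = a then Sum.inr false else if w = x then Sum.inr true else Sum.inl (L w)
    with hL'
  have l1 : L' a = Sum.inr false := by simp [L']
  have l2 : L' x = Sum.inr true := by simp [L', hax.symm]
  have l3 : ∀ w, w ≠ a → w ≠ x → L' w = Sum.inl (L w) := by
    intro w hw hw'
    simp [L', hw, hw']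
  have hX : ∀ w ∈ X, w ≠ x := fun w hw e => hx (e ▸ hw)
  refine ⟨?_, h.hdr, ?_, ?_, ?_, ?_, ?_⟩
  · rintro (s | b) hs
    · have : s ≠ r := fun e => hs (by rw [e])
      exact h.hdep s this
    · rfl
  · change Sum.inl (p r) = _
    rw [h.hr]
  · intro w hw w' hw' he
    rw [Finset.mem_insert] at hw hw'
    by_cases hwa : w = a
    · by_cases hwa' : w' = a
      · rw [hwa, hwa']
      · exfalso
        rw [hwa, l1] at he
        rcases hw' with rfl | hw'
        · rw [l2] at he; simp at he
        · rw [l3 _ hwa' (hX _ hw')] at he; simp at he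
    · by_cases hwa' : w' = a
      · exfalso
        rw [hwa', l1] at he
        rcases hw with rfl | hw
        · rw [l2] at he; simp at he
        · rw [l3 _ hwa (hX _ hw)] at he; simp at he
      · rcases hw with rfl | hw <;> rcases hw' with rfl | hw'
        · rfl
        · exfalso; rw [l2, l3 _ hwa' (hX _ hw')] at he; simp at he
        · exfalso; rw [l2, l3 _ hwa (hX _ hw)] at he; simp at he
        · rw [l3 _ hwa (hX _ hw), l3 _ hwa' (hX _ hw')] at he
          exact h.inj w hw w' hw' (Sum.inl.inj he)
  · intro w hw
    rw [Finset.mem_insert] at hw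
    by_cases hwa : w = a
    · rw [hwa, l1]; exact nbr_inr p (L a) false
    · rcases hw with rfl | hw
      · rw [l2]; exact nbr_inr p (L a) true
      · rw [l3 _ hwa (hX _ hw), nbr_inl_ne p (L a) (fun e => hwa (h.inj w hw a ha e))]
        exact h.leaf w hw
  · rintro (y | b) hy
    · by_cases hyl : y = L a
      · rw [hyl]; exact nbr_inl_eq p (L a) (h.leaf a ha)
      · rw [nbr_inl_ne p (L a) hyl]
        apply h.internal
        intro w hw e
        have hwa : w ≠ a := fun e' => hyl (by rw [← e, e'])
        exact hy w (Finset.mem_insert_of_mem hw) (by rw [l3 _ hwa (hX _ hw), e])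
    · exfalso
      cases b
      · exact hy a (Finset.mem_insert_of_mem ha) l1
      · exact hy x (Finset.mem_insert_self _ _) l2
  · rintro (y | b) hy
    · have hyr : y ≠ r := fun e => hy (by rw [e])
      have b1 : ∀ w, w ∈ insert x X → (Below (newPar p (L a)) (Sum.inl y) (L' w) ↔
          (if w = x then Below p y (L a) else Below p y (L w))) := by
        intro w hw
        by_cases hwx : w = x
        · rw [if_pos hwx, hwx, l2, below_inl_inr]
        · rw [if_neg hwx]
          by_cases hwa : w = a
          · rw [hwa, l1, below_inl_inr]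
          · rw [l3 w hwa hwx, below_inl_inl]
      rcases hc with hc | ⟨b, hb⟩
      · obtain ⟨c, hcut | hcut⟩ := h.cut y hyr
        · refine ⟨c, Or.inl ?_⟩
          intro w hw hbel
          rw [b1 w hw] at hbel
          by_cases hwx : w = x
          · rw [if_pos hwx] at hbel
            rw [hwx, ← hc]
            exact hcut a ha hbel
          · rw [if_neg hwx] at hbel
            exact hcut w (by simpa [hwx] using hw) hbel
        · refine ⟨c, Or.inr ?_⟩
          intro w hw hbel
          rw [b1 w hw] at hbel
          by_cases hwx : w = x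
          · rw [if_pos hwx] at hbel
            rw [hwx, ← hc]
            exact hcut a ha hbel
          · rw [if_neg hwx] at hbel
            exact hcut w (by simpa [hwx] using hw) hbel
      · refine ⟨col b, ?_⟩
        by_cases hla : Below p y (L a)
        · right
          intro w hw hbel
          rw [b1 w hw] at hbel
          by_cases hwx : w = x
          · rw [if_pos hwx] at hbel; exact absurd hla hbel
          · rw [if_neg hwx] at hbel
            have hwX : w ∈ X := by simpa [hwx] using hw
            rw [hb] at hwX
            simp only [Finset.mem_insert, Finset.mem_singleton] at hwX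
            rcases hwX with rfl | rfl
            · exact absurd hla hbel
            · rfl
        · left
          intro w hw hbel
          rw [b1 w hw] at hbel
          by_cases hwx : w = x
          · rw [if_pos hwx] at hbel; exact absurd hbel hla
          · rw [if_neg hwx] at hbel
            have hwX : w ∈ X := by simpa [hwx] using hw
            rw [hb] at hwX
            simp only [Finset.mem_insert, Finset.mem_singleton] at hwX
            rcases hwX with rfl | rfl
            · exact absurd hbel hla
            · rfl
    · cases b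
      · refine ⟨col a, Or.inl ?_⟩
        intro w hw hbel
        have h1 := below_inr p (L a) hbel
        rw [Finset.mem_insert] at hw
        by_cases hwa : w = a
        · rw [hwa]
        · exfalso
          rcases hw with rfl | hw
          · rw [l2] at h1; simp at h1
          · rw [l3 _ hwa (hX _ hw)] at h1; simp at h1
      · refine ⟨col x, Or.inl ?_⟩
        intro w hw hbel
        have h1 := below_inr p (L a) hbel
        rw [Finset.mem_insert] at hw
        rcases hw with rfl | hw
        · rfl
        · exfalso
          by_cases hwa : w = a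
          · rw [hwa, l1] at h1; simp at h1
          · rw [l3 _ hwa (hX _ hw)] at h1; simp at h1

theorem PDec.base {W : Type} [DecidableEq W] {col : W → Fin 3} {a b : W} (hab : a ≠ b) :
    PDec {a, b} col Bool (fun _ => false) (fun t => if t then 1 else 0) false
      (fun w => if w = a then false else true) := by
  have hN : ∀ t : Bool, ((parGraph (fun _ : Bool => false)).neighborSet t).ncard = 1 := by
    intro t
    have : (parGraph (fun _ : Bool => false)).neighborSet t = {!t} := by
      ext z
      rw [SimpleGraph.mem_neighborSet, parGraph_adj]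
      cases t <;> cases z <;> simp
    rw [this, Set.ncard_singleton]
  refine ⟨?_, by simp, rfl, ?_, ?_, ?_, ?_⟩
  · intro s hs
    cases s
    · exact absurd rfl hs
    · simp
  · intro w hw w' hw' he
    simp only [Finset.mem_insert, Finset.mem_singleton] at hw hw'
    rcases hw with rfl | rfl <;> rcases hw' with rfl | rfl
    · rfl
    · simp [hab.symm] at he
    · simp [hab.symm] at he
    · rfl
  · intro w _
    exact hN _
  · intro x hx
    exfalso
    cases x
    · exact hx a (by simp) (by simp)
    · exact hx b (by simp) (by simp [hab.symm])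
  · intro x hx
    cases x
    · exact absurd rfl hx
    · refine ⟨col b, Or.inl ?_⟩
      intro w hw hbel
      simp only [Finset.mem_insert, Finset.mem_singleton] at hw
      rcases hw with rfl | rfl
      · exfalso
        obtain ⟨k, hk⟩ := hbel
        simp only [if_true] at hk
        cases k with
        | zero => exact absurd hk (by simp)
        | succ k =>
          rw [Function.iterate_succ_apply'] at hk
          exact absurd hk (by simp)
      · rfl

theorem exists_pdec {W : Type} [DecidableEq W] (col : W → Fin 3) (n : ℕ) :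
    ∀ X : Finset W, X.card = n + 2 → ∃ (N : Type) (_ : Fintype N) (p : N → N) (dep : N → ℕ)
      (r : N) (L : W → N), PDec X col N p dep r L := by
  induction n with
  | zero =>
    intro X hX
    obtain ⟨a, b, hab, rfl⟩ := Finset.card_eq_two.1 hX
    exact ⟨Bool, inferInstance, _, _, _, _, PDec.base hab⟩
  | succ n ih =>
    intro X hX
    by_cases hn : n = 0
    · subst hn
      obtain ⟨x, hx⟩ : X.Nonempty := by rw [← Finset.card_pos]; omega
      have h1 : (X.erase x).card = 2 := by rw [Finset.card_erase_of_mem hx, hX]
      obtain ⟨N, hN, p, dep, r, L, h⟩ := ih (X.erase x) h1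
      obtain ⟨a, b, hab, h2⟩ := Finset.card_eq_two.1 h1
      have h3 := h.step (a := a) (x := x) (by rw [h2]; simp) (Finset.notMem_erase _ _)
        (Or.inr ⟨b, h2⟩)
      rw [Finset.insert_erase hx] at h3
      exact ⟨_, inferInstance, _, _, _, _, h3⟩
    · have hpig : ∃ a ∈ X, ∃ x ∈ X, a ≠ x ∧ col a = col x := by
        apply Finset.exists_ne_map_eq_of_card_lt_of_maps_to (t := Finset.univ)
        · rw [Finset.card_univ, Fintype.card_fin]; omega
        · intro w _; exact Finset.mem_univ _
      obtain ⟨a, ha, x, hx, hax, hcol⟩ := hpig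
      have h1 : (X.erase x).card = n + 2 := by rw [Finset.card_erase_of_mem hx, hX]; omega
      obtain ⟨N, hN, p, dep, r, L, h⟩ := ih (X.erase x) h1
      have h3 := h.step (a := a) (x := x) (Finset.mem_erase.2 ⟨hax, ha⟩) (Finset.notMem_erase _ _)
        (Or.inl hcol)
      rw [Finset.insert_erase hx] at h3
      exact ⟨_, inferInstance, _, _, _, _, h3⟩

/-- Every colouring of `W` with three colours has a branch decomposition all of whose cuts have a
monochromatic side. -/
theorem exists_branchDec {W : Type} [Fintype W] (col : W → Fin 3) (hW : 2 ≤ Fintype.card W) :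
    ∃ (N : Type) (_ : Finite N) (T : SimpleGraph N) (L : W → N), IsBranchDec T L ∧
      ∀ a b, T.Adj a b → ∃ c, (∀ w ∈ cutSide T L a b, col w = c) ∨
        (∀ w, w ∉ cutSide T L a b → col w = c) := by
  classical
  obtain ⟨n, hn⟩ : ∃ n, Fintype.card W = n + 2 := ⟨Fintype.card W - 2, by omega⟩
  obtain ⟨N, hN, p, dep, r, L, h⟩ := exists_pdec col n Finset.univ (by rw [Finset.card_univ, hn])
  have hlt : ∀ s, s ≠ r → dep (p s) < dep s := fun s hs => by have := h.hdep s hs; omega
  have htree : (parGraph p).IsTree := isTree_parGraph r hlt h.hr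
  let R : Rooting (parGraph p) :=
    { root := r
      par := p
      dep := dep
      dep_root := h.hdr
      par_root := h.hr
      eq_root := by
        intro t ht
        by_contra hne
        have := h.hdep t hne
        omega
      adj_par := by
        intro t ht
        rw [parGraph_adj]
        refine ⟨?_, Or.inl rfl⟩
        intro e
        have := hlt t ht
        rw [← e] at this
        omega
      dep_par := h.hdep
      adj := by
        intro s t hst
        rw [parGraph_adj] at hst
        rcases hst with ⟨hne, h1 | h1⟩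
        · left
          refine ⟨?_, h1⟩
          rintro rfl
          exact hne (h.hr.symm.trans h1)
        · right
          refine ⟨?_, h1⟩
          rintro rfl
          exact hne (h1.symm.trans h.hr) }
  refine ⟨N, inferInstance, parGraph p, L, ⟨htree, ?_, ?_, ?_⟩, ?_⟩
  · intro w w' he
    exact h.inj w (Finset.mem_univ _) w' (Finset.mem_univ _) he
  · intro w
    exact h.leaf w (Finset.mem_univ _)
  · intro x hx
    apply h.internal
    intro w _ e
    exact hx ⟨w, e⟩
  · intro a b hab
    rcases R.adj a b hab with h1 | h1
    · obtain ⟨c, hc⟩ := h.cut a h1.1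
      refine ⟨c, ?_⟩
      have hiff : ∀ w, w ∈ cutSide (parGraph p) L a b ↔ Below p a (L w) := by
        intro w
        rw [mem_cutSide R htree.connected hab, side_child R h1, mem_below]
        rfl
      rcases hc with hc | hc
      · left; intro w hw; exact hc w (Finset.mem_univ _) ((hiff w).1 hw)
      · right; intro w hw; exact hc w (Finset.mem_univ _) (fun h' => hw ((hiff w).2 h'))
    · obtain ⟨c, hc⟩ := h.cut b h1.1
      refine ⟨c, ?_⟩
      have hiff : ∀ w, w ∈ cutSide (parGraph p) L a b ↔ ¬ Below p b (L w) := by
        intro w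
        rw [mem_cutSide R htree.connected hab, side_parent R h1, mem_below]
        rfl
      rcases hc with hc | hc
      · right
        intro w hw
        refine hc w (Finset.mem_univ _) ?_
        by_contra hcon
        exact hw ((hiff w).2 hcon)
      · left; intro w hw; exact hc w (Finset.mem_univ _) ((hiff w).1 hw)

end BrDec

end Pool.Agent.R37
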