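import Mathlib

set_option autoImplicit false

/-!
Rooted trees, subtrees (connected node sets) and the Helly property.
-/

namespace Pool.Agent.R37

universe u

/-- A rooting of a tree: root, parent function and depth. -/
structure Rooting {ι : Type u} (T : SimpleGraph ι) where
  root : ι
  par : ι → ι
  dep : ι → ℕ
  dep_root : dep root = 0
  par_root : par root = root
  eq_root : ∀ t, dep t = 0 → t = root
  adj_par : ∀ t, t ≠ root → T.Adj t (par t)
  dep_par : ∀ t, t ≠ root → dep (par t) + 1 = dep t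
  adj : ∀ s t, T.Adj s t → (s ≠ root ∧ par s = t) ∨ (t ≠ root ∧ par t = s)

theorem exists_rooting {ι : Type u} {T : SimpleGraph ι} (hT : T.IsTree) (r : ι) :
    ∃ R : Rooting T, R.root = r := by
  classical
  have key : ∀ t, t ≠ r → ∃ s, T.Adj t s ∧ T.dist r s + 1 = T.dist r t := by
    intro t ht
    obtain ⟨p, hp⟩ := hT.connected.exists_walk_length_eq_dist t r
    cases p with
    | nil => exact absurd rfl ht
    | @cons _ s _ h q =>
      refine ⟨s, h, ?_⟩
      rw [SimpleGraph.Walk.length_cons] at hp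
      have h1 := T.dist_le q
      have h2 := hT.dist_eq_dist_add_one_of_adj r h
      rw [T.dist_comm (u := r) (v := s), T.dist_comm (u := r) (v := t)] at *
      omega
  have uniq : ∀ t s s', T.Adj t s → T.Adj t s' → T.dist r s + 1 = T.dist r t →
      T.dist r s' + 1 = T.dist r t → s = s' := by
    intro t s s' h h' hd hd'
    obtain ⟨p, hp1, hp2⟩ := hT.connected.exists_path_of_dist s r
    obtain ⟨p', hp1', hp2'⟩ := hT.connected.exists_path_of_dist s' r
    have h3 : (SimpleGraph.Walk.cons h p).IsPath := by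
      apply SimpleGraph.Walk.isPath_of_length_eq_dist
      rw [SimpleGraph.Walk.length_cons, hp2, T.dist_comm, T.dist_comm (u := t)]
      exact hd
    have h3' : (SimpleGraph.Walk.cons h' p').IsPath := by
      apply SimpleGraph.Walk.isPath_of_length_eq_dist
      rw [SimpleGraph.Walk.length_cons, hp2', T.dist_comm, T.dist_comm (u := t)]
      exact hd'
    have h4 := (hT.existsUnique_path t r).unique h3 h3'
    have h5 := congrArg SimpleGraph.Walk.snd h4
    simpa using h5
  choose! par hpar using key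
  refine ⟨{ root := r, par := fun t => if t = r then r else par t, dep := fun t => T.dist r t, dep_root := ?_, par_root := ?_, eq_root := ?_, adj_par := ?_, dep_par := ?_, adj := ?_ }, rfl⟩
  · simp
  · simp
  · intro t h
    exact ((hT.connected.dist_eq_zero_iff).mp h).symm
  · intro t ht
    simp only [if_neg ht]
    exact (hpar t ht).1
  · intro t ht
    simp only [if_neg ht]
    exact (hpar t ht).2
  · intro s t hst
    rcases hT.dist_eq_dist_add_one_of_adj r hst with h | h
    · left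
      have hs : s ≠ r := by
        rintro rfl
        rw [SimpleGraph.dist_self] at h
        omega
      refine ⟨hs, ?_⟩
      simp only [if_neg hs]
      exact uniq s _ _ (hpar s hs).1 hst (hpar s hs).2 h.symm
    · right
      have ht : t ≠ r := by
        rintro rfl
        rw [SimpleGraph.dist_self] at h
        omega
      refine ⟨ht, ?_⟩
      simp only [if_neg ht]
      exact uniq t _ _ (hpar t ht).1 hst.symm (hpar t ht).2 h.symm

namespace Rooting

variable {ι : Type u} {T : SimpleGraph ι} (R : Rooting T)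

theorem dep_pos {t : ι} (h : t ≠ R.root) : 0 < R.dep t := by
  by_contra hc
  exact h (R.eq_root t (by omega))

theorem ne_root_of_dep {t : ι} (h : 0 < R.dep t) : t ≠ R.root := by
  rintro rfl
  rw [R.dep_root] at h
  omega

/-- `τ` is the top node of the subtree `S`. -/
def IsTop (S : Set ι) (τ : ι) : Prop :=
  τ ∈ S ∧ ∀ s ∈ S, s ≠ τ → s ≠ R.root ∧ R.par s ∈ S

/-- `S` is a (nonempty) subtree. -/
def Sub (S : Set ι) : Prop := ∃ τ, R.IsTop S τ

variable {R}

theorem IsTop.dep_le {S : Set ι} {τ : ι} (h : R.IsTop S τ) : ∀ s ∈ S, R.dep τ ≤ R.dep s := by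
  intro s
  induction hn : R.dep s using Nat.strong_induction_on generalizing s with
  | _ n ih =>
    intro hs
    by_cases hst : s = τ
    · rw [← hn, hst]
    · obtain ⟨h1, h2⟩ := h.2 s hs hst
      have h3 := R.dep_par s h1
      have h4 := ih (R.dep (R.par s)) (by omega) (R.par s) rfl h2
      omega

theorem IsTop.dep_lt {S : Set ι} {τ : ι} (h : R.IsTop S τ) {s : ι} (hs : s ∈ S) (hne : s ≠ τ) :
    R.dep τ < R.dep s := by
  obtain ⟨h1, h2⟩ := h.2 s hs hne
  have h3 := R.dep_par s h1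
  have h4 := h.dep_le _ h2
  omega

theorem IsTop.unique {S : Set ι} {τ τ' : ι} (h : R.IsTop S τ) (h' : R.IsTop S τ') : τ = τ' := by
  by_contra hne
  have h1 := h.dep_lt h'.1 (Ne.symm hne)
  have h2 := h'.dep_lt h.1 hne
  omega

/-- iterating the parent function inside a subtree -/
theorem IsTop.iter_mem {S : Set ι} {τ : ι} (h : R.IsTop S τ) {x : ι} (hx : x ∈ S) :
    ∀ k, R.dep τ + k ≤ R.dep x → R.par^[k] x ∈ S ∧ R.dep (R.par^[k] x) + k = R.dep x := by
  intro k
  induction k with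
  | zero => intro _; exact ⟨hx, by simp⟩
  | succ k ih =>
    intro hk
    obtain ⟨h1, h2⟩ := ih (by omega)
    rw [Function.iterate_succ_apply']
    have h3 : R.par^[k] x ≠ τ := by
      intro h4
      rw [h4] at h2
      omega
    obtain ⟨h4, h5⟩ := h.2 _ h1 h3
    refine ⟨h5, ?_⟩
    have := R.dep_par _ h4
    omega

theorem IsTop.iter_eq {S : Set ι} {τ : ι} (h : R.IsTop S τ) {x : ι} (hx : x ∈ S) :
    R.par^[R.dep x - R.dep τ] x = τ := by
  have h1 := h.dep_le x hx
  obtain ⟨h2, h3⟩ := h.iter_mem hx (R.dep x - R.dep τ) (by omega)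
  by_contra hne
  have := h.dep_lt h2 hne
  omega

/-- two intersecting subtrees: the lower top lies in the other one -/
theorem IsTop.mem_of_inter {S S' : Set ι} {τ τ' : ι} (h : R.IsTop S τ) (h' : R.IsTop S' τ')
    {x : ι} (hx : x ∈ S) (hx' : x ∈ S') (hd : R.dep τ ≤ R.dep τ') : τ' ∈ S := by
  rw [← h'.iter_eq hx']
  have h1 := h'.dep_le x hx'
  exact (h.iter_mem hx _ (by omega)).1

theorem Sub.union {S S' : Set ι} (h : R.Sub S) (h' : R.Sub S') (hne : (S ∩ S').Nonempty) :
    R.Sub (S ∪ S') := by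
  obtain ⟨x, hx, hx'⟩ := hne
  obtain ⟨τ, hτ⟩ := h
  obtain ⟨τ', hτ'⟩ := h'
  wlog hd : R.dep τ ≤ R.dep τ' generalizing S S' τ τ'
  · rw [Set.union_comm]
    exact this hx' hx τ' hτ' τ hτ (by omega)
  have hmem := hτ.mem_of_inter hτ' hx hx' hd
  refine ⟨τ, Or.inl hτ.1, ?_⟩
  rintro s (hs | hs) hne
  · exact ⟨(hτ.2 s hs hne).1, Or.inl (hτ.2 s hs hne).2⟩
  · by_cases hst : s = τ'
    · subst hst
      exact ⟨(hτ.2 s hmem hne).1, Or.inl (hτ.2 s hmem hne).2⟩
    · exact ⟨(hτ'.2 s hs hst).1, Or.inr (hτ'.2 s hs hst).2⟩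

theorem Sub.inter {S S' : Set ι} (h : R.Sub S) (h' : R.Sub S') (hne : (S ∩ S').Nonempty) :
    R.Sub (S ∩ S') := by
  obtain ⟨x, hx, hx'⟩ := hne
  obtain ⟨τ, hτ⟩ := h
  obtain ⟨τ', hτ'⟩ := h'
  wlog hd : R.dep τ ≤ R.dep τ' generalizing S S' τ τ'
  · rw [Set.inter_comm]
    exact this hx' hx τ' hτ' τ hτ (by omega)
  have hmem := hτ.mem_of_inter hτ' hx hx' hd
  refine ⟨τ', ⟨hmem, hτ'.1⟩, ?_⟩
  rintro s ⟨hs, hs'⟩ hne
  have h1 := hτ'.dep_lt hs' hne
  have h2 : s ≠ τ := by
    rintro rfl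
    omega
  exact ⟨(hτ'.2 s hs' hne).1, (hτ.2 s hs h2).2, (hτ'.2 s hs' hne).2⟩

/-- Helly property of subtrees, for a finite family. -/
theorem helly {κ : Type*} (F : Finset κ) (hF : F.Nonempty) (S : κ → Set ι)
    (hS : ∀ i ∈ F, R.Sub (S i)) (hp : ∀ i ∈ F, ∀ j ∈ F, (S i ∩ S j).Nonempty) :
    ∃ t, ∀ i ∈ F, t ∈ S i := by
  classical
  have : Nonempty ι := ⟨R.root⟩
  choose! τ hτ using hS
  obtain ⟨i, hi, hmax⟩ := F.exists_max_image (fun i => R.dep (τ i)) hF
  refine ⟨τ i, fun j hj => ?_⟩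
  obtain ⟨x, hx1, hx2⟩ := hp i hi j hj
  exact (hτ j hj).mem_of_inter (hτ i hi) hx2 hx1 (hmax j hj)

/-- Connected node sets are subtrees. -/
theorem sub_of_connected {S : Set ι} (hS : (T.induce S).Connected) : R.Sub S := by
  classical
  obtain ⟨⟨s0, hs0⟩⟩ := hS.nonempty
  obtain ⟨τ, hτ, hmin⟩ : ∃ τ ∈ S, ∀ s ∈ S, R.dep τ ≤ R.dep s := by
    obtain ⟨n, hn⟩ : ∃ n, n = sInf (R.dep '' S) := ⟨_, rfl⟩
    have h1 : (R.dep '' S).Nonempty := ⟨_, s0, hs0, rfl⟩
    obtain ⟨τ, hτ, hd⟩ := Nat.sInf_mem h1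
    exact ⟨τ, hτ, fun s hs => hd ▸ Nat.sInf_le ⟨s, hs, rfl⟩⟩
  refine ⟨τ, hτ, fun s hs hne => ?_⟩
  have hsr : s ≠ R.root := by
    rintro rfl
    have h1 := hmin _ hs
    rw [R.dep_root] at h1
    exact hne (R.eq_root τ (by omega)).symm
  refine ⟨hsr, ?_⟩
  by_contra hpar
  -- the set of nodes below `s` is closed under steps inside `S`
  let D : Set ι := {t | ∃ k, R.par^[k] t = s ∧ R.dep t = R.dep s + k}
  have hstep : ∀ a b, a ∈ S → b ∈ S → T.Adj a b → a ∈ D → b ∈ D := by
    rintro a b ha hb hab ⟨k, hk, hk'⟩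
    rcases R.adj a b hab with ⟨h1, h2⟩ | ⟨h1, h2⟩
    · cases k with
      | zero =>
        exfalso
        apply hpar
        have : a = s := hk
        rw [← this, h2]
        exact hb
      | succ k =>
        refine ⟨k, ?_, ?_⟩
        · rw [Function.iterate_succ_apply, h2] at hk
          exact hk
        · have := R.dep_par a h1
          rw [h2] at this
          omega
    · refine ⟨k + 1, ?_, ?_⟩
      · rw [Function.iterate_succ_apply, h2, hk]
      · have := R.dep_par b h1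
        rw [h2] at this
        omega
  obtain ⟨p⟩ := hS.preconnected ⟨s, hs⟩ ⟨τ, hτ⟩
  have hall : ∀ (a b : S) (q : (T.induce S).Walk a b), (a : ι) ∈ D → (b : ι) ∈ D := by
    intro a b q
    induction q with
    | nil => exact id
    | @cons u v w h q ih =>
      intro hu
      exact ih (hstep u v u.2 v.2 h hu)
  have h1 : τ ∈ D := hall _ _ p ⟨0, rfl, rfl⟩
  obtain ⟨k, hk, hk'⟩ := h1
  have h2 := hmin s hs
  have h3 : k = 0 := by omega
  subst h3
  exact hne hk.symm

end Rooting

/-- Helly property for connected node sets of a tree, for a finite family. -/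
theorem helly_of_isTree {ι : Type u} {T : SimpleGraph ι} (hT : T.IsTree) {κ : Type*}
    (F : Finset κ) (hF : F.Nonempty) (S : κ → Set ι)
    (hS : ∀ i ∈ F, (T.induce (S i)).Connected) (hp : ∀ i ∈ F, ∀ j ∈ F, (S i ∩ S j).Nonempty) :
    ∃ t, ∀ i ∈ F, t ∈ S i := by
  obtain ⟨r⟩ := hT.connected.nonempty
  obtain ⟨R, -⟩ := exists_rooting hT r
  exact Rooting.helly (R := R) F hF S (fun i hi => Rooting.sub_of_connected (hS i hi)) hp

end Pool.Agent.R37
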