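import Mathlib
import Pool.Agent.R37.Tree
import Pool.Agent.R37.TreeMk

set_option autoImplicit false

/-!
Tree decompositions of graphs (node set `Fin n`) and first facts about them.
-/

namespace Pool.Agent.R37

/-- `(T, X)` is a tree decomposition of `G`: `T` is a tree, every vertex and every edge of `G`
lies in some bag `X t`, and for each vertex `v` the nodes `t` with `v ∈ X t` induce a connected
subgraph of `T`. -/
structure IsTreeDecomposition {V : Type} (G : SimpleGraph V) {n : ℕ} (T : SimpleGraph (Fin n))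
    (X : Fin n → Finset V) : Prop where
  isTree : T.IsTree
  vertex_mem : ∀ v : V, ∃ t, v ∈ X t
  edge_mem : ∀ u v : V, G.Adj u v → ∃ t, u ∈ X t ∧ v ∈ X t
  connected : ∀ v : V, (T.induce {t : Fin n | v ∈ X t}).Connected

/-- `G[B]` has independence number at most `k`. -/
def AlphaLE {V : Type} (G : SimpleGraph V) (B : Finset V) (k : ℕ) : Prop :=
  ∀ S : Finset V, S ⊆ B → G.IsIndepSet (S : Set V) → S.card ≤ k

/-- The tree-independence number of `G`: the least `k` such that `G` has a tree decomposition
in which every bag `B` satisfies `α(G[B]) ≤ k`. -/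
noncomputable def treeAlpha {V : Type} (G : SimpleGraph V) : ℕ :=
  sInf {k : ℕ | ∃ (n : ℕ) (T : SimpleGraph (Fin n)) (X : Fin n → Finset V),
    IsTreeDecomposition G T X ∧ ∀ t, AlphaLE G (X t) k}

/-- the decomposition with a single bag -/
theorem isTreeDecomposition_single {V : Type} [Fintype V] (G : SimpleGraph V) :
    IsTreeDecomposition G (⊥ : SimpleGraph (Fin 1)) (fun _ => (Finset.univ : Finset V)) where
  isTree := SimpleGraph.IsTree.of_subsingleton
  vertex_mem v := ⟨0, Finset.mem_univ _⟩
  edge_mem u v _ := ⟨0, Finset.mem_univ _, Finset.mem_univ _⟩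
  connected v := by
    have : Nonempty {t : Fin 1 | v ∈ (Finset.univ : Finset V)} := ⟨⟨0, Finset.mem_univ _⟩⟩
    refine SimpleGraph.Connected.mk ?_
    intro a b
    have : a = b := Subtype.ext (Subsingleton.elim _ _)
    rw [this]

theorem treeAlpha_le {V : Type} [Fintype V] {G : SimpleGraph V} {k n : ℕ} {T : SimpleGraph (Fin n)}
    {X : Fin n → Finset V} (h : IsTreeDecomposition G T X) (hk : ∀ t, AlphaLE G (X t) k) :
    treeAlpha G ≤ k := Nat.sInf_le ⟨n, T, X, h, hk⟩

theorem exists_treeAlpha {V : Type} [Fintype V] (G : SimpleGraph V) :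
    ∃ (n : ℕ) (T : SimpleGraph (Fin n)) (X : Fin n → Finset V),
    IsTreeDecomposition G T X ∧ ∀ t, AlphaLE G (X t) (treeAlpha G) := by
  have h : {k : ℕ | ∃ (n : ℕ) (T : SimpleGraph (Fin n)) (X : Fin n → Finset V),
      IsTreeDecomposition G T X ∧ ∀ t, AlphaLE G (X t) k}.Nonempty :=
    ⟨Fintype.card V, 1, ⊥, _, isTreeDecomposition_single G, fun t S _ _ => Finset.card_le_univ S⟩
  exact Nat.sInf_mem h

/-- Every tree decomposition of a nonempty graph has a bag which contains a vertex together with
all its neighbours. -/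
theorem exists_simplicial_bag {V : Type} [Fintype V] [Nonempty V] {G : SimpleGraph V} {n : ℕ}
    {T : SimpleGraph (Fin n)} {X : Fin n → Finset V} (h : IsTreeDecomposition G T X) :
    ∃ (v : V) (t : Fin n), v ∈ X t ∧ ∀ w, G.Adj v w → w ∈ X t := by
  classical
  obtain ⟨r⟩ := h.isTree.connected.nonempty
  obtain ⟨R, -⟩ := exists_rooting h.isTree r
  have hs : ∀ v, R.Sub {t : Fin n | v ∈ X t} := fun v => Rooting.sub_of_connected (h.connected v)
  have : Nonempty (Fin n) := ⟨r⟩
  choose top htop using hs
  obtain ⟨v, -, hv⟩ := Finset.exists_max_image (Finset.univ : Finset V) (fun v => R.dep (top v))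
    Finset.univ_nonempty
  refine ⟨v, top v, (htop v).1, fun w hw => ?_⟩
  obtain ⟨t, ht1, ht2⟩ := h.edge_mem v w hw
  exact (htop w).mem_of_inter (htop v) ht2 ht1 (hv w (Finset.mem_univ _))

end Pool.Agent.R37
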