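import Mathlib
import Pool.Agent.R37.TD

set_option autoImplicit false

/-!
Building tree decompositions from a parent function on natural numbers.
-/

namespace Pool.Agent.R37

open Finset

/-- Data for a tree decomposition with nodes `0, …, m - 1`, the parent of `i > 0` being
`p i < i`; every vertex `v` has a top node from which its other nodes hang. -/
structure ParTD {V : Type} (G : SimpleGraph V) (m : ℕ) (p : ℕ → ℕ) (B : ℕ → Finset V) : Prop where
  pos : 0 < m
  lt : ∀ i, 0 < i → i < m → p i < i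
  edge : ∀ u v, G.Adj u v → ∃ i < m, u ∈ B i ∧ v ∈ B i
  top : ∀ v, ∃ τ < m, v ∈ B τ ∧ ∀ i < m, v ∈ B i → i ≠ τ → 0 < i ∧ v ∈ B (p i)

theorem ParTD.exists_td {V : Type} {G : SimpleGraph V} {m : ℕ} {p : ℕ → ℕ} {B : ℕ → Finset V}
    (h : ParTD G m p B) : ∃ T : SimpleGraph (Fin m),
      IsTreeDecomposition G T (fun i : Fin m => B i) := by
  classical
  let q : Fin m → Fin m := fun i => if hi : 0 < i.1 then ⟨p i.1, (h.lt i.1 hi i.2).trans i.2⟩ else i
  have hq : ∀ i : Fin m, 0 < i.1 → (q i).1 = p i.1 := by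
    intro i hi
    simp only [q, dif_pos hi]
  refine ⟨parGraph q, ?_, ?_, ?_, ?_⟩
  · apply isTree_parGraph (dep := fun i : Fin m => i.1) (⟨0, h.pos⟩ : Fin m)
    · intro s hs
      have hs0 : 0 < s.1 := by
        rcases Nat.eq_zero_or_pos s.1 with h0 | h0
        · exact absurd (Fin.ext h0) hs
        · exact h0
      show (q s).1 < s.1
      rw [hq s hs0]
      exact h.lt s.1 hs0 s.2
    · simp only [q]
      rw [dif_neg]
      simp
  · intro v
    obtain ⟨τ, hτ, hv, _⟩ := h.top v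
    exact ⟨⟨τ, hτ⟩, hv⟩
  · intro u v huv
    obtain ⟨i, hi, h1, h2⟩ := h.edge u v huv
    exact ⟨⟨i, hi⟩, h1, h2⟩
  · intro v
    obtain ⟨τ, hτ, hv, htop⟩ := h.top v
    apply connected_of_top (dep := fun i : Fin m => i.1) (τ := (⟨τ, hτ⟩ : Fin m)) hv
    intro s hs hne
    have h1 := htop s.1 s.2 hs (fun h' => hne (Fin.ext h'))
    refine ⟨?_, ?_⟩
    · show (q s).1 < s.1
      rw [hq s h1.1]
      exact h.lt s.1 h1.1 s.2
    · show v ∈ B (q s).1
      rw [hq s h1.1]
      exact h1.2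

end Pool.Agent.R37
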