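import Mathlib
import Pool.Agent.R37.TDMk

set_option autoImplicit false
set_option linter.unusedSectionVars false

/-!
Tree decompositions of linear width and average spread close to one.
-/

namespace Pool.Agent.R37

open Finset

/-- partial tree decomposition data on the vertex set `U` (without the edge condition). -/
structure PTD {V : Type} (U : Finset V) (m : ℕ) (p : ℕ → ℕ) (B : ℕ → Finset V) : Prop where
  pos : 0 < m
  lt : ∀ i, 0 < i → i < m → p i < i
  sub : ∀ i < m, B i ⊆ U
  top : ∀ v ∈ U, ∃ τ < m, v ∈ B τ ∧ ∀ i < m, v ∈ B i → i ≠ τ → 0 < i ∧ v ∈ B (p i)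

theorem PTD.single {V : Type} (U : Finset V) : PTD U 1 id (fun _ => U) where
  pos := Nat.one_pos
  lt i h1 h2 := by omega
  sub i _ := Finset.Subset.refl _
  top v hv := ⟨0, by omega, hv, fun i h1 h2 h3 => by omega⟩

theorem PTD.add {V : Type} [DecidableEq V] {U U' N : Finset V} {m : ℕ} {p : ℕ → ℕ}
    {B : ℕ → Finset V} (h : PTD U' m p B) {x : ℕ} (hx : x < m)
    (hN : ∀ v ∈ N, v ∈ U' → v ∈ B x) (hU : U = U' ∪ N) :
    PTD U (m + 1) (Function.update p m x) (Function.update B m N) := by
  have hp : ∀ i, i < m → Function.update p m x i = p i := fun i hi =>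
    Function.update_of_ne (by omega) _ _
  have hB : ∀ i, i < m → Function.update B m N i = B i := fun i hi =>
    Function.update_of_ne (by omega) _ _
  have hpm : Function.update p m x m = x := Function.update_self _ _ _
  have hBm : Function.update B m N m = N := Function.update_self _ _ _
  refine ⟨by omega, ?_, ?_, ?_⟩
  · intro i h1 h2
    rcases Nat.lt_succ_iff_lt_or_eq.1 h2 with h3 | h3
    · rw [hp i h3]; exact h.lt i h1 h3
    · rw [h3, hpm]; exact hx
  · intro i h2
    rcases Nat.lt_succ_iff_lt_or_eq.1 h2 with h3 | h3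
    · rw [hB i h3, hU]; exact (h.sub i h3).trans Finset.subset_union_left
    · rw [h3, hBm, hU]; exact Finset.subset_union_right
  · intro v hv
    by_cases hvU : v ∈ U'
    · obtain ⟨τ, hτ, hvτ, htop⟩ := h.top v hvU
      refine ⟨τ, by omega, by rw [hB τ hτ]; exact hvτ, ?_⟩
      intro i hi hvi hne
      rcases Nat.lt_succ_iff_lt_or_eq.1 hi with h3 | h3
      · rw [hB i h3] at hvi
        obtain ⟨h4, h5⟩ := htop i h3 hvi hne
        refine ⟨h4, ?_⟩
        have h6 := h.lt i h4 h3
        rw [hp i h3, hB _ (by omega)]
        exact h5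
      · rw [h3, hBm] at hvi
        rw [h3, hpm, hB x hx]
        exact ⟨h.pos, hN v hvi hvU⟩
    · have hvN : v ∈ N := by
        rw [hU, Finset.mem_union] at hv
        tauto
      refine ⟨m, by omega, by rw [hBm]; exact hvN, ?_⟩
      intro i hi hvi hne
      rcases Nat.lt_succ_iff_lt_or_eq.1 hi with h3 | h3
      · rw [hB i h3] at hvi
        exact absurd (h.sub i h3 hvi) hvU
      · exact absurd h3 hne

section region

variable {ι : Type} [Fintype ι] {T : SimpleGraph ι} (R : Rooting T)

/-- the region `D` is closed downwards and hangs at the node `t`. -/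
def Good (t : ι) (D : Finset ι) : Prop :=
  (∀ s, s ≠ R.root → R.par s ∈ D → s ∈ D) ∧
    ∀ s ∈ D, s = t ∨ (s ≠ R.root ∧ (R.par s ∈ D ∨ R.par s = t))

open Classical in
/-- the set of all nodes below `t`. -/
noncomputable def below (t : ι) : Finset ι := univ.filter (fun x => ∃ j, R.par^[j] x = t)

theorem mem_below {t x : ι} : x ∈ below R t ↔ ∃ j, R.par^[j] x = t := by
  simp [below]

theorem self_mem_below (t : ι) : t ∈ below R t := (mem_below R).2 ⟨0, rfl⟩

theorem below_step {t x : ι} (h : R.par x ∈ below R t) : x ∈ below R t := by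
  rw [mem_below] at h ⊢
  obtain ⟨j, hj⟩ := h
  exact ⟨j + 1, by rw [Function.iterate_succ_apply]; exact hj⟩

theorem below_par {t x : ι} (h : x ∈ below R t) (hx : x ≠ t) :
    x ≠ R.root ∧ R.par x ∈ below R t := by
  rw [mem_below] at h ⊢
  obtain ⟨j, hj⟩ := h
  cases j with
  | zero => exact absurd hj hx
  | succ j =>
    rw [Function.iterate_succ_apply] at hj
    refine ⟨?_, j, hj⟩
    rintro rfl
    rw [R.par_root] at hj
    have : ∀ k, R.par^[k] R.root = R.root := by
      intro k
      induction k with
      | zero => rfl
      | succ k ih => rw [Function.iterate_succ_apply, R.par_root]; exact ih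
    rw [this] at hj
    exact hx hj

theorem good_below (t : ι) : Good R t (below R t) := by
  refine ⟨fun s _ hs => below_step R hs, fun s hs => ?_⟩
  by_cases h : s = t
  · exact Or.inl h
  · right
    obtain ⟨h1, h2⟩ := below_par R hs h
    exact ⟨h1, Or.inl h2⟩

theorem dep_par_le (x : ι) : R.dep (R.par x) ≤ R.dep x := by
  by_cases h : x = R.root
  · rw [h, R.par_root]
  · have := R.dep_par x h; omega

theorem below_dep {t x : ι} (h : x ∈ below R t) : R.dep t ≤ R.dep x := by
  rw [mem_below] at h
  obtain ⟨j, rfl⟩ := h
  induction j generalizing x with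
  | zero => exact le_rfl
  | succ j ih =>
    rw [Function.iterate_succ_apply]
    exact ih.trans (dep_par_le R x)

theorem good_erase [DecidableEq ι] (t : ι) : Good R t ((below R t).erase t) := by
  refine ⟨fun s hs hs' => ?_, fun s hs => ?_⟩
  · rw [Finset.mem_erase] at hs' ⊢
    refine ⟨?_, below_step R hs'.2⟩
    rintro rfl
    have h1 := below_dep R hs'.2
    have h2 := R.dep_par s hs
    omega
  · rw [Finset.mem_erase] at hs
    right
    obtain ⟨h1, h2⟩ := below_par R hs.2 hs.1
    refine ⟨h1, ?_⟩
    by_cases h3 : R.par s = t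
    · exact Or.inr h3
    · exact Or.inl (Finset.mem_erase.2 ⟨h3, h2⟩)

theorem good_univ : Good R R.root univ := by
  refine ⟨fun s _ _ => Finset.mem_univ _, fun s _ => ?_⟩
  by_cases h : s = R.root
  · exact Or.inl h
  · exact Or.inr ⟨h, Or.inl (Finset.mem_univ _)⟩

/-- Given a weight of the nodes with total at least `K ≥ 1` there is a region of weight at least
`K` hanging at `t` whose weight outside `t` is less than `2K`. -/
theorem exists_region [DecidableEq ι] (w : ι → ℕ) (K : ℕ) (hK : 1 ≤ K) (hw : K ≤ ∑ s, w s) :
    ∃ t D, Good R t D ∧ K ≤ ∑ s ∈ D, w s ∧ ∑ s ∈ D.erase t, w s < 2 * K := by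
  have := Classical.decPred (fun D : Finset ι => (∃ t, Good R t D) ∧ K ≤ ∑ s ∈ D, w s)
  obtain ⟨D, hD, hmin⟩ := Finset.exists_min_image
    ((univ : Finset (Finset ι)).filter (fun D => (∃ t, Good R t D) ∧ K ≤ ∑ s ∈ D, w s))
    (fun D => D.card) ⟨univ, by
      rw [Finset.mem_filter]
      exact ⟨Finset.mem_univ _, ⟨R.root, good_univ R⟩, hw⟩⟩
  rw [Finset.mem_filter] at hD
  obtain ⟨-, ⟨t, ht⟩, hKD⟩ := hD
  have hsmall : ∀ t' D', Good R t' D' → D'.card < D.card → ∑ s ∈ D', w s < K := by
    intro t' D' h1 h2
    by_contra hc
    push Not at hc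
    have := hmin D' (by rw [Finset.mem_filter]; exact ⟨Finset.mem_univ _, ⟨t', h1⟩, hc⟩)
    omega
  have hne : D.Nonempty := by
    rw [Finset.nonempty_iff_ne_empty]
    rintro rfl
    rw [Finset.sum_empty] at hKD
    omega
  obtain ⟨s, hs, hsmin⟩ := Finset.exists_min_image D R.dep hne
  have hsubD : below R s ⊆ D := by
    intro x hx
    rw [mem_below] at hx
    obtain ⟨j, hj⟩ := hx
    induction j generalizing x with
    | zero => rw [show x = s from hj]; exact hs
    | succ j ih =>
      rw [Function.iterate_succ_apply] at hj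
      have h1 := ih hj
      by_cases hx : x = R.root
      · rw [hx, R.par_root] at h1
        rw [hx]; exact h1
      · exact ht.1 x hx h1
  have hspar : s ≠ R.root → R.par s ∉ D := by
    intro h1 h2
    have h3 := hsmin _ h2
    have h4 := R.dep_par s h1
    omega
  by_cases hE : below R s = D
  · refine ⟨s, D, hE ▸ good_below R s, hKD, ?_⟩
    have h1 := hsmall s _ (good_erase R s) (by
      rw [hE]
      exact Finset.card_erase_lt_of_mem hs)
    rw [← hE]
    omega
  · have h1 : ∑ x ∈ below R s, w x < K := hsmall s _ (good_below R s)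
      (Finset.card_lt_card (Finset.ssubset_iff_subset_ne.2 ⟨hsubD, hE⟩))
    have h2 : Good R t (D \ below R s) := by
      refine ⟨fun x hx hx' => ?_, fun x hx => ?_⟩
      · rw [Finset.mem_sdiff] at hx' ⊢
        refine ⟨ht.1 x hx hx'.1, fun h3 => ?_⟩
        by_cases hxs : x = s
        · rw [hxs] at hx' hx
          exact hspar hx hx'.1
        · exact hx'.2 (below_par R h3 hxs).2
      · rw [Finset.mem_sdiff] at hx
        rcases ht.2 x hx.1 with h3 | ⟨h3, h4⟩
        · exact Or.inl h3
        · refine Or.inr ⟨h3, ?_⟩
          rcases h4 with h4 | h4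
          · left
            rw [Finset.mem_sdiff]
            exact ⟨h4, fun h5 => hx.2 (below_step R h5)⟩
          · exact Or.inr h4
    have h3 : ∑ x ∈ D \ below R s, w x < K := hsmall t _ h2 (by
      apply Finset.card_lt_card
      refine Finset.ssubset_iff_subset_ne.2 ⟨Finset.sdiff_subset, fun h => ?_⟩
      have : s ∈ D \ below R s := by rw [h]; exact hs
      rw [Finset.mem_sdiff] at this
      exact this.2 (self_mem_below R s))
    refine ⟨t, D, ht, hKD, ?_⟩
    have h4 : ∑ x ∈ D \ below R s, w x + ∑ x ∈ below R s, w x = ∑ x ∈ D, w x :=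
      Finset.sum_sdiff hsubD
    have h5 : ∑ x ∈ D.erase t, w x ≤ ∑ x ∈ D, w x :=
      Finset.sum_le_sum_of_subset (Finset.erase_subset _ _)
    omega

/-- A subtree that meets the region and whose top is outside the region passes through `t`. -/
theorem Good.mem_of_top {t : ι} {D : Finset ι} (h : Good R t D) {S : Set ι} {τ : ι}
    (hτ : R.IsTop S τ) (hτD : τ ∉ D) {s : ι} (hs : s ∈ S) (hsD : s ∈ D) : t ∈ S := by
  induction hn : R.dep s using Nat.strong_induction_on generalizing s with
  | _ n ih =>
    rcases h.2 s hsD with h1 | ⟨h1, h2⟩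
    · rw [← h1]; exact hs
    · have hne : s ≠ τ := by rintro rfl; exact hτD hsD
      have h3 := (hτ.2 s hs hne).2
      have h4 := R.dep_par s h1
      rcases h2 with h2 | h2
      · exact ih (R.dep (R.par s)) (by omega) h3 h2 rfl
      · rw [← h2]; exact h3

/-- A subtree whose top is in the region is contained in the region. -/
theorem Good.sub_of_top {t : ι} {D : Finset ι} (h : Good R t D) {S : Set ι} {τ : ι}
    (hτ : R.IsTop S τ) (hτD : τ ∈ D) {s : ι} (hs : s ∈ S) : s ∈ D := by
  induction hn : R.dep s using Nat.strong_induction_on generalizing s with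
  | _ n ih =>
    by_cases hne : s = τ
    · rw [hne]; exact hτD
    · obtain ⟨h1, h2⟩ := hτ.2 s hs hne
      have h4 := R.dep_par s h1
      exact h.1 s h1 (ih (R.dep (R.par s)) (by omega) h2 rfl)

end region

/-- The main construction. -/
theorem exists_ptd {V : Type} [Fintype V] [DecidableEq V] {n : ℕ} {T : SimpleGraph (Fin n)}
    (R : Rooting T) (X : Fin n → Finset V) (top : V → Fin n)
    (htop : ∀ v, R.IsTop {t | v ∈ X t} (top v)) (k C : ℕ) (hk : 1 ≤ k) (hC : 1 ≤ C)
    (hX : ∀ t, (X t).card ≤ k) (U : Finset V) :
    ∃ m p B, PTD U m p B ∧ (∀ t, ∃ x < m, X t ∩ U ⊆ B x) ∧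
      (∀ i < m, (B i).card ≤ (2 * C + 1) * k) ∧
      C * ∑ i ∈ Finset.range m, (B i).card ≤ (C + 1) * U.card := by
  classical
  induction hN : U.card using Nat.strong_induction_on generalizing U with
  | _ N ih =>
    have hCk : 1 ≤ C * k := Nat.one_le_iff_ne_zero.2 (by positivity)
    by_cases hU : U.card < C * k
    · refine ⟨1, id, fun _ => U, PTD.single U, fun t => ⟨0, by omega, Finset.inter_subset_right⟩,
        fun i _ => ?_, ?_⟩
      · calc U.card ≤ C * k := hU.le
          _ ≤ (2 * C + 1) * k := Nat.mul_le_mul_right _ (by omega)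
      · rw [← hN]
        simp only [Finset.range_one, Finset.sum_singleton]
        exact Nat.mul_le_mul_right _ (by omega)
    · push Not at hU
      have hsum : ∀ D : Finset (Fin n), ∑ s ∈ D, (U.filter (fun v => top v = s)).card =
          (U.filter (fun v => top v ∈ D)).card := by
        intro D
        rw [Finset.card_eq_sum_card_fiberwise (s := U.filter (fun v => top v ∈ D)) (f := top)
          (t := D) (fun v hv => (Finset.mem_filter.1 hv).2)]
        apply Finset.sum_congr rfl
        intro s hs
        congr 1
        ext v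
        simp only [Finset.mem_filter]
        constructor
        · rintro ⟨h1, h2⟩; exact ⟨⟨h1, h2 ▸ hs⟩, h2⟩
        · rintro ⟨⟨h1, _⟩, h2⟩; exact ⟨h1, h2⟩
      obtain ⟨t, D, hgood, hD1, hD2⟩ := exists_region R
        (fun s => (U.filter (fun v => top v = s)).card) (C * k) hCk (by
          rw [hsum]
          have : U.filter (fun v => top v ∈ (univ : Finset (Fin n))) = U := by
            rw [Finset.filter_true_of_mem]; intro v _; exact Finset.mem_univ _
          rw [this]; exact hU)
      rw [hsum] at hD1 hD2
      obtain ⟨W, hW⟩ : ∃ W, W = U.filter (fun v => top v ∈ D) := ⟨_, rfl⟩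
      have hWU : W ⊆ U := by rw [hW]; exact Finset.filter_subset _ _
      have hUW : (U \ W).card + W.card = U.card := Finset.card_sdiff_add_card_eq_card hWU
      rw [← hW] at hD1
      obtain ⟨m, p, B, hPTD, hcov, hsize, htot⟩ := ih (U \ W).card (by omega) (U \ W) rfl
      obtain ⟨x, hx, hxt⟩ := hcov t
      obtain ⟨N', hN'⟩ : ∃ N', N' = W ∪ (X t ∩ (U \ W)) := ⟨_, rfl⟩
      have hBm : Function.update B m N' m = N' := Function.update_self _ _ _
      have hB : ∀ i, i < m → Function.update B m N' i = B i := fun i hi =>
        Function.update_of_ne (by omega) _ _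
      refine ⟨m + 1, Function.update p m x, Function.update B m N', ?_, ?_, ?_, ?_⟩
      · apply hPTD.add hx
        · intro v hv hv'
          rw [hN', Finset.mem_union] at hv
          rcases hv with hv | hv
          · exact absurd hv (Finset.mem_sdiff.1 hv').2
          · exact hxt hv
        · rw [hN']
          ext v
          simp only [Finset.mem_union, Finset.mem_sdiff, Finset.mem_inter]
          have := @hWU v
          tauto
      · intro s
        by_cases hs : s ∈ D
        · refine ⟨m, by omega, ?_⟩
          rw [hBm, hN']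
          intro v hv
          rw [Finset.mem_inter] at hv
          rw [Finset.mem_union]
          by_cases hvW : v ∈ W
          · exact Or.inl hvW
          · right
            rw [Finset.mem_inter, Finset.mem_sdiff]
            refine ⟨?_, hv.2, hvW⟩
            have h1 : top v ∉ D := by
              intro h2
              exact hvW (by rw [hW, Finset.mem_filter]; exact ⟨hv.2, h2⟩)
            exact hgood.mem_of_top R (htop v) h1 (show s ∈ {t | v ∈ X t} from hv.1) hs
        · obtain ⟨y, hy, hys⟩ := hcov s
          refine ⟨y, by omega, ?_⟩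
          rw [hB y hy]
          intro v hv
          rw [Finset.mem_inter] at hv
          apply hys
          rw [Finset.mem_inter, Finset.mem_sdiff]
          refine ⟨hv.1, hv.2, fun hvW => ?_⟩
          rw [hW, Finset.mem_filter] at hvW
          exact hs (hgood.sub_of_top R (htop v) hvW.2 (show s ∈ {t | v ∈ X t} from hv.1))
      · intro i hi
        rcases Nat.lt_succ_iff_lt_or_eq.1 hi with h3 | h3
        · rw [hB i h3]; exact hsize i h3
        · rw [h3, hBm]
          have h1 : N' ⊆ (U.filter (fun v => top v ∈ D.erase t)) ∪ X t := by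
            rw [hN']
            intro v hv
            rw [Finset.mem_union] at hv
            rw [Finset.mem_union]
            rcases hv with hv | hv
            · rw [hW, Finset.mem_filter] at hv
              by_cases hvt : top v = t
              · right
                have := (htop v).1
                rw [hvt] at this
                exact this
              · left
                rw [Finset.mem_filter, Finset.mem_erase]
                exact ⟨hv.1, hvt, hv.2⟩
            · exact Or.inr (Finset.mem_inter.1 hv).1
          have h2 := (Finset.card_le_card h1).trans (Finset.card_union_le _ _)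
          have h3 := hX t
          have : (2 * C + 1) * k = 2 * (C * k) + k := by ring
          omega
      · rw [Finset.sum_range_succ, hBm]
        have h1 : ∑ i ∈ Finset.range m, (Function.update B m N' i).card =
            ∑ i ∈ Finset.range m, (B i).card := by
          apply Finset.sum_congr rfl
          intro i hi
          rw [hB i (Finset.mem_range.1 hi)]
        rw [h1]
        have h2 : N'.card ≤ W.card + k := by
          rw [hN']
          refine (Finset.card_union_le _ _).trans ?_
          have := (Finset.card_le_card (Finset.inter_subset_left (s₁ := X t) (s₂ := U \ W))).trans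
            (hX t)
          omega
        rw [← hN]
        calc C * (∑ i ∈ Finset.range m, (B i).card + N'.card)
            = C * ∑ i ∈ Finset.range m, (B i).card + C * N'.card := by ring
          _ ≤ (C + 1) * (U \ W).card + C * (W.card + k) :=
              Nat.add_le_add htot (Nat.mul_le_mul_left _ h2)
          _ = (C + 1) * (U \ W).card + C * W.card + C * k := by ring
          _ ≤ (C + 1) * (U \ W).card + C * W.card + W.card := by omega
          _ = (C + 1) * ((U \ W).card + W.card) := by ring
          _ = _ := by rw [hUW]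

/-- From a tree decomposition with bags of size at most `k` one gets one with bags of size at
most `(2C+1)k` and total size at most `(1+1/C)|V|`. -/
theorem exists_small_spread {V : Type} [Fintype V] (G : SimpleGraph V) {n : ℕ}
    {T : SimpleGraph (Fin n)} {X : Fin n → Finset V} (h : IsTreeDecomposition G T X)
    (k C : ℕ) (hk : 1 ≤ k) (hC : 1 ≤ C) (hX : ∀ t, (X t).card ≤ k) :
    ∃ (m : ℕ) (T' : SimpleGraph (Fin m)) (Y : Fin m → Finset V), IsTreeDecomposition G T' Y ∧
      (∀ t, (Y t).card ≤ (2 * C + 1) * k) ∧
      C * ∑ t, (Y t).card ≤ (C + 1) * Fintype.card V := by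
  classical
  obtain ⟨r⟩ := h.isTree.connected.nonempty
  obtain ⟨R, -⟩ := exists_rooting h.isTree r
  have : Nonempty (Fin n) := ⟨r⟩
  have hs : ∀ v, R.Sub {t : Fin n | v ∈ X t} := fun v => Rooting.sub_of_connected (h.connected v)
  choose top htop using hs
  obtain ⟨m, p, B, hP, hcov, hsize, htot⟩ := exists_ptd R X top htop k C hk hC hX univ
  have hpar : ParTD G m p B := by
    refine ⟨hP.pos, hP.lt, ?_, fun v => hP.top v (Finset.mem_univ v)⟩
    intro u v huv
    obtain ⟨t, ht1, ht2⟩ := h.edge_mem u v huv
    obtain ⟨x, hx, hxt⟩ := hcov t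
    exact ⟨x, hx, hxt (by simpa using ht1), hxt (by simpa using ht2)⟩
  obtain ⟨T', hT'⟩ := hpar.exists_td
  refine ⟨m, T', _, hT', fun t => hsize t.1 t.2, ?_⟩
  rw [Fin.sum_univ_eq_sum_range (fun i => (B i).card) m]
  simpa using htot

end Pool.Agent.R37
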