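import Mathlib
import Pool.Agent.R37.Spread

set_option autoImplicit false
set_option linter.unusedSectionVars false

/-!
The two sides of an edge of a rooted tree.
-/

namespace Pool.Agent.R37

open Finset

theorem Rooting.connected_of_isTop {ι : Type} {T : SimpleGraph ι} {R : Rooting T} {S : Set ι}
    {τ : ι} (h : R.IsTop S τ) : (T.induce S).Connected := by
  have key : ∀ n, ∀ s (hs : s ∈ S), R.dep s = n →
      (T.induce S).Reachable ⟨s, hs⟩ ⟨τ, h.1⟩ := by
    intro n
    induction n using Nat.strong_induction_on with
    | _ n ih =>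
      intro s hs hn
      by_cases hst : s = τ
      · subst hst
        exact SimpleGraph.Reachable.refl _
      · obtain ⟨h1, h2⟩ := h.2 s hs hst
        have h4 := R.dep_par s h1
        have h3 := ih (R.dep (R.par s)) (by omega) (R.par s) h2 rfl
        refine SimpleGraph.Reachable.trans (SimpleGraph.Adj.reachable ?_) h3
        exact R.adj_par s h1
  have : Nonempty S := ⟨⟨τ, h.1⟩⟩
  refine SimpleGraph.Connected.mk ?_
  intro a b
  exact (key _ a.1 a.2 rfl).trans (key _ b.1 b.2 rfl).symm

section side

variable {ι : Type} [Fintype ι] {T : SimpleGraph ι} (R : Rooting T)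

open Classical in
/-- The nodes on the side of `i` of the edge `si`. -/
noncomputable def side (s i : ι) : Set ι :=
  if i ≠ R.root ∧ R.par i = s then {u | u ∈ below R i} else {u | u ∉ below R s}

theorem side_child {s i : ι} (h : i ≠ R.root ∧ R.par i = s) {u : ι} :
    u ∈ side R s i ↔ u ∈ below R i := by
  unfold side
  rw [if_pos h]
  rfl

theorem side_parent {s i : ι} (h : s ≠ R.root ∧ R.par s = i) {u : ι} :
    u ∈ side R s i ↔ u ∉ below R s := by
  unfold side
  rw [if_neg]
  · rfl
  · rintro ⟨h1, h2⟩
    have h3 := R.dep_par s h.1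
    have h4 := R.dep_par i h1
    rw [h.2] at h3
    rw [h2] at h4
    omega

theorem par_notMem_below {s i : ι} (h : i ≠ R.root ∧ R.par i = s) : s ∉ below R i := by
  intro h1
  have h2 := below_dep R h1
  have h3 := R.dep_par i h.1
  rw [h.2] at h3
  omega

theorem mem_side_self {s i : ι} (h : T.Adj s i) : i ∈ side R s i := by
  rcases R.adj s i h with h1 | h1
  · rw [side_parent R h1]
    exact par_notMem_below R h1
  · rw [side_child R h1]
    exact self_mem_below R i

theorem notMem_side_self {s i : ι} (h : T.Adj s i) : s ∉ side R s i := by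
  rcases R.adj s i h with h1 | h1
  · rw [side_parent R h1, not_not]
    exact self_mem_below R s
  · rw [side_child R h1]
    exact par_notMem_below R h1

theorem mem_side_swap {s i : ι} (h : T.Adj s i) {u : ι} : u ∈ side R i s ↔ u ∉ side R s i := by
  rcases R.adj s i h with h1 | h1
  · rw [side_parent R h1, side_child R h1, not_not]
  · rw [side_parent R h1, side_child R h1]

theorem below_crossing {t u u' : ι} (h : T.Adj u u') (hu : u ∈ below R t) (hu' : u' ∉ below R t) :
    u = t ∧ u' = R.par t ∧ t ≠ R.root := by
  rcases R.adj u u' h with ⟨h1, h2⟩ | ⟨h1, h2⟩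
  · by_cases h3 : u = t
    · refine ⟨h3, ?_, ?_⟩
      · rw [← h3, h2]
      · rw [← h3]; exact h1
    · exact absurd (h2 ▸ (below_par R hu h3).2) hu'
  · exact absurd (below_step R (h2.symm ▸ hu)) hu'

theorem side_crossing {s i u u' : ι} (hsi : T.Adj s i) (h : T.Adj u u') (hu : u ∈ side R s i)
    (hu' : u' ∉ side R s i) : u = i ∧ u' = s := by
  rcases R.adj s i hsi with h1 | h1
  · rw [side_parent R h1] at hu hu'
    rw [not_not] at hu'
    obtain ⟨h2, h3, _⟩ := below_crossing R h.symm hu' hu
    exact ⟨h3.trans h1.2, h2⟩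
  · rw [side_child R h1] at hu hu'
    obtain ⟨h2, h3, _⟩ := below_crossing R h hu hu'
    exact ⟨h2, h3.trans h1.2⟩

theorem isTop_below (t : ι) : R.IsTop {x | x ∈ below R t} t :=
  ⟨self_mem_below R t, fun s hs hne => below_par R hs hne⟩

theorem side_disjoint {s i i' u : ι} (hi : T.Adj s i) (hi' : T.Adj s i') (hne : i ≠ i')
    (h : u ∈ side R s i) : u ∉ side R s i' := by
  intro h'
  rcases R.adj s i hi with h1 | h1 <;> rcases R.adj s i' hi' with h2 | h2
  · exact hne (h1.2.symm.trans h2.2)
  · rw [side_parent R h1] at h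
    rw [side_child R h2] at h'
    apply h
    -- below i' ⊆ below s
    rw [mem_below] at h' ⊢
    obtain ⟨j, hj⟩ := h'
    exact ⟨j + 1, by rw [Function.iterate_succ_apply', hj, h2.2]⟩
  · rw [side_child R h1] at h
    rw [side_parent R h2] at h'
    apply h'
    rw [mem_below] at h ⊢
    obtain ⟨j, hj⟩ := h
    exact ⟨j + 1, by rw [Function.iterate_succ_apply', hj, h1.2]⟩
  · rw [side_child R h1] at h
    rw [side_child R h2] at h'
    have h3 := (isTop_below R i).iter_eq h
    have h4 := (isTop_below R i').iter_eq h'
    have h5 := R.dep_par i h1.1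
    have h6 := R.dep_par i' h2.1
    rw [h1.2] at h5
    rw [h2.2] at h6
    have h7 : R.dep i = R.dep i' := by omega
    rw [h7] at h3
    exact hne (h3.symm.trans h4)

theorem exists_side {s u : ι} (h : u ≠ s) : ∃ k, T.Adj s k ∧ u ∈ side R s k := by
  by_cases hu : u ∈ below R s
  · rw [mem_below] at hu
    obtain ⟨j, hj⟩ := hu
    induction j generalizing u with
    | zero => exact absurd hj h
    | succ j ih =>
      rw [Function.iterate_succ_apply] at hj
      by_cases hp : R.par u = s
      · have hur : u ≠ R.root := by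
          rintro rfl
          rw [R.par_root] at hp
          exact h hp
        exact ⟨u, (hp ▸ R.adj_par u hur).symm, by
          rw [side_child R ⟨hur, hp⟩]; exact self_mem_below R u⟩
      · obtain ⟨k, hk, hk'⟩ := ih hp hj
        refine ⟨k, hk, ?_⟩
        rcases R.adj s k hk with h1 | h1
        · rw [side_parent R h1] at hk' ⊢
          exfalso
          apply hk'
          rw [mem_below]
          exact ⟨j, hj⟩
        · rw [side_child R h1] at hk' ⊢
          exact below_step R hk'
  · have hs : s ≠ R.root := by
      rintro rfl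
      apply hu
      rw [mem_below]
      have key : ∀ n, ∀ x, R.dep x = n → ∃ j, R.par^[j] x = R.root := by
        intro n
        induction n with
        | zero => intro x hx; exact ⟨0, R.eq_root x hx⟩
        | succ n ih =>
          intro x hx
          have hx' : x ≠ R.root := R.ne_root_of_dep (by omega)
          have h1 := R.dep_par x hx'
          obtain ⟨j, hj⟩ := ih (R.par x) (by omega)
          exact ⟨j + 1, by rw [Function.iterate_succ_apply]; exact hj⟩
      exact key _ u rfl
    exact ⟨R.par s, R.adj_par s hs, by rw [side_parent R ⟨hs, rfl⟩]; exact hu⟩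

/-- A connected node set with nodes on both sides of an edge contains both its ends. -/
theorem mem_of_crossing {N : Set ι} (hN : (T.induce N).Connected) {s i a b : ι}
    (hsi : T.Adj s i) (ha : a ∈ N) (ha' : a ∈ side R s i) (hb : b ∈ N) (hb' : b ∉ side R s i) :
    i ∈ N ∧ s ∈ N := by
  obtain ⟨p⟩ := hN.preconnected ⟨a, ha⟩ ⟨b, hb⟩
  have key : ∀ (x y : N) (q : (T.induce N).Walk x y), (x : ι) ∈ side R s i →
      (y : ι) ∉ side R s i → i ∈ N ∧ s ∈ N := by
    intro x y q
    induction q with
    | nil => intro h1 h2; exact absurd h1 h2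
    | @cons x z y hxz q ih =>
      intro h1 h2
      by_cases hz : (z : ι) ∈ side R s i
      · exact ih hz h2
      · have h3 : T.Adj (x : ι) (z : ι) := hxz
        obtain ⟨h4, h5⟩ := side_crossing R hsi h3 h1 hz
        exact ⟨h4 ▸ x.2, h5 ▸ z.2⟩
  exact key _ _ p ha' hb'

/-- Cutting off one side of an edge from a connected node set leaves a connected set. -/
theorem connected_diff_side {N : Set ι} (hN : (T.induce N).Connected) {s i : ι}
    (hsi : T.Adj s i) (hs : s ∈ N) : (T.induce (N \ side R s i)).Connected := by
  obtain ⟨τ, hτ⟩ := Rooting.sub_of_connected (R := R) hN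
  rcases R.adj s i hsi with h1 | h1
  · -- `s` is a child of `i`
    apply Rooting.connected_of_isTop (R := R) (τ := s)
    refine ⟨⟨hs, notMem_side_self R hsi⟩, ?_⟩
    rintro x ⟨hx, hx'⟩ hne
    rw [side_parent R h1, not_not] at hx'
    obtain ⟨h2, h3⟩ := below_par R hx' hne
    have hxτ : x ≠ τ := by
      rintro rfl
      have h4 := hτ.dep_le s hs
      have h5 := (isTop_below R s).dep_lt hx' hne
      omega
    refine ⟨h2, (hτ.2 x hx hxτ).2, ?_⟩
    rw [side_parent R h1, not_not]
    exact h3
  · apply Rooting.connected_of_isTop (R := R) (τ := τ)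
    refine ⟨⟨hτ.1, ?_⟩, ?_⟩
    · rw [side_child R h1]
      intro h2
      have h3 := (good_below R i).sub_of_top R hτ h2 hs
      exact par_notMem_below R h1 h3
    · rintro x ⟨hx, hx'⟩ hne
      rw [side_child R h1] at hx'
      obtain ⟨h2, h3⟩ := hτ.2 x hx hne
      refine ⟨h2, h3, ?_⟩
      rw [side_child R h1]
      exact fun h4 => hx' (below_step R h4)

end side

end Pool.Agent.R37
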