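import Mathlib
import Pool.Agent.R37.Side

set_option autoImplicit false
set_option linter.unusedSectionVars false

/-!
Minimal tree decompositions: every vertex of an adhesion has a private neighbour on each side.
-/

namespace Pool.Agent.R37

open Finset

theorem exists_minimal_td {V : Type} {G : SimpleGraph V} {k : ℕ}
    (hex : ∃ (n : ℕ) (T : SimpleGraph (Fin n)) (X : Fin n → Finset V),
      IsTreeDecomposition G T X ∧ ∀ t, (X t).card ≤ k) :
    ∃ (n : ℕ) (T : SimpleGraph (Fin n)) (X : Fin n → Finset V),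
      IsTreeDecomposition G T X ∧ (∀ t, (X t).card ≤ k) ∧
      ∀ (R : Rooting T) (s i : Fin n) (v : V), T.Adj s i → v ∈ X s → v ∈ X i →
        ∃ z, G.Adj v z ∧ z ∉ X s ∧ ∃ u, z ∈ X u ∧ u ∈ side R s i := by
  classical
  have hex' : ∃ σ : ℕ, ∃ (n : ℕ) (T : SimpleGraph (Fin n)) (X : Fin n → Finset V),
      IsTreeDecomposition G T X ∧ (∀ t, (X t).card ≤ k) ∧ ∑ t, (X t).card = σ := by
    obtain ⟨n, T, X, h1, h2⟩ := hex
    exact ⟨_, n, T, X, h1, h2, rfl⟩
  obtain ⟨n, T, X, h1, h2, h3⟩ := Nat.find_spec hex'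
  refine ⟨n, T, X, h1, h2, ?_⟩
  intro R s i v hsi hvs hvi
  by_contra hcon
  push Not at hcon
  let X' : Fin n → Finset V := fun u => if u ∈ side R s i then (X u).erase v else X u
  have hX'sub : ∀ u, X' u ⊆ X u := by
    intro u
    by_cases hu : u ∈ side R s i
    · simp only [X', if_pos hu]; exact Finset.erase_subset _ _
    · simp only [X', if_neg hu]; exact Finset.Subset.refl _
  have hmem : ∀ w u, w ≠ v → (w ∈ X' u ↔ w ∈ X u) := by
    intro w u hw
    by_cases hu : u ∈ side R s i
    · simp only [X', if_pos hu, Finset.mem_erase]; tauto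
    · simp only [X', if_neg hu]
  have hmemv : ∀ u, v ∈ X' u ↔ v ∈ X u ∧ u ∉ side R s i := by
    intro u
    by_cases hu : u ∈ side R s i
    · simp only [X', if_pos hu, Finset.mem_erase]; tauto
    · simp only [X', if_neg hu]; tauto
  have hs : s ∉ side R s i := notMem_side_self R hsi
  have hTD : IsTreeDecomposition G T X' := by
    refine ⟨h1.isTree, ?_, ?_, ?_⟩
    · intro w
      by_cases hw : w = v
      · exact ⟨s, by rw [hw, hmemv]; exact ⟨hvs, hs⟩⟩
      · obtain ⟨t, ht⟩ := h1.vertex_mem w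
        exact ⟨t, (hmem w t hw).2 ht⟩
    · have key : ∀ w, G.Adj v w → ∃ t, v ∈ X' t ∧ w ∈ X' t := by
        intro w hvw
        have hwv : w ≠ v := hvw.ne.symm
        obtain ⟨t, ht1, ht2⟩ := h1.edge_mem v w hvw
        by_cases ht : t ∈ side R s i
        · have hws : w ∈ X s := by
            by_contra hws
            exact hcon w hvw hws t ht2 ht
          exact ⟨s, (hmemv s).2 ⟨hvs, hs⟩, (hmem w s hwv).2 hws⟩
        · exact ⟨t, (hmemv t).2 ⟨ht1, ht⟩, (hmem w t hwv).2 ht2⟩
      intro a b hab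
      by_cases ha : a = v
      · rw [ha] at hab ⊢; exact key b hab
      · by_cases hb : b = v
        · rw [hb] at hab ⊢
          obtain ⟨t, ht1, ht2⟩ := key a hab.symm
          exact ⟨t, ht2, ht1⟩
        · obtain ⟨t, ht1, ht2⟩ := h1.edge_mem a b hab
          exact ⟨t, (hmem a t ha).2 ht1, (hmem b t hb).2 ht2⟩
    · intro w
      by_cases hw : w = v
      · have : {t : Fin n | w ∈ X' t} = {t : Fin n | v ∈ X t} \ side R s i := by
          ext t
          rw [hw]
          exact hmemv t
        rw [this]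
        exact connected_diff_side R (h1.connected v) hsi hvs
      · have : {t : Fin n | w ∈ X' t} = {t : Fin n | w ∈ X t} := by
          ext t
          exact hmem w t hw
        rw [this]
        exact h1.connected w
  have hlt : ∑ t, (X' t).card < ∑ t, (X t).card := by
    apply Finset.sum_lt_sum
    · intro t _
      exact Finset.card_le_card (hX'sub t)
    · refine ⟨i, Finset.mem_univ _, ?_⟩
      simp only [X', if_pos (mem_side_self R hsi)]
      exact Finset.card_erase_lt_of_mem hvi
  rw [h3] at hlt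
  exact Nat.find_min hex' hlt ⟨n, T, X', hTD,
    fun t => (Finset.card_le_card (hX'sub t)).trans (h2 t), rfl⟩

/-- the adhesion of the node `s` towards `i` -/
def adh {V : Type} [DecidableEq V] {n : ℕ} (T : SimpleGraph (Fin n)) [DecidableRel T.Adj]
    (X : Fin n → Finset V) (s i : Fin n) : Finset V :=
  if T.Adj s i then X s ∩ X i else ∅

section local_facts

variable {V : Type} [Fintype V] [DecidableEq V] {G : SimpleGraph V} [DecidableRel G.Adj] {n : ℕ}
  {T : SimpleGraph (Fin n)} [DecidableRel T.Adj] {X : Fin n → Finset V}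

theorem mem_adh {s i : Fin n} {v : V} : v ∈ adh T X s i ↔ T.Adj s i ∧ v ∈ X s ∧ v ∈ X i := by
  unfold adh
  split_ifs with h
  · simp [h]
  · simp [h]

theorem local_one (hTD : IsTreeDecomposition G T X) (R : Rooting T)
    (hmin : ∀ (s i : Fin n) (v : V), T.Adj s i → v ∈ X s → v ∈ X i →
        ∃ z, G.Adj v z ∧ z ∉ X s ∧ ∃ u, z ∈ X u ∧ u ∈ side R s i)
    (s : Fin n) (v : V) :
    ((X s).filter (fun z => G.Adj v z)).card + (univ.filter (fun i => v ∈ adh T X s i)).card ≤
      G.degree v := by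
  have h1 : ∀ i, v ∈ adh T X s i →
      ∃ z, G.Adj v z ∧ z ∉ X s ∧ ∃ u, z ∈ X u ∧ u ∈ side R s i := by
    intro i hi
    rw [mem_adh] at hi
    exact hmin s i v hi.1 hi.2.1 hi.2.2
  have : Nonempty V := ⟨v⟩
  choose! z hz using h1
  have h2 : (univ.filter (fun i => v ∈ adh T X s i)).card ≤
      ((G.neighborFinset v).filter (fun w => w ∉ X s)).card := by
    apply Finset.card_le_card_of_injOn z
    · intro i hi
      have hi' : v ∈ adh T X s i := (Finset.mem_filter.1 hi).2
      obtain ⟨h3, h4, _⟩ := hz i hi'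
      rw [Finset.mem_coe, Finset.mem_filter, SimpleGraph.mem_neighborFinset]
      exact ⟨h3, h4⟩
    · intro i hi i' hi' hzz
      have hi1 : v ∈ adh T X s i := (Finset.mem_filter.1 hi).2
      have hi2 : v ∈ adh T X s i' := (Finset.mem_filter.1 hi').2
      by_contra hne
      obtain ⟨h3, h4, u, hu, hu'⟩ := hz i hi1
      obtain ⟨_, _, w, hw, hw'⟩ := hz i' hi2
      rw [mem_adh] at hi1 hi2
      have h5 : u ∉ side R s i' := side_disjoint R hi1.1 hi2.1 hne hu'
      have h6 := mem_of_crossing R (hTD.connected (z i)) hi2.1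
        (show w ∈ {t : Fin n | z i ∈ X t} by rw [hzz]; exact hw) hw'
        (show u ∈ {t : Fin n | z i ∈ X t} from hu) h5
      exact h4 h6.2
  have h3 : ((X s).filter (fun z => G.Adj v z)).card ≤
      ((G.neighborFinset v).filter (fun w => w ∈ X s)).card := by
    apply Finset.card_le_card
    intro w hw
    rw [Finset.mem_filter] at hw
    rw [Finset.mem_filter, SimpleGraph.mem_neighborFinset]
    exact ⟨hw.2, hw.1⟩
  have h4 := Finset.card_filter_add_card_filter_not (s := G.neighborFinset v)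
    (fun w => w ∈ X s)
  rw [SimpleGraph.card_neighborFinset_eq_degree] at h4
  omega

theorem local_two (hTD : IsTreeDecomposition G T X) (R : Rooting T)
    (hmin : ∀ (s i : Fin n) (v : V), T.Adj s i → v ∈ X s → v ∈ X i →
        ∃ z, G.Adj v z ∧ z ∉ X s ∧ ∃ u, z ∈ X u ∧ u ∈ side R s i)
    {s i : Fin n} {v : V} (hv : v ∈ adh T X s i) (hu : ∀ k, v ∈ adh T X s k → k = i) :
    ∃ z ∈ X s, z ∉ adh T X s i ∧ G.Adj v z := by
  rw [mem_adh] at hv
  obtain ⟨hsi, hvs, hvi⟩ := hv
  obtain ⟨z, hvz, hzi, w, hzw, hw⟩ := hmin i s v hsi.symm hvi hvs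
  by_cases hzs : z ∈ X s
  · refine ⟨z, hzs, ?_, hvz⟩
    rw [mem_adh]
    tauto
  · exfalso
    obtain ⟨u, hvu, hzu⟩ := hTD.edge_mem v z hvz
    have hus : u ≠ s := by rintro rfl; exact hzs hzu
    obtain ⟨k, hk, huk⟩ := exists_side R hus
    have h1 := mem_of_crossing R (hTD.connected v) hk (show u ∈ {t : Fin n | v ∈ X t} from hvu) huk
      (show s ∈ {t : Fin n | v ∈ X t} from hvs) (notMem_side_self R hk)
    have h2 : k = i := hu k (by rw [mem_adh]; exact ⟨hk, hvs, h1.1⟩)
    subst h2
    have h3 : u ∉ side R k s := by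
      rw [mem_side_swap R hk]
      exact fun h => h huk
    have h4 := mem_of_crossing R (hTD.connected z) hk.symm
      (show w ∈ {t : Fin n | z ∈ X t} from hzw) hw (show u ∈ {t : Fin n | z ∈ X t} from hzu) h3
    exact hzi h4.2

end local_facts

end Pool.Agent.R37
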