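import Mathlib
import Pool.Agent.R37.MinTD

set_option autoImplicit false
set_option linter.unusedSectionVars false

/-!
Sequences of bags, and growing a tree decomposition by attaching such sequences.
-/

namespace Pool.Agent.R37

open Finset

/-- a sequence `β 0, …, β m` of good bags as in a path decomposition -/
structure Seg {V : Type} (Q : Finset V → Prop) (m : ℕ) (β : ℕ → Finset V) : Prop where
  good : ∀ l ≤ m, Q (β l)
  interval : ∀ a b c, a ≤ b → b ≤ c → c ≤ m → ∀ v, v ∈ β a → v ∈ β c → v ∈ β b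

/-- put a bag in front of a sequence -/
def consSeq {V : Type} (D : Finset V) (β : ℕ → Finset V) : ℕ → Finset V
  | 0 => D
  | l + 1 => β l

theorem consSeq_zero {V : Type} (D : Finset V) (β : ℕ → Finset V) : consSeq D β 0 = D := rfl

theorem consSeq_succ {V : Type} (D : Finset V) (β : ℕ → Finset V) (l : ℕ) :
    consSeq D β (l + 1) = β l := rfl

theorem Seg.cons {V : Type} {Q : Finset V → Prop} {m : ℕ} {β : ℕ → Finset V} (h : Seg Q m β)
    {D : Finset V} (hD : Q D) (hD' : ∀ v ∈ D, ∀ l ≤ m, v ∈ β l → v ∈ β 0) :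
    Seg Q (m + 1) (consSeq D β) := by
  refine ⟨?_, ?_⟩
  · intro l hl
    cases l with
    | zero => exact hD
    | succ l => exact h.good l (by omega)
  · intro a b c hab hbc hcm v hva hvc
    cases b with
    | zero =>
      have ha : a = 0 := by omega
      rw [ha] at hva
      exact hva
    | succ b =>
      cases c with
      | zero => omega
      | succ c =>
        cases a with
        | zero =>
          exact h.interval 0 b c (by omega) (by omega) (by omega) v
            (hD' v hva c (by omega) hvc) hvc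
        | succ a => exact h.interval a b c (by omega) (by omega) (by omega) v hva hvc

theorem Seg.reverse {V : Type} {Q : Finset V → Prop} {m : ℕ} {β : ℕ → Finset V} (h : Seg Q m β) :
    Seg Q m (fun l => β (m - l)) :=
  ⟨fun l _ => h.good (m - l) (by omega), fun a b c hab hbc hcm v hva hvc =>
    h.interval (m - c) (m - b) (m - a) (by omega) (by omega) (by omega) v hvc hva⟩

/-- There is a tree decomposition (without edge condition) of the vertex set `U` with good bags
such that each member of `F` is contained in a bag. -/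
def Cov {V : Type} (Q : Finset V → Prop) (U : Finset V) (F : Set (Finset V)) : Prop :=
  ∃ (m : ℕ) (p : ℕ → ℕ) (B : ℕ → Finset V), PTD U m p B ∧ (∀ i < m, Q (B i)) ∧
    ∀ S ∈ F, ∃ i < m, S ⊆ B i

variable {V : Type} [DecidableEq V] {Q : Finset V → Prop}

theorem Cov.mono {U : Finset V} {F F' : Set (Finset V)} (h : Cov Q U F) (hF : F' ⊆ F) :
    Cov Q U F' := by
  obtain ⟨m, p, B, h1, h2, h3⟩ := h
  exact ⟨m, p, B, h1, h2, fun S hS => h3 S (hF hS)⟩

theorem Cov.single {U : Finset V} (h : Q U) : Cov Q U {S | S ⊆ U} :=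
  ⟨1, id, fun _ => U, PTD.single U, fun _ _ => h, fun _ hS => ⟨0, by omega, hS⟩⟩

theorem Cov.add {U : Finset V} {F : Set (Finset V)} (h : Cov Q U F) {S : Finset V} (hS : S ∈ F)
    {N : Finset V} (hN : Q N) (hNU : ∀ v ∈ N, v ∈ U → v ∈ S) :
    Cov Q (U ∪ N) (F ∪ {S' | S' ⊆ N}) := by
  obtain ⟨m, p, B, h1, h2, h3⟩ := h
  obtain ⟨x, hx, hSx⟩ := h3 S hS
  have hBm : Function.update B m N m = N := Function.update_self _ _ _
  have hB : ∀ i, i < m → Function.update B m N i = B i := fun i hi =>
    Function.update_of_ne (by omega) _ _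
  refine ⟨m + 1, Function.update p m x, Function.update B m N,
    h1.add hx (fun v hv hv' => hSx (hNU v hv hv')) rfl, ?_, ?_⟩
  · intro i hi
    rcases Nat.lt_succ_iff_lt_or_eq.1 hi with h4 | h4
    · rw [hB i h4]; exact h2 i h4
    · rw [h4, hBm]; exact hN
  · rintro S' (hS' | hS')
    · obtain ⟨i, hi, hi'⟩ := h3 S' hS'
      exact ⟨i, by omega, by rw [hB i hi]; exact hi'⟩
    · exact ⟨m, by omega, by rw [hBm]; exact hS'⟩

theorem Cov.addSeg {U : Finset V} {F : Set (Finset V)} (h : Cov Q U F) {S : Finset V}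
    (hS : S ∈ F) {m : ℕ} {β : ℕ → Finset V} (hβ : Seg Q m β)
    (hU : ∀ v ∈ U, ∀ l ≤ m, v ∈ β l → v ∈ β 0 ∧ v ∈ S) :
    Cov Q (U ∪ (Finset.range (m + 1)).biUnion β) (F ∪ {S' | ∃ l ≤ m, S' ⊆ β l}) := by
  induction m with
  | zero =>
    have h1 := h.add hS (hβ.good 0 le_rfl) (fun v hv hvU => (hU v hvU 0 le_rfl hv).2)
    have h2 : U ∪ (Finset.range (0 + 1)).biUnion β = U ∪ β 0 := by simp
    rw [h2]
    apply h1.mono
    rintro S' (hS' | ⟨l, hl, hS'⟩)
    · exact Or.inl hS'
    · have : l = 0 := by omega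
      subst this
      exact Or.inr hS'
  | succ m ih =>
    have h1 := ih ⟨fun l hl => hβ.good l (by omega), fun a b c hab hbc hcm =>
      hβ.interval a b c hab hbc (by omega)⟩ (fun v hv l hl => hU v hv l (by omega))
    have h2 := h1.add (S := β m) (Or.inr ⟨m, le_rfl, Finset.Subset.refl _⟩)
      (hβ.good (m + 1) le_rfl) (by
        intro v hv hvU
        rw [Finset.mem_union, Finset.mem_biUnion] at hvU
        rcases hvU with hvU | ⟨l, hl, hvl⟩
        · exact hβ.interval 0 m (m + 1) (by omega) (by omega) le_rfl v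
            (hU v hvU (m + 1) le_rfl hv).1 hv
        · rw [Finset.mem_range] at hl
          exact hβ.interval l m (m + 1) (by omega) (by omega) le_rfl v hvl hv)
    have h3 : U ∪ (Finset.range (m + 1 + 1)).biUnion β =
        U ∪ (Finset.range (m + 1)).biUnion β ∪ β (m + 1) := by
      rw [Finset.range_add_one (n := m + 1), Finset.biUnion_insert, Finset.union_assoc,
        Finset.union_comm (β (m + 1))]
    rw [h3]
    apply h2.mono
    rintro S' (hS' | ⟨l, hl, hS'⟩)
    · exact Or.inl (Or.inl hS')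
    · rcases Nat.lt_or_ge l (m + 1) with h4 | h4
      · exact Or.inl (Or.inr ⟨l, by omega, hS'⟩)
      · have : l = m + 1 := by omega
        subst this
        exact Or.inr hS'

/-- A covering family of all edges gives a tree decomposition. -/
theorem Cov.exists_td [Fintype V] {G : SimpleGraph V} {F : Set (Finset V)} (h : Cov Q univ F)
    (hF : ∀ u v, G.Adj u v → {u, v} ∈ F) :
    ∃ (m : ℕ) (T : SimpleGraph (Fin m)) (X : Fin m → Finset V),
      IsTreeDecomposition G T X ∧ ∀ t, Q (X t) := by
  obtain ⟨m, p, B, h1, h2, h3⟩ := h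
  have hpar : ParTD G m p B := by
    refine ⟨h1.pos, h1.lt, ?_, fun v => h1.top v (Finset.mem_univ v)⟩
    intro u v huv
    obtain ⟨x, hx, hxt⟩ := h3 _ (hF u v huv)
    exact ⟨x, hx, hxt (by simp), hxt (by simp)⟩
  obtain ⟨T, hT⟩ := hpar.exists_td
  exact ⟨m, T, _, hT, fun t => h2 t.1 t.2⟩

end Pool.Agent.R37
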