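import Pool.Agent.R37.FlagMap

set_option autoImplicit false

/-!
Mod 2 homology of maps: an Euler type inequality for sets of corners (edges of the radial graph).
-/

namespace Pool.Agent.R37

open Module

section push

variable {A B C : Type} [Fintype A] [Fintype B] [DecidableEq B] [DecidableEq C]

/-- push-forward of functions, summing over fibres -/
def push (π : A → B) : (A → ZMod 2) →ₗ[ZMod 2] (B → ZMod 2) where
  toFun z := fun b => ∑ a ∈ Finset.univ.filter (fun a => π a = b), z a
  map_add' x y := by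
    funext b
    simp [Finset.sum_add_distrib]
  map_smul' r x := by
    funext b
    simp [Finset.mul_sum]

omit [Fintype B] in
theorem push_apply (π : A → B) (z : A → ZMod 2) (b : B) :
    push π z b = ∑ a ∈ Finset.univ.filter (fun a => π a = b), z a := rfl

theorem push_push (π : A → B) (ρ : B → C) (z : A → ZMod 2) :
    push ρ (push π z) = push (fun a => ρ (π a)) z := by
  funext c
  rw [push_apply, push_apply]
  simp only [push_apply]
  rw [← Finset.sum_fiberwise_of_maps_to (s := Finset.univ.filter (fun a => ρ (π a) = c))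
    (t := Finset.univ.filter (fun b => ρ b = c)) (g := π)]
  · apply Finset.sum_congr rfl
    intro b hb
    apply Finset.sum_congr _ (fun _ _ => rfl)
    ext a
    simp only [Finset.mem_filter, Finset.mem_univ, true_and] at hb ⊢
    constructor
    · intro h; rw [h]; exact ⟨hb, rfl⟩
    · exact fun h => h.2
  · intro a ha
    simpa using ha

omit [Fintype B] in
/-- the push-forward of an involution invariant function vanishes if the involution has no fixed
points and preserves fibres -/
theorem push_invol (π : A → B) (τ : A → A) (h1 : ∀ a, τ (τ a) = a) (h2 : ∀ a, τ a ≠ a)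
    (h3 : ∀ a, π (τ a) = π a) (z : A → ZMod 2) (h4 : ∀ a, z (τ a) = z a) : push π z = 0 := by
  funext b
  rw [push_apply]
  apply Finset.sum_involution (fun a _ => τ a)
  · intro a _
    rw [h4]
    exact CharTwo.add_self_eq_zero _
  · intro a _ _
    exact h2 a
  · intro a ha
    simp only [Finset.mem_filter, Finset.mem_univ, true_and] at ha ⊢
    rw [h3, ha]
  · intro a _
    exact h1 a

end push

namespace FlagMap

open Classical in
noncomputable instance {Φ : Type} [Fintype Φ] (s : Setoid Φ) : Fintype (Quotient s) :=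
  Fintype.ofFinite _

noncomputable instance {Φ : Type} (s : Setoid Φ) : DecidableEq (Quotient s) :=
  Classical.decEq _

variable {Φ : Type} [Fintype Φ] (M : FlagMap Φ)

theorem push_co (z : Φ → ZMod 2) (x : Φ) : push M.co z (M.co x) = z x + z (M.t1 x) := by
  classical
  rw [push_apply]
  have h : Finset.univ.filter (fun a => M.co a = M.co x) = {x, M.t1 x} := by
    ext a
    simp only [Finset.mem_filter, Finset.mem_univ, true_and, Finset.mem_insert,
      Finset.mem_singleton]
    rw [eq_comm, M.co_eq_iff]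
  rw [h, Finset.sum_pair (M.ne1 x).symm]

theorem card_co : Fintype.card Φ = 2 * Fintype.card M.Co := by
  classical
  have h := Finset.card_eq_sum_card_fiberwise (s := (Finset.univ : Finset Φ))
    (t := (Finset.univ : Finset M.Co)) (f := M.co) (fun _ _ => Finset.mem_coe.mpr (Finset.mem_univ _))
  rw [Finset.card_univ] at h
  rw [h]
  have : ∀ c ∈ (Finset.univ : Finset M.Co), (Finset.univ.filter (fun a => M.co a = c)).card = 2 := by
    intro c _
    obtain ⟨x, rfl⟩ := M.exists_flag c
    have h : Finset.univ.filter (fun a => M.co a = M.co x) = {x, M.t1 x} := by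
      ext a
      simp only [Finset.mem_filter, Finset.mem_univ, true_and, Finset.mem_insert,
        Finset.mem_singleton]
      rw [eq_comm, M.co_eq_iff]
    rw [h, Finset.card_pair (M.ne1 x).symm]
  rw [Finset.sum_congr rfl this]
  simp [mul_comm]

theorem card_ed : Fintype.card Φ = 4 * Fintype.card M.Ed := by
  classical
  have h := Finset.card_eq_sum_card_fiberwise (s := (Finset.univ : Finset Φ))
    (t := (Finset.univ : Finset M.Ed)) (f := M.ed) (fun _ _ => Finset.mem_coe.mpr (Finset.mem_univ _))
  rw [Finset.card_univ] at h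
  rw [h]
  have : ∀ c ∈ (Finset.univ : Finset M.Ed), (Finset.univ.filter (fun a => M.ed a = c)).card = 4 := by
    intro c _
    obtain ⟨x, rfl⟩ : ∃ x, M.ed x = c := Quotient.exists_rep c
    have h : Finset.univ.filter (fun a => M.ed a = M.ed x) =
        {x, M.t0 x, M.t2 x, M.t0 (M.t2 x)} := by
      ext a
      simp only [Finset.mem_filter, Finset.mem_univ, true_and, Finset.mem_insert,
        Finset.mem_singleton]
      rw [eq_comm, M.ed_eq_iff]
    have n1 : x ≠ M.t0 x := (M.ne0 x).symm
    have n2 : x ≠ M.t2 x := (M.ne2 x).symm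
    have n3 : x ≠ M.t0 (M.t2 x) := (M.ne02 x).symm
    have n4 : M.t0 x ≠ M.t2 x := by
      intro h
      apply M.ne02 x
      rw [← h, M.inv0]
    have n5 : M.t0 x ≠ M.t0 (M.t2 x) := by
      intro h
      apply M.ne2 x
      have := congrArg M.t0 h
      rw [M.inv0, M.inv0] at this
      exact this.symm
    have n6 : M.t2 x ≠ M.t0 (M.t2 x) := (M.ne0 _).symm
    rw [h, Finset.card_insert_of_notMem, Finset.card_insert_of_notMem, Finset.card_pair n6]
    · simp [n4, n5]
    · simp [n1, n2, n3]
  rw [Finset.sum_congr rfl this]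
  simp [mul_comm]

theorem card_co_ed : Fintype.card M.Co = 2 * Fintype.card M.Ed := by
  have h1 := M.card_co
  have h2 := M.card_ed
  omega

/-- coboundary from edges of the map to corners -/
noncomputable def del : (M.Ed → ZMod 2) →ₗ[ZMod 2] (M.Co → ZMod 2) :=
  push M.co ∘ₗ LinearMap.funLeft (ZMod 2) (ZMod 2) M.ed

variable {F : Type} [Fintype F] [DecidableEq F] (φ : M.Fa → F)

/-- face of a corner -/
def cff (c : M.Co) : F := φ (M.cf c)

/-- boundary from corners to vertices and faces -/
noncomputable def bd : (M.Co → ZMod 2) →ₗ[ZMod 2] (M.Ve → ZMod 2) × (F → ZMod 2) :=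
  (push M.cv).prod (push (M.cff φ))

omit [Fintype F] in
theorem bd_push (z : Φ → ZMod 2) (h0 : ∀ x, z (M.t0 x) = z x) (h2 : ∀ x, z (M.t2 x) = z x) :
    M.bd φ (push M.co z) = 0 := by
  apply Prod.ext
  · show push M.cv (push M.co z) = 0
    rw [push_push]
    exact push_invol _ M.t2 M.inv2 M.ne2 (fun a => by rw [M.cv_co, M.cv_co, M.ve_t2]) z h2
  · show push (M.cff φ) (push M.co z) = 0
    rw [push_push]
    exact push_invol _ M.t0 M.inv0 M.ne0
      (fun a => by unfold cff; rw [M.cf_co, M.cf_co, M.fa_t0]) z h0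

omit [Fintype F] in
theorem range_del_le : LinearMap.range M.del ≤ LinearMap.ker (M.bd φ) := by
  rintro _ ⟨x, rfl⟩
  rw [LinearMap.mem_ker]
  apply M.bd_push φ (fun y => x (M.ed y))
  · intro y; rw [M.ed_t0]
  · intro y; rw [M.ed_t2]

theorem finrank_ker_del :
    finrank (ZMod 2) (LinearMap.ker M.del) ≤ Fintype.card M.Comp := by
  classical
  obtain ⟨π, hπ⟩ : ∃ π : M.Ed → M.Comp, ∀ y, π (M.ed y) = M.comp y := by
    refine ⟨Quotient.lift M.comp ?_, fun y => rfl⟩
    intro a b hab
    have h1 : M.ed a = M.ed b := Quotient.sound hab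
    rcases M.ed_eq_iff.mp h1 with h | h | h | h
    · rw [h]
    · rw [h, M.comp_t0]
    · rw [h, M.comp_t2]
    · rw [h, M.comp_t0, M.comp_t2]
  have h : LinearMap.ker M.del ≤ LinearMap.range (LinearMap.funLeft (ZMod 2) (ZMod 2) π) := by
    intro x hx
    rw [LinearMap.mem_ker] at hx
    have ht1 : ∀ y, x (M.ed (M.t1 y)) = x (M.ed y) := by
      intro y
      have h1 := congrFun hx (M.co y)
      have h2 : M.del x (M.co y) = x (M.ed y) + x (M.ed (M.t1 y)) := M.push_co _ y
      rw [h2] at h1
      have h3 : x (M.ed y) + x (M.ed (M.t1 y)) = 0 := h1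
      exact (CharTwo.add_eq_zero.mp h3).symm
    obtain ⟨w, hw⟩ : ∃ w : M.Comp → ZMod 2, ∀ y, w (M.comp y) = x (M.ed y) := by
      refine ⟨Quotient.lift (fun y => x (M.ed y)) ?_, fun y => rfl⟩
      intro a b hab
      have hab' : Relation.EqvGen (fun a b => b = M.t0 a ∨ b = M.t1 a ∨ b = M.t2 a) a b := hab
      clear hab
      induction hab' with
      | rel a b h =>
        rcases h with h | h | h
        · rw [h, M.ed_t0]
        · rw [h, ht1]
        · rw [h, M.ed_t2]
      | refl a => rfl
      | symm a b _ ih => exact ih.symm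
      | trans a b c _ _ ih1 ih2 => exact ih1.trans ih2
    refine ⟨w, ?_⟩
    funext e
    obtain ⟨y, rfl⟩ : ∃ y, M.ed y = e := Quotient.exists_rep e
    show w (π (M.ed y)) = _
    rw [hπ, hw]
  refine (Submodule.finrank_mono h).trans ?_
  refine (LinearMap.finrank_range_le _).trans ?_
  rw [Module.finrank_fintype_fun_eq_card]

omit M in
theorem push_single {A B : Type} [Fintype A] [DecidableEq A] [DecidableEq B] (π : A → B) (a : A) :
    push π (Pi.single a 1) = Pi.single (π a) 1 := by
  funext b
  rw [push_apply, Finset.sum_pi_single']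
  simp only [Finset.mem_filter, Finset.mem_univ, true_and, Pi.single_apply]
  by_cases h : π a = b
  · rw [if_pos h, if_pos h.symm]
  · rw [if_neg h, if_neg (Ne.symm h)]

omit [Fintype Φ] M in
/-- rank of the incidence map of a connected bipartite multigraph -/
theorem rank_bipartite {C V F : Type} [Fintype C] [DecidableEq C] [Fintype V] [DecidableEq V]
    [Fintype F] [DecidableEq F] (a : C → V) (b : C → F) (ha : Function.Surjective a)
    (hb : Function.Surjective b)
    (hconn : ∀ x y : C, Relation.EqvGen (fun x y => a x = a y ∨ b x = b y) x y) :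
    Fintype.card V + Fintype.card F ≤
      finrank (ZMod 2) (LinearMap.range ((push a).prod (push b))) + 1 := by
  rcases isEmpty_or_nonempty C with hC | ⟨⟨y0⟩⟩
  · have h1 : IsEmpty V := ⟨fun v => by obtain ⟨y, -⟩ := ha v; exact hC.false y⟩
    have h2 : IsEmpty F := ⟨fun v => by obtain ⟨y, -⟩ := hb v; exact hC.false y⟩
    rw [Fintype.card_eq_zero, Fintype.card_eq_zero]
    omega
  obtain ⟨T, hT⟩ : ∃ T, T = LinearMap.range ((push a).prod (push b)) ⊔ Submodule.span (ZMod 2)
    {((Pi.single (a y0) 1, 0) : (V → ZMod 2) × (F → ZMod 2))} := ⟨_, rfl⟩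
  have hcor : ∀ y, ((Pi.single (a y) 1, 0) : (V → ZMod 2) × (F → ZMod 2)) ∈ T ↔
      ((0, Pi.single (b y) 1) : (V → ZMod 2) × (F → ZMod 2)) ∈ T := by
    intro y
    have h1 : ((Pi.single (a y) 1, Pi.single (b y) 1) :
        (V → ZMod 2) × (F → ZMod 2)) ∈ T := by
      rw [hT]
      apply Submodule.mem_sup_left
      refine ⟨Pi.single y 1, ?_⟩
      apply Prod.ext
      · show push a (Pi.single y 1) = _
        rw [push_single]
      · show push b (Pi.single y 1) = _
        rw [push_single]
    constructor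
    · intro h
      have := T.sub_mem h1 h
      simpa using this
    · intro h
      have := T.sub_mem h1 h
      simpa using this
  have hinv : ∀ x y, ((Pi.single (a x) 1, 0) : (V → ZMod 2) × (F → ZMod 2)) ∈ T ↔
      ((Pi.single (a y) 1, 0) : (V → ZMod 2) × (F → ZMod 2)) ∈ T := by
    intro x y
    induction hconn x y with
    | rel x y h =>
      rcases h with h | h
      · rw [h]
      · rw [hcor, hcor, h]
    | refl x => rfl
    | symm x y _ ih => exact ih.symm
    | trans x y z _ _ ih1 ih2 => exact ih1.trans ih2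
  have hall : ∀ y, ((Pi.single (a y) 1, 0) : (V → ZMod 2) × (F → ZMod 2)) ∈ T := by
    intro y
    rw [hinv y y0, hT]
    exact Submodule.mem_sup_right (Submodule.mem_span_singleton_self _)
  have htop : T = ⊤ := by
    rw [eq_top_iff]
    rintro ⟨u, v⟩ -
    have h1 : ((u, 0) : (V → ZMod 2) × (F → ZMod 2)) ∈ T := by
      have : ((u, 0) : (V → ZMod 2) × (F → ZMod 2)) =
          ∑ i, u i • ((Pi.single i 1, 0) : (V → ZMod 2) × (F → ZMod 2)) := by
        apply Prod.ext
        · rw [Prod.fst_sum]
          simp only [Prod.smul_mk]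
          funext j
          simp [Finset.sum_apply, Pi.single_apply]
        · rw [Prod.snd_sum]
          simp
      rw [this]
      apply Submodule.sum_mem
      intro i _
      apply Submodule.smul_mem
      obtain ⟨y, rfl⟩ := ha i
      exact hall y
    have h2 : ((0, v) : (V → ZMod 2) × (F → ZMod 2)) ∈ T := by
      have : ((0, v) : (V → ZMod 2) × (F → ZMod 2)) =
          ∑ i, v i • ((0, Pi.single i 1) : (V → ZMod 2) × (F → ZMod 2)) := by
        apply Prod.ext
        · rw [Prod.fst_sum]
          simp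
        · rw [Prod.snd_sum]
          simp only [Prod.smul_mk]
          funext j
          simp [Finset.sum_apply, Pi.single_apply]
      rw [this]
      apply Submodule.sum_mem
      intro i _
      apply Submodule.smul_mem
      obtain ⟨y, rfl⟩ := hb i
      exact (hcor y).mp (hall y)
    have := T.add_mem h1 h2
    simpa using this
  have hf : finrank (ZMod 2) T = Fintype.card V + Fintype.card F := by
    rw [htop, finrank_top, Module.finrank_prod, Module.finrank_fintype_fun_eq_card,
      Module.finrank_fintype_fun_eq_card]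
  rw [← hf, hT]
  have h1 := Submodule.finrank_sup_add_finrank_inf_eq (LinearMap.range ((push a).prod (push b)))
    (Submodule.span (ZMod 2) {((Pi.single (a y0) 1, 0) : (V → ZMod 2) × (F → ZMod 2))})
  have h2 : finrank (ZMod 2) (Submodule.span (ZMod 2) {((Pi.single (a y0) 1, 0) :
      (V → ZMod 2) × (F → ZMod 2))}) ≤ 1 :=
    (finrank_span_le_card _).trans (by simp)
  omega

variable {φ} {g : ℕ}

theorem finrank_range_bd (h : M.IsEmbedding φ g) : Fintype.card M.Ve + Fintype.card F ≤
    finrank (ZMod 2) (LinearMap.range (M.bd φ)) + 1 := by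
  classical
  apply rank_bipartite
  · intro v
    obtain ⟨y, rfl⟩ : ∃ y, M.ve y = v := Quotient.exists_rep v
    exact ⟨M.co y, rfl⟩
  · intro f
    obtain ⟨w, rfl⟩ := h.surj f
    obtain ⟨y, rfl⟩ : ∃ y, M.fa y = w := Quotient.exists_rep w
    exact ⟨M.co y, rfl⟩
  · intro c d
    obtain ⟨x, rfl⟩ := M.exists_flag c
    obtain ⟨y, rfl⟩ := M.exists_flag d
    induction h.conn x y with
    | rel x y h =>
      apply Relation.EqvGen.rel
      rcases h with h | h | h | h
      · right; rw [h]; show φ (M.fa x) = φ (M.fa (M.t0 x)); rw [M.fa_t0]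
      · left; rw [h]; show M.ve x = M.ve (M.t1 x); rw [M.ve_t1]
      · left; rw [h]; show M.ve x = M.ve (M.t2 x); rw [M.ve_t2]
      · right; exact h
    | refl x => exact Relation.EqvGen.refl _
    | symm x y _ ih => exact Relation.EqvGen.symm _ _ ih
    | trans x y z _ _ ih1 ih2 => exact Relation.EqvGen.trans _ _ _ ih1 ih2

theorem card_comp (h : M.IsEmbedding φ g) :
    Fintype.card M.Comp + Fintype.card F ≤ Fintype.card M.Fa + 1 := by
  classical
  obtain ⟨κ, hκ⟩ : ∃ κ : M.Fa → M.Comp, ∀ y, κ (M.fa y) = M.comp y := by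
    refine ⟨Quotient.lift M.comp ?_, fun y => rfl⟩
    intro a b hab
    have hab' : Relation.EqvGen (fun a b => b = M.t0 a ∨ b = M.t1 a) a b := hab
    clear hab
    induction hab' with
    | rel a b h =>
      rcases h with h | h
      · rw [h, M.comp_t0]
      · rw [h, M.comp_t1]
    | refl a => rfl
    | symm a b _ ih => exact ih.symm
    | trans a b c _ _ ih1 ih2 => exact ih1.trans ih2
  have h1 := rank_bipartite κ φ (by
    intro v
    obtain ⟨y, rfl⟩ : ∃ y, M.comp y = v := Quotient.exists_rep v
    exact ⟨M.fa y, hκ y⟩) h.surj (by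
    intro c d
    obtain ⟨x, rfl⟩ : ∃ y, M.fa y = c := Quotient.exists_rep c
    obtain ⟨y, rfl⟩ : ∃ y, M.fa y = d := Quotient.exists_rep d
    induction h.conn x y with
    | rel x y h =>
      apply Relation.EqvGen.rel
      rcases h with h | h | h | h
      · left; rw [h, hκ, hκ, M.comp_t0]
      · left; rw [h, hκ, hκ, M.comp_t1]
      · left; rw [h, hκ, hκ, M.comp_t2]
      · right; exact h
    | refl x => exact Relation.EqvGen.refl _
    | symm x y _ ih => exact Relation.EqvGen.symm _ _ ih
    | trans x y z _ _ ih1 ih2 => exact Relation.EqvGen.trans _ _ _ ih1 ih2)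
  have h2 := LinearMap.finrank_range_le
    ((push κ).prod (push φ) : (M.Fa → ZMod 2) →ₗ[ZMod 2] _)
  rw [Module.finrank_fintype_fun_eq_card] at h2
  omega

variable (φ)

/-- cycles of the radial graph supported on a set of corners -/
def cyc (A : Finset M.Co) : Submodule (ZMod 2) (M.Co → ZMod 2) where
  carrier := {z | M.bd φ z = 0 ∧ ∀ c ∉ A, z c = 0}
  add_mem' := by
    rintro x y ⟨h1, h2⟩ ⟨h3, h4⟩
    refine ⟨by rw [map_add, h1, h3, add_zero], fun c hc => ?_⟩
    rw [Pi.add_apply, h2 c hc, h4 c hc, add_zero]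
  zero_mem' := ⟨map_zero _, fun _ _ => rfl⟩
  smul_mem' := by
    rintro r x ⟨h1, h2⟩
    refine ⟨by rw [map_smul, h1, smul_zero], fun c hc => ?_⟩
    rw [Pi.smul_apply, h2 c hc, smul_zero]

theorem card_le_cyc (A : Finset M.Co) (P : Finset M.Ve) (S : Finset F)
    (hP : ∀ c ∈ A, M.cv c ∈ P) (hS : ∀ c ∈ A, M.cff φ c ∈ S) :
    A.card ≤ finrank (ZMod 2) (M.cyc φ A) + P.card + S.card := by
  classical
  obtain ⟨f, hf⟩ : ∃ f : (A → ZMod 2) →ₗ[ZMod 2] (P → ZMod 2) × (S → ZMod 2),
    f = ((LinearMap.funLeft (ZMod 2) (ZMod 2) (Subtype.val : P → M.Ve)).prodMap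
      (LinearMap.funLeft (ZMod 2) (ZMod 2) (Subtype.val : S → F))) ∘ₗ M.bd φ ∘ₗ
        push (Subtype.val : A → M.Co) := ⟨_, rfl⟩
  have hval : ∀ (z : A → ZMod 2) (a : A), push (Subtype.val : A → M.Co) z a = z a := by
    intro z a
    rw [push_apply]
    have : Finset.univ.filter (fun a' : A => (a' : M.Co) = a) = {a} := by
      ext a'
      simp only [Finset.mem_filter, Finset.mem_univ, true_and, Finset.mem_singleton]
      exact Subtype.ext_iff.symm
    rw [this, Finset.sum_singleton]
  have hinj : Function.Injective (push (Subtype.val : A → M.Co)) := by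
    intro z z' h
    funext a
    rw [← hval z a, ← hval z' a, h]
  have hoff : ∀ (z : A → ZMod 2) (c : M.Co), c ∉ A → push (Subtype.val : A → M.Co) z c = 0 := by
    intro z c hc
    rw [push_apply]
    apply Finset.sum_eq_zero
    intro a ha
    simp only [Finset.mem_filter, Finset.mem_univ, true_and] at ha
    exact absurd (ha ▸ a.2) hc
  have hker : (LinearMap.ker f).map (push (Subtype.val : A → M.Co)) ≤ M.cyc φ A := by
    rintro _ ⟨z, hz, rfl⟩
    refine ⟨?_, hoff z⟩
    have hz' : f z = 0 := hz
    rw [hf] at hz'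
    have h1 : ∀ v : M.Ve, push M.cv (push (Subtype.val : A → M.Co) z) v = 0 := by
      intro v
      by_cases hv : v ∈ P
      · exact congrFun (congrArg Prod.fst hz') ⟨v, hv⟩
      · rw [push_push, push_apply]
        apply Finset.sum_eq_zero
        intro a ha
        simp only [Finset.mem_filter, Finset.mem_univ, true_and] at ha
        exact absurd (ha ▸ hP a a.2) hv
    have h2 : ∀ v : F, push (M.cff φ) (push (Subtype.val : A → M.Co) z) v = 0 := by
      intro v
      by_cases hv : v ∈ S
      · exact congrFun (congrArg Prod.snd hz') ⟨v, hv⟩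
      · rw [push_push, push_apply]
        apply Finset.sum_eq_zero
        intro a ha
        simp only [Finset.mem_filter, Finset.mem_univ, true_and] at ha
        exact absurd (ha ▸ hS a a.2) hv
    apply Prod.ext
    · funext v; exact h1 v
    · funext v; exact h2 v
  have e1 : finrank (ZMod 2) (LinearMap.ker f) ≤ finrank (ZMod 2) (M.cyc φ A) := by
    rw [LinearEquiv.finrank_eq (Submodule.equivMapOfInjective _ hinj (LinearMap.ker f))]
    exact Submodule.finrank_mono hker
  have e2 := LinearMap.finrank_range_add_finrank_ker f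
  rw [Module.finrank_fintype_fun_eq_card, Fintype.card_coe] at e2
  have e3 : finrank (ZMod 2) (LinearMap.range f) ≤ P.card + S.card := by
    refine (Submodule.finrank_le _).trans ?_
    rw [Module.finrank_prod, Module.finrank_fintype_fun_eq_card,
      Module.finrank_fintype_fun_eq_card, Fintype.card_coe, Fintype.card_coe]
  omega

/-- Euler type inequality for sets of corners, homological form. -/
theorem card_le_inf {g : ℕ} (hE : M.IsEmbedding φ g) (A : Finset M.Co) (P : Finset M.Ve)
    (S : Finset F) (hP : ∀ c ∈ A, M.cv c ∈ P) (hS : ∀ c ∈ A, M.cff φ c ∈ S) :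
    A.card ≤ finrank (ZMod 2) (M.cyc φ A ⊓ LinearMap.range M.del :
      Submodule (ZMod 2) (M.Co → ZMod 2)) + P.card + S.card + g := by
  have h1 := Submodule.finrank_sup_add_finrank_inf_eq (M.cyc φ A) (LinearMap.range M.del)
  have h2 : finrank (ZMod 2) (M.cyc φ A ⊔ LinearMap.range M.del :
      Submodule (ZMod 2) (M.Co → ZMod 2)) ≤ finrank (ZMod 2) (LinearMap.ker (M.bd φ)) := by
    apply Submodule.finrank_mono
    apply sup_le
    · rintro z ⟨hz, -⟩; exact hz
    · exact M.range_del_le φ
  have h3 := LinearMap.finrank_range_add_finrank_ker (M.bd φ)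
  rw [Module.finrank_fintype_fun_eq_card] at h3
  have h4 := M.finrank_range_bd hE
  have h5 := LinearMap.finrank_range_add_finrank_ker M.del
  rw [Module.finrank_fintype_fun_eq_card] at h5
  have h5' := M.finrank_ker_del
  have h6 := M.card_le_cyc φ A P S hP hS
  have h7 := M.card_co_ed
  have h8 := M.card_comp hE
  have hg := hE.euler
  rw [Nat.card_eq_fintype_card, Nat.card_eq_fintype_card, Nat.card_eq_fintype_card,
    Nat.card_eq_fintype_card] at hg
  omega

/-- regions: edges of the map merged across corners outside `A` -/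
def regSetoid (A : Finset M.Co) : Setoid Φ :=
  Relation.EqvGen.setoid (fun a b => b = M.t0 a ∨ b = M.t2 a ∨ (M.co a ∉ A ∧ b = M.t1 a))

/-- region of a flag -/
def reg (A : Finset M.Co) (x : Φ) : Quotient (M.regSetoid A) := Quotient.mk _ x

omit [Fintype Φ] in
theorem reg_t0 (A : Finset M.Co) (x : Φ) : M.reg A (M.t0 x) = M.reg A x :=
  (Quotient.sound (s := M.regSetoid A) (Relation.EqvGen.rel
    (r := fun a b => b = M.t0 a ∨ b = M.t2 a ∨ (M.co a ∉ A ∧ b = M.t1 a)) x _ (Or.inl rfl))).symm

omit [Fintype Φ] in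
theorem reg_t2 (A : Finset M.Co) (x : Φ) : M.reg A (M.t2 x) = M.reg A x :=
  (Quotient.sound (s := M.regSetoid A) (Relation.EqvGen.rel
    (r := fun a b => b = M.t0 a ∨ b = M.t2 a ∨ (M.co a ∉ A ∧ b = M.t1 a)) x _
    (Or.inr (Or.inl rfl)))).symm

omit [Fintype Φ] in
theorem reg_t1 (A : Finset M.Co) {x : Φ} (hx : M.co x ∉ A) : M.reg A (M.t1 x) = M.reg A x :=
  (Quotient.sound (s := M.regSetoid A) (Relation.EqvGen.rel
    (r := fun a b => b = M.t0 a ∨ b = M.t2 a ∨ (M.co a ∉ A ∧ b = M.t1 a)) x _
    (Or.inr (Or.inr ⟨hx, rfl⟩)))).symm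

omit [Fintype Φ] in
theorem reg_lift (A : Finset M.Co) (f : Φ → ZMod 2) (h0 : ∀ x, f (M.t0 x) = f x)
    (h2 : ∀ x, f (M.t2 x) = f x) (h1 : ∀ x, M.co x ∉ A → f (M.t1 x) = f x) :
    ∃ w : Quotient (M.regSetoid A) → ZMod 2, ∀ x, f x = w (M.reg A x) := by
  refine ⟨Quotient.lift f ?_, fun x => rfl⟩
  intro a b hab
  have hab' : Relation.EqvGen (fun a b => b = M.t0 a ∨ b = M.t2 a ∨ (M.co a ∉ A ∧ b = M.t1 a))
    a b := hab
  clear hab
  induction hab' with
  | rel a b h =>
    rcases h with h | h | ⟨h, h'⟩
    · rw [h, h0]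
    · rw [h, h2]
    · rw [h', h1 a h]
  | refl a => rfl
  | symm a b _ ih => exact ih.symm
  | trans a b c _ _ ih1 ih2 => exact ih1.trans ih2

/-- the linear map from functions on regions to functions on corners -/
noncomputable def eps (A : Finset M.Co) :
    (Quotient (M.regSetoid A) → ZMod 2) →ₗ[ZMod 2] (M.Co → ZMod 2) :=
  push M.co ∘ₗ LinearMap.funLeft (ZMod 2) (ZMod 2) (M.reg A)

theorem eps_co (A : Finset M.Co) (w : Quotient (M.regSetoid A) → ZMod 2) (x : Φ) :
    M.eps A w (M.co x) = w (M.reg A x) + w (M.reg A (M.t1 x)) := M.push_co _ x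

/-- the boundary of a region -/
noncomputable def bdry (A : Finset M.Co) (r : Quotient (M.regSetoid A)) : Finset M.Co :=
  Finset.univ.filter (fun c => M.eps A (Pi.single r 1) c ≠ 0)

theorem mem_bdry {A : Finset M.Co} {r : Quotient (M.regSetoid A)} {c : M.Co} :
    c ∈ M.bdry A r ↔ M.eps A (Pi.single r 1) c ≠ 0 := by
  simp [bdry]

omit [Fintype F] in
theorem inf_le_regions (A : Finset M.Co) :
    finrank (ZMod 2) (M.cyc φ A ⊓ LinearMap.range M.del :
      Submodule (ZMod 2) (M.Co → ZMod 2)) ≤
    (Finset.univ.filter (fun r => (M.bdry A r).Nonempty)).card := by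
  classical
  obtain ⟨NC, hNC⟩ : ∃ NC, NC = Finset.univ.filter (fun r => (M.bdry A r).Nonempty) := ⟨_, rfl⟩
  have hle : (M.cyc φ A ⊓ LinearMap.range M.del : Submodule (ZMod 2) (M.Co → ZMod 2)) ≤
      Submodule.span (ZMod 2) ((NC.image (fun r => M.eps A (Pi.single r 1)) : Finset _) :
        Set (M.Co → ZMod 2)) := by
    rintro z ⟨⟨hz1, hz2⟩, ⟨x, rfl⟩⟩
    obtain ⟨w, hw⟩ := M.reg_lift A (fun y => x (M.ed y)) (fun y => by rw [M.ed_t0])
      (fun y => by rw [M.ed_t2]) (by
        intro y hy
        have h1 := hz2 (M.co y) hy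
        have h2 : M.del x (M.co y) = x (M.ed y) + x (M.ed (M.t1 y)) := M.push_co _ y
        rw [h2] at h1
        exact (CharTwo.add_eq_zero.mp h1).symm)
    have h1 : M.del x = M.eps A w := by
      funext c
      obtain ⟨y, rfl⟩ := M.exists_flag c
      rw [M.eps_co, ← hw, ← hw]
      exact M.push_co _ y
    have h2 : w = ∑ r, w r • (Pi.single r 1 : Quotient (M.regSetoid A) → ZMod 2) := by
      funext j
      simp [Finset.sum_apply, Pi.single_apply]
    rw [h1, h2, map_sum]
    apply Submodule.sum_mem
    intro r _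
    rw [map_smul]
    apply Submodule.smul_mem
    by_cases hr : r ∈ NC
    · apply Submodule.subset_span
      exact Finset.mem_coe.mpr (Finset.mem_image_of_mem _ hr)
    · have : M.eps A (Pi.single r 1) = 0 := by
        rw [hNC] at hr
        simp only [Finset.mem_filter, Finset.mem_univ, true_and,
          Finset.not_nonempty_iff_eq_empty] at hr
        funext c
        by_contra hc
        have : c ∈ M.bdry A r := M.mem_bdry.mpr hc
        rw [hr] at this
        exact absurd this (Finset.notMem_empty c)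
      rw [this]
      exact Submodule.zero_mem _
  refine (Submodule.finrank_mono hle).trans ?_
  refine (finrank_span_finset_le_card _).trans ?_
  rw [← hNC]
  exact Finset.card_image_le

theorem bdry_subset (A : Finset M.Co) (r : Quotient (M.regSetoid A)) : M.bdry A r ⊆ A := by
  intro c hc
  by_contra hcA
  obtain ⟨y, rfl⟩ := M.exists_flag c
  rw [M.mem_bdry, M.eps_co, M.reg_t1 A hcA] at hc
  exact hc (CharTwo.add_self_eq_zero _)

theorem sum_eq_card_zmod {α : Type} (s : Finset α) (f : α → ZMod 2) :
    ∑ c ∈ s, f c = ((s.filter (fun c => f c ≠ 0)).card : ZMod 2) := by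
  rw [Finset.card_filter]
  push_cast
  apply Finset.sum_congr rfl
  intro c _
  have h : ∀ x : ZMod 2, x = if x ≠ 0 then 1 else 0 := by decide
  exact h (f c)

omit [Fintype F] in
theorem bd_eps (A : Finset M.Co) (w : Quotient (M.regSetoid A) → ZMod 2) :
    M.bd φ (M.eps A w) = 0 :=
  M.bd_push φ (fun y => w (M.reg A y)) (fun y => by rw [M.reg_t0]) (fun y => by rw [M.reg_t2])

theorem even_cv (A : Finset M.Co) (r : Quotient (M.regSetoid A)) (v : M.Ve) :
    Even ((M.bdry A r).filter (fun c => M.cv c = v)).card := by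
  classical
  have h := congrFun (congrArg Prod.fst (M.bd_eps (fun _ : M.Fa => ()) A (Pi.single r 1))) v
  have h' : ∑ c ∈ Finset.univ.filter (fun c => M.cv c = v), M.eps A (Pi.single r 1) c = 0 := h
  rw [sum_eq_card_zmod, ZMod.natCast_eq_zero_iff_even] at h'
  convert h' using 2
  ext c
  simp only [Finset.mem_filter, Finset.mem_univ, true_and, M.mem_bdry, ne_eq]
  tauto

omit [Fintype F] in
theorem even_cff (A : Finset M.Co) (r : Quotient (M.regSetoid A)) (v : F) :
    Even ((M.bdry A r).filter (fun c => M.cff φ c = v)).card := by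
  classical
  have h := congrFun (congrArg Prod.snd (M.bd_eps φ A (Pi.single r 1))) v
  have h' : ∑ c ∈ Finset.univ.filter (fun c => M.cff φ c = v), M.eps A (Pi.single r 1) c = 0 := h
  rw [sum_eq_card_zmod, ZMod.natCast_eq_zero_iff_even] at h'
  convert h' using 2
  ext c
  simp only [Finset.mem_filter, Finset.mem_univ, true_and, M.mem_bdry, ne_eq]
  tauto

theorem card_regions_le (A : Finset M.Co) (c : M.Co) :
    (Finset.univ.filter (fun r => c ∈ M.bdry A r)).card ≤ 2 := by
  classical
  obtain ⟨y, rfl⟩ := M.exists_flag c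
  have h : Finset.univ.filter (fun r => M.co y ∈ M.bdry A r) ⊆
      {M.reg A y, M.reg A (M.t1 y)} := by
    intro r hr
    simp only [Finset.mem_filter, Finset.mem_univ, true_and] at hr
    rw [M.mem_bdry, M.eps_co] at hr
    simp only [Finset.mem_insert, Finset.mem_singleton]
    by_contra hne
    push Not at hne
    apply hr
    rw [Pi.single_apply, Pi.single_apply, if_neg hne.1.symm, if_neg hne.2.symm, add_zero]
  exact (Finset.card_le_card h).trans Finset.card_le_two

/-- **Weighted Euler inequality** for sets of corners of a map. -/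
theorem weighted_euler {g : ℕ} (hE : M.IsEmbedding φ g) (A : Finset M.Co) (P : Finset M.Ve)
    (S : Finset F) (hP : ∀ c ∈ A, M.cv c ∈ P) (hS : ∀ c ∈ A, M.cff φ c ∈ S)
    (K : ℕ) (w : M.Co → ℕ)
    (hw : ∀ D ⊆ A, D.Nonempty → (∀ v, Even (D.filter (fun c => M.cv c = v)).card) →
      (∀ f, Even (D.filter (fun c => M.cff φ c = f)).card) → K ≤ ∑ c ∈ D, w c) :
    K * A.card ≤ 2 * ∑ c ∈ A, w c + K * (P.card + S.card + g) := by
  classical
  have h1 := M.card_le_inf φ hE A P S hP hS
  have h2 := M.inf_le_regions φ A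
  obtain ⟨NC, hNC⟩ : ∃ NC, NC = Finset.univ.filter (fun r => (M.bdry A r).Nonempty) := ⟨_, rfl⟩
  rw [← hNC] at h2
  have h3 : K * NC.card ≤ ∑ r ∈ NC, ∑ c ∈ M.bdry A r, w c := by
    rw [mul_comm, ← smul_eq_mul, ← Finset.sum_const]
    apply Finset.sum_le_sum
    intro r hr
    rw [hNC] at hr
    simp only [Finset.mem_filter, Finset.mem_univ, true_and] at hr
    exact hw _ (M.bdry_subset A r) hr (M.even_cv A r) (M.even_cff φ A r)
  have h4 : ∑ r ∈ NC, ∑ c ∈ M.bdry A r, w c ≤ 2 * ∑ c ∈ A, w c := by
    have h5 : ∑ r ∈ NC, ∑ c ∈ M.bdry A r, w c =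
        ∑ c ∈ A, ∑ r ∈ NC.filter (fun r => c ∈ M.bdry A r), w c := by
      apply Finset.sum_comm'
      intro r c
      simp only [Finset.mem_filter]
      constructor
      · rintro ⟨h6, h7⟩; exact ⟨⟨h6, h7⟩, M.bdry_subset A r h7⟩
      · rintro ⟨⟨h6, h7⟩, -⟩; exact ⟨h6, h7⟩
    rw [h5, Finset.mul_sum]
    apply Finset.sum_le_sum
    intro c _
    rw [Finset.sum_const, smul_eq_mul]
    apply Nat.mul_le_mul_right
    refine le_trans (Finset.card_le_card ?_) (M.card_regions_le A c)
    intro r hr
    simp only [Finset.mem_filter, Finset.mem_univ, true_and] at hr ⊢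
    exact hr.2
  have h5 : K * A.card ≤ K * (NC.card + P.card + S.card + g) :=
    Nat.mul_le_mul_left K (by omega)
  have h6 : K * (NC.card + P.card + S.card + g) = K * NC.card + K * (P.card + S.card + g) := by
    ring
  omega

end FlagMap

end Pool.Agent.R37
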