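import Mathlib

set_option autoImplicit false

/-!
Graphs (loops and multiple edges allowed, no isolated vertices) embedded in closed surfaces,
described by their flags (generalized maps).  A flag is an incident triple (vertex, edge end, side
of the edge); the involutions `t0`, `t1`, `t2` change the vertex along the edge, the edge at the
vertex within a facial walk, and the side of the edge.  Vertices, edges and facial walks are the
orbits of `⟨t1, t2⟩`, `⟨t0, t2⟩` and `⟨t0, t1⟩`.  The surface may be orientable or not.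
-/

namespace Pool.Agent.R37

/-- A graph with a ribbon structure (its neighbourhood in a closed surface), given by its flags.
The graph need not be connected. -/
structure FlagMap (Φ : Type) where
  /-- change the vertex -/
  t0 : Φ → Φ
  /-- change the edge -/
  t1 : Φ → Φ
  /-- change the face -/
  t2 : Φ → Φ
  inv0 : ∀ x, t0 (t0 x) = x
  inv1 : ∀ x, t1 (t1 x) = x
  inv2 : ∀ x, t2 (t2 x) = x
  ne0 : ∀ x, t0 x ≠ x
  ne1 : ∀ x, t1 x ≠ x
  ne2 : ∀ x, t2 x ≠ x
  comm : ∀ x, t0 (t2 x) = t2 (t0 x)
  ne02 : ∀ x, t0 (t2 x) ≠ x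

namespace FlagMap

variable {Φ : Type} (M : FlagMap Φ)

/-- two flags belong to the same vertex -/
def vertexSetoid : Setoid Φ := Relation.EqvGen.setoid (fun a b => b = M.t1 a ∨ b = M.t2 a)

/-- two flags belong to the same edge -/
def edgeSetoid : Setoid Φ := Relation.EqvGen.setoid (fun a b => b = M.t0 a ∨ b = M.t2 a)

/-- two flags belong to the same face -/
def faceSetoid : Setoid Φ := Relation.EqvGen.setoid (fun a b => b = M.t0 a ∨ b = M.t1 a)

/-- vertices of the map -/
abbrev Ve := Quotient M.vertexSetoid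

/-- edges of the map -/
abbrev Ed := Quotient M.edgeSetoid

/-- facial walks of the map -/
abbrev Fa := Quotient M.faceSetoid

/-- vertex of a flag -/
def ve (x : Φ) : M.Ve := Quotient.mk _ x

/-- edge of a flag -/
def ed (x : Φ) : M.Ed := Quotient.mk _ x

/-- facial walk of a flag -/
def fa (x : Φ) : M.Fa := Quotient.mk _ x

/-- `φ : M.Fa → F` describes how the facial walks are distributed over the faces `F` of an
embedding in a closed connected surface of Euler genus at most `g`.  A face whose boundary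
consists of `b` facial walks has Euler characteristic at most `2 - b`, so the Euler characteristic
of the surface is at most `V - E + 2 |F| - |Fa|` (for a cellular embedding `φ` is a bijection and
this number is `V - E + F`).  Any two flags are connected through the graph and the faces. -/
structure IsEmbedding {F : Type} (φ : M.Fa → F) (g : ℕ) : Prop where
  surj : Function.Surjective φ
  conn : ∀ x y : Φ, Relation.EqvGen (fun a b => b = M.t0 a ∨ b = M.t1 a ∨ b = M.t2 a ∨
    φ (M.fa a) = φ (M.fa b)) x y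
  euler : 2 - (g : ℤ) ≤
    (Nat.card M.Ve : ℤ) - (Nat.card M.Ed : ℤ) + 2 * (Nat.card F : ℤ) - (Nat.card M.Fa : ℤ)

theorem ve_t1 (x : Φ) : M.ve (M.t1 x) = M.ve x :=
  (Quotient.sound (s := M.vertexSetoid) (Relation.EqvGen.rel
    (r := fun a b => b = M.t1 a ∨ b = M.t2 a) x _ (Or.inl rfl))).symm

theorem ve_t2 (x : Φ) : M.ve (M.t2 x) = M.ve x :=
  (Quotient.sound (s := M.vertexSetoid) (Relation.EqvGen.rel
    (r := fun a b => b = M.t1 a ∨ b = M.t2 a) x _ (Or.inr rfl))).symm

theorem ed_t0 (x : Φ) : M.ed (M.t0 x) = M.ed x :=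
  (Quotient.sound (s := M.edgeSetoid) (Relation.EqvGen.rel
    (r := fun a b => b = M.t0 a ∨ b = M.t2 a) x _ (Or.inl rfl))).symm

theorem ed_t2 (x : Φ) : M.ed (M.t2 x) = M.ed x :=
  (Quotient.sound (s := M.edgeSetoid) (Relation.EqvGen.rel
    (r := fun a b => b = M.t0 a ∨ b = M.t2 a) x _ (Or.inr rfl))).symm

theorem fa_t0 (x : Φ) : M.fa (M.t0 x) = M.fa x :=
  (Quotient.sound (s := M.faceSetoid) (Relation.EqvGen.rel
    (r := fun a b => b = M.t0 a ∨ b = M.t1 a) x _ (Or.inl rfl))).symm

theorem fa_t1 (x : Φ) : M.fa (M.t1 x) = M.fa x :=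
  (Quotient.sound (s := M.faceSetoid) (Relation.EqvGen.rel
    (r := fun a b => b = M.t0 a ∨ b = M.t1 a) x _ (Or.inr rfl))).symm

theorem ed_eq_iff {x y : Φ} : M.ed x = M.ed y ↔
    y = x ∨ y = M.t0 x ∨ y = M.t2 x ∨ y = M.t0 (M.t2 x) := by
  constructor
  · intro h
    have h' : Relation.EqvGen (fun a b => b = M.t0 a ∨ b = M.t2 a) x y := Quotient.exact h
    induction h' with
    | rel a b h => tauto
    | refl a => tauto
    | symm a b h1 ih =>
      rcases ih (Quotient.sound h1) with h2 | h2 | h2 | h2
      · left; exact h2.symm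
      · right; left; rw [h2, M.inv0]
      · right; right; left; rw [h2, M.inv2]
      · right; right; right; rw [h2, ← M.comm (M.t2 a), M.inv0, M.inv2]
    | trans a b c h1 h2 ih1 ih2 =>
      rcases ih1 (Quotient.sound h1) with e1 | e1 | e1 | e1 <;>
        rcases ih2 (Quotient.sound h2) with e2 | e2 | e2 | e2 <;>
        rw [e1] at e2 <;>
        simp only [M.inv0, M.inv2, M.comm] at e2 ⊢ <;> simp only [e2, true_or, or_true]
  · rintro (h | h | h | h)
    · rw [h]
    · rw [h, M.ed_t0]
    · rw [h, M.ed_t2]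
    · rw [h, M.ed_t0, M.ed_t2]

/-- corners: pairs of flags exchanged by `t1` -/
def cornerSetoid : Setoid Φ where
  r x y := y = x ∨ y = M.t1 x
  iseqv := by
    refine ⟨fun x => Or.inl rfl, ?_, ?_⟩
    · rintro x y (h | h)
      · exact Or.inl h.symm
      · right; rw [h, M.inv1]
    · rintro x y z (h | h) (h' | h')
      · left; rw [h', h]
      · right; rw [h', h]
      · right; rw [h', h]
      · left; rw [h', h, M.inv1]

/-- corners -/
abbrev Co := Quotient M.cornerSetoid

/-- corner of a flag -/
def co (x : Φ) : M.Co := Quotient.mk _ x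

theorem co_eq_iff {x y : Φ} : M.co x = M.co y ↔ y = x ∨ y = M.t1 x :=
  ⟨fun h => Quotient.exact h, fun h => Quotient.sound h⟩

theorem co_t1 (x : Φ) : M.co (M.t1 x) = M.co x := (M.co_eq_iff.mpr (Or.inr rfl)).symm

/-- vertex of a corner -/
def cv : M.Co → M.Ve := Quotient.lift M.ve (by
  rintro a b (h | h)
  · rw [h]
  · rw [h, M.ve_t1])

/-- face of a corner -/
def cf : M.Co → M.Fa := Quotient.lift M.fa (by
  rintro a b (h | h)
  · rw [h]
  · rw [h, M.fa_t1])

theorem cv_co (x : Φ) : M.cv (M.co x) = M.ve x := rfl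

theorem cf_co (x : Φ) : M.cf (M.co x) = M.fa x := rfl

/-- two flags belong to the same component of the graph -/
def compSetoid : Setoid Φ :=
  Relation.EqvGen.setoid (fun a b => b = M.t0 a ∨ b = M.t1 a ∨ b = M.t2 a)

/-- components of the graph -/
abbrev Comp := Quotient M.compSetoid

/-- component of a flag -/
def comp (x : Φ) : M.Comp := Quotient.mk _ x

theorem comp_t0 (x : Φ) : M.comp (M.t0 x) = M.comp x :=
  (Quotient.sound (s := M.compSetoid) (Relation.EqvGen.rel
    (r := fun a b => b = M.t0 a ∨ b = M.t1 a ∨ b = M.t2 a) x _ (Or.inl rfl))).symm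

theorem comp_t1 (x : Φ) : M.comp (M.t1 x) = M.comp x :=
  (Quotient.sound (s := M.compSetoid) (Relation.EqvGen.rel
    (r := fun a b => b = M.t0 a ∨ b = M.t1 a ∨ b = M.t2 a) x _ (Or.inr (Or.inl rfl)))).symm

theorem comp_t2 (x : Φ) : M.comp (M.t2 x) = M.comp x :=
  (Quotient.sound (s := M.compSetoid) (Relation.EqvGen.rel
    (r := fun a b => b = M.t0 a ∨ b = M.t1 a ∨ b = M.t2 a) x _ (Or.inr (Or.inr rfl)))).symm

theorem exists_flag (c : M.Co) : ∃ x, M.co x = c := Quotient.exists_rep c

end FlagMap

end Pool.Agent.R37
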