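import Mathlib
import Pool.Agent.R37.TD

set_option autoImplicit false
set_option linter.unusedSectionVars false

/-!
Counting pairs in a tree decomposition with small independence number.
-/

namespace Pool.Agent.R37

open Finset

/-- double counting with bounded fibres -/
theorem card_le_mul_of_fibres {α β : Type} [DecidableEq β] (P : Finset α) (f : α → β)
    (Y : Finset β) (hf : ∀ a ∈ P, f a ∈ Y) (c : ℕ)
    (h : ∀ b ∈ Y, (P.filter (fun a => f a = b)).card ≤ c) : P.card ≤ c * Y.card := by
  rw [Finset.card_eq_sum_card_fiberwise (f := f) (t := Y) (fun a ha => hf a ha), mul_comm]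
  exact Finset.sum_le_card_nsmul _ _ _ h

section fragile

variable {V : Type} [DecidableEq V] {G : SimpleGraph V} {ι : Type} {T : SimpleGraph ι}
  (R : Rooting T) {B : ι → Finset V} {C : Finset V} {top : V → ι} {t : ℕ}

/-- Among pairs `(x, y)` with `x` from an independent set and the `y` belonging to one `x`
independent, those with `y` in a fixed bag and `x` in a fixed bag are at most `t²`. -/
theorem pairs_in_bags (hα : ∀ s, AlphaLE G (B s) t) {X : Finset V}
    (hX : G.IsIndepSet (X : Set V)) {P : Finset (V × V)} (hP1 : ∀ q ∈ P, q.1 ∈ X)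
    (hP2 : ∀ x, G.IsIndepSet {y | (x, y) ∈ P}) (s s' : ι)
    (h1 : ∀ q ∈ P, q.1 ∈ B s) (h2 : ∀ q ∈ P, q.2 ∈ B s') : P.card ≤ t * t := by
  have h3 : P.card ≤ t * (X.filter (fun x => x ∈ B s)).card := by
    apply card_le_mul_of_fibres P (fun q => q.1)
    · intro q hq
      rw [Finset.mem_filter]
      exact ⟨hP1 q hq, h1 q hq⟩
    · intro x _
      have h4 : (P.filter (fun q => q.1 = x)).card =
          ((P.filter (fun q => q.1 = x)).image (fun q => q.2)).card := by
        rw [Finset.card_image_of_injOn]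
        intro a ha b hb hab
        rw [Finset.mem_coe, Finset.mem_filter] at ha hb
        exact Prod.ext (ha.2.trans hb.2.symm) hab
      rw [h4]
      apply hα s'
      · intro y hy
        rw [Finset.mem_image] at hy
        obtain ⟨q, hq, rfl⟩ := hy
        exact h2 q (Finset.mem_filter.1 hq).1
      · intro y hy z hz hyz
        rw [Finset.mem_coe, Finset.mem_image] at hy hz
        obtain ⟨a, ha, rfl⟩ := hy
        obtain ⟨b, hb, rfl⟩ := hz
        rw [Finset.mem_filter] at ha hb
        apply hP2 x _ _ hyz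
        · show (x, a.2) ∈ P
          rw [← ha.2]; exact ha.1
        · show (x, b.2) ∈ P
          rw [← hb.2]; exact hb.1
  refine h3.trans (Nat.mul_le_mul_left _ ?_)
  apply hα s
  · intro x hx
    exact (Finset.mem_filter.1 hx).2
  · intro x hx y hy hxy
    exact hX (Finset.mem_filter.1 hx).1 (Finset.mem_filter.1 hy).1 hxy

/-- The main counting lemma: many pairs give an independent set larger than `X / …`. -/
theorem exists_indep_of_pairs
    (htop : ∀ v ∈ C, R.IsTop {s | v ∈ B s} (top v))
    (hedge : ∀ u ∈ C, ∀ v ∈ C, G.Adj u v → ∃ s, u ∈ B s ∧ v ∈ B s)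
    (hα : ∀ s, AlphaLE G (B s) t) {X : Finset V}
    (hX : G.IsIndepSet (X : Set V)) {P : Finset (V × V)} (hP1 : ∀ q ∈ P, q.1 ∈ X)
    (hPC : ∀ q ∈ P, q.1 ∈ C ∧ q.2 ∈ C) (hPadj : ∀ q ∈ P, G.Adj q.1 q.2)
    (hP2 : ∀ x, G.IsIndepSet {y | (x, y) ∈ P}) :
    ∃ S : Finset V, S ⊆ P.image (fun q => q.2) ∧ G.IsIndepSet (S : Set V) ∧
      P.card ≤ t * X.card + t * t * X.card + t * (t * t * S.card) := by
  classical
  -- sub-families inherit the assumptions
  have hindep : ∀ P' : Finset (V × V), P' ⊆ P → ∀ x, G.IsIndepSet {y | (x, y) ∈ P'} := by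
    intro P' hP' x y hy z hz hyz
    exact hP2 x (hP' hy) (hP' hz) hyz
  -- type A: `y` in the top bag of `x`
  obtain ⟨PA, hPA⟩ : ∃ PA, PA = P.filter (fun q => q.2 ∈ B (top q.1)) := ⟨_, rfl⟩
  obtain ⟨PB, hPB⟩ : ∃ PB, PB = P.filter (fun q => ¬ q.2 ∈ B (top q.1)) := ⟨_, rfl⟩
  have hsplit1 : PA.card + PB.card = P.card := by
    rw [hPA, hPB]; exact Finset.card_filter_add_card_filter_not _
  have hA : PA.card ≤ t * X.card := by
    apply card_le_mul_of_fibres PA (fun q => q.1)
    · intro q hq
      rw [hPA, Finset.mem_filter] at hq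
      exact hP1 q hq.1
    · intro x _
      have h4 : (PA.filter (fun q => q.1 = x)).card =
          ((PA.filter (fun q => q.1 = x)).image (fun q => q.2)).card := by
        rw [Finset.card_image_of_injOn]
        intro a ha b hb hab
        rw [Finset.mem_coe, Finset.mem_filter] at ha hb
        exact Prod.ext (ha.2.trans hb.2.symm) hab
      rw [h4]
      apply hα (top x)
      · intro y hy
        rw [Finset.mem_image] at hy
        obtain ⟨q, hq, rfl⟩ := hy
        rw [Finset.mem_filter, hPA, Finset.mem_filter] at hq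
        rw [← hq.2]
        exact hq.1.2
      · intro y hy z hz hyz
        rw [Finset.mem_coe, Finset.mem_image] at hy hz
        obtain ⟨a, ha, rfl⟩ := hy
        obtain ⟨b, hb, rfl⟩ := hz
        rw [Finset.mem_filter, hPA, Finset.mem_filter] at ha hb
        apply hP2 x _ _ hyz
        · show (x, a.2) ∈ P
          rw [← ha.2]; exact ha.1.1
        · show (x, b.2) ∈ P
          rw [← hb.2]; exact hb.1.1
  have hPBmem : ∀ q ∈ PB, q ∈ P ∧ q.2 ∉ B (top q.1) := by
    intro q hq
    rw [hPB, Finset.mem_filter] at hq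
    exact hq
  have hxtop : ∀ q ∈ PB, q.1 ∈ B (top q.2) := by
    intro q hq
    obtain ⟨h1, h2⟩ := hPBmem q hq
    obtain ⟨hx, hy⟩ := hPC q h1
    obtain ⟨s, hs1, hs2⟩ := hedge _ hx _ hy (hPadj q h1)
    rcases le_total (R.dep (top q.1)) (R.dep (top q.2)) with h3 | h3
    · exact (htop _ hx).mem_of_inter (htop _ hy) (show s ∈ {s | q.1 ∈ B s} from hs1) hs2 h3
    · exact absurd ((htop _ hy).mem_of_inter (htop _ hx)
        (show s ∈ {s | q.2 ∈ B s} from hs2) hs1 h3) h2
  -- the key geometric fact
  have hkey : ∀ q ∈ PB, ∀ q' ∈ PB, ∀ s, q.2 ∈ B s → q'.2 ∈ B s →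
      R.dep (top q'.2) ≤ R.dep (top q.2) → q.1 ∈ B (top q'.2) ∨ q'.2 ∈ B (top q.1) := by
    intro q hq q' hq' s hs hs' hd
    have h1 := hPBmem q hq
    have h1' := hPBmem q' hq'
    have hx := (hPC q h1.1).1
    have hy := (hPC q h1.1).2
    have hy' := (hPC q' h1'.1).2
    have h2 : top q.2 ∈ {s | q'.2 ∈ B s} :=
      (htop _ hy').mem_of_inter (htop _ hy) (show s ∈ {s | q'.2 ∈ B s} from hs') hs hd
    have h3 : top q.2 ∈ {s | q.1 ∈ B s} := hxtop q hq
    rcases le_total (R.dep (top q.1)) (R.dep (top q'.2)) with h4 | h4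
    · left; exact (htop _ hx).mem_of_inter (htop _ hy') h3 h2 h4
    · right; exact (htop _ hy').mem_of_inter (htop _ hx) h2 h3 h4
  -- bad pairs
  obtain ⟨PC', hPC'⟩ : ∃ PC', PC' = PB.filter (fun q => ∃ x' ∈ X, x' ∈ C ∧ q.2 ∈ B (top x')) :=
    ⟨_, rfl⟩
  obtain ⟨PD, hPD⟩ : ∃ PD, PD = PB.filter (fun q => ¬ ∃ x' ∈ X, x' ∈ C ∧ q.2 ∈ B (top x')) :=
    ⟨_, rfl⟩
  have hsplit2 : PC'.card + PD.card = PB.card := by
    rw [hPC', hPD]; exact Finset.card_filter_add_card_filter_not _
  have hbad : PC'.card ≤ t * t * X.card := by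
    rcases isEmpty_or_nonempty V with hV | hV
    · rw [Finset.eq_empty_of_isEmpty PC']; simp
    have hhit : ∀ q ∈ PC', ∃ x' ∈ X, x' ∈ C ∧ q.2 ∈ B (top x') ∧
        ∀ x'' ∈ X, x'' ∈ C → q.2 ∈ B (top x'') → R.dep (top x') ≤ R.dep (top x'') := by
      intro q hq
      rw [hPC', Finset.mem_filter] at hq
      obtain ⟨x', hx', hx'C, hqx'⟩ := hq.2
      obtain ⟨z, hz, hzmin⟩ := Finset.exists_min_image
        (X.filter (fun x => x ∈ C ∧ q.2 ∈ B (top x))) (fun x => R.dep (top x))
        ⟨x', by rw [Finset.mem_filter]; exact ⟨hx', hx'C, hqx'⟩⟩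
      rw [Finset.mem_filter] at hz
      refine ⟨z, hz.1, hz.2.1, hz.2.2, ?_⟩
      intro x'' h1 h2 h3
      exact hzmin x'' (by rw [Finset.mem_filter]; exact ⟨h1, h2, h3⟩)
    choose! hit hhit1 hhit2 hhit3 hhit4 using hhit
    apply card_le_mul_of_fibres PC' hit X hhit1
    intro x' _
    by_cases hne : (PC'.filter (fun q => hit q = x')).Nonempty
    · obtain ⟨q', hq', hmin⟩ := Finset.exists_min_image (PC'.filter (fun q => hit q = x'))
        (fun q => R.dep (top q.2)) hne
      rw [Finset.mem_filter] at hq'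
      have hsub : PC'.filter (fun q => hit q = x') ⊆ P := by
        intro q hq
        rw [Finset.mem_filter, hPC', Finset.mem_filter] at hq
        exact (hPBmem q hq.1.1).1
      have hPCB : ∀ q ∈ PC', q ∈ PB := by
        intro q hq
        rw [hPC', Finset.mem_filter] at hq
        exact hq.1
      apply pairs_in_bags hα hX (P := PC'.filter (fun q => hit q = x'))
        (fun q hq => hP1 q (hsub hq)) (hindep _ hsub) (top q'.2) (top x')
      · intro q hq
        have hq1 := Finset.mem_filter.1 hq
        have hqB := hPCB q hq1.1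
        have hqs : q.2 ∈ B (top x') := hq1.2 ▸ hhit3 q hq1.1
        have hqs' : q'.2 ∈ B (top x') := hq'.2 ▸ hhit3 q' hq'.1
        rcases hkey q hqB q' (hPCB q' hq'.1) (top x') hqs hqs' (hmin q hq) with h | h
        · exact h
        · exfalso
          have hx := (hPC q (hPBmem q hqB).1).1
          have hy := (hPC q (hPBmem q hqB).1).2
          have h1 := hhit4 q' hq'.1 q.1 (hP1 q (hPBmem q hqB).1) hx h
          rw [hq'.2] at h1
          have h2 : R.dep (top q.2) ≤ R.dep (top x') := (htop _ hy).dep_le _ hqs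
          have h3 : top q.2 ∈ {s | q.1 ∈ B s} := hxtop q hqB
          have h4 : R.dep (top q.1) ≤ R.dep (top q.2) := (htop _ hx).dep_le _ h3
          have h5 : top q.2 = top q.1 := by
            by_contra hne'
            have := (htop _ hx).dep_lt h3 hne'
            omega
          apply (hPBmem q hqB).2
          rw [← h5]
          exact (htop _ hy).1
      · intro q hq
        have hq1 := Finset.mem_filter.1 hq
        exact hq1.2 ▸ hhit3 q hq1.1
    · rw [Finset.not_nonempty_iff_eq_empty] at hne
      rw [hne]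
      simp
  -- good pairs
  have hPDmem : ∀ q ∈ PD, q ∈ PB ∧ ∀ x' ∈ X, x' ∈ C → q.2 ∉ B (top x') := by
    intro q hq
    rw [hPD, Finset.mem_filter] at hq
    push Not at hq
    exact hq
  have hgood : ∀ s, (PD.filter (fun q => q.2 ∈ B s)).card ≤ t * t := by
    intro s
    by_cases hne : (PD.filter (fun q => q.2 ∈ B s)).Nonempty
    · obtain ⟨q', hq', hmin⟩ := Finset.exists_min_image (PD.filter (fun q => q.2 ∈ B s))
        (fun q => R.dep (top q.2)) hne
      rw [Finset.mem_filter] at hq'
      have hsub : PD.filter (fun q => q.2 ∈ B s) ⊆ P := by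
        intro q hq
        exact (hPBmem q (hPDmem q (Finset.mem_filter.1 hq).1).1).1
      apply pairs_in_bags hα hX (P := PD.filter (fun q => q.2 ∈ B s))
        (fun q hq => hP1 q (hsub hq)) (hindep _ hsub) (top q'.2) s
      · intro q hq
        have hq1 := Finset.mem_filter.1 hq
        have hqB := (hPDmem q hq1.1).1
        rcases hkey q hqB q' (hPDmem q' hq'.1).1 s hq1.2 hq'.2 (hmin q hq) with h | h
        · exact h
        · exact absurd h ((hPDmem q' hq'.1).2 q.1 (hP1 q (hsub hq)) (hPC q (hsub hq)).1)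
      · intro q hq
        exact (Finset.mem_filter.1 hq).2
    · rw [Finset.not_nonempty_iff_eq_empty] at hne
      rw [hne]
      simp
  obtain ⟨Y, hY⟩ : ∃ Y, Y = PD.image (fun q => q.2) := ⟨_, rfl⟩
  have hYcard : PD.card ≤ t * Y.card := by
    apply card_le_mul_of_fibres PD (fun q => q.2)
    · intro q hq
      rw [hY]
      exact Finset.mem_image_of_mem _ hq
    · intro y _
      have h4 : (PD.filter (fun q => q.2 = y)).card =
          ((PD.filter (fun q => q.2 = y)).image (fun q => q.1)).card := by
        rw [Finset.card_image_of_injOn]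
        intro a ha b hb hab
        rw [Finset.mem_coe, Finset.mem_filter] at ha hb
        exact Prod.ext hab (ha.2.trans hb.2.symm)
      rw [h4]
      apply hα (top y)
      · intro x hx
        rw [Finset.mem_image] at hx
        obtain ⟨q, hq, rfl⟩ := hx
        rw [Finset.mem_filter] at hq
        rw [← hq.2]
        exact hxtop q (hPDmem q hq.1).1
      · intro x hx z hz hxz
        rw [Finset.mem_coe, Finset.mem_image] at hx hz
        obtain ⟨a, ha, rfl⟩ := hx
        obtain ⟨b, hb, rfl⟩ := hz
        rw [Finset.mem_filter] at ha hb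
        exact hX (hP1 a (hPBmem a (hPDmem a ha.1).1).1) (hP1 b (hPBmem b (hPDmem b hb.1).1).1) hxz
  have hYbag : ∀ s, (Y.filter (fun y => y ∈ B s)).card ≤ t * t := by
    intro s
    refine le_trans ?_ (hgood s)
    have h5 : Y.filter (fun y => y ∈ B s) ⊆
        (PD.filter (fun q => q.2 ∈ B s)).image (fun q => q.2) := by
      intro y hy
      rw [Finset.mem_filter, hY, Finset.mem_image] at hy
      obtain ⟨⟨q, hq, rfl⟩, hys⟩ := hy
      exact Finset.mem_image_of_mem _ (Finset.mem_filter.2 ⟨hq, hys⟩)
    exact (Finset.card_le_card h5).trans Finset.card_image_le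
  have hYC : ∀ y ∈ Y, y ∈ C := by
    intro y hy
    rw [hY, Finset.mem_image] at hy
    obtain ⟨q, hq, rfl⟩ := hy
    exact (hPC q (hPBmem q (hPDmem q hq).1).1).2
  -- the greedy independent set
  have hgreedy : ∀ N, ∀ Z : Finset V, Z ⊆ Y → Z.card = N →
      ∃ S ⊆ Z, G.IsIndepSet (S : Set V) ∧ Z.card ≤ t * t * S.card := by
    intro N
    induction N using Nat.strong_induction_on with
    | _ N ih =>
      intro Z hZ hN
      by_cases hne : Z.Nonempty
      · obtain ⟨y, hy, hmax⟩ := Finset.exists_max_image Z (fun y => R.dep (top y)) hne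
        have hyC := hYC y (hZ hy)
        have hytop : y ∈ B (top y) := (htop y hyC).1
        have hsub : Z.filter (fun z => ¬ z ∈ B (top y)) ⊆ Z := Finset.filter_subset _ _
        have hcard := Finset.card_filter_add_card_filter_not (s := Z) (fun z => z ∈ B (top y))
        have hpos : 0 < (Z.filter (fun z => z ∈ B (top y))).card :=
          Finset.card_pos.2 ⟨y, Finset.mem_filter.2 ⟨hy, hytop⟩⟩
        obtain ⟨S, hS1, hS2, hS3⟩ := ih _ (by omega)
          (Z.filter (fun z => ¬ z ∈ B (top y))) (hsub.trans hZ) rfl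
        have hyS : y ∉ S := by
          intro h
          exact (Finset.mem_filter.1 (hS1 h)).2 hytop
        have hnadj : ∀ z ∈ S, ¬ G.Adj y z := by
          intro z hz hyz
          have hz1 := Finset.mem_filter.1 (hS1 hz)
          have hzC := hYC z (hZ hz1.1)
          obtain ⟨s, hs1, hs2⟩ := hedge y hyC z hzC hyz
          exact hz1.2 ((htop z hzC).mem_of_inter (htop y hyC)
            (show s ∈ {s | z ∈ B s} from hs2) hs1 (hmax z hz1.1))
        refine ⟨insert y S, ?_, ?_, ?_⟩
        · intro z hz
          rw [Finset.mem_insert] at hz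
          rcases hz with rfl | hz
          · exact hy
          · exact hsub (hS1 hz)
        · intro a ha b hb hab
          rw [Finset.mem_coe, Finset.mem_insert] at ha hb
          rcases ha with rfl | ha
          · rcases hb with rfl | hb
            · exact absurd rfl hab
            · exact hnadj b hb
          · rcases hb with rfl | hb
            · exact fun h => hnadj a ha h.symm
            · exact hS2 ha hb hab
        · rw [Finset.card_insert_of_notMem hyS]
          have h6 : (Z.filter (fun z => z ∈ B (top y))).card ≤ t * t := by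
            refine le_trans (Finset.card_le_card ?_) (hYbag (top y))
            exact Finset.filter_subset_filter _ hZ
          have h7 : t * t * (S.card + 1) = t * t * S.card + t * t := by ring
          omega
      · rw [Finset.not_nonempty_iff_eq_empty] at hne
        refine ⟨∅, Finset.empty_subset _, by simp, ?_⟩
        rw [hne]; simp
  obtain ⟨S, hS1, hS2, hS3⟩ := hgreedy _ Y (Finset.Subset.refl _) rfl
  refine ⟨S, ?_, hS2, ?_⟩
  · refine hS1.trans ?_
    rw [hY]
    apply Finset.image_subset_image
    intro q hq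
    exact (hPBmem q (hPDmem q hq).1).1
  · have h8 : t * Y.card ≤ t * (t * t * S.card) := Nat.mul_le_mul_left _ hS3
    omega

end fragile

end Pool.Agent.R37
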