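import Pool.Agent.R37.GenLink

/-! A graph of diameter at most three with a one-way infinite path contains every even cycle of
length at least eight. -/

set_option autoImplicit false

namespace Pool.Agent.R37.GenLink

open Filter

variable {V : Type*} {G : SimpleGraph V}

/-- consecutive vertices of the ray -/
def ray (f : ℕ → V) : ℕ → ℕ → List V
  | _, 0 => []
  | s, n + 1 => f s :: ray f (s + 1) n

theorem ray_length (f : ℕ → V) (n : ℕ) : ∀ s, (ray f s n).length = n := by
  induction n with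
  | zero => intro s; rfl
  | succ n ih => intro s; simp [ray, ih]

theorem mem_ray (f : ℕ → V) (n : ℕ) : ∀ s v, v ∈ ray f s n ↔ ∃ t, s ≤ t ∧ t < s + n ∧ v = f t := by
  induction n with
  | zero =>
    intro s v
    simp only [ray, List.not_mem_nil, false_iff]
    rintro ⟨t, h1, h2, -⟩
    omega
  | succ n ih =>
    intro s v
    simp only [ray, List.mem_cons, ih]
    constructor
    · rintro (h | ⟨t, h1, h2, h3⟩)
      · exact ⟨s, le_refl _, by omega, h⟩
      · exact ⟨t, by omega, by omega, h3⟩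
    · rintro ⟨t, h1, h2, h3⟩
      rcases Nat.eq_or_lt_of_le h1 with h | h
      · left; rw [h3, h]
      · right; exact ⟨t, by omega, by omega, h3⟩

theorem ray_nodup {f : ℕ → V} (hf : Function.Injective f) (n : ℕ) : ∀ s, (ray f s n).Nodup := by
  induction n with
  | zero => intro s; exact List.nodup_nil
  | succ n ih =>
    intro s
    simp only [ray, List.nodup_cons]
    refine ⟨?_, ih _⟩
    rw [mem_ray]
    rintro ⟨t, h1, -, h3⟩
    have := hf h3
    omega

theorem ray_chain {f : ℕ → V} (hadj : ∀ n, G.Adj (f n) (f (n + 1))) {b : V} (n : ℕ) :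
    ∀ s, G.Adj (f (s + n)) b → (ray f s (n + 1) ++ [b]).IsChain G.Adj := by
  induction n with
  | zero => intro s h; simpa [ray] using h
  | succ n ih =>
    intro s h
    have h1 := ih (s + 1) (by rw [show s + 1 + n = s + (n + 1) by omega]; exact h)
    have e : ray f s (n + 1 + 1) ++ [b] = f s :: f (s + 1) :: (ray f (s + 1 + 1) n ++ [b]) := rfl
    rw [e]
    have e' : ray f (s + 1) (n + 1) ++ [b] = f (s + 1) :: (ray f (s + 1 + 1) n ++ [b]) := rfl
    rw [e'] at h1
    exact List.isChain_cons_cons.2 ⟨hadj s, h1⟩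

/-- from `f s` up to `f (s+d)` and then `z` -/
theorem up_link {f : ℕ → V} (hf : Function.Injective f) (hadj : ∀ n, G.Adj (f n) (f (n + 1)))
    {z : V} (s d : ℕ) (hz : G.Adj (f (s + d)) z) (hzn : ∀ t, s ≤ t → t ≤ s + d → z ≠ f t) :
    IsLink G (f s) z (d + 1) (ray f (s + 1) d) := by
  refine ⟨by rw [ray_length], ray_nodup hf _ _, ?_, ?_, ?_⟩
  · rw [mem_ray]; rintro ⟨t, h1, -, h3⟩; have := hf h3; omega
  · rw [mem_ray]; rintro ⟨t, h1, h2, h3⟩; exact hzn t (by omega) (by omega) h3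
  · exact ray_chain hadj d s hz

/-- from `z` through `f s, …, f (s+d)` to `z'` -/
theorem hub_link {f : ℕ → V} (hf : Function.Injective f) (hadj : ∀ n, G.Adj (f n) (f (n + 1)))
    {z z' : V} (s d : ℕ) (hz : G.Adj z (f s)) (hz' : G.Adj z' (f (s + d)))
    (hzn : ∀ t, s ≤ t → t ≤ s + d → z ≠ f t) (hzn' : ∀ t, s ≤ t → t ≤ s + d → z' ≠ f t) :
    IsLink G z z' (d + 2) (ray f s (d + 1)) := by
  refine ⟨by rw [ray_length], ray_nodup hf _ _, ?_, ?_, ?_⟩
  · rw [mem_ray]; rintro ⟨t, h1, h2, h3⟩; exact hzn t (by omega) (by omega) h3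
  · rw [mem_ray]; rintro ⟨t, h1, h2, h3⟩; exact hzn' t (by omega) (by omega) h3
  · have h := ray_chain hadj d s hz'.symm
    have e : z :: (ray f s (d + 1) ++ [z']) = z :: f s :: (ray f (s + 1) d ++ [z']) := rfl
    rw [e]
    exact List.isChain_cons_cons.2 ⟨hz, h⟩

/-- the family at position `a` -/
def pos (f : ℕ → V) (a : ℕ) : ℕ → V := fun k => f (k + a)

theorem pos_inf {f : ℕ → V} (hf : Function.Injective f) (a : ℕ) : Inf (pos f a) := by
  intro F
  apply Filter.hyperfilter_le_cofinite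
  rw [Filter.mem_cofinite]
  have h1 : {k | pos f a k ∉ F}ᶜ = (pos f a) ⁻¹' (F : Set V) := by
    ext k; simp
  rw [h1]
  apply Set.Finite.preimage _ F.finite_toSet
  intro i _ j _ hij
  have := hf hij
  omega

theorem win_avoid {f : ℕ → V} (hf : Function.Injective f) (N : ℕ) (F : Finset V) :
    ∀ᶠ k in U, ∀ t ≤ N, f (k + t) ∉ F := by
  have h : ∀ᶠ k in U, ∀ t ∈ Finset.range (N + 1), f (k + t) ∉ F :=
    (Filter.eventually_all_finset _).2 (fun t _ => pos_inf hf t F)
  filter_upwards [h] with k hk t ht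
  exact hk t (by simpa using Nat.lt_succ_of_le ht)

/-- `z` is a hub at position `a` -/
def Hub (G : SimpleGraph V) (f : ℕ → V) (a : ℕ) (z : V) : Prop := ∀ᶠ k in U, G.Adj z (f (k + a))

theorem hub_or (f : ℕ → V) (a : ℕ) : (∃ z, Hub G f a z) ∨ NonHub G (pos f a) := by
  by_cases h : ∃ z, Hub G f a z
  · exact Or.inl h
  · right
    intro z
    rcases Ultrafilter.em U (fun k => G.Adj z (f (k + a))) with h1 | h1
    · exact absurd ⟨z, h1⟩ h
    · exact h1

section ray

variable {f : ℕ → V} (hf : Function.Injective f) (hadj : ∀ n, G.Adj (f n) (f (n + 1)))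
include hf hadj

/-- two hubs joined by a window -/
theorem hub_hub {z z' : V} {a b : ℕ} (hab : a ≤ b) (hz : Hub G f a z) (hz' : Hub G f b z') :
    Lk G z z' (b - a + 2) := by
  classical
  intro F
  obtain ⟨k, h1, h2, h3⟩ := (hz.and (hz'.and
    (win_avoid hf b (insert z (insert z' F))))).exists
  simp only [Finset.mem_insert, not_or] at h3
  refine ⟨_, hub_link hf hadj (k + a) (b - a) h1
    (by rw [show k + a + (b - a) = k + b by omega]; exact h2) ?_ ?_, ?_⟩
  · intro t ht1 ht2 e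
    obtain ⟨s, rfl⟩ : ∃ s, t = k + s := ⟨t - k, by omega⟩
    exact (h3 s (by omega)).1 e.symm
  · intro t ht1 ht2 e
    obtain ⟨s, rfl⟩ : ∃ s, t = k + s := ⟨t - k, by omega⟩
    exact (h3 s (by omega)).2.1 e.symm
  · intro v hv hvF
    rw [mem_ray] at hv
    obtain ⟨t, ht1, ht2, rfl⟩ := hv
    obtain ⟨s, rfl⟩ : ∃ s, t = k + s := ⟨t - k, by omega⟩
    exact (h3 s (by omega)).2.2 hvF

/-- all positions have hubs -/
theorem all_hub {r : ℕ} (hr : 4 ≤ r) (h : ∀ a, ∃ z, Hub G f a z) : HasCyc G (2 * r) := by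
  choose z hz using h
  by_cases h1 : ∃ a, z a ≠ z (a + (r - 2))
  · obtain ⟨a, ha⟩ := h1
    have h2 := hub_hub hf hadj (Nat.le_add_right a (r - 2)) (hz a) (hz (a + (r - 2)))
    have h3 := cyc_of_lk_lk ha h2 h2
    rwa [show a + (r - 2) - a + 2 + (a + (r - 2) - a + 2) = 2 * r by omega] at h3
  · push Not at h1
    by_cases h2 : z 0 = z 2
    · have h3 := hub_hub hf hadj (Nat.zero_le (2 * r - 2)) (hz 0) (hz (2 * r - 2))
      have h4 : z 0 = z (2 * r - 2) := by
        rw [h2, h1 2, h1 (2 + (r - 2))]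
        congr 1; omega
      rw [← h4] at h3
      obtain ⟨I, hI, -⟩ := h3 ∅
      refine ⟨z 0, I, ?_⟩
      rwa [show 2 * r - 2 - 0 + 2 = 2 * r by omega] at hI
    · have h3 := hub_hub hf hadj (show 0 ≤ 2 by omega) (hz 0) (hz 2)
      have h4 := hub_hub hf hadj (show 2 ≤ (r - 2) + (r - 2) by omega) (hz 2)
        (hz ((r - 2) + (r - 2)))
      have h5 : z ((r - 2) + (r - 2)) = z 0 := by
        rw [← h1 (r - 2)]
        have := h1 0
        rw [Nat.zero_add] at this
        exact this.symm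
      rw [h5] at h4
      have h6 := cyc_of_lk_lk h2 h3 h4.symm
      rwa [show 2 - 0 + 2 + (r - 2 + (r - 2) - 2 + 2) = 2 * r by omega] at h6

/-- two hubs joined through a robust position -/
theorem hub_rob_hub {z z' : V} {p a b ℓ : ℕ} (hpa : p ≤ a) (hpb : p ≤ b) (hz : Hub G f a z)
    (hz' : Hub G f b z') (hp : Ln G (pos f p) ℓ) : Lk G z z' ((a - p + 1) + ℓ + (b - p + 1)) := by
  classical
  intro F
  obtain ⟨i, h1, h2, h3⟩ := (hz.and ((win_avoid hf a (insert z (insert z' F))).and hp)).exists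
  simp only [Finset.mem_insert, not_or] at h2
  set W : Finset V := (Finset.range (a + 1)).image (fun t => f (i + t)) with hW
  obtain ⟨j, k1, k2, k3⟩ := (hz'.and ((win_avoid hf b (insert z (insert z' (F ∪ W)))).and
    h3)).exists
  simp only [Finset.mem_insert, not_or, Finset.mem_union] at k2
  have hcl : ∀ x y : ℕ, x ≤ b → y ≤ a → f (j + x) ≠ f (i + y) := fun x y hx hy e =>
    (k2 x hx).2.2.2 (e ▸ Finset.mem_image.2 ⟨y, by simpa using Nat.lt_succ_of_le hy, rfl⟩)
  have hWm : ∀ t ≤ a, f (i + t) ∈ W := fun t ht =>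
    Finset.mem_image.2 ⟨t, by simpa using Nat.lt_succ_of_le ht, rfl⟩
  have L := (up_link hf hadj (i + p) (a - p) (z := z)
    (by rw [show i + p + (a - p) = i + a by omega]; exact h1.symm) (by
      intro t ht1 ht2 e
      obtain ⟨s, rfl⟩ : ∃ s, t = i + s := ⟨t - i, by omega⟩
      exact (h2 s (by omega)).1 e.symm)).symm
  have M := up_link hf hadj (j + p) (b - p) (z := z')
    (by rw [show j + p + (b - p) = j + b by omega]; exact k1.symm) (by
      intro t ht1 ht2 e
      obtain ⟨s, rfl⟩ : ∃ s, t = j + s := ⟨t - j, by omega⟩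
      exact (k2 s (by omega)).2.1 e.symm)
  have hA : ∀ v ∈ (ray f (i + p + 1) (a - p)).reverse, ∃ s ≤ a, v = f (i + s) := by
    intro v hv
    rw [List.mem_reverse, mem_ray] at hv
    obtain ⟨t, ht1, ht2, rfl⟩ := hv
    exact ⟨t - i, by omega, by congr 1; omega⟩
  have hB : ∀ v ∈ ray f (j + p + 1) (b - p), ∃ s ≤ b, v = f (j + s) := by
    intro v hv
    rw [mem_ray] at hv
    obtain ⟨t, ht1, ht2, rfl⟩ := hv
    exact ⟨t - j, by omega, by congr 1; omega⟩
  obtain ⟨J, hJ, hJF⟩ := k3 (insert z (insert z' (F ∪ (ray f (i + p + 1) (a - p)).reverse.toFinset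
    ∪ (ray f (j + p + 1) (b - p)).toFinset)))
  have hij : f (j + p) ≠ f (i + p) := hcl p p hpb hpa
  have hjA : f (j + p) ∉ (ray f (i + p + 1) (a - p)).reverse := by
    intro hv
    obtain ⟨s, hs, e⟩ := hA _ hv
    exact hcl p s hpb hs e
  have hJA : ∀ v ∈ (ray f (i + p + 1) (a - p)).reverse, v ∉ J := by
    intro v hv hv'
    refine hJF v hv' ?_
    rw [Finset.mem_insert, Finset.mem_insert, Finset.mem_union, Finset.mem_union,
      List.mem_toFinset]
    exact Or.inr (Or.inr (Or.inl (Or.inr hv)))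
  have hJB : ∀ v ∈ ray f (j + p + 1) (b - p), v ∉ J := by
    intro v hv hv'
    refine hJF v hv' ?_
    rw [Finset.mem_insert, Finset.mem_insert, Finset.mem_union, List.mem_toFinset]
    exact Or.inr (Or.inr (Or.inr hv))
  have L2 := L.trans hJ (fun h => hJF _ h (by simp)) hjA (fun e => (h2 p hpa).1 e.symm) hij
    hJA
  have L3 := L2.trans M ?_ ?_ (fun e => (k2 p hpb).1 e.symm) (fun e => (k2 p hpb).2.1 e.symm) ?_
  · refine ⟨_, L3, ?_⟩
    intro v hv hvF
    rcases List.mem_append.1 hv with hv | hv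
    · rcases List.mem_append.1 hv with hv | hv
      · obtain ⟨s, hs, rfl⟩ := hA _ hv
        exact (h2 s hs).2.2 hvF
      · rcases List.mem_cons.1 hv with rfl | hv
        · exact (h2 p hpa).2.2 hvF
        · exact hJF v hv (by simp [hvF])
    · rcases List.mem_cons.1 hv with rfl | hv
      · exact (k2 p hpb).2.2.1 hvF
      · obtain ⟨s, hs, rfl⟩ := hB _ hv
        exact (k2 s hs).2.2.1 hvF
  · intro hv
    obtain ⟨s, hs, e⟩ := hB _ hv
    exact (k2 s hs).1 e.symm
  · intro hv
    rcases List.mem_append.1 hv with hv | hv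
    · obtain ⟨s, hs, e⟩ := hA _ hv
      exact (h2 s hs).2.1 e.symm
    · rcases List.mem_cons.1 hv with hv | hv
      · exact (h2 p hpa).2.1 hv.symm
      · exact hJF _ hv (by simp)
  · intro v hv hv'
    obtain ⟨s, hs, rfl⟩ := hB _ hv'
    rcases List.mem_append.1 hv with hv | hv
    · obtain ⟨s', hs', e⟩ := hA _ hv
      exact hcl s s' hs hs' e
    · rcases List.mem_cons.1 hv with hv | hv
      · exact hcl s p hs hpa hv
      · exact hJB _ hv' hv

end ray

end Pool.Agent.R37.GenLink
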