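import Mathlib
import Pool.Agent.R37.Cov

set_option autoImplicit false
set_option linter.unusedSectionVars false

/-!
The local structure of a bag of a minimal tree decomposition of a graph of maximum degree four.
-/

namespace Pool.Agent.R37

open Finset

variable {V : Type} [Fintype V] [DecidableEq V] {κ : Type} [Fintype κ] [DecidableEq κ]

/-- a set of vertices of a graph of maximum degree at most two, plus at most five vertices -/
def GoodBag (G : SimpleGraph V) [DecidableRel G.Adj] (D : Finset V) : Prop :=
  ∃ Y X0 : Finset V, D ⊆ Y ∪ X0 ∧ (∀ v ∈ Y, (Y.filter (fun z => G.Adj v z)).card ≤ 2) ∧ X0.card ≤ 5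

theorem GoodBag.mono {G : SimpleGraph V} [DecidableRel G.Adj] {D D' : Finset V}
    (h : GoodBag G D) (hD : D' ⊆ D) : GoodBag G D' := by
  obtain ⟨Y, X0, h1, h2, h3⟩ := h
  exact ⟨Y, X0, hD.trans h1, h2, h3⟩

theorem GoodBag.of_deg {G : SimpleGraph V} [DecidableRel G.Adj] {D : Finset V}
    (h : ∀ v ∈ D, (D.filter (fun z => G.Adj v z)).card ≤ 2) : GoodBag G D :=
  ⟨D, ∅, by simp, h, by simp⟩

/-- The local data at a bag `B` with adhesions `A i`. -/
structure LocalData (G : SimpleGraph V) [DecidableRel G.Adj] (B : Finset V)
    (A : κ → Finset V) : Prop where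
  sub : ∀ i, A i ⊆ B
  deg : ∀ v ∈ B, (B.filter (fun z => G.Adj v z)).card + (univ.filter (fun i => v ∈ A i)).card ≤ 4
  out : ∀ i, ∀ v ∈ A i, (∀ k, v ∈ A k → k = i) → ∃ z ∈ B, z ∉ A i ∧ G.Adj v z

/-- labellings of some vertices of the bag -/
structure Valid (G : SimpleGraph V) (B : Finset V) (A : κ → Finset V) (lam : V → Option κ) :
    Prop where
  one : ∀ v ∈ B, ∀ i j, lam v = some i → v ∈ A j → j = i
  two : ∀ u ∈ B, ∀ v ∈ B, G.Adj u v → ∀ i j, lam u = some i → lam v = some j → i = j

/-- A largest labelling: every unlabelled vertex has the neighbours that prevent a label. -/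
theorem exists_labelling (G : SimpleGraph V) [DecidableRel G.Adj] (B : Finset V)
    (A : κ → Finset V) : ∃ lam : V → Option κ, Valid G B A lam ∧
      ∀ v ∈ B, lam v = none → ∀ i, (∀ k, v ∈ A k → k = i) →
        ∃ u ∈ B, G.Adj v u ∧ ∃ j, j ≠ i ∧ lam u = some j := by
  classical
  obtain ⟨lam, hlam, hmax⟩ := Finset.exists_max_image
    ((univ : Finset (V → Option κ)).filter (fun lam => Valid G B A lam))
    (fun lam => (B.filter (fun v => lam v ≠ none)).card) ⟨fun _ => none, by
      rw [Finset.mem_filter]
      refine ⟨Finset.mem_univ _, ⟨?_, ?_⟩⟩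
      · intro _ _ _ _ h
        cases h
      · intro _ _ _ _ _ _ _ h
        cases h⟩
  rw [Finset.mem_filter] at hlam
  refine ⟨lam, hlam.2, ?_⟩
  intro v hv hvn i hi
  by_contra hcon
  push Not at hcon
  have hne : ∀ u, u ≠ v → Function.update lam v (some i) u = lam u := fun u hu =>
    Function.update_of_ne hu _ _
  have hself : Function.update lam v (some i) v = some i := Function.update_self _ _ _
  have hvalid : Valid G B A (Function.update lam v (some i)) := by
    refine ⟨?_, ?_⟩
    · intro u hu a b hab hub
      by_cases huv : u = v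
      · subst huv
        rw [hself] at hab
        rw [← Option.some_injective _ hab]
        exact hi b hub
      · rw [hne u huv] at hab
        exact hlam.2.one u hu a b hab hub
    · have key : ∀ w ∈ B, G.Adj v w → ∀ b, Function.update lam v (some i) w = some b → b = i := by
        intro w hw hvw b hb
        rw [hne w hvw.ne.symm] at hb
        by_contra hbi
        exact hcon w hw hvw b hbi hb
      intro u hu w hw huw a b ha hb
      by_cases huv : u = v
      · subst huv
        rw [hself] at ha
        rw [← Option.some_injective _ ha]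
        exact (key w hw huw b hb).symm
      · by_cases hwv : w = v
        · subst hwv
          rw [hself] at hb
          rw [← Option.some_injective _ hb]
          exact key u hu huw.symm a ha
        · rw [hne u huv] at ha
          rw [hne w hwv] at hb
          exact hlam.2.two u hu w hw huw a b ha hb
  have h1 := hmax _ (by rw [Finset.mem_filter]; exact ⟨Finset.mem_univ _, hvalid⟩)
  have h2 : (B.filter (fun v => lam v ≠ none)).card <
      (B.filter (fun u => Function.update lam v (some i) u ≠ none)).card := by
    apply Finset.card_lt_card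
    rw [Finset.ssubset_iff_of_subset]
    · refine ⟨v, ?_, ?_⟩
      · rw [Finset.mem_filter, hself]; exact ⟨hv, by simp⟩
      · rw [Finset.mem_filter]; tauto
    · intro u hu
      rw [Finset.mem_filter] at hu ⊢
      refine ⟨hu.1, ?_⟩
      by_cases huv : u = v
      · rw [huv, hself]; simp
      · rw [hne u huv]; exact hu.2
  omega

section seg

variable {G : SimpleGraph V} [DecidableRel G.Adj] {B : Finset V} {A : κ → Finset V}

/-- degrees inside a subset -/
theorem deg_add_out {D : Finset V} (hD : D ⊆ B) (v : V) :
    (D.filter (fun z => G.Adj v z)).card + ((B \ D).filter (fun z => G.Adj v z)).card =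
      (B.filter (fun z => G.Adj v z)).card := by
  rw [← Finset.card_union_of_disjoint, ← Finset.filter_union, Finset.union_sdiff_of_subset hD]
  exact Finset.disjoint_filter_filter Finset.disjoint_sdiff

theorem one_le_card_of {s : Finset V} {a : V} (h : a ∈ s) : 1 ≤ s.card :=
  Finset.card_pos.2 ⟨a, h⟩

theorem two_le_card_of {α : Type} {s : Finset α} {a b : α} (ha : a ∈ s) (hb : b ∈ s)
    (hab : a ≠ b) : 2 ≤ s.card := Finset.one_lt_card.2 ⟨a, ha, b, hb, hab⟩

variable {lam : V → Option κ}

/-- maximality of the labelling -/
def Maxi (G : SimpleGraph V) (B : Finset V) (A : κ → Finset V) (lam : V → Option κ) : Prop :=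
  ∀ v ∈ B, lam v = none → ∀ i, (∀ k, v ∈ A k → k = i) →
        ∃ u ∈ B, G.Adj v u ∧ ∃ j, j ≠ i ∧ lam u = some j

/-- the unlabelled vertices induce a graph of maximum degree at most two -/
theorem centre_deg (hL : LocalData G B A) (hM : Maxi G B A lam) [Nonempty κ] :
    ∀ v ∈ B.filter (fun v => lam v = none),
      ((B.filter (fun v => lam v = none)).filter (fun z => G.Adj v z)).card ≤ 2 := by
  intro v hv
  rw [Finset.mem_filter] at hv
  obtain ⟨hvB, hvn⟩ := hv
  have hdeg := hL.deg v hvB
  have hout := deg_add_out (G := G) (D := B.filter (fun v => lam v = none))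
    (Finset.filter_subset _ B) v
  have hmem : ∀ u ∈ B, G.Adj v u → ∀ j, lam u = some j →
      u ∈ ((B \ B.filter (fun v => lam v = none)).filter (fun z => G.Adj v z)) := by
    intro u hu huv j hj
    rw [Finset.mem_filter, Finset.mem_sdiff, Finset.mem_filter]
    refine ⟨⟨hu, ?_⟩, huv⟩
    rintro ⟨_, h⟩
    rw [hj] at h
    cases h
  by_cases h1 : ∃ i j, i ≠ j ∧ v ∈ A i ∧ v ∈ A j
  · obtain ⟨i, j, hij, hi, hj⟩ := h1
    have h2 : 2 ≤ (univ.filter (fun i => v ∈ A i)).card :=
      two_le_card_of (a := i) (b := j) (by simpa using hi) (by simpa using hj) hij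
    omega
  · push Not at h1
    by_cases h2 : ∃ i, v ∈ A i
    · obtain ⟨i, hi⟩ := h2
      have h3 : 1 ≤ (univ.filter (fun i => v ∈ A i)).card :=
        Finset.card_pos.2 ⟨i, by simpa using hi⟩
      obtain ⟨u, hu, huv, j, _, hj⟩ := hM v hvB hvn i (by
        intro k hk
        by_contra hne
        exact h1 k i hne hk hi)
      have h4 := one_le_card_of (hmem u hu huv j hj)
      omega
    · push Not at h2
      obtain ⟨i0⟩ : Nonempty κ := inferInstance
      obtain ⟨u, hu, huv, j, _, hj⟩ := hM v hvB hvn i0 (fun k hk => absurd hk (h2 k))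
      obtain ⟨u', hu', huv', j', hjj, hj'⟩ := hM v hvB hvn j (fun k hk => absurd hk (h2 k))
      have hne : u ≠ u' := by
        rintro rfl
        rw [hj] at hj'
        exact hjj (Option.some_injective _ hj').symm
      have h4 := two_le_card_of (hmem u hu huv j hj) (hmem u' hu' huv' j' hj') hne
      omega

/-- the bag after eliminating the set `E` on the way from `A i` -/
def stageBag (G : SimpleGraph V) [DecidableRel G.Adj] (B : Finset V) (A : κ → Finset V) (i : κ)
    (E : Finset V) : Finset V :=
  (A i ∪ B.filter (fun z => ∃ e ∈ E, G.Adj e z)) \ E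

theorem mem_stageBag {i : κ} {E : Finset V} {v : V} :
    v ∈ stageBag G B A i E ↔ (v ∈ A i ∨ (v ∈ B ∧ ∃ e ∈ E, G.Adj e v)) ∧ v ∉ E := by
  unfold stageBag
  rw [Finset.mem_sdiff, Finset.mem_union, Finset.mem_filter]

theorem stageBag_sub (hL : LocalData G B A) {i : κ} {E : Finset V} : stageBag G B A i E ⊆ B := by
  intro v hv
  rw [mem_stageBag] at hv
  rcases hv.1 with h | h
  · exact hL.sub i h
  · exact h.1

theorem stageBag_label (hL : LocalData G B A) (hV : Valid G B A lam) {i : κ} {E : Finset V}
    (hE : ∀ e ∈ E, e ∈ B ∧ lam e = some i) {v : V} (hv : v ∈ stageBag G B A i E) :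
    lam v = none ∨ lam v = some i := by
  have hvB := stageBag_sub hL hv
  rw [mem_stageBag] at hv
  cases hl : lam v with
  | none => exact Or.inl rfl
  | some j =>
    right
    rcases hv.1 with h | ⟨_, e, he, hev⟩
    · rw [hV.one v hvB j i hl h]
    · rw [hV.two e (hE e he).1 v hvB hev i j (hE e he).2 hl]

theorem stage_deg (hL : LocalData G B A) (hV : Valid G B A lam) (hM : Maxi G B A lam) {i : κ}
    {E : Finset V} (hE : ∀ e ∈ E, e ∈ B ∧ lam e = some i)
    (hclean : ∀ v ∈ stageBag G B A i E, lam v = some i →
      ∃ z ∈ B, G.Adj v z ∧ z ∉ stageBag G B A i E ∧ z ∉ E) :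
    ∀ v ∈ stageBag G B A i E, ((stageBag G B A i E).filter (fun z => G.Adj v z)).card ≤ 2 := by
  intro v hv
  have hvB := stageBag_sub hL hv
  have hdeg := hL.deg v hvB
  have hout := deg_add_out (G := G) (D := stageBag G B A i E) (stageBag_sub hL) v
  have hmemE : ∀ e ∈ E, G.Adj e v →
      e ∈ ((B \ stageBag G B A i E).filter (fun z => G.Adj v z)) := by
    intro e he hev
    rw [Finset.mem_filter, Finset.mem_sdiff]
    refine ⟨⟨(hE e he).1, ?_⟩, hev.symm⟩
    rw [mem_stageBag]
    tauto
  have hmeml : ∀ u ∈ B, G.Adj v u → ∀ j, j ≠ i → lam u = some j →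
      u ∈ ((B \ stageBag G B A i E).filter (fun z => G.Adj v z)) := by
    intro u hu hvu j hji hj
    rw [Finset.mem_filter, Finset.mem_sdiff]
    refine ⟨⟨hu, fun h => ?_⟩, hvu⟩
    rcases stageBag_label hL hV hE h with h1 | h1
    · rw [hj] at h1; cases h1
    · rw [hj] at h1; exact hji (Option.some_injective _ h1)
  have hcases := (mem_stageBag.1 hv).1
  rcases stageBag_label hL hV hE hv with hl | hl
  · by_cases h1 : ∃ i j, i ≠ j ∧ v ∈ A i ∧ v ∈ A j
    · obtain ⟨i, j, hij, hi, hj⟩ := h1
      have h2 : 2 ≤ (univ.filter (fun i => v ∈ A i)).card :=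
        two_le_card_of (a := i) (b := j) (by simpa using hi) (by simpa using hj) hij
      omega
    · push Not at h1
      by_cases h2 : ∃ k, v ∈ A k
      · obtain ⟨k, hk⟩ := h2
        have h3 : 1 ≤ (univ.filter (fun i => v ∈ A i)).card :=
          Finset.card_pos.2 ⟨k, by simpa using hk⟩
        by_cases hki : k = i
        · subst hki
          obtain ⟨u, hu, huv, j, hji, hj⟩ := hM v hvB hl k (by
            intro k' hk'
            by_contra hne
            exact h1 k' k hne hk' hk)
          have h4 := one_le_card_of (hmeml u hu huv j hji hj)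
          omega
        · have hvi : v ∉ A i := fun h => h1 k i hki hk h
          rcases hcases with h | ⟨_, e, he, hev⟩
          · exact absurd h hvi
          · have h4 := one_le_card_of (hmemE e he hev)
            omega
      · push Not at h2
        rcases hcases with h | ⟨_, e, he, hev⟩
        · exact absurd h (h2 i)
        · obtain ⟨u, hu, huv, j, hji, hj⟩ := hM v hvB hl i (fun k hk => absurd hk (h2 k))
          have hne : e ≠ u := by
            rintro rfl
            rw [(hE e he).2] at hj
            exact hji (Option.some_injective _ hj).symm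
          have h4 := two_le_card_of (hmemE e he hev) (hmeml u hu huv j hji hj) hne
          omega
  · obtain ⟨z, hzB, hvz, hz1, hz2⟩ := hclean v hv hl
    have hzmem : z ∈ ((B \ stageBag G B A i E).filter (fun z => G.Adj v z)) := by
      rw [Finset.mem_filter, Finset.mem_sdiff]
      exact ⟨⟨hzB, hz1⟩, hvz⟩
    by_cases hvi : v ∈ A i
    · have h3 : 1 ≤ (univ.filter (fun i => v ∈ A i)).card :=
        Finset.card_pos.2 ⟨i, by simpa using hvi⟩
      have h4 := one_le_card_of hzmem
      omega
    · rcases hcases with h | ⟨_, e, he, hev⟩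
      · exact absurd h hvi
      · have hne : e ≠ z := by
          rintro rfl
          exact hz2 he
        have h4 := two_le_card_of (hmemE e he hev) hzmem hne
        omega

/-- The sequence of bags from `A i` to the centre. -/
theorem exists_seg (hL : LocalData G B A) (hV : Valid G B A lam) (hM : Maxi G B A lam)
    [Nonempty κ] (i : κ) (E : Finset V) (hE : ∀ e ∈ E, e ∈ B ∧ lam e = some i)
    (hgood : GoodBag G (stageBag G B A i E)) :
    ∃ (m : ℕ) (β : ℕ → Finset V), β 0 = stageBag G B A i E ∧
      β m = B.filter (fun v => lam v = none) ∧ Seg (GoodBag G) m β ∧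
      (∀ l ≤ m, ∀ v ∈ β l, v ∈ B ∧ v ∉ E ∧ (lam v = none ∨ lam v = some i)) ∧
      (∀ w ∈ B, lam w = some i → w ∉ E → ∃ l ≤ m, w ∈ β l) ∧
      (∀ w ∈ B, lam w = some i → w ∉ E → ∀ z ∈ B, G.Adj w z → z ∉ E →
        ∃ l ≤ m, w ∈ β l ∧ z ∈ β l) := by
  induction hN : ((B.filter (fun v => lam v = some i)) \ E).card using Nat.strong_induction_on
    generalizing E with
  | _ N ih =>
    have hsubE : ∀ v ∈ stageBag G B A i E, v ∉ E := fun v hv => (mem_stageBag.1 hv).2
    by_cases hdone : ((B.filter (fun v => lam v = some i)) \ E) = ∅
    · -- everything has been eliminated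
      have hall : ∀ w ∈ B, lam w = some i → w ∈ E := by
        intro w hw hl
        by_contra hwE
        have : w ∈ ((B.filter (fun v => lam v = some i)) \ E) := by
          rw [Finset.mem_sdiff, Finset.mem_filter]; exact ⟨⟨hw, hl⟩, hwE⟩
        rw [hdone] at this
        exact absurd this (Finset.notMem_empty _)
      have hsubC : stageBag G B A i E ⊆ B.filter (fun v => lam v = none) := by
        intro v hv
        rw [Finset.mem_filter]
        refine ⟨stageBag_sub hL hv, ?_⟩
        rcases stageBag_label hL hV hE hv with h | h
        · exact h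
        · exact absurd (hall v (stageBag_sub hL hv) h) (hsubE v hv)
      refine ⟨1, consSeq (stageBag G B A i E) (fun _ => B.filter (fun v => lam v = none)),
        rfl, rfl, ?_, ?_, ?_, ?_⟩
      · have h1 : Seg (GoodBag G) 0 (fun _ => B.filter (fun v => lam v = none)) :=
          ⟨fun _ _ => GoodBag.of_deg (centre_deg hL hM), fun _ _ _ _ _ _ _ h _ => h⟩
        exact h1.cons hgood (fun _ _ _ _ h => h)
      · intro l _ v hv
        cases l with
        | zero => exact ⟨stageBag_sub hL hv, hsubE v hv, stageBag_label hL hV hE hv⟩
        | succ l =>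
          rw [consSeq_succ, Finset.mem_filter] at hv
          refine ⟨hv.1, fun h => ?_, Or.inl hv.2⟩
          rw [(hE v h).2] at hv
          cases hv.2
      · intro w hw hl hwE
        exact absurd (hall w hw hl) hwE
      · intro w hw hl hwE
        exact absurd (hall w hw hl) hwE
    · by_cases hcompl : ∃ v ∈ stageBag G B A i E, lam v = some i ∧
          ∀ z ∈ B, G.Adj v z → z ∈ stageBag G B A i E ∨ z ∈ E
      · -- some vertex can be dropped
        obtain ⟨v, hv, hvl, hvN⟩ := hcompl
        have hvB := stageBag_sub hL hv
        have hvE := hsubE v hv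
        have hE' : ∀ e ∈ insert v E, e ∈ B ∧ lam e = some i := by
          intro e he
          rw [Finset.mem_insert] at he
          rcases he with rfl | he
          · exact ⟨hvB, hvl⟩
          · exact hE e he
        have hsub' : stageBag G B A i (insert v E) ⊆ stageBag G B A i E := by
          intro z hz
          rw [mem_stageBag, Finset.mem_insert, not_or] at hz
          obtain ⟨hz1, hz2, hz3⟩ := hz
          rcases hz1 with h | ⟨hzB, e, he, hez⟩
          · rw [mem_stageBag]; exact ⟨Or.inl h, hz3⟩
          · rw [Finset.mem_insert] at he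
            rcases he with rfl | he
            · rcases hvN z hzB hez with h | h
              · exact h
              · exact absurd h hz3
            · rw [mem_stageBag]; exact ⟨Or.inr ⟨hzB, e, he, hez⟩, hz3⟩
        have hback : ∀ z ∈ stageBag G B A i E, z ≠ v → z ∈ stageBag G B A i (insert v E) := by
          intro z hz hzv
          rw [mem_stageBag] at hz ⊢
          refine ⟨?_, by rw [Finset.mem_insert]; tauto⟩
          rcases hz.1 with h | ⟨hzB, e, he, hez⟩
          · exact Or.inl h
          · exact Or.inr ⟨hzB, e, Finset.mem_insert_of_mem he, hez⟩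
        have hlt : ((B.filter (fun v => lam v = some i)) \ insert v E).card < N := by
          rw [← hN]
          apply Finset.card_lt_card
          rw [Finset.ssubset_iff_of_subset (Finset.sdiff_subset_sdiff (Finset.Subset.refl _)
            (Finset.subset_insert _ _))]
          refine ⟨v, ?_, ?_⟩
          · rw [Finset.mem_sdiff, Finset.mem_filter]; exact ⟨⟨hvB, hvl⟩, hvE⟩
          · rw [Finset.mem_sdiff]; simp
        obtain ⟨m, β, h0, hm, hseg, hprop, hcov, hedge⟩ :=
          ih _ hlt (insert v E) hE' (hgood.mono hsub') rfl
        refine ⟨m + 1, consSeq (stageBag G B A i E) β, rfl, hm,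
          hseg.cons hgood ?_, ?_, ?_, ?_⟩
        · intro z hz l hl hzl
          rw [h0]
          apply hback z hz
          rintro rfl
          exact (hprop l hl z hzl).2.1 (Finset.mem_insert_self _ _)
        · intro l hl z hz
          cases l with
          | zero => exact ⟨stageBag_sub hL hz, hsubE z hz, stageBag_label hL hV hE hz⟩
          | succ l =>
            obtain ⟨h1, h2, h3⟩ := hprop l (by omega) z hz
            exact ⟨h1, fun h => h2 (Finset.mem_insert_of_mem h), h3⟩
        · intro w hw hwl hwE
          by_cases hwv : w = v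
          · exact ⟨0, by omega, hwv ▸ hv⟩
          · obtain ⟨l, hl, hwl'⟩ := hcov w hw hwl (by rw [Finset.mem_insert]; tauto)
            exact ⟨l + 1, by omega, hwl'⟩
        · intro w hw hwl hwE z hz hwz hzE
          by_cases hwv : w = v
          · subst hwv
            refine ⟨0, by omega, hv, ?_⟩
            rcases hvN z hz hwz with h | h
            · exact h
            · exact absurd h hzE
          · by_cases hzv : z = v
            · subst hzv
              refine ⟨0, by omega, ?_, hv⟩
              rcases hvN w hw hwz.symm with h | h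
              · exact h
              · exact absurd h hwE
            · obtain ⟨l, hl, h1, h2⟩ := hedge w hw hwl (by rw [Finset.mem_insert]; tauto) z hz hwz
                (by rw [Finset.mem_insert]; tauto)
              exact ⟨l + 1, by omega, h1, h2⟩
      · -- clean stage: eliminate a new vertex
        push Not at hcompl
        have hclean : ∀ v ∈ stageBag G B A i E, lam v = some i →
            ∃ z ∈ B, G.Adj v z ∧ z ∉ stageBag G B A i E ∧ z ∉ E := hcompl
        have hdeg := stage_deg hL hV hM hE hclean
        obtain ⟨w, hw⟩ := Finset.nonempty_iff_ne_empty.2 hdone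
        rw [Finset.mem_sdiff, Finset.mem_filter] at hw
        obtain ⟨⟨hwB, hwl⟩, hwE⟩ := hw
        obtain ⟨M, hM'⟩ : ∃ M, M = stageBag G B A i E ∪
            insert w ((B.filter (fun z => G.Adj w z)) \ E) := ⟨_, rfl⟩
        have hMgood : GoodBag G M := by
          refine ⟨stageBag G B A i E, insert w ((B.filter (fun z => G.Adj w z)) \ E),
            by rw [hM'], hdeg, ?_⟩
          refine (Finset.card_insert_le _ _).trans ?_
          have h1 := hL.deg w hwB
          have h2 : ((B.filter (fun z => G.Adj w z)) \ E).card ≤
            (B.filter (fun z => G.Adj w z)).card := Finset.card_le_card Finset.sdiff_subset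
          omega
        have hE' : ∀ e ∈ insert w E, e ∈ B ∧ lam e = some i := by
          intro e he
          rw [Finset.mem_insert] at he
          rcases he with rfl | he
          · exact ⟨hwB, hwl⟩
          · exact hE e he
        have hsub' : stageBag G B A i (insert w E) ⊆ M := by
          intro z hz
          rw [mem_stageBag, Finset.mem_insert, not_or] at hz
          obtain ⟨hz1, hz2, hz3⟩ := hz
          rw [hM', Finset.mem_union, Finset.mem_insert, Finset.mem_sdiff, Finset.mem_filter]
          rcases hz1 with h | ⟨hzB, e, he, hez⟩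
          · left; rw [mem_stageBag]; exact ⟨Or.inl h, hz3⟩
          · rw [Finset.mem_insert] at he
            rcases he with rfl | he
            · right; right; exact ⟨⟨hzB, hez⟩, hz3⟩
            · left; rw [mem_stageBag]; exact ⟨Or.inr ⟨hzB, e, he, hez⟩, hz3⟩
        have hback : ∀ z ∈ M, z ≠ w → z ∈ stageBag G B A i (insert w E) := by
          intro z hz hzw
          rw [hM', Finset.mem_union, Finset.mem_insert, Finset.mem_sdiff, Finset.mem_filter] at hz
          rw [mem_stageBag, Finset.mem_insert, not_or]
          rcases hz with hz | hz | hz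
          · rw [mem_stageBag] at hz
            refine ⟨?_, hzw, hz.2⟩
            rcases hz.1 with h | ⟨hzB, e, he, hez⟩
            · exact Or.inl h
            · exact Or.inr ⟨hzB, e, Finset.mem_insert_of_mem he, hez⟩
          · exact absurd hz hzw
          · exact ⟨Or.inr ⟨hz.1.1, w, Finset.mem_insert_self _ _, hz.1.2⟩, hzw, hz.2⟩
        have hlt : ((B.filter (fun v => lam v = some i)) \ insert w E).card < N := by
          rw [← hN]
          apply Finset.card_lt_card
          rw [Finset.ssubset_iff_of_subset (Finset.sdiff_subset_sdiff (Finset.Subset.refl _)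
            (Finset.subset_insert _ _))]
          refine ⟨w, ?_, ?_⟩
          · rw [Finset.mem_sdiff, Finset.mem_filter]; exact ⟨⟨hwB, hwl⟩, hwE⟩
          · rw [Finset.mem_sdiff]; simp
        obtain ⟨m, β, h0, hm, hseg, hprop, hcov, hedge⟩ :=
          ih _ hlt (insert w E) hE' (hMgood.mono hsub') rfl
        have hseg1 : Seg (GoodBag G) (m + 1) (consSeq M β) := by
          apply hseg.cons hMgood
          intro z hz l hl hzl
          rw [h0]
          apply hback z hz
          rintro rfl
          exact (hprop l hl z hzl).2.1 (Finset.mem_insert_self _ _)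
        have hMB : ∀ z ∈ M, z ∈ B ∧ z ∉ E ∧ (lam z = none ∨ lam z = some i) := by
          intro z hz
          by_cases hzw : z = w
          · rw [hzw]; exact ⟨hwB, hwE, Or.inr hwl⟩
          · have h1 := hback z hz hzw
            have h2 := (mem_stageBag.1 h1).2
            exact ⟨stageBag_sub hL h1, fun h => h2 (Finset.mem_insert_of_mem h),
              stageBag_label hL hV hE' h1⟩
        have hwM : w ∈ M := by rw [hM']; simp
        have hNM : ∀ z ∈ B, G.Adj w z → z ∉ E → z ∈ M := by
          intro z hz hwz hzE
          rw [hM', Finset.mem_union, Finset.mem_insert, Finset.mem_sdiff, Finset.mem_filter]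
          right; right; exact ⟨⟨hz, hwz⟩, hzE⟩
        refine ⟨m + 1 + 1, consSeq (stageBag G B A i E) (consSeq M β), rfl, hm,
          hseg1.cons hgood ?_, ?_, ?_, ?_⟩
        · intro z hz l hl hzl
          show z ∈ M
          rw [hM', Finset.mem_union]
          exact Or.inl hz
        · intro l hl z hz
          match l, hl, hz with
          | 0, hl, hz => exact ⟨stageBag_sub hL hz, hsubE z hz, stageBag_label hL hV hE hz⟩
          | 1, hl, hz => exact hMB z hz
          | l + 2, hl, hz =>
            obtain ⟨h1, h2, h3⟩ := hprop l (by omega) z hz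
            exact ⟨h1, fun h => h2 (Finset.mem_insert_of_mem h), h3⟩
        · intro x hx hxl hxE
          by_cases hxw : x = w
          · exact ⟨1, by omega, hxw ▸ hwM⟩
          · obtain ⟨l, hl, hwl'⟩ := hcov x hx hxl (by rw [Finset.mem_insert]; tauto)
            exact ⟨l + 1 + 1, by omega, hwl'⟩
        · intro x hx hxl hxE z hz hxz hzE
          by_cases hxw : x = w
          · subst hxw
            exact ⟨1, by omega, hwM, hNM z hz hxz hzE⟩
          · by_cases hzw : z = w
            · subst hzw
              exact ⟨1, by omega, hNM x hx hxz.symm hxE, hwM⟩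
            · obtain ⟨l, hl, h1, h2⟩ := hedge x hx hxl (by rw [Finset.mem_insert]; tauto) z hz hxz
                (by rw [Finset.mem_insert]; tauto)
              exact ⟨l + 1 + 1, by omega, h1, h2⟩

end seg

end Pool.Agent.R37
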