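import Mathlib
import Pool.Agent.R37.LocalFour

set_option autoImplicit false
set_option linter.unusedSectionVars false

/-!
Gluing the local decompositions of the bags.
-/

namespace Pool.Agent.R37

open Finset

variable {V : Type} [Fintype V] [DecidableEq V] {κ : Type} [Fintype κ] [DecidableEq κ]
  {G : SimpleGraph V} [DecidableRel G.Adj]

theorem Seg.imp {Q Q' : Finset V → Prop} {m : ℕ} {β : ℕ → Finset V} (h : Seg Q m β)
    (hQ : ∀ l ≤ m, Q (β l) → Q' (β l)) : Seg Q' m β :=
  ⟨fun l hl => hQ l hl (h.good l hl), h.interval⟩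

theorem node_step {B : Finset V} {A : κ → Finset V} (hL : LocalData G B A) {k : ℕ}
    (hk : B.card ≤ k) (t : κ) {U : Finset V} {F : Set (Finset V)}
    (hC : Cov (fun D => D.card ≤ k ∧ GoodBag G D) U F) (ht : A t ∈ F)
    (hU : ∀ v ∈ U, v ∈ B → v ∈ A t) :
    Cov (fun D => D.card ≤ k ∧ GoodBag G D) (U ∪ B)
      (F ∪ {S | (∃ i, S = A i) ∨ ∃ u ∈ B, ∃ v ∈ B, G.Adj u v ∧ S = {u, v}}) := by
  classical
  have : Nonempty κ := ⟨t⟩
  obtain ⟨lam, hV, hM⟩ := exists_labelling G B A
  have hstart : ∀ i, stageBag G B A i ∅ = A i := by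
    intro i
    ext v
    rw [mem_stageBag]
    simp
  have hseg : ∀ i, ∃ (m : ℕ) (β : ℕ → Finset V), β 0 = stageBag G B A i ∅ ∧
      β m = B.filter (fun v => lam v = none) ∧ Seg (GoodBag G) m β ∧
      (∀ l ≤ m, ∀ v ∈ β l, v ∈ B ∧ v ∉ (∅ : Finset V) ∧ (lam v = none ∨ lam v = some i)) ∧
      (∀ w ∈ B, lam w = some i → w ∉ (∅ : Finset V) → ∃ l ≤ m, w ∈ β l) ∧
      (∀ w ∈ B, lam w = some i → w ∉ (∅ : Finset V) → ∀ z ∈ B, G.Adj w z →
        z ∉ (∅ : Finset V) → ∃ l ≤ m, w ∈ β l ∧ z ∈ β l) := by
    intro i
    apply exists_seg hL hV hM i ∅ (by simp)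
    apply GoodBag.of_deg
    apply stage_deg hL hV hM (by simp)
    intro v hv hl
    rw [hstart] at hv
    obtain ⟨z, hz1, hz2, hz3⟩ := hL.out i v hv (fun k hk => hV.one v (hL.sub i hv) i k hl hk)
    exact ⟨z, hz1, hz3, by rw [hstart]; exact hz2, by simp⟩
  choose m β h0 hm hS hprop hcov hedge using hseg
  have hSeg : ∀ i, Seg (fun D => D.card ≤ k ∧ GoodBag G D) (m i) (β i) := by
    intro i
    apply (hS i).imp
    intro l hl h
    exact ⟨(Finset.card_le_card (fun v hv => (hprop i l hl v hv).1)).trans hk, h⟩
  -- the union of the bags of segment `i`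
  obtain ⟨W, hW⟩ : ∃ W : κ → Finset V, W = fun i => (Finset.range (m i + 1)).biUnion (β i) :=
    ⟨_, rfl⟩
  have hmemW : ∀ i v, v ∈ W i ↔ ∃ l ≤ m i, v ∈ β i l := by
    intro i v
    rw [hW]
    simp only [Finset.mem_biUnion, Finset.mem_range]
    constructor
    · rintro ⟨l, hl, h⟩; exact ⟨l, by omega, h⟩
    · rintro ⟨l, hl, h⟩; exact ⟨l, by omega, h⟩
  have hfirst : Cov (fun D => D.card ≤ k ∧ GoodBag G D) (U ∪ W t)
      (F ∪ {S' | ∃ l ≤ m t, S' ⊆ β t l}) := by
    rw [hW]
    apply hC.addSeg ht (hSeg t)
    intro v hv l hl hvl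
    have h1 := hU v hv (hprop t l hl v hvl).1
    rw [h0, hstart]
    exact ⟨h1, h1⟩
  have hall : ∀ J : Finset κ, t ∉ J → Cov (fun D => D.card ≤ k ∧ GoodBag G D)
      (U ∪ W t ∪ J.biUnion W) (F ∪ {S' | ∃ j, (j = t ∨ j ∈ J) ∧ ∃ l ≤ m j, S' ⊆ β j l}) := by
    intro J
    induction J using Finset.induction_on with
    | empty =>
      intro _
      have h1 : U ∪ W t ∪ (∅ : Finset κ).biUnion W = U ∪ W t := by simp
      rw [h1]
      apply hfirst.mono
      rintro S (hS | ⟨j, hj | hj, l, hl, hS⟩)
      · exact Or.inl hS
      · subst hj; exact Or.inr ⟨l, hl, hS⟩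
      · exact absurd hj (Finset.notMem_empty _)
    | @insert i J hi ih =>
      intro htJ
      rw [Finset.mem_insert, not_or] at htJ
      have h1 := ih htJ.2
      have h2 := h1.addSeg (S := β t (m t)) (Or.inr ⟨t, Or.inl rfl, m t, le_rfl, Finset.Subset.refl _⟩)
        (hSeg i).reverse (by
          intro v hv l hl hvl
          obtain ⟨hvB, _, hlab⟩ := hprop i (m i - l) (by omega) v hvl
          have hnone : lam v = none := by
            rcases hlab with h | h
            · exact h
            · exfalso
              rw [Finset.mem_union, Finset.mem_union, Finset.mem_biUnion] at hv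
              rcases hv with (hv | hv) | ⟨j, hj, hv⟩
              · exact htJ.1 (hV.one v hvB i t h (hU v hv hvB))
              · rw [hmemW] at hv
                obtain ⟨l', hl', hv⟩ := hv
                rcases (hprop t l' hl' v hv).2.2 with h' | h'
                · rw [h] at h'; cases h'
                · rw [h] at h'; exact htJ.1 (Option.some_injective _ h').symm
              · rw [hmemW] at hv
                obtain ⟨l', hl', hv⟩ := hv
                rcases (hprop j l' hl' v hv).2.2 with h' | h'
                · rw [h] at h'; cases h'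
                · rw [h] at h'
                  exact hi ((Option.some_injective _ h') ▸ hj)
          show v ∈ β i (m i - 0) ∧ v ∈ β t (m t)
          rw [Nat.sub_zero, hm, hm, Finset.mem_filter]
          exact ⟨⟨hvB, hnone⟩, hvB, hnone⟩)
      have h3 : U ∪ W t ∪ (insert i J).biUnion W = U ∪ W t ∪ J.biUnion W ∪
          (Finset.range (m i + 1)).biUnion (fun l => β i (m i - l)) := by
        rw [Finset.biUnion_insert]
        ext v
        simp only [Finset.mem_union]
        have h4 : v ∈ W i ↔ v ∈ (Finset.range (m i + 1)).biUnion (fun l => β i (m i - l)) := by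
          rw [hmemW, Finset.mem_biUnion]
          constructor
          · rintro ⟨l, hl, h⟩
            refine ⟨m i - l, Finset.mem_range.2 (by omega), ?_⟩
            have : m i - (m i - l) = l := by omega
            rw [this]; exact h
          · rintro ⟨l, hl, h⟩
            exact ⟨m i - l, by omega, h⟩
        rw [← h4]
        tauto
      rw [h3]
      apply h2.mono
      rintro S (hS | ⟨j, hj, l, hl, hS⟩)
      · exact Or.inl (Or.inl hS)
      · by_cases hji : j = i
        · subst hji
          refine Or.inr ⟨m j - l, by omega, ?_⟩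
          have : m j - (m j - l) = l := by omega
          show S ⊆ β j (m j - (m j - l))
          rw [this]; exact hS
        · refine Or.inl (Or.inr ⟨j, ?_, l, hl, hS⟩)
          rcases hj with hj | hj
          · exact Or.inl hj
          · rw [Finset.mem_insert] at hj
            tauto
  have hfin := hall (univ.erase t) (Finset.notMem_erase _ _)
  have hUB : U ∪ W t ∪ (univ.erase t).biUnion W = U ∪ B := by
    ext v
    rw [Finset.mem_union, Finset.mem_union, Finset.mem_union, Finset.mem_biUnion]
    constructor
    · rintro ((h | h) | ⟨j, _, h⟩)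
      · exact Or.inl h
      · rw [hmemW] at h
        obtain ⟨l, hl, h⟩ := h
        exact Or.inr (hprop t l hl v h).1
      · rw [hmemW] at h
        obtain ⟨l, hl, h⟩ := h
        exact Or.inr (hprop j l hl v h).1
    · rintro (h | h)
      · exact Or.inl (Or.inl h)
      · cases hl : lam v with
        | none =>
          left; right
          rw [hmemW]
          exact ⟨m t, le_rfl, by rw [hm, Finset.mem_filter]; exact ⟨h, hl⟩⟩
        | some j =>
          have h1 : v ∈ W j := by
            rw [hmemW]
            exact hcov j v h hl (by simp)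
          by_cases hj : j = t
          · subst hj; exact Or.inl (Or.inr h1)
          · exact Or.inr ⟨j, Finset.mem_erase.2 ⟨hj, Finset.mem_univ _⟩, h1⟩
  rw [hUB] at hfin
  apply hfin.mono
  have hany : ∀ j, j = t ∨ j ∈ (univ : Finset κ).erase t := by
    intro j
    by_cases h : j = t
    · exact Or.inl h
    · exact Or.inr (Finset.mem_erase.2 ⟨h, Finset.mem_univ _⟩)
  rintro S (hS | ⟨i, rfl⟩ | ⟨u, hu, v, hv, huv, rfl⟩)
  · exact Or.inl hS
  · refine Or.inr ⟨i, hany i, 0, by omega, ?_⟩
    rw [h0, hstart]
  · have pair : ∀ (D : Finset V), u ∈ D → v ∈ D → ({u, v} : Finset V) ⊆ D := by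
      intro D h1 h2 z hz
      rw [Finset.mem_insert, Finset.mem_singleton] at hz
      rcases hz with rfl | rfl
      · exact h1
      · exact h2
    cases hlu : lam u with
    | some i =>
      obtain ⟨l, hl, h1, h2⟩ := hedge i u hu hlu (by simp) v hv huv (by simp)
      exact Or.inr ⟨i, hany i, l, hl, pair _ h1 h2⟩
    | none =>
      cases hlv : lam v with
      | some i =>
        obtain ⟨l, hl, h1, h2⟩ := hedge i v hv hlv (by simp) u hu huv.symm (by simp)
        exact Or.inr ⟨i, hany i, l, hl, pair _ h2 h1⟩
      | none =>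
        refine Or.inr ⟨t, hany t, m t, le_rfl, ?_⟩
        rw [hm]
        apply pair
        · rw [Finset.mem_filter]; exact ⟨hu, hlu⟩
        · rw [Finset.mem_filter]; exact ⟨hv, hlv⟩

/-- From a minimal tree decomposition with bags of size at most `k` of a graph of maximum degree at
most four one gets one all whose bags are good. -/
theorem exists_good_td (hdeg : ∀ v, G.degree v ≤ 4) {k : ℕ}
    (hex : ∃ (n : ℕ) (T : SimpleGraph (Fin n)) (X : Fin n → Finset V),
      IsTreeDecomposition G T X ∧ ∀ t, (X t).card ≤ k) :
    ∃ (n : ℕ) (T : SimpleGraph (Fin n)) (X : Fin n → Finset V),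
      IsTreeDecomposition G T X ∧ ∀ t, (X t).card ≤ k ∧ GoodBag G (X t) := by
  classical
  obtain ⟨n, T, X, hTD, hk, hmin⟩ := exists_minimal_td hex
  obtain ⟨r⟩ := hTD.isTree.connected.nonempty
  obtain ⟨R, hR⟩ := exists_rooting hTD.isTree r
  have hLD : ∀ s, LocalData G (X s) (adh T X s) := by
    intro s
    refine ⟨?_, ?_, ?_⟩
    · intro i v hv
      rw [mem_adh] at hv
      exact hv.2.1
    · intro v _
      exact (local_one hTD R (hmin R) s v).trans (hdeg v)
    · intro i v hv hu
      exact local_two hTD R (hmin R) hv hu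
  -- process the nodes from the root
  have main : ∀ j ≤ n, ∃ D : Finset (Fin n), D.card = j ∧ (∀ s ∈ D, R.par s ∈ D) ∧
      Cov (fun D => D.card ≤ k ∧ GoodBag G D) (D.biUnion X)
        ({∅} ∪ {S | ∃ s ∈ D, (∃ i, S = adh T X s i) ∨
          ∃ u ∈ X s, ∃ v ∈ X s, G.Adj u v ∧ S = {u, v}}) := by
    intro j
    induction j with
    | zero =>
      intro _
      refine ⟨∅, by simp, by simp, ?_⟩
      have h1 : Cov (fun D => D.card ≤ k ∧ GoodBag G D) (∅ : Finset V) {S | S ⊆ ∅} := by
        apply Cov.single
        refine ⟨by simp, GoodBag.of_deg ?_⟩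
        intro v hv
        exact absurd hv (Finset.notMem_empty _)
      rw [Finset.biUnion_empty]
      apply h1.mono
      rintro S (hS | ⟨s, hs, _⟩)
      · rw [Set.mem_singleton_iff] at hS
        rw [hS]
        exact Finset.Subset.refl _
      · exact absurd hs (Finset.notMem_empty _)
    | succ j ih =>
      intro hj
      obtain ⟨D, hD1, hD2, hD3⟩ := ih (by omega)
      have hne : (univ \ D).Nonempty := by
        rw [← Finset.card_pos, Finset.card_sdiff_of_subset (Finset.subset_univ _),
          Finset.card_univ, Fintype.card_fin]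
        omega
      obtain ⟨s, hs, hsmin⟩ := Finset.exists_min_image (univ \ D) R.dep hne
      rw [Finset.mem_sdiff] at hs
      have hsD := hs.2
      have hbelow : ∀ x ∈ D, x ∉ below R s := by
        intro x hx hxs
        rw [mem_below] at hxs
        obtain ⟨a, ha⟩ := hxs
        have : ∀ a x, x ∈ D → R.par^[a] x ∈ D := by
          intro a
          induction a with
          | zero => intro x hx; exact hx
          | succ a ih => intro x hx; rw [Function.iterate_succ_apply]; exact ih _ (hD2 x hx)
        exact hsD (ha ▸ this a x hx)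
      have hparD : s ≠ R.root → R.par s ∈ D := by
        intro hsr
        by_contra hp
        have h1 := hsmin (R.par s) (by rw [Finset.mem_sdiff]; exact ⟨Finset.mem_univ _, hp⟩)
        have h2 := R.dep_par s hsr
        omega
      -- the label towards the parent
      obtain ⟨t, htF, htU⟩ : ∃ t, adh T X s t ∈ ({∅} ∪ {S | ∃ s ∈ D, (∃ i, S = adh T X s i) ∨
          ∃ u ∈ X s, ∃ v ∈ X s, G.Adj u v ∧ S = {u, v}} : Set (Finset V)) ∧
          ∀ v ∈ D.biUnion X, v ∈ X s → v ∈ adh T X s t := by
        by_cases hsr : s = R.root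
        · refine ⟨s, ?_, ?_⟩
          · left
            rw [Set.mem_singleton_iff]
            unfold adh
            rw [if_neg (T.loopless.irrefl s)]
          · intro v hv _
            rw [Finset.mem_biUnion] at hv
            obtain ⟨x, hx, _⟩ := hv
            exfalso
            apply hbelow x hx
            rw [hsr]
            have key : ∀ n, ∀ x, R.dep x = n → x ∈ below R R.root := by
              intro n
              induction n with
              | zero => intro x hx; rw [R.eq_root x hx]; exact self_mem_below R _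
              | succ n ih =>
                intro x hx
                have hx' : x ≠ R.root := R.ne_root_of_dep (by omega)
                have h1 := R.dep_par x hx'
                exact below_step R (ih (R.par x) (by omega))
            exact key _ x rfl
        · refine ⟨R.par s, ?_, ?_⟩
          · right
            refine ⟨R.par s, hparD hsr, Or.inl ⟨s, ?_⟩⟩
            ext v
            rw [mem_adh, mem_adh, SimpleGraph.adj_comm]
            tauto
          · intro v hv hvs
            rw [Finset.mem_biUnion] at hv
            obtain ⟨x, hx, hvx⟩ := hv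
            have hadj : T.Adj (R.par s) s := (R.adj_par s hsr).symm
            have h1 := mem_of_crossing R (hTD.connected v) hadj
              (show s ∈ {t : Fin n | v ∈ X t} from hvs) (mem_side_self R hadj)
              (show x ∈ {t : Fin n | v ∈ X t} from hvx) (by
                rw [side_child R ⟨hsr, rfl⟩]; exact hbelow x hx)
            rw [mem_adh]
            exact ⟨hadj.symm, hvs, h1.2⟩
      have hstep := node_step (hLD s) (hk s) t hD3 htF htU
      refine ⟨insert s D, ?_, ?_, ?_⟩
      · rw [Finset.card_insert_of_notMem hsD, hD1]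
      · intro x hx
        rw [Finset.mem_insert] at hx ⊢
        rcases hx with rfl | hx
        · by_cases hsr : x = R.root
          · left; rw [hsr]; exact R.par_root
          · exact Or.inr (hparD hsr)
        · exact Or.inr (hD2 x hx)
      · rw [Finset.biUnion_insert, Finset.union_comm]
        apply hstep.mono
        rintro S (hS | ⟨x, hx, hS⟩)
        · exact Or.inl (Or.inl hS)
        · rw [Finset.mem_insert] at hx
          rcases hx with rfl | hx
          · exact Or.inr hS
          · exact Or.inl (Or.inr ⟨x, hx, hS⟩)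
  obtain ⟨D, hD1, _, hD3⟩ := main n le_rfl
  have hDuniv : D = univ := by
    rw [← Finset.card_eq_iff_eq_univ, hD1, Fintype.card_fin]
  subst hDuniv
  have hU : (univ : Finset (Fin n)).biUnion X = univ := by
    ext v
    obtain ⟨t, ht⟩ := hTD.vertex_mem v
    simp only [Finset.mem_biUnion, Finset.mem_univ, true_and, iff_true]
    exact ⟨t, ht⟩
  rw [hU] at hD3
  apply hD3.exists_td (G := G)
  intro u v huv
  obtain ⟨t, ht1, ht2⟩ := hTD.edge_mem u v huv
  exact Or.inr ⟨t, Finset.mem_univ _, Or.inr ⟨u, ht1, v, ht2, huv, rfl⟩⟩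

end Pool.Agent.R37
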