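import Mathlib

set_option autoImplicit false

/-!
Contraction sequences (as partition sequences), red graphs, bandwidth and reduced bandwidth.
-/

namespace Pool.Agent.R37

/-- The partition `s'` arises from the partition `s` by merging two distinct parts, those of `u`
and `v`. -/
def IsMerge {V : Type} (s s' : Setoid V) : Prop :=
  ∃ u v, ¬ s u v ∧ ∀ x y, s' x y ↔ s x y ∨ (s x u ∧ s y v) ∨ (s x v ∧ s y u)

/-- A contraction sequence of a graph with vertex set `V` of size `N`, given by the partitions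
`s 0, s 1, …, s (N - 1)` of `V` into the vertices of the trigraphs `T_N, T_{N-1}, …, T_1`. -/
structure IsContractionSeq {V : Type} [Fintype V] (s : ℕ → Setoid V) : Prop where
  start : s 0 = ⊥
  merge : ∀ i, i + 1 < Fintype.card V → IsMerge (s i) (s (i + 1))
  last : s (Fintype.card V - 1) = ⊤

/-- The red graph of the trigraph obtained from `G` by contracting the parts of `s`: two distinct
parts are joined by a red edge iff some but not all pairs between them are edges of `G`. -/
def redGraph {V : Type} (G : SimpleGraph V) (s : Setoid V) : SimpleGraph (Quotient s) where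
  Adj X Y := X ≠ Y ∧ (∃ x y : V, Quotient.mk s x = X ∧ Quotient.mk s y = Y ∧ G.Adj x y) ∧
    (∃ x y : V, Quotient.mk s x = X ∧ Quotient.mk s y = Y ∧ ¬ G.Adj x y)
  symm := ⟨by
    rintro X Y ⟨h1, ⟨x, y, hx, hy, h⟩, ⟨x', y', hx', hy', h'⟩⟩
    exact ⟨h1.symm, ⟨y, x, hy, hx, h.symm⟩, ⟨y', x', hy', hx', fun h2 => h' h2.symm⟩⟩⟩
  loopless := ⟨fun X h => h.1 rfl⟩

/-- The bandwidth of a finite graph. -/
noncomputable def bandwidth {W : Type} (H : SimpleGraph W) : ℕ :=
  sInf {b : ℕ | ∃ σ : W ≃ Fin (Nat.card W), ∀ u v, H.Adj u v →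
    |((σ u : ℕ) : ℤ) - ((σ v : ℕ) : ℤ)| ≤ b}

/-- The reduced bandwidth of a finite graph: the minimum over contraction sequences of the largest
bandwidth of a red graph. -/
noncomputable def reducedBandwidth {V : Type} [Fintype V] (G : SimpleGraph V) : ℕ :=
  sInf {b : ℕ | ∃ s : ℕ → Setoid V, IsContractionSeq s ∧
    ∀ i < Fintype.card V, bandwidth (redGraph G (s i)) ≤ b}

theorem exists_bandwidth {W : Type} [Finite W] (H : SimpleGraph W) :
    ∃ σ : W ≃ Fin (Nat.card W), ∀ u v, H.Adj u v →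
      |((σ u : ℕ) : ℤ) - ((σ v : ℕ) : ℤ)| ≤ bandwidth H := by
  have h : {b : ℕ | ∃ σ : W ≃ Fin (Nat.card W), ∀ u v, H.Adj u v →
      |((σ u : ℕ) : ℤ) - ((σ v : ℕ) : ℤ)| ≤ b}.Nonempty := by
    refine ⟨Nat.card W, Finite.equivFin W, fun u v _ => ?_⟩
    have h1 := (Finite.equivFin W u).2
    have h2 := (Finite.equivFin W v).2
    rw [abs_le]
    constructor <;> omega
  exact Nat.sInf_mem h

/-- the partition whose only possibly nontrivial part is `{x | e x ≤ i}` -/
def initSetoid {V : Type} (e : V → ℕ) (i : ℕ) : Setoid V where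
  r x y := x = y ∨ (e x ≤ i ∧ e y ≤ i)
  iseqv := ⟨fun x => Or.inl rfl, by
    rintro x y (h | ⟨h, h'⟩)
    · exact Or.inl h.symm
    · exact Or.inr ⟨h', h⟩, by
    rintro x y z (h | ⟨h1, h2⟩) (h' | ⟨h3, h4⟩)
    · exact Or.inl (h.trans h')
    · exact Or.inr ⟨h ▸ h3, h4⟩
    · exact Or.inr ⟨h1, h' ▸ h2⟩
    · exact Or.inr ⟨h1, h4⟩⟩

theorem initSetoid_iff {V : Type} (e : V → ℕ) (i : ℕ) (x y : V) :
    initSetoid e i x y ↔ x = y ∨ (e x ≤ i ∧ e y ≤ i) := Iff.rfl

theorem exists_contractionSeq (V : Type) [Fintype V] : ∃ s : ℕ → Setoid V, IsContractionSeq s := by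
  classical
  obtain ⟨e⟩ : Nonempty (V ≃ Fin (Fintype.card V)) := ⟨Fintype.equivFin V⟩
  have hinj : ∀ x y, (e x : ℕ) = (e y : ℕ) → x = y := fun x y h => e.injective (Fin.ext h)
  refine ⟨fun i => initSetoid (fun x => (e x : ℕ)) i, ?_, ?_, ?_⟩
  · ext x y
    rw [initSetoid_iff, Setoid.bot_def]
    constructor
    · rintro (h | ⟨h1, h2⟩)
      · exact h
      · exact hinj x y (by omega)
    · intro h; exact Or.inl h
  · intro i hi
    refine ⟨e.symm ⟨0, by omega⟩, e.symm ⟨i + 1, hi⟩, ?_, ?_⟩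
    · rw [initSetoid_iff]
      rintro (h | ⟨-, h⟩)
      · have := congrArg (fun z => (e z : ℕ)) h
        simp at this
      · simp at h
    · intro x y
      simp only [initSetoid_iff, Equiv.apply_symm_apply]
      have hx0 : x = e.symm ⟨0, by omega⟩ ↔ (e x : ℕ) = 0 := by
        rw [Equiv.eq_symm_apply, Fin.ext_iff]
      have hy0 : y = e.symm ⟨0, by omega⟩ ↔ (e y : ℕ) = 0 := by
        rw [Equiv.eq_symm_apply, Fin.ext_iff]
      have hx1 : x = e.symm ⟨i + 1, hi⟩ ↔ (e x : ℕ) = i + 1 := by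
        rw [Equiv.eq_symm_apply, Fin.ext_iff]
      have hy1 : y = e.symm ⟨i + 1, hi⟩ ↔ (e y : ℕ) = i + 1 := by
        rw [Equiv.eq_symm_apply, Fin.ext_iff]
      have hxy : x = y ↔ (e x : ℕ) = (e y : ℕ) := ⟨fun h => by rw [h], hinj x y⟩
      rw [hx0, hy0, hx1, hy1, hxy]
      omega
  · ext x y
    rw [initSetoid_iff, Setoid.top_def]
    have h1 := (e x).2
    have h2 := (e y).2
    constructor
    · intro _; exact trivial
    · intro _; right; omega

theorem exists_reducedBandwidth {V : Type} [Fintype V] (G : SimpleGraph V) :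
    ∃ s : ℕ → Setoid V, IsContractionSeq s ∧
      ∀ i < Fintype.card V, bandwidth (redGraph G (s i)) ≤ reducedBandwidth G := by
  have h : {b : ℕ | ∃ s : ℕ → Setoid V, IsContractionSeq s ∧
      ∀ i < Fintype.card V, bandwidth (redGraph G (s i)) ≤ b}.Nonempty := by
    obtain ⟨s, hs⟩ := exists_contractionSeq V
    refine ⟨∑ i ∈ Finset.range (Fintype.card V), bandwidth (redGraph G (s i)), s, hs, ?_⟩
    intro i hi
    exact Finset.single_le_sum (f := fun i => bandwidth (redGraph G (s i)))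
      (fun _ _ => Nat.zero_le _) (Finset.mem_range.2 hi)
  exact Nat.sInf_mem h

end Pool.Agent.R37
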