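import Mathlib
import Pool.Agent.R37.RedBw
import Pool.Agent.R37.Fragile

set_option autoImplicit false
set_option linter.unusedSectionVars false

/-!
An isoperimetric inequality in the three dimensional grid, and growth of neighbourhoods in
contraction sequences.
-/

namespace Pool.Agent.R37

open Finset

/-- the three-dimensional grid with sides `a`, `b`, `c` -/
def grid3 (a b c : ℕ) : SimpleGraph (Fin a × Fin b × Fin c) where
  Adj u v := (u.1 = v.1 ∧ u.2.1 = v.2.1 ∧ (u.2.2.1 + 1 = v.2.2.1 ∨ v.2.2.1 + 1 = u.2.2.1)) ∨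
    (u.1 = v.1 ∧ u.2.2 = v.2.2 ∧ (u.2.1.1 + 1 = v.2.1.1 ∨ v.2.1.1 + 1 = u.2.1.1)) ∨
    (u.2.1 = v.2.1 ∧ u.2.2 = v.2.2 ∧ (u.1.1 + 1 = v.1.1 ∨ v.1.1 + 1 = u.1.1))
  symm := ⟨by
    rintro u v (⟨h1, h2, h3⟩ | ⟨h1, h2, h3⟩ | ⟨h1, h2, h3⟩)
    · exact Or.inl ⟨h1.symm, h2.symm, h3.symm⟩
    · exact Or.inr (Or.inl ⟨h1.symm, h2.symm, h3.symm⟩)
    · exact Or.inr (Or.inr ⟨h1.symm, h2.symm, h3.symm⟩)⟩
  loopless := ⟨by
    rintro u (⟨_, _, h⟩ | ⟨_, _, h⟩ | ⟨_, _, h⟩) <;> omega⟩

/-- discrete Loomis-Whitney inequality -/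
theorem loomis_whitney {α β γ : Type} [DecidableEq α] [DecidableEq β] [DecidableEq γ]
    (X : Finset (α × β × γ)) :
    X.card ^ 2 ≤ (X.image (fun p => (p.1, p.2.1))).card * (X.image (fun p => (p.2.1, p.2.2))).card *
      (X.image (fun p => (p.1, p.2.2))).card := by
  obtain ⟨Z, hZ⟩ : ∃ Z, Z = X.image (fun p => p.2.2) := ⟨_, rfl⟩
  obtain ⟨A, hA⟩ : ∃ A, A = X.image (fun p => (p.1, p.2.1)) := ⟨_, rfl⟩
  obtain ⟨B, hB⟩ : ∃ B, B = X.image (fun p => (p.2.1, p.2.2)) := ⟨_, rfl⟩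
  obtain ⟨C, hC⟩ : ∃ C, C = X.image (fun p => (p.1, p.2.2)) := ⟨_, rfl⟩
  rw [← hA, ← hB, ← hC]
  have hX : X.card = ∑ z ∈ Z, (X.filter (fun p => p.2.2 = z)).card :=
    Finset.card_eq_sum_card_fiberwise (fun p hp => by rw [hZ]; exact Finset.mem_image_of_mem _ hp)
  have hBc : B.card = ∑ z ∈ Z, (B.filter (fun p => p.2 = z)).card := by
    apply Finset.card_eq_sum_card_fiberwise
    intro p hp
    rw [Finset.mem_coe, hB, Finset.mem_image] at hp
    obtain ⟨q, hq, rfl⟩ := hp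
    rw [hZ]
    exact Finset.mem_image_of_mem (fun p : α × β × γ => p.2.2) hq
  have hCc : C.card = ∑ z ∈ Z, (C.filter (fun p => p.2 = z)).card := by
    apply Finset.card_eq_sum_card_fiberwise
    intro p hp
    rw [Finset.mem_coe, hC, Finset.mem_image] at hp
    obtain ⟨q, hq, rfl⟩ := hp
    rw [hZ]
    exact Finset.mem_image_of_mem (fun p : α × β × γ => p.2.2) hq
  have h1 : ∀ z, (X.filter (fun p => p.2.2 = z)).card ≤ A.card := by
    intro z
    apply Finset.card_le_card_of_injOn (fun p => (p.1, p.2.1))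
    · intro p hp
      rw [Finset.mem_coe, Finset.mem_filter] at hp
      rw [hA]
      exact Finset.mem_image_of_mem (fun p : α × β × γ => (p.1, p.2.1)) hp.1
    · intro p hp q hq hpq
      rw [Finset.mem_coe, Finset.mem_filter] at hp hq
      have h := Prod.mk.inj hpq
      exact Prod.ext h.1 (Prod.ext h.2 (hp.2.trans hq.2.symm))
  have h2 : ∀ z, (X.filter (fun p => p.2.2 = z)).card ≤
      (B.filter (fun p => p.2 = z)).card * (C.filter (fun p => p.2 = z)).card := by
    intro z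
    rw [← Finset.card_product]
    apply Finset.card_le_card_of_injOn (fun p => ((p.2.1, p.2.2), (p.1, p.2.2)))
    · intro p hp
      rw [Finset.mem_coe, Finset.mem_filter] at hp
      rw [Finset.mem_coe, Finset.mem_product, Finset.mem_filter, Finset.mem_filter]
      refine ⟨⟨?_, hp.2⟩, ?_, hp.2⟩
      · rw [hB]; exact Finset.mem_image_of_mem (fun p : α × β × γ => (p.2.1, p.2.2)) hp.1
      · rw [hC]; exact Finset.mem_image_of_mem (fun p : α × β × γ => (p.1, p.2.2)) hp.1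
    · intro p _ q _ hpq
      have h := Prod.mk.inj hpq
      have h' := Prod.mk.inj h.1
      have h'' := Prod.mk.inj h.2
      exact Prod.ext h''.1 (Prod.ext h'.1 h'.2)
  have h3 := Finset.sum_sq_le_sum_mul_sum_of_sq_le_mul Z
    (r := fun z => (X.filter (fun p => p.2.2 = z)).card)
    (f := fun z => A.card * (B.filter (fun p => p.2 = z)).card)
    (g := fun z => (C.filter (fun p => p.2 = z)).card)
    (fun _ _ => Nat.zero_le _) (fun _ _ => Nat.zero_le _) (fun z _ => by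
      rw [sq]
      calc _ ≤ A.card * ((B.filter (fun p => p.2 = z)).card * (C.filter (fun p => p.2 = z)).card) :=
            Nat.mul_le_mul (h1 z) (h2 z)
        _ = _ := by ring)
  rw [← hX, ← Finset.mul_sum, ← hBc, ← hCc] at h3
  exact h3

/-- crossing a line -/
theorem exists_crossing_fin {n : ℕ} (S : Fin n → Prop) : ∀ (d : ℕ) (a c : Fin n), S a → ¬ S c →
    (a.1 + d = c.1 ∨ c.1 + d = a.1) → ∃ x y : Fin n, S x ∧ ¬ S y ∧ (x.1 + 1 = y.1 ∨ y.1 + 1 = x.1) := by
  intro d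
  induction d with
  | zero =>
    intro a c ha hc h
    have : a = c := Fin.ext (by omega)
    rw [this] at ha
    exact absurd ha hc
  | succ d ih =>
    intro a c ha hc h
    rcases h with h | h
    · obtain ⟨a', ha'⟩ : ∃ a' : Fin n, a'.1 = a.1 + 1 := ⟨⟨a.1 + 1, by have := c.2; omega⟩, rfl⟩
      by_cases h' : S a'
      · exact ih a' c h' hc (by omega)
      · exact ⟨a, a', ha, h', by omega⟩
    · obtain ⟨a', ha'⟩ : ∃ a' : Fin n, a'.1 + 1 = a.1 :=
        ⟨⟨a.1 - 1, by have := a.2; omega⟩, by show a.1 - 1 + 1 = a.1; omega⟩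
      by_cases h' : S a'
      · exact ih a' c h' hc (by omega)
      · exact ⟨a, a', ha, h', by omega⟩

theorem exists_crossing_fin' {n : ℕ} (S : Fin n → Prop) {a c : Fin n} (ha : S a) (hc : ¬ S c) :
    ∃ x y : Fin n, S x ∧ ¬ S y ∧ (x.1 + 1 = y.1 ∨ y.1 + 1 = x.1) := by
  rcases le_total a.1 c.1 with h | h
  · exact exists_crossing_fin S (c.1 - a.1) a c ha hc (by omega)
  · exact exists_crossing_fin S (a.1 - c.1) a c ha hc (by omega)

open Classical in
/-- the outer vertex boundary -/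
noncomputable def bdry {V : Type} [Fintype V] (G : SimpleGraph V) (X : Finset V) : Finset V :=
  univ.filter (fun y => y ∉ X ∧ ∃ x ∈ X, G.Adj x y)

theorem mem_bdry {V : Type} [Fintype V] {G : SimpleGraph V} {X : Finset V} {y : V} :
    y ∈ bdry G X ↔ y ∉ X ∧ ∃ x ∈ X, G.Adj x y := by
  simp [bdry]

/-- the isoperimetric inequality -/
theorem grid3_isoperimetric {n : ℕ} (X : Finset (Fin n × Fin n × Fin n)) (hX : X.card < n) :
    X.card ^ 2 ≤ (bdry (grid3 n n n) X).card ^ 3 := by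
  classical
  have hn : 0 < n := by omega
  have hne : Nonempty (Fin n × Fin n × Fin n) := ⟨(⟨0, hn⟩, ⟨0, hn⟩, ⟨0, hn⟩)⟩
  have hfull : ∀ f : Fin n → Fin n × Fin n × Fin n, Function.Injective f → ∃ c, f c ∉ X := by
    intro f hf
    by_contra hc
    push Not at hc
    have h1 : (univ : Finset (Fin n)).card ≤ X.card :=
      Finset.card_le_card_of_injOn f (fun c _ => hc c) (fun a _ b _ h => hf h)
    rw [Finset.card_univ, Fintype.card_fin] at h1
    omega
  have h1 : (X.image (fun p => (p.1, p.2.1))).card ≤ (bdry (grid3 n n n) X).card := by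
    have key : ∀ q ∈ X.image (fun p => (p.1, p.2.1)), ∃ y ∈ bdry (grid3 n n n) X,
        (y.1, y.2.1) = q := by
      intro q hq
      rw [Finset.mem_image] at hq
      obtain ⟨p, hp, rfl⟩ := hq
      obtain ⟨c, hc⟩ := hfull (fun z => (p.1, p.2.1, z)) (fun a b h => by
        have := congrArg (fun w : Fin n × Fin n × Fin n => w.2.2) h
        exact this)
      obtain ⟨x, y, hx, hy, hxy⟩ := exists_crossing_fin' (fun z => (p.1, p.2.1, z) ∈ X)
        (a := p.2.2) hp hc
      exact ⟨(p.1, p.2.1, y), mem_bdry.2 ⟨hy, (p.1, p.2.1, x), hx, Or.inl ⟨rfl, rfl, hxy⟩⟩, rfl⟩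
    choose! g hg1 hg2 using key
    apply Finset.card_le_card_of_injOn g (fun q hq => hg1 q hq)
    intro a ha b hb hab
    rw [← hg2 a ha, ← hg2 b hb, hab]
  have h2 : (X.image (fun p => (p.2.1, p.2.2))).card ≤ (bdry (grid3 n n n) X).card := by
    have key : ∀ q ∈ X.image (fun p => (p.2.1, p.2.2)), ∃ y ∈ bdry (grid3 n n n) X,
        (y.2.1, y.2.2) = q := by
      intro q hq
      rw [Finset.mem_image] at hq
      obtain ⟨p, hp, rfl⟩ := hq
      obtain ⟨c, hc⟩ := hfull (fun z => (z, p.2.1, p.2.2)) (fun a b h => by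
        have := congrArg (fun w : Fin n × Fin n × Fin n => w.1) h
        exact this)
      obtain ⟨x, y, hx, hy, hxy⟩ := exists_crossing_fin' (fun z => (z, p.2.1, p.2.2) ∈ X)
        (a := p.1) hp hc
      exact ⟨(y, p.2.1, p.2.2), mem_bdry.2 ⟨hy, (x, p.2.1, p.2.2), hx,
        Or.inr (Or.inr ⟨rfl, rfl, hxy⟩)⟩, rfl⟩
    choose! g hg1 hg2 using key
    apply Finset.card_le_card_of_injOn g (fun q hq => hg1 q hq)
    intro a ha b hb hab
    rw [← hg2 a ha, ← hg2 b hb, hab]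
  have h3 : (X.image (fun p => (p.1, p.2.2))).card ≤ (bdry (grid3 n n n) X).card := by
    have key : ∀ q ∈ X.image (fun p => (p.1, p.2.2)), ∃ y ∈ bdry (grid3 n n n) X,
        (y.1, y.2.2) = q := by
      intro q hq
      rw [Finset.mem_image] at hq
      obtain ⟨p, hp, rfl⟩ := hq
      obtain ⟨c, hc⟩ := hfull (fun z => (p.1, z, p.2.2)) (fun a b h => by
        have := congrArg (fun w : Fin n × Fin n × Fin n => w.2.1) h
        exact this)
      obtain ⟨x, y, hx, hy, hxy⟩ := exists_crossing_fin' (fun z => (p.1, z, p.2.2) ∈ X)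
        (a := p.2.1) hp hc
      exact ⟨(p.1, y, p.2.2), mem_bdry.2 ⟨hy, (p.1, x, p.2.2), hx,
        Or.inr (Or.inl ⟨rfl, rfl, hxy⟩)⟩, rfl⟩
    choose! g hg1 hg2 using key
    apply Finset.card_le_card_of_injOn g (fun q hq => hg1 q hq)
    intro a ha b hb hab
    rw [← hg2 a ha, ← hg2 b hb, hab]
  calc X.card ^ 2 ≤ _ := loomis_whitney X
    _ ≤ (bdry (grid3 n n n) X).card * (bdry (grid3 n n n) X).card *
        (bdry (grid3 n n n) X).card := Nat.mul_le_mul (Nat.mul_le_mul h1 h2) h3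
    _ = _ := by ring

/-- degrees in the three-dimensional grid -/
theorem grid3_degree {n : ℕ} (u : Fin n × Fin n × Fin n) (S : Finset (Fin n × Fin n × Fin n))
    (hS : ∀ v ∈ S, (grid3 n n n).Adj u v) : S.card ≤ 6 := by
  classical
  have key : ∀ v ∈ S, (((v.1.1 : ℤ) - u.1.1, (v.2.1.1 : ℤ) - u.2.1.1, (v.2.2.1 : ℤ) - u.2.2.1) :
      ℤ × ℤ × ℤ) ∈ ({(0, 0, 1), (0, 0, -1), (0, 1, 0), (0, -1, 0), (1, 0, 0), (-1, 0, 0)} :
      Finset (ℤ × ℤ × ℤ)) := by
    intro v hv
    rcases hS v hv with ⟨h1, h2, h3⟩ | ⟨h1, h2, h3⟩ | ⟨h1, h2, h3⟩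
    · rw [h1, h2, sub_self, sub_self]
      rcases h3 with h3 | h3
      · have : ((v.2.2.1 : ℤ) - u.2.2.1) = 1 := by omega
        rw [this]; simp
      · have : ((v.2.2.1 : ℤ) - u.2.2.1) = -1 := by omega
        rw [this]; simp
    · rw [h1, h2, sub_self, sub_self]
      rcases h3 with h3 | h3
      · have : ((v.2.1.1 : ℤ) - u.2.1.1) = 1 := by omega
        rw [this]; simp
      · have : ((v.2.1.1 : ℤ) - u.2.1.1) = -1 := by omega
        rw [this]; simp
    · rw [h1, h2, sub_self, sub_self]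
      rcases h3 with h3 | h3
      · have : ((v.1.1 : ℤ) - u.1.1) = 1 := by omega
        rw [this]; simp
      · have : ((v.1.1 : ℤ) - u.1.1) = -1 := by omega
        rw [this]; simp
  refine (Finset.card_le_card_of_injOn (t := ({(0, 0, 1), (0, 0, -1), (0, 1, 0), (0, -1, 0),
    (1, 0, 0), (-1, 0, 0)} : Finset (ℤ × ℤ × ℤ))) _ key ?_).trans (by decide)
  intro a _ b _ hab
  have h := Prod.mk.inj hab
  have h' := Prod.mk.inj h.2
  refine Prod.ext (Fin.ext ?_) (Prod.ext (Fin.ext ?_) (Fin.ext ?_))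
  · have := h.1; omega
  · have := h'.1; omega
  · have := h'.2; omega

end Pool.Agent.R37
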