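import Pool.Agent.R37.TD

set_option autoImplicit false

/-!
Grid-like pairs of families of paths force a bag meeting all rows or all columns.
-/

namespace Pool.Agent.R37

variable {W : Type} {K : SimpleGraph W} {n : ℕ} {T : SimpleGraph (Fin n)}
  {X : Fin n → Finset W}

/-- the nodes whose bags meet a path form a subtree -/
theorem sub_touch_seq (h : IsTreeDecomposition K T X) (R : Rooting T) {N : ℕ} (f : Fin N → W)
    (hf : ∀ a b : Fin N, b.val = a.val + 1 → K.Adj (f a) (f b)) :
    ∀ k, 1 ≤ k → k ≤ N → R.Sub {t | ∃ a : Fin N, a.val < k ∧ f a ∈ X t} := by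
  intro k
  induction k with
  | zero => intro h0 _; omega
  | succ k ih =>
    intro _ hk
    have hs : R.Sub {t | f ⟨k, by omega⟩ ∈ X t} := Rooting.sub_of_connected (h.connected _)
    rcases Nat.eq_zero_or_pos k with h0 | h0
    · subst h0
      have he : {t | ∃ a : Fin N, a.val < 0 + 1 ∧ f a ∈ X t} = {t | f ⟨0, by omega⟩ ∈ X t} := by
        ext t
        simp only [Set.mem_ofPred_eq]
        constructor
        · rintro ⟨a, ha, hat⟩
          have : a = ⟨0, by omega⟩ := Fin.ext (by simpa using ha)
          rwa [this] at hat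
        · intro hat
          exact ⟨⟨0, by omega⟩, by simp, hat⟩
      rw [he]
      exact hs
    · have he : {t | ∃ a : Fin N, a.val < k + 1 ∧ f a ∈ X t} =
          {t | ∃ a : Fin N, a.val < k ∧ f a ∈ X t} ∪ {t | f ⟨k, by omega⟩ ∈ X t} := by
        ext t
        simp only [Set.mem_ofPred_eq, Set.mem_union]
        constructor
        · rintro ⟨a, ha, hat⟩
          rcases Nat.lt_succ_iff_lt_or_eq.mp ha with h1 | h1
          · exact Or.inl ⟨a, h1, hat⟩
          · right
            have : a = ⟨k, by omega⟩ := Fin.ext h1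
            rwa [this] at hat
        · rintro (⟨a, ha, hat⟩ | hat)
          · exact ⟨a, by omega, hat⟩
          · exact ⟨⟨k, by omega⟩, by simp, hat⟩
      rw [he]
      apply Rooting.Sub.union (ih h0 (by omega)) hs
      obtain ⟨t, ht1, ht2⟩ := h.edge_mem _ _ (hf ⟨k - 1, by omega⟩ ⟨k, by omega⟩ (by simp; omega))
      exact ⟨t, ⟨⟨k - 1, by omega⟩, by simp; omega, ht1⟩, ht2⟩

/-- A tree decomposition of a graph containing `m` row paths and `m` column paths, each row
meeting each column, has a bag meeting all rows or all columns. -/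
theorem exists_grid_bag (h : IsTreeDecomposition K T X) {m N : ℕ} (hm : 0 < m)
    (hN : 0 < N) (row : Fin m → Fin N → W) (col : Fin m → Fin m → Fin N)
    (hrow : ∀ (k : Fin m) (a b : Fin N), b.val = a.val + 1 → K.Adj (row k a) (row k b))
    (hcol : ∀ (j k k' : Fin m), k'.val = k.val + 1 →
      K.Adj (row k (col j k)) (row k' (col j k'))) :
    ∃ t, (∀ k, ∃ a, row k a ∈ X t) ∨ (∀ j, ∃ k, row k (col j k) ∈ X t) := by
  classical
  obtain ⟨r⟩ := h.isTree.connected.nonempty
  obtain ⟨R, -⟩ := exists_rooting h.isTree r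
  have h1 : ∀ k, R.Sub {t | ∃ a, row k a ∈ X t} := by
    intro k
    have := sub_touch_seq h R (row k) (hrow k) N hN le_rfl
    convert this using 3
    constructor
    · rintro ⟨a, ha⟩; exact ⟨a, a.2, ha⟩
    · rintro ⟨a, _, ha⟩; exact ⟨a, ha⟩
  have h2 : ∀ j, R.Sub {t | ∃ k, row k (col j k) ∈ X t} := by
    intro j
    have := sub_touch_seq h R (fun k => row k (col j k)) (hcol j) m hm le_rfl
    convert this using 3
    constructor
    · rintro ⟨a, ha⟩; exact ⟨a, a.2, ha⟩
    · rintro ⟨a, _, ha⟩; exact ⟨a, ha⟩
  have h3 : ∀ p : Fin m × Fin m, R.Sub ({t | ∃ a, row p.1 a ∈ X t} ∪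
      {t | ∃ k, row k (col p.2 k) ∈ X t}) := by
    intro p
    apply Rooting.Sub.union (h1 _) (h2 _)
    obtain ⟨t, ht⟩ := h.vertex_mem (row p.1 (col p.2 p.1))
    exact ⟨t, ⟨_, ht⟩, ⟨_, ht⟩⟩
  have : Nonempty (Fin m) := ⟨⟨0, hm⟩⟩
  obtain ⟨t, ht⟩ := Rooting.helly (R := R) (Finset.univ : Finset (Fin m × Fin m))
    Finset.univ_nonempty _ (fun p _ => h3 p) (by
      intro p _ q _
      obtain ⟨t, ht⟩ := h.vertex_mem (row p.1 (col q.2 p.1))
      exact ⟨t, Or.inl ⟨_, ht⟩, Or.inr ⟨_, ht⟩⟩)
  refine ⟨t, ?_⟩
  by_cases hr : ∀ k, ∃ a, row k a ∈ X t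
  · exact Or.inl hr
  · right
    push Not at hr
    obtain ⟨i, hi⟩ := hr
    intro j
    rcases ht (i, j) (Finset.mem_univ _) with ⟨a, ha⟩ | h5
    · exact absurd ha (hi a)
    · exact h5

/-- If every index has at most one smaller neighbour, at least half of the indices are
pairwise unrelated. -/
theorem exists_half_indep {m : ℕ} (Q : Fin m → Fin m → Prop) (hs : ∀ a b, Q a b → Q b a)
    (hirr : ∀ a, ¬ Q a a)
    (h : ∀ a b c : Fin m, a < b → b < c → Q a c → Q b c → False) :
    ∃ I : Finset (Fin m), m ≤ 2 * I.card ∧ ∀ a ∈ I, ∀ b ∈ I, ¬ Q a b := by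
  classical
  have hcol : ∀ k, k ≤ m → ∃ col : Fin m → Bool, ∀ a b : Fin m, a.val < k → b.val < k → a < b →
      Q a b → col a ≠ col b := by
    intro k
    induction k with
    | zero => intro _; exact ⟨fun _ => true, fun a b ha => by omega⟩
    | succ k ih =>
      intro hk
      obtain ⟨col, hcol⟩ := ih (by omega)
      obtain ⟨kk, hkk⟩ : ∃ kk : Fin m, kk.val = k := ⟨⟨k, hk⟩, rfl⟩
      by_cases hex : ∃ a : Fin m, a.val < k ∧ Q a kk
      · obtain ⟨a, ha, haQ⟩ := hex
        refine ⟨Function.update col kk (!(col a)), ?_⟩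
        intro b c hb hc hbc hQ
        have hbk : b ≠ kk := by
          intro he
          rw [he] at hbc
          have : kk.val < c.val := hbc
          omega
        rw [Function.update_of_ne hbk]
        by_cases hck : c = kk
        · rw [hck, Function.update_self]
          rw [hck] at hQ hbc
          have hba : b = a := by
            by_contra hne
            rcases lt_or_gt_of_ne hne with h1 | h1
            · exact h b a _ h1 (by rw [Fin.lt_def]; omega) hQ haQ
            · exact h a b _ h1 hbc haQ hQ
          subst hba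
          simp
        · rw [Function.update_of_ne hck]
          have : c.val ≠ k := fun he => hck (Fin.ext (he.trans hkk.symm))
          exact hcol b c (by have : b.val < c.val := hbc; omega) (by omega) hbc hQ
      · push Not at hex
        refine ⟨col, ?_⟩
        intro b c hb hc hbc hQ
        by_cases hck : c = kk
        · rw [hck] at hbc hQ
          exact absurd hQ (hex b (by have : b.val < kk.val := hbc; omega))
        · have : c.val ≠ k := fun he => hck (Fin.ext (he.trans hkk.symm))
          exact hcol b c (by have : b.val < c.val := hbc; omega) (by omega) hbc hQ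
  obtain ⟨col, hcol⟩ := hcol m le_rfl
  have hcol' : ∀ a b : Fin m, Q a b → col a ≠ col b := by
    intro a b hab
    rcases lt_trichotomy a b with h1 | h1 | h1
    · exact hcol a b a.2 b.2 h1 hab
    · subst h1; exact absurd hab (hirr a)
    · exact (hcol b a b.2 a.2 h1 (hs _ _ hab)).symm
  have hsum : (Finset.univ.filter (fun a => col a = true)).card +
      (Finset.univ.filter (fun a => ¬ col a = true)).card = m := by
    rw [Finset.card_filter_add_card_filter_not]
    simp
  by_cases hc : m ≤ 2 * (Finset.univ.filter (fun a => col a = true)).card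
  · refine ⟨_, hc, ?_⟩
    intro a ha b hb hab
    simp only [Finset.mem_filter, Finset.mem_univ, true_and] at ha hb
    exact hcol' a b hab (ha.trans hb.symm)
  · refine ⟨Finset.univ.filter (fun a => ¬ col a = true), by omega, ?_⟩
    intro a ha b hb hab
    simp only [Finset.mem_filter, Finset.mem_univ, true_and, Bool.not_eq_true] at ha hb
    exact hcol' a b hab (ha.trans hb.symm)

end Pool.Agent.R37
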