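import Pool.Agent.R37.TwoCol

/-! Ramsey numbers of matchings for one, two and three colours. -/

set_option autoImplicit false
set_option linter.unusedSectionVars false

namespace Pool.Agent.R37.TwoCol

open Finset

variable {V : Type*} [Fintype V] [DecidableEq V]

/-- a matching of `H` with at least `m` edges inside `S` -/
def HasMat (H : SimpleGraph V) (S : Finset V) (m : ℕ) : Prop :=
  ∃ μ : V → V, IsMat H μ ∧ (∀ v, v ∉ S → μ v = v) ∧ 2 * m ≤ (moved μ).card

theorem hasMat_zero (H : SimpleGraph V) (S : Finset V) : HasMat H S 0 :=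
  ⟨id, ⟨fun _ => rfl, fun _ h => absurd rfl h⟩, fun _ _ => rfl, by simp⟩

theorem HasMat.mono {H : SimpleGraph V} {S S' : Finset V} {m : ℕ} (h : HasMat H S m)
    (hS : S ⊆ S') : HasMat H S' m := by
  obtain ⟨μ, h1, h2, h3⟩ := h
  exact ⟨μ, h1, fun v hv => h2 v (fun hv' => hv (hS hv')), h3⟩

theorem HasMat.add {H : SimpleGraph V} {S : Finset V} {m : ℕ} (h : HasMat H S m) {u v : V}
    (hu : u ∉ S) (hv : v ∉ S) (huv : H.Adj u v) : HasMat H (insert u (insert v S)) (m + 1) := by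
  obtain ⟨μ, ⟨h1, h1'⟩, h2, h3⟩ := h
  have hμu := h2 u hu
  have hμv := h2 v hv
  have hne := huv.ne
  have k1 : ∀ z, z ≠ u → μ z ≠ u := fun z hz e => hz (by rw [← h1 z, e, hμu])
  have k2 : ∀ z, z ≠ v → μ z ≠ v := fun z hz e => hz (by rw [← h1 z, e, hμv])
  let ν : V → V := fun z => if z = u then v else if z = v then u else μ z
  have n1 : ν u = v := by simp [ν]
  have n2 : ν v = u := by simp [ν, hne.symm]
  have n3 : ∀ z, z ≠ u → z ≠ v → ν z = μ z := by
    intro z hz hz'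
    simp [ν, hz, hz']
  refine ⟨ν, ⟨?_, ?_⟩, ?_, ?_⟩
  · intro z
    by_cases hz : z = u
    · rw [hz, n1, n2]
    · by_cases hz' : z = v
      · rw [hz', n2, n1]
      · rw [n3 z hz hz', n3 _ (k1 z hz) (k2 z hz'), h1]
  · intro z hz
    by_cases hzu : z = u
    · rw [hzu, n1]; exact huv
    · by_cases hz' : z = v
      · rw [hz', n2]; exact huv.symm
      · rw [n3 z hzu hz'] at hz ⊢
        exact h1' z hz
  · intro z hz
    simp only [mem_insert, not_or] at hz
    rw [n3 z hz.1 hz.2.1]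
    exact h2 z hz.2.2
  · have e : moved ν = insert u (insert v (moved μ)) := by
      ext z
      rw [mem_insert, mem_insert, mem_moved, mem_moved]
      by_cases hzu : z = u
      · rw [hzu, n1]; simp [hne.symm]
      · by_cases hz' : z = v
        · rw [hz', n2]; simp [hne]
        · rw [n3 z hzu hz']; simp [hzu, hz']
    have m1 : v ∉ moved μ := by rw [mem_moved]; exact fun h => h hμv
    have m2 : u ∉ insert v (moved μ) := by
      rw [mem_insert, mem_moved]
      rintro (h | h)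
      · exact hne h
      · exact h hμu
    rw [e, card_insert_of_notMem m2, card_insert_of_notMem m1]
    omega

theorem HasMat.add' {H : SimpleGraph V} {S Q : Finset V} {m : ℕ} (h : HasMat H (S \ Q) m)
    (hQ : Q ⊆ S) {u v : V} (hu : u ∈ Q) (hv : v ∈ Q) (huv : H.Adj u v) : HasMat H S (m + 1) := by
  refine (h.add (fun hm => (mem_sdiff.1 hm).2 hu) (fun hm => (mem_sdiff.1 hm).2 hv) huv).mono ?_
  intro z hz
  simp only [mem_insert, mem_sdiff] at hz
  rcases hz with rfl | rfl | hz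
  · exact hQ hu
  · exact hQ hv
  · exact hz.1

theorem mat_one {H : SimpleGraph V} (m : ℕ) : ∀ S : Finset V, 2 * m ≤ S.card →
    (∀ x ∈ S, ∀ y ∈ S, x ≠ y → H.Adj x y) → HasMat H S m := by
  induction m with
  | zero => intro S _ _; exact hasMat_zero H S
  | succ m ih =>
    intro S hS hH
    obtain ⟨u, hu, v, hv, huv⟩ := one_lt_card.1 (show 1 < S.card by omega)
    have hQ : ({u, v} : Finset V) ⊆ S := by
      intro z hz
      simp only [mem_insert, mem_singleton] at hz
      rcases hz with rfl | rfl <;> assumption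
    have hc := card_sdiff_add_card_eq_card hQ
    rw [card_pair huv] at hc
    refine HasMat.add' (Q := {u, v}) (ih (S \ {u, v}) (by omega) ?_) hQ (by simp) (by simp)
      (hH u hu v hv huv)
    intro x hx y hy hxy
    exact hH x (mem_sdiff.1 hx).1 y (mem_sdiff.1 hy).1 hxy

theorem mat_two {H₁ H₂ : SimpleGraph V} (m : ℕ) : ∀ S : Finset V, 3 * m ≤ S.card + 1 →
    (∀ x ∈ S, ∀ y ∈ S, x ≠ y → H₁.Adj x y ∨ H₂.Adj x y) → HasMat H₁ S m ∨ HasMat H₂ S m := by
  induction m with
  | zero => intro S _ _; exact Or.inl (hasMat_zero _ S)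
  | succ m ih =>
    intro S hS hH
    by_cases h1 : ∃ p ∈ S, ∃ q ∈ S, H₁.Adj p q
    · by_cases h2 : ∃ r ∈ S, ∃ s ∈ S, H₂.Adj r s
      · obtain ⟨p, hp, q, hq, hpq⟩ := h1
        obtain ⟨r, hr, s, hs, hrs⟩ := h2
        have hex : ∃ x ∈ S, ∃ y ∈ S, ∃ z ∈ S, H₁.Adj x y ∧ H₂.Adj x z := by
          by_cases hqr : q = r
          · exact ⟨q, hq, p, hp, s, hs, hpq.symm, by rw [hqr]; exact hrs⟩
          · rcases hH q hq r hr hqr with h | h
            · exact ⟨r, hr, q, hq, s, hs, h.symm, hrs⟩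
            · exact ⟨q, hq, p, hp, r, hr, hpq.symm, h⟩
        obtain ⟨x, hx, y, hy, z, hz, hxy, hxz⟩ := hex
        have hQ : ({x, y, z} : Finset V) ⊆ S := by
          intro w hw
          simp only [mem_insert, mem_singleton] at hw
          rcases hw with rfl | rfl | rfl <;> assumption
        have hc := card_sdiff_add_card_eq_card hQ
        have hc3 : ({x, y, z} : Finset V).card ≤ 3 := card_le_three
        rcases ih (S \ {x, y, z}) (by omega) (fun a ha b hb hab =>
          hH a (mem_sdiff.1 ha).1 b (mem_sdiff.1 hb).1 hab) with h | h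
        · left; exact HasMat.add' h hQ (u := x) (v := y) (by simp) (by simp) hxy
        · right; exact HasMat.add' h hQ (u := x) (v := z) (by simp) (by simp) hxz
      · left
        push Not at h2
        exact mat_one (m + 1) S (by omega) (fun x hx y hy hxy =>
          (hH x hx y hy hxy).resolve_right (h2 x hx y hy))
    · right
      push Not at h1
      exact mat_one (m + 1) S (by omega) (fun x hx y hy hxy =>
        (hH x hx y hy hxy).resolve_left (h1 x hx y hy))

theorem four_set {H₁ H₂ H₃ : SimpleGraph V} {S : Finset V}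
    (hH : ∀ x ∈ S, ∀ y ∈ S, x ≠ y → H₁.Adj x y ∨ H₂.Adj x y ∨ H₃.Adj x y)
    (h1 : ∃ p ∈ S, ∃ q ∈ S, H₁.Adj p q) (h2 : ∃ p ∈ S, ∃ q ∈ S, H₂.Adj p q)
    (h3 : ∃ p ∈ S, ∃ q ∈ S, H₃.Adj p q) : ∃ Q : Finset V, Q ⊆ S ∧ Q.card ≤ 4 ∧
      (∃ p ∈ Q, ∃ q ∈ Q, H₁.Adj p q) ∧ (∃ p ∈ Q, ∃ q ∈ Q, H₂.Adj p q) ∧
      (∃ p ∈ Q, ∃ q ∈ Q, H₃.Adj p q) := by
  have sub : ∀ a b c d, a ∈ S → b ∈ S → c ∈ S → d ∈ S → ({a, b, c, d} : Finset V) ⊆ S := by
    intro a b c d ha hb hc hd w hw
    simp only [mem_insert, mem_singleton] at hw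
    rcases hw with rfl | rfl | rfl | rfl <;> assumption
  obtain ⟨w, hw, w', hw', h3⟩ := h3
  have key : ∀ x ∈ S, ∀ y ∈ S, ∀ u ∈ S, H₁.Adj x y → H₂.Adj x u → ∃ Q : Finset V, Q ⊆ S ∧
      Q.card ≤ 4 ∧ (∃ p ∈ Q, ∃ q ∈ Q, H₁.Adj p q) ∧ (∃ p ∈ Q, ∃ q ∈ Q, H₂.Adj p q) ∧
      (∃ p ∈ Q, ∃ q ∈ Q, H₃.Adj p q) := by
    intro x hx y hy u hu hxy hxu
    by_cases hwx : w = x
    · subst hwx
      exact ⟨{w, y, u, w'}, sub _ _ _ _ hx hy hu hw', card_le_four, ⟨w, by simp, y, by simp, hxy⟩,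
        ⟨w, by simp, u, by simp, hxu⟩, ⟨w, by simp, w', by simp, h3⟩⟩
    · rcases hH w hw x hx hwx with h | h | h
      · exact ⟨{w, x, w', u}, sub _ _ _ _ hw hx hw' hu, card_le_four, ⟨w, by simp, x, by simp, h⟩,
          ⟨x, by simp, u, by simp, hxu⟩, ⟨w, by simp, w', by simp, h3⟩⟩
      · exact ⟨{w, x, w', y}, sub _ _ _ _ hw hx hw' hy, card_le_four, ⟨x, by simp, y, by simp, hxy⟩,
          ⟨w, by simp, x, by simp, h⟩, ⟨w, by simp, w', by simp, h3⟩⟩
      · exact ⟨{x, y, u, w}, sub _ _ _ _ hx hy hu hw, card_le_four, ⟨x, by simp, y, by simp, hxy⟩,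
          ⟨x, by simp, u, by simp, hxu⟩, ⟨w, by simp, x, by simp, h⟩⟩
  obtain ⟨x, hx, y, hy, hxy⟩ := h1
  obtain ⟨z, hz, u, hu, hzu⟩ := h2
  by_cases hxz : x = z
  · subst hxz
    exact key x hx y hy u hu hxy hzu
  · rcases hH x hx z hz hxz with h | h | h
    · exact key z hz x hx u hu h.symm hzu
    · exact key x hx y hy z hz hxy h
    · exact ⟨{x, y, z, u}, sub _ _ _ _ hx hy hz hu, card_le_four, ⟨x, by simp, y, by simp, hxy⟩,
        ⟨z, by simp, u, by simp, hzu⟩, ⟨x, by simp, z, by simp, h⟩⟩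

theorem mat_three {H₁ H₂ H₃ : SimpleGraph V} (m : ℕ) : ∀ S : Finset V, 4 * m ≤ S.card + 2 →
    (∀ x ∈ S, ∀ y ∈ S, x ≠ y → H₁.Adj x y ∨ H₂.Adj x y ∨ H₃.Adj x y) →
    HasMat H₁ S m ∨ HasMat H₂ S m ∨ HasMat H₃ S m := by
  induction m with
  | zero => intro S _ _; exact Or.inl (hasMat_zero _ S)
  | succ m ih =>
    intro S hS hH
    by_cases h1 : ∃ p ∈ S, ∃ q ∈ S, H₁.Adj p q
    · by_cases h2 : ∃ p ∈ S, ∃ q ∈ S, H₂.Adj p q
      · by_cases h3 : ∃ p ∈ S, ∃ q ∈ S, H₃.Adj p q
        · obtain ⟨Q, hQ, hQc, ⟨p, hp, q, hq, hpq⟩, ⟨p', hp', q', hq', hpq'⟩,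
            ⟨p'', hp'', q'', hq'', hpq''⟩⟩ := four_set hH h1 h2 h3
          have hc := card_sdiff_add_card_eq_card hQ
          rcases ih (S \ Q) (by omega) (fun a ha b hb hab =>
            hH a (mem_sdiff.1 ha).1 b (mem_sdiff.1 hb).1 hab) with h | h | h
          · exact Or.inl (HasMat.add' h hQ hp hq hpq)
          · exact Or.inr (Or.inl (HasMat.add' h hQ hp' hq' hpq'))
          · exact Or.inr (Or.inr (HasMat.add' h hQ hp'' hq'' hpq''))
        · push Not at h3
          rcases mat_two (H₁ := H₁) (H₂ := H₂) (m + 1) S (by omega) (fun x hx y hy hxy => by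
            rcases hH x hx y hy hxy with h | h | h
            · exact Or.inl h
            · exact Or.inr h
            · exact absurd h (h3 x hx y hy)) with h | h
          · exact Or.inl h
          · exact Or.inr (Or.inl h)
      · push Not at h2
        rcases mat_two (H₁ := H₁) (H₂ := H₃) (m + 1) S (by omega) (fun x hx y hy hxy => by
          rcases hH x hx y hy hxy with h | h | h
          · exact Or.inl h
          · exact absurd h (h2 x hx y hy)
          · exact Or.inr h) with h | h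
        · exact Or.inl h
        · exact Or.inr (Or.inr h)
    · push Not at h1
      rcases mat_two (H₁ := H₂) (H₂ := H₃) (m + 1) S (by omega) (fun x hx y hy hxy => by
        rcases hH x hx y hy hxy with h | h | h
        · exact absurd h (h1 x hx y hy)
        · exact Or.inl h
        · exact Or.inr h) with h | h
      · exact Or.inr (Or.inl h)
      · exact Or.inr (Or.inr h)

end Pool.Agent.R37.TwoCol
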