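import Mathlib

namespace Pool.Agent.R37.SepExp

open SimpleGraph

/-- `S` is a balanced separator: every component of `G - S` has at most `2n/3` vertices. -/
def IsBalancedSeparator {V : Type} (G : SimpleGraph V) (S : Set V) : Prop :=
  ∀ c : (G.induce Sᶜ).ConnectedComponent, 3 * c.supp.ncard ≤ 2 * Nat.card V

/-- `H` is a depth-`r` minor of `G`: disjoint branch sets, each containing a centre from which
all its vertices can be reached within it by walks of length at most `r`. -/
def IsDepthMinor {W V : Type} (r : ℕ) (H : SimpleGraph W) (G : SimpleGraph V) : Prop :=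
  ∃ B : W → Set V, (∀ u v, u ≠ v → Disjoint (B u) (B v)) ∧
    (∀ u, ∃ x : B u, ∀ y : B u, ∃ p : (G.induce (B u)).Walk x y, p.length ≤ r) ∧
    (∀ u v, H.Adj u v → ∃ x ∈ B u, ∃ y ∈ B v, G.Adj x y)

theorem exists_median {V κ : Type} [Finite V] [Nonempty V] [LinearOrder κ] (key : V → κ) :
    ∃ z : V, 2 * {x : V | key x < key z}.ncard ≤ Nat.card V ∧
      2 * {x : V | key z < key x}.ncard ≤ Nat.card V := by
  classical
  have := Fintype.ofFinite V
  obtain ⟨w, -, hw⟩ := Finset.exists_max_image (Finset.univ : Finset V) key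
    ⟨Classical.arbitrary V, Finset.mem_univ _⟩
  have hne : (Finset.univ.filter (fun z : V =>
      Nat.card V ≤ 2 * {x : V | key x ≤ key z}.ncard)).Nonempty := by
    refine ⟨w, ?_⟩
    simp only [Finset.mem_filter, Finset.mem_univ, true_and]
    have : {x : V | key x ≤ key w} = Set.univ := by
      ext x; simpa using hw x (Finset.mem_univ x)
    rw [this, Set.ncard_univ]; omega
  obtain ⟨z, hz, hzmin⟩ := Finset.exists_min_image _ key hne
  simp only [Finset.mem_filter, Finset.mem_univ, true_and] at hz hzmin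
  refine ⟨z, ?_, ?_⟩
  · by_cases hE : (Finset.univ.filter (fun x : V => key x < key z)).Nonempty
    · obtain ⟨z', hz', hmax⟩ := Finset.exists_max_image _ key hE
      simp only [Finset.mem_filter, Finset.mem_univ, true_and] at hz' hmax
      have h1 : {x : V | key x < key z} = {x : V | key x ≤ key z'} := by
        ext x
        simp only [Set.mem_ofPred_eq]
        exact ⟨fun h => hmax x h, fun h => lt_of_le_of_lt h hz'⟩
      rw [h1]
      by_contra hcon
      push Not at hcon
      exact absurd (hzmin z' hcon.le) (not_le.mpr hz')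
    · have h1 : {x : V | key x < key z} = ∅ := by
        ext x
        simp only [Set.mem_ofPred_eq, Set.mem_empty_iff_false, iff_false]
        intro hx
        exact hE ⟨x, by simpa using hx⟩
      rw [h1]; simp
  · have h1 : {x : V | key z < key x} = {x : V | key x ≤ key z}ᶜ := by
      ext x; simp
    have h2 := Set.ncard_add_ncard_compl {x : V | key x ≤ key z}
    rw [h1]
    omega

theorem exists_separator {V κ : Type} [Finite V] [LinearOrder κ] (G : SimpleGraph V)
    (key : V → κ) (hinj : Function.Injective key) (S₁ : Set V) (o : V → V)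
    (h : ∀ x y z, G.Adj x y → x ∉ S₁ → y ∉ S₁ → key x ≤ key z → key z < key y →
      x = z ∨ x = o z) :
    ∃ S : Set V, IsBalancedSeparator G S ∧ S.ncard ≤ S₁.ncard + 2 := by
  classical
  rcases isEmpty_or_nonempty V with hV | hV
  · refine ⟨∅, ?_, by simp⟩
    intro c
    obtain ⟨v, -⟩ := c.nonempty_supp
    exact (hV.false v.1).elim
  obtain ⟨z, hz1, hz2⟩ := exists_median key
  refine ⟨S₁ ∪ {z, o z}, ?_, ?_⟩
  · intro c
    obtain ⟨S, hS⟩ : ∃ S, S = S₁ ∪ {z, o z} := ⟨_, rfl⟩
    subst hS
    have hside : ∀ x y : ((S₁ ∪ {z, o z} : Set V)ᶜ : Set V),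
        (G.induce (S₁ ∪ {z, o z} : Set V)ᶜ).Reachable x y → (key x < key z ↔ key y < key z) := by
      intro x y hxy
      obtain ⟨p⟩ := hxy
      induction p with
      | nil => rfl
      | @cons a b c hab _ ih =>
        rw [← ih]
        have hab' : G.Adj a.1 b.1 := hab
        have ha := a.2
        have hb := b.2
        simp only [Set.mem_compl_iff, Set.mem_union, Set.mem_insert_iff, Set.mem_singleton_iff,
          not_or] at ha hb
        have hane : key a.1 ≠ key z := fun h => ha.2.1 (hinj h)
        have hbne : key b.1 ≠ key z := fun h => hb.2.1 (hinj h)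
        constructor
        · intro h1
          by_contra h2
          have h3 : key z < key b.1 := lt_of_le_of_ne (not_lt.mp h2) (Ne.symm hbne)
          rcases h a.1 b.1 z hab' ha.1 hb.1 h1.le h3 with h4 | h4
          · exact ha.2.1 h4
          · exact ha.2.2 h4
        · intro h1
          by_contra h2
          have h3 : key z < key a.1 := lt_of_le_of_ne (not_lt.mp h2) (Ne.symm hane)
          rcases h b.1 a.1 z hab'.symm hb.1 ha.1 h1.le h3 with h4 | h4
          · exact hb.2.1 h4
          · exact hb.2.2 h4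
    obtain ⟨v, hv⟩ := c.nonempty_supp
    have hsub : ∀ y ∈ c.supp, (key v.1 < key z ↔ key y.1 < key z) := by
      intro y hy
      apply hside
      rw [SimpleGraph.ConnectedComponent.mem_supp_iff] at hv hy
      exact SimpleGraph.ConnectedComponent.exact (hv.trans hy.symm)
    have hne : ∀ y ∈ c.supp, key y.1 ≠ key z := by
      intro y _ he
      have := y.2
      simp only [Set.mem_compl_iff, Set.mem_union, Set.mem_insert_iff, Set.mem_singleton_iff,
        not_or] at this
      exact this.2.1 (hinj he)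
    by_cases hk : key v.1 < key z
    · have : c.supp.ncard ≤ {x : V | key x < key z}.ncard := by
        apply Set.ncard_le_ncard_of_injOn (fun y => y.1)
        · intro y hy
          exact (hsub y hy).mp hk
        · intro a _ b _ hab
          exact Subtype.ext hab
      omega
    · have : c.supp.ncard ≤ {x : V | key z < key x}.ncard := by
        apply Set.ncard_le_ncard_of_injOn (fun y => y.1)
        · intro y hy
          have h1 : ¬ key y.1 < key z := fun h => hk ((hsub y hy).mpr h)
          exact lt_of_le_of_ne (not_lt.mp h1) (Ne.symm (hne y hy))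
        · intro a _ b _ hab
          exact Subtype.ext hab
      omega
  · have h1 : (S₁ ∪ {z, o z} : Set V).ncard ≤ S₁.ncard + ({z, o z} : Set V).ncard :=
      Set.ncard_union_le _ _
    have h2 : ({z, o z} : Set V).ncard ≤ 2 := Set.ncard_insert_le _ _ |>.trans (by simp)
    omega

/-- Vertices of subdivided complete graphs: branch vertices and path vertices. -/
inductive Vx : Type
  | br (i : ℕ) : Vx
  | pt (i j k : ℕ) : Vx
  deriving DecidableEq

/-- The complete graph on `0, …, t - 1` with every edge `ij` (`i < j`) replaced by a path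
`br i, pt i j 0, …, pt i j (l - 1), br j`. -/
inductive Rel (t l : ℕ) : Vx → Vx → Prop
  | first (i j : ℕ) : i < j → j < t → 0 < l → Rel t l (Vx.br i) (Vx.pt i j 0)
  | step (i j k : ℕ) : i < j → j < t → k + 1 < l → Rel t l (Vx.pt i j k) (Vx.pt i j (k + 1))
  | last (i j k : ℕ) : i < j → j < t → k + 1 = l → Rel t l (Vx.pt i j k) (Vx.br j)

/-- The `l`-subdivision of the complete graph with `t` branch vertices. -/
def sub (t l : ℕ) : SimpleGraph Vx := SimpleGraph.fromRel (Rel t l)

theorem sub_adj {t l : ℕ} {a b : Vx} (h : (sub t l).Adj a b) : Rel t l a b ∨ Rel t l b a := by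
  simp only [sub, SimpleGraph.fromRel_adj] at h
  exact h.2

/-- owner of a vertex, given break points `m` -/
def own (m : ℕ → ℕ → ℕ) : Vx → ℕ
  | Vx.br i => i
  | Vx.pt i j k => if k < m i j then i else j

/-- the sorting key of a vertex, given break points `m` -/
def key (m : ℕ → ℕ → ℕ) (l : ℕ) : Vx → ℕ ×ₗ (ℕ ×ₗ ℕ)
  | Vx.br i => toLex (i, toLex (0, 0))
  | Vx.pt i j k => if k < m i j then toLex (i, toLex (j + 1, k)) else toLex (j, toLex (i + 1, l - k))

/-- vertices that actually occur in `sub t l` -/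
def Valid (l : ℕ) : Vx → Prop
  | Vx.br _ => True
  | Vx.pt i j k => i < j ∧ k < l

theorem key_inj (m : ℕ → ℕ → ℕ) (l : ℕ) {a b : Vx} (ha : Valid l a) (hb : Valid l b)
    (h : key m l a = key m l b) : a = b := by
  rcases a with i | ⟨i, j, k⟩ <;> rcases b with i' | ⟨i', j', k'⟩
  · simp only [key, EmbeddingLike.apply_eq_iff_eq, Prod.mk.injEq] at h
    rw [h.1]
  · simp only [key] at h
    split_ifs at h <;> simp at h
  · simp only [key] at h
    split_ifs at h <;> simp at h
  · simp only [Valid] at ha hb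
    simp only [key] at h
    split_ifs at h <;> simp only [EmbeddingLike.apply_eq_iff_eq, Prod.mk.injEq] at h
    · obtain ⟨rfl, h2, rfl⟩ := h
      have : j = j' := by omega
      subst this; rfl
    · obtain ⟨h1, h2, h3⟩ := h
      omega
    · obtain ⟨h1, h2, h3⟩ := h
      omega
    · obtain ⟨rfl, h2, h3⟩ := h
      have h4 : i = i' := by omega
      have h5 : k = k' := by omega
      subst h4 h5; rfl

theorem key_eq (m : ℕ → ℕ → ℕ) (l : ℕ) (c : Vx) :
    ∃ q r, key m l c = toLex (own m c, toLex (q, r)) := by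
  rcases c with i | ⟨i, j, k⟩
  · exact ⟨0, 0, rfl⟩
  · simp only [key, own]
    split_ifs
    · exact ⟨_, _, rfl⟩
    · exact ⟨_, _, rfl⟩

theorem sandwich {m : ℕ → ℕ → ℕ} {t l : ℕ} (hm : ∀ i j, m i j < l) {a b : Vx} (c : Vx)
    (hab : Rel t l a b ∨ Rel t l b a) (ha : ∀ i j, a ≠ Vx.pt i j (m i j))
    (hb : ∀ i j, b ≠ Vx.pt i j (m i j)) (h1 : key m l a ≤ key m l c)
    (h2 : key m l c < key m l b) : key m l c = key m l a ∨ a = Vx.br (own m c) := by
  obtain ⟨q, r, hc⟩ := key_eq m l c
  rw [hc] at h1 h2 ⊢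
  generalize own m c = p at *
  have key' : ∀ {a b : Vx}, Rel t l a b → (∀ i j, a ≠ Vx.pt i j (m i j)) →
      (∀ i j, b ≠ Vx.pt i j (m i j)) →
      ((key m l a ≤ toLex (p, toLex (q, r)) → toLex (p, toLex (q, r)) < key m l b →
        toLex (p, toLex (q, r)) = key m l a ∨ a = Vx.br p) ∧
      (key m l b ≤ toLex (p, toLex (q, r)) → toLex (p, toLex (q, r)) < key m l a →
        toLex (p, toLex (q, r)) = key m l b ∨ b = Vx.br p)) := by
    intro a b hab ha hb
    rcases hab with ⟨i, j, hij, hjt, hl⟩ | ⟨i, j, k, hij, hjt, hk⟩ | ⟨i, j, k, hij, hjt, hk⟩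
    · have h0 : 0 < m i j := by
        rcases Nat.eq_zero_or_pos (m i j) with h | h
        · exact absurd (by rw [h]) (hb i j)
        · exact h
      simp only [key, if_pos h0, Prod.Lex.toLex_le_toLex, Prod.Lex.toLex_lt_toLex,
        EmbeddingLike.apply_eq_iff_eq, Prod.mk.injEq, Vx.br.injEq]
      constructor <;> intro h3 h4 <;> omega
    · have h1 : m i j ≠ k := fun h => ha i j (by rw [h])
      have h2 : m i j ≠ k + 1 := fun h => hb i j (by rw [h])
      by_cases hlt : k < m i j
      · have hlt' : k + 1 < m i j := by omega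
        simp only [key, if_pos hlt, if_pos hlt', Prod.Lex.toLex_le_toLex, Prod.Lex.toLex_lt_toLex,
          EmbeddingLike.apply_eq_iff_eq, Prod.mk.injEq]
        constructor <;> intro h3 h4 <;> left <;> omega
      · have hlt' : ¬ k + 1 < m i j := by omega
        simp only [key, if_neg hlt, if_neg hlt', Prod.Lex.toLex_le_toLex, Prod.Lex.toLex_lt_toLex,
          EmbeddingLike.apply_eq_iff_eq, Prod.mk.injEq]
        constructor <;> intro h3 h4 <;> left <;> omega
    · have h1 : m i j ≠ k := fun h => ha i j (by rw [h])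
      have h2 := hm i j
      have hlt : ¬ k < m i j := by omega
      simp only [key, if_neg hlt, Prod.Lex.toLex_le_toLex, Prod.Lex.toLex_lt_toLex,
        EmbeddingLike.apply_eq_iff_eq, Prod.mk.injEq, Vx.br.injEq]
      constructor <;> intro h3 h4 <;> omega
  rcases hab with hab | hab
  · exact (key' hab ha hb).1 h1 h2
  · exact (key' hab hb ha).2 h1 h2

theorem valid_of_adj {t l : ℕ} {a b : Vx} (h : Rel t l a b) : Valid l a ∧ Valid l b := by
  rcases h with ⟨i, j, hij, hjt, hl⟩ | ⟨i, j, k, hij, hjt, hk⟩ | ⟨i, j, k, hij, hjt, hk⟩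
  · exact ⟨trivial, hij, hl⟩
  · exact ⟨⟨hij, by omega⟩, hij, hk⟩
  · exact ⟨⟨hij, by omega⟩, trivial⟩

/-- few path vertices: a subgraph with `n` vertices has a balanced separator of size about
`n / l` -/
theorem sep_small {V : Type} [Finite V] {t l : ℕ} (hl : 0 < l) (G : SimpleGraph V)
    (f : V → Vx) (hf : Function.Injective f) (hv : ∀ x, Valid l (f x))
    (hom : ∀ x y, G.Adj x y → (sub t l).Adj (f x) (f y)) :
    ∃ S : Set V, IsBalancedSeparator G S ∧ (S.ncard - 2) * l ≤ Nat.card V := by
  classical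
  obtain ⟨full, hfull⟩ : ∃ full : ℕ → ℕ → Prop, ∀ i j, full i j ↔
    ∀ k < l, ∃ x, f x = Vx.pt i j k := ⟨fun i j => ∀ k < l, ∃ x, f x = Vx.pt i j k, fun _ _ => Iff.rfl⟩
  obtain ⟨S₁, hS₁⟩ : ∃ S₁ : Set V, S₁ = {x | ∃ i j, full i j ∧ f x = Vx.pt i j (l - 1)} := ⟨_, rfl⟩
  have hm : ∀ i j, ∃ m, m < l ∧ ∀ x, f x = Vx.pt i j m → x ∈ S₁ := by
    intro i j
    by_cases h : full i j
    · exact ⟨l - 1, by omega, fun x hx => by rw [hS₁]; exact ⟨i, j, h, hx⟩⟩
    · have h' := h
      rw [hfull] at h'
      push Not at h'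
      obtain ⟨k, hk, hk'⟩ := h'
      exact ⟨k, hk, fun x hx => absurd hx (hk' x)⟩
  choose m hml hmS using hm
  obtain ⟨S, hS, hScard⟩ := exists_separator G (fun x => key m l (f x))
    (fun a b hab => hf (key_inj m l (hv a) (hv b) hab)) S₁
    (fun z => if h : ∃ x, f x = Vx.br (own m (f z)) then h.choose else z) (by
      intro x y z hxy hx hy h1 h2
      have hadj := sub_adj (hom x y hxy)
      rcases sandwich hml (f z) hadj
        (fun i j he => hx (hmS i j x he)) (fun i j he => hy (hmS i j y he)) h1 h2 with h3 | h3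
      · left
        exact (hf (key_inj m l (hv z) (hv x) h3)).symm
      · right
        have hex : ∃ x, f x = Vx.br (own m (f z)) := ⟨x, h3⟩
        rw [dif_pos hex]
        exact hf (h3.trans hex.choose_spec.symm))
  refine ⟨S, hS, ?_⟩
  have h1 : S₁.ncard * l ≤ Nat.card V := by
    have hS₁fin : S₁.Finite := Set.toFinite _
    have hch : ∀ x : S₁, ∀ k : Fin l, ∃ y : V, ∃ i j, f x = Vx.pt i j (l - 1) ∧
        f y = Vx.pt i j k := by
      rintro ⟨x, hx⟩ k
      rw [hS₁] at hx
      obtain ⟨i, j, hful, he⟩ := hx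
      rw [hfull] at hful
      obtain ⟨y, hy⟩ := hful k k.2
      exact ⟨y, i, j, he, hy⟩
    choose g hg using hch
    have hginj : Function.Injective (fun p : S₁ × Fin l => g p.1 p.2) := by
      rintro ⟨x, k⟩ ⟨x', k'⟩ he
      simp only at he
      obtain ⟨i, j, h1, h2⟩ := hg x k
      obtain ⟨i', j', h1', h2'⟩ := hg x' k'
      rw [he, h2'] at h2
      simp only [Vx.pt.injEq] at h2
      obtain ⟨rfl, rfl, h3⟩ := h2
      have : x = x' := Subtype.ext (hf (h1.trans h1'.symm))
      subst this
      have : k = k' := Fin.ext h3.symm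
      subst this
      rfl
    have := Nat.card_le_card_of_injective _ hginj
    rw [Nat.card_prod, Nat.card_fin, Nat.card_coe_set_eq] at this
    exact this
  calc (S.ncard - 2) * l ≤ S₁.ncard * l := Nat.mul_le_mul_right _ (by omega)
    _ ≤ _ := h1

/-- few branch vertices: a subgraph has a balanced separator of size at most `t + 2` -/
theorem sep_large {V : Type} [Finite V] {t l : ℕ} (G : SimpleGraph V)
    (f : V → Vx) (hf : Function.Injective f) (hv : ∀ x, Valid l (f x))
    (hbr : ∀ x i, f x = Vx.br i → i < t)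
    (hom : ∀ x y, G.Adj x y → (sub t l).Adj (f x) (f y)) :
    ∃ S : Set V, IsBalancedSeparator G S ∧ S.ncard ≤ t + 2 := by
  classical
  obtain ⟨S₁, hS₁⟩ : ∃ S₁ : Set V, S₁ = {x | ∃ i, f x = Vx.br i} := ⟨_, rfl⟩
  obtain ⟨S, hS, hScard⟩ := exists_separator G (fun x => key (fun _ _ => l) l (f x))
    (fun a b hab => hf (key_inj _ l (hv a) (hv b) hab)) S₁ (fun z => z) (by
      intro x y z hxy hx hy h1 h2
      left
      have hadj := sub_adj (hom x y hxy)
      refine (hf (key_inj (fun _ _ => l) l (hv z) (hv x) ?_)).symm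
      have hx' : ∀ i, f x ≠ Vx.br i := fun i he => hx (by rw [hS₁]; exact ⟨i, he⟩)
      have hy' : ∀ i, f y ≠ Vx.br i := fun i he => hy (by rw [hS₁]; exact ⟨i, he⟩)
      obtain ⟨q, r, hc⟩ := key_eq (fun _ _ => l) l (f z)
      rw [hc] at h1 h2 ⊢
      generalize own (fun _ _ => l) (f z) = p at *
      generalize f x = a at *
      generalize f y = b at *
      rcases hadj with hadj | hadj
      · rcases hadj with ⟨i, j, hij, hjt, hl⟩ | ⟨i, j, k, hij, hjt, hk⟩ | ⟨i, j, k, hij, hjt, hk⟩
        · exact absurd rfl (hx' _)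
        · have hk' : k < l := by omega
          simp only [key, if_pos hk, if_pos hk', Prod.Lex.toLex_le_toLex,
            Prod.Lex.toLex_lt_toLex, EmbeddingLike.apply_eq_iff_eq, Prod.mk.injEq] at *
          omega
        · exact absurd rfl (hy' _)
      · rcases hadj with ⟨i, j, hij, hjt, hl⟩ | ⟨i, j, k, hij, hjt, hk⟩ | ⟨i, j, k, hij, hjt, hk⟩
        · exact absurd rfl (hy' _)
        · have hk' : k < l := by omega
          simp only [key, if_pos hk, if_pos hk', Prod.Lex.toLex_le_toLex,
            Prod.Lex.toLex_lt_toLex, EmbeddingLike.apply_eq_iff_eq, Prod.mk.injEq] at *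
          omega
        · exact absurd rfl (hx' _))
  refine ⟨S, hS, ?_⟩
  have h1 : S₁.ncard ≤ t := by
    have hch : ∀ x : S₁, ∃ i : Fin t, f x = Vx.br i := by
      rintro ⟨x, hx⟩
      rw [hS₁] at hx
      obtain ⟨i, hi⟩ := hx
      exact ⟨⟨i, hbr _ _ hi⟩, hi⟩
    choose g hg using hch
    have hginj : Function.Injective g := by
      intro x x' he
      apply Subtype.ext
      apply hf
      rw [hg x, hg x', he]
    have := Nat.card_le_card_of_injective _ hginj
    rwa [Nat.card_fin, Nat.card_coe_set_eq] at this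
  omega

end Pool.Agent.R37.SepExp
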