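import Pool.Agent.R37.BranchDec
import Pool.Agent.R37.MatRam

/-! The sim-width of line graphs of complete graphs. -/

set_option autoImplicit false
set_option linter.unusedSectionVars false

namespace Pool.Agent.R37.SimLine

open Finset Pool.Agent.R37.TwoCol

variable {n : ℕ}

/-- the edges of the complete graph -/
abbrev KE (n : ℕ) : Type := (⊤ : SimpleGraph (Fin n)).edgeSet

/-- the line graph of the complete graph -/
abbrev LK (n : ℕ) : SimpleGraph (KE n) := (⊤ : SimpleGraph (Fin n)).lineGraph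

/-- the edge `xy` -/
def mkE {x y : Fin n} (h : x ≠ y) : KE n := ⟨s(x, y), by simpa using h⟩

theorem lk_adj {e f : KE n} : (LK n).Adj e f ↔ e ≠ f ∧ ∃ v, v ∈ (e : Sym2 (Fin n)) ∧
    v ∈ (f : Sym2 (Fin n)) := SimpleGraph.lineGraph_adj_iff_exists

/-- the graph whose edges are those of `A` -/
def cg (A : Set (KE n)) : SimpleGraph (Fin n) where
  Adj x y := ∃ e : KE n, e ∈ A ∧ (e : Sym2 (Fin n)) = s(x, y)
  symm := ⟨fun x y ⟨e, h1, h2⟩ => ⟨e, h1, by rw [h2, Sym2.eq_swap]⟩⟩
  loopless := ⟨fun x ⟨e, _, h2⟩ => by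
    have := e.2
    rw [h2, SimpleGraph.mem_edgeSet] at this
    exact this.ne rfl⟩

theorem cg_adj {A : Set (KE n)} {x y : Fin n} (h : x ≠ y) : (cg A).Adj x y ↔ mkE h ∈ A := by
  constructor
  · rintro ⟨e, h1, h2⟩
    have : e = mkE h := Subtype.ext h2
    rw [← this]; exact h1
  · intro h1
    exact ⟨_, h1, rfl⟩

theorem cg_compl (A : Set (KE n)) : (cg A)ᶜ = cg Aᶜ := by
  ext x y
  rw [SimpleGraph.compl_adj]
  constructor
  · rintro ⟨h1, h2⟩
    rw [cg_adj h1] at h2 ⊢
    exact h2
  · intro h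
    have h1 := h.ne
    refine ⟨h1, ?_⟩
    rw [cg_adj h1] at h ⊢
    exact h

theorem cherry {H : SimpleGraph (Fin n)} {T : Finset (Fin n)} (h : Bi H T) :
    ∃ x ∈ T, ∃ y ∈ T, ∃ z ∈ T, H.Adj x y ∧ x ≠ z ∧ ¬ H.Adj x z := by
  obtain ⟨hc, ⟨p, hp, q, hq, hpq⟩, r, hr, s, hs, hrs⟩ := h
  rw [SimpleGraph.compl_adj] at hrs
  by_cases h1 : r = p
  · exact ⟨p, hp, q, hq, s, hs, hpq, h1 ▸ hrs.1, h1 ▸ hrs.2⟩
  by_cases h2 : r = q
  · exact ⟨q, hq, p, hp, s, hs, hpq.symm, h2 ▸ hrs.1, h2 ▸ hrs.2⟩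
  by_cases h3 : s = p
  · exact ⟨p, hp, q, hq, r, hr, hpq, h3 ▸ hrs.1.symm, fun h => hrs.2 (h3 ▸ h.symm)⟩
  by_cases h4 : s = q
  · exact ⟨q, hq, p, hp, r, hr, hpq.symm, h4 ▸ hrs.1.symm, fun h => hrs.2 (h4 ▸ h.symm)⟩
  exfalso
  have hsub : ({p, q, r, s} : Finset (Fin n)) ⊆ T := by
    intro w hw
    simp only [mem_insert, mem_singleton] at hw
    rcases hw with rfl | rfl | rfl | rfl <;> assumption
  have hcard : ({p, q, r, s} : Finset (Fin n)).card = 4 := by
    rw [card_insert_of_notMem, card_insert_of_notMem, card_pair hrs.1]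
    · simp only [mem_insert, mem_singleton, not_or]
      exact ⟨Ne.symm h2, Ne.symm h4⟩
    · simp only [mem_insert, mem_singleton, not_or]
      exact ⟨hpq.ne, Ne.symm h1, Ne.symm h3⟩
  have := card_le_card hsub
  omega

theorem crossMatching_of_fam {A : Set (KE n)} {𝒯 : Finset (Finset (Fin n))} (h : Fam (cg A) 𝒯) :
    CrossMatching (LK n) A 𝒯.card := by
  classical
  have key : ∀ T : 𝒯, ∃ a b : KE n, a ∈ A ∧ b ∉ A ∧ (LK n).Adj a b ∧
      (∀ v ∈ (a : Sym2 (Fin n)), v ∈ T.1) ∧ (∀ v ∈ (b : Sym2 (Fin n)), v ∈ T.1) := by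
    intro T
    obtain ⟨x, hx, y, hy, z, hz, h1, h2, h3⟩ := cherry (h.1 T.1 T.2)
    have hxy := h1.ne
    rw [cg_adj hxy] at h1
    rw [cg_adj h2] at h3
    refine ⟨mkE hxy, mkE h2, h1, h3, ?_, ?_, ?_⟩
    · rw [lk_adj]
      exact ⟨fun e => h3 (e ▸ h1), x, Sym2.mem_mk_left _ _, Sym2.mem_mk_left _ _⟩
    · intro v hv
      change v ∈ s(x, y) at hv
      rw [Sym2.mem_iff] at hv
      rcases hv with rfl | rfl <;> assumption
    · intro v hv
      change v ∈ s(x, z) at hv
      rw [Sym2.mem_iff] at hv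
      rcases hv with rfl | rfl <;> assumption
  choose a b ha hb hab ha' hb' using key
  let e := 𝒯.equivFin.symm
  have hne : ∀ x : KE n, ∃ v, v ∈ (x : Sym2 (Fin n)) := by
    intro x
    induction hx : (x : Sym2 (Fin n)) using Sym2.ind with
    | _ p q => exact ⟨p, Sym2.mem_mk_left _ _⟩
  refine ⟨fun i => a (e i), fun i => b (e i), fun i => ha _, fun i => hb _, fun i => hab _, ?_⟩
  intro i j hij
  have hd : Disjoint (e i).1 (e j).1 := by
    apply h.2 _ (e i).2 _ (e j).2
    intro he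
    exact hij (e.injective (Subtype.ext he))
  rw [disjoint_left] at hd
  have hshare : ∀ f g : KE n, (∀ v ∈ (f : Sym2 (Fin n)), v ∈ (e i).1) →
      (∀ v ∈ (g : Sym2 (Fin n)), v ∈ (e j).1) → f ≠ g ∧ ¬ (LK n).Adj f g := by
    intro f g hf hg
    refine ⟨?_, ?_⟩
    · rintro rfl
      obtain ⟨v, hv⟩ := hne f
      exact hd (hf v hv) (hg v hv)
    · rw [lk_adj]
      rintro ⟨-, v, h1, h2⟩
      exact hd (hf v h1) (hg v h2)
  exact ⟨(hshare _ _ (ha' _) (ha' _)).1, (hshare _ _ (hb' _) (hb' _)).1,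
    (hshare _ _ (ha' _) (ha' _)).2, (hshare _ _ (hb' _) (hb' _)).2, (hshare _ _ (ha' _) (hb' _)).2⟩

theorem small_or {k : ℕ} (hn : 4 * k + 2 ≤ n) (h3 : 3 ≤ n) {A : Set (KE n)}
    (hs : simval (LK n) A ≤ k) : ¬ HasMat (cg A) univ (k + 1) ∨ ¬ HasMat (cg Aᶜ) univ (k + 1) := by
  have hmax : ∀ 𝒯, Fam (cg A) 𝒯 → 𝒯.card ≤ k := fun 𝒯 h =>
    le_trans (BrDec.le_simval (crossMatching_of_fam h)) hs
  rcases two_col hmax (by rw [Fintype.card_fin]; omega) with h | h
  · left
    rintro ⟨μ, h1, -, h2⟩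
    have := h μ h1
    omega
  · right
    rintro ⟨μ, h1, -, h2⟩
    rw [← cg_compl] at h1
    have := h μ h1
    omega

theorem lower {k : ℕ} (hn : 4 * k + 2 ≤ n) (h3 : 3 ≤ n) {N : Type} [Finite N]
    {T : SimpleGraph N} {L : KE n → N} (hT : IsBranchDec T L)
    (hw : ∀ a b, T.Adj a b → simval (LK n) (cutSide T L a b) ≤ k) : False := by
  classical
  cases nonempty_fintype N
  have hne : Nonempty N := hT.tree.connected.nonempty
  obtain ⟨R, -⟩ := exists_rooting hT.tree hne.some
  let Small : N → N → Prop := fun s i => ¬ HasMat (cg {w | L w ∈ side R s i}) univ (k + 1)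
  have hcut : ∀ s i, T.Adj s i → Small s i ∨ Small i s := by
    intro s i hsi
    have h1 : cutSide T L i s = {w | L w ∈ side R s i} := by
      ext w
      rw [BrDec.mem_cutSide R hT.tree.connected hsi.symm]
      rfl
    have h2 : (cutSide T L i s)ᶜ = {w | L w ∈ side R i s} := by
      ext w
      rw [Set.mem_compl_iff, h1]
      change ¬ (L w ∈ side R s i) ↔ L w ∈ side R i s
      rw [mem_side_swap R hsi]
    rcases small_or hn h3 (hw i s hsi.symm) with h | h
    · left; rw [h1] at h; exact h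
    · right; rw [h2] at h; exact h
  have h01 : (⟨0, by omega⟩ : Fin n) ≠ ⟨1, by omega⟩ := by simp
  have hedge : ∃ s i, T.Adj s i := by
    have h1 := hT.leaf (mkE h01)
    have h2 : (T.neighborSet (L (mkE h01))).Nonempty := by
      rw [← Set.ncard_pos (Set.toFinite _)]; omega
    obtain ⟨i, hi⟩ := h2
    exact ⟨_, i, hi⟩
  obtain ⟨s, hs⟩ := BrDec.exists_sink R hcut hedge
  by_cases hsr : s ∈ Set.range L
  · obtain ⟨w, hw'⟩ := hsr
    have h1 := hT.leaf w
    rw [hw', Set.ncard_eq_one] at h1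
    obtain ⟨i, hi⟩ := h1
    have hsi : T.Adj s i := by
      have : i ∈ T.neighborSet s := by rw [hi]; rfl
      exact this
    apply hs i hsi
    have hother : ∀ w', w' ≠ w → L w' ∈ side R s i := by
      intro w' hne'
      obtain ⟨j, hj, hj'⟩ := exists_side R (s := s) (u := L w')
        (fun e => hne' (hT.inj (e.trans hw'.symm)))
      have : j ∈ T.neighborSet s := hj
      rw [hi] at this
      rw [Set.mem_singleton_iff] at this
      rw [this] at hj'
      exact hj'
    have hwu : ∃ u v : Fin n, (w : Sym2 (Fin n)) = s(u, v) := by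
      induction hx : (w : Sym2 (Fin n)) using Sym2.ind with
      | _ p q => exact ⟨p, q, rfl⟩
    obtain ⟨u, v, huv⟩ := hwu
    refine (mat_one (k + 1) (univ.erase u) ?_ ?_).mono (subset_univ _)
    · rw [card_erase_of_mem (mem_univ _), card_univ, Fintype.card_fin]; omega
    · intro x hx y hy hxy
      rw [cg_adj hxy]
      apply hother
      intro e
      have h2 : s(x, y) = s(u, v) := by rw [← huv, ← e]; rfl
      have h4 : u ∈ s(x, y) := by rw [h2]; exact Sym2.mem_mk_left _ _
      rw [Sym2.mem_iff] at h4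
      rcases h4 with rfl | rfl
      · exact (ne_of_mem_erase hx) rfl
      · exact (ne_of_mem_erase hy) rfl
  · have h1 := hT.internal s hsr
    rw [Set.ncard_eq_three] at h1
    obtain ⟨i₁, i₂, i₃, -, -, -, hi⟩ := h1
    have hadj : ∀ i, i ∈ ({i₁, i₂, i₃} : Set N) → T.Adj s i := by
      intro i hi'
      rw [← hi] at hi'
      exact hi'
    have a1 := hs i₁ (hadj _ (by simp))
    have a2 := hs i₂ (hadj _ (by simp))
    have a3 := hs i₃ (hadj _ (by simp))
    have hcov : ∀ x ∈ (univ : Finset (Fin n)), ∀ y ∈ (univ : Finset (Fin n)), x ≠ y →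
        (cg {w | L w ∈ side R s i₁}).Adj x y ∨ (cg {w | L w ∈ side R s i₂}).Adj x y ∨
        (cg {w | L w ∈ side R s i₃}).Adj x y := by
      intro x _ y _ hxy
      rw [cg_adj hxy, cg_adj hxy, cg_adj hxy]
      obtain ⟨j, hj, hj'⟩ := exists_side R (s := s) (u := L (mkE hxy))
        (fun e => hsr ⟨_, e⟩)
      have : j ∈ T.neighborSet s := hj
      rw [hi] at this
      simp only [Set.mem_insert_iff, Set.mem_singleton_iff] at this
      rcases this with rfl | rfl | rfl
      · exact Or.inl hj'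
      · exact Or.inr (Or.inl hj')
      · exact Or.inr (Or.inr hj')
    rcases mat_three (k + 1) univ (by rw [card_univ, Fintype.card_fin]; omega) hcov
      with h | h | h
    · exact a1 h
    · exact a2 h
    · exact a3 h

/-! ### Upper bound -/

/-- larger end of an edge -/
def mx (e : KE n) : Fin n := Sym2.lift ⟨fun x y => max x y, fun x y => max_comm x y⟩ (e : Sym2 (Fin n))

/-- smaller end of an edge -/
def mn (e : KE n) : Fin n := Sym2.lift ⟨fun x y => min x y, fun x y => min_comm x y⟩ (e : Sym2 (Fin n))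

theorem mx_mem (e : KE n) : mx e ∈ (e : Sym2 (Fin n)) := by
  unfold mx
  induction (e : Sym2 (Fin n)) using Sym2.ind with
  | _ p q =>
    rw [Sym2.lift_mk, Sym2.mem_iff]
    exact max_choice p q

theorem mn_mem (e : KE n) : mn e ∈ (e : Sym2 (Fin n)) := by
  unfold mn
  induction (e : Sym2 (Fin n)) using Sym2.ind with
  | _ p q =>
    rw [Sym2.lift_mk, Sym2.mem_iff]
    exact min_choice p q

theorem mn_lt_mx (e : KE n) : mn e < mx e := by
  have h := e.2
  unfold mn mx
  induction hx : (e : Sym2 (Fin n)) using Sym2.ind with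
  | _ p q =>
    rw [hx, SimpleGraph.mem_edgeSet] at h
    rw [Sym2.lift_mk, Sym2.lift_mk]
    exact min_lt_max.2 h.ne

/-- three colours -/
def col (t : ℕ) (e : KE n) : Fin 3 :=
  if (mx e).val < 2 * t + 1 then 0 else if (mx e).val < 3 * t + 1 then 1 else 2

theorem class_bound {t m : ℕ} (hn : n ≤ 4 * t + 1) {e : Fin m → KE n} {c : Fin 3}
    (hc : ∀ i, col t (e i) = c) (hd : ∀ i j, i ≠ j → e i ≠ e j ∧ ¬ (LK n).Adj (e i) (e j)) :
    m ≤ t := by
  have hshare : ∀ i j v, v ∈ (e i : Sym2 (Fin n)) → v ∈ (e j : Sym2 (Fin n)) → i = j := by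
    intro i j v h1 h2
    by_contra hne
    exact (hd i j hne).2 (lk_adj.2 ⟨(hd i j hne).1, v, h1, h2⟩)
  unfold col at hc
  by_cases h0 : c = 0
  · have h1 : ∀ i, (mx (e i)).val < 2 * t + 1 := by
      intro i
      have := hc i
      rw [h0] at this
      by_contra hcon
      rw [if_neg hcon] at this
      split_ifs at this <;> exact absurd this (by decide)
    let f : Fin m × Bool → Fin (2 * t + 1) := fun p =>
      if p.2 then ⟨(mx (e p.1)).val, h1 p.1⟩ else
        ⟨(mn (e p.1)).val, lt_trans (mn_lt_mx (e p.1)) (h1 p.1)⟩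
    have hf : Function.Injective f := by
      rintro ⟨i, a⟩ ⟨j, b⟩ h
      simp only [f] at h
      cases a <;> cases b
      · simp only [Bool.false_eq_true, if_false, Fin.mk.injEq] at h
        have h' : mn (e i) = mn (e j) := Fin.ext h
        rw [hshare i j _ (mn_mem _) (h' ▸ mn_mem _)]
      · simp only [Bool.false_eq_true, if_false, if_true, Fin.mk.injEq] at h
        have h' : mn (e i) = mx (e j) := Fin.ext h
        have := hshare i j _ (mn_mem _) (h' ▸ mx_mem _)
        subst this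
        exact absurd h' (ne_of_lt (mn_lt_mx _))
      · simp only [Bool.false_eq_true, if_false, if_true, Fin.mk.injEq] at h
        have h' : mx (e i) = mn (e j) := Fin.ext h
        have := hshare i j _ (mx_mem _) (h' ▸ mn_mem _)
        subst this
        exact absurd h'.symm (ne_of_lt (mn_lt_mx _))
      · simp only [if_true, Fin.mk.injEq] at h
        have h' : mx (e i) = mx (e j) := Fin.ext h
        rw [hshare i j _ (mx_mem _) (h' ▸ mx_mem _)]
    have := Fintype.card_le_of_injective f hf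
    rw [Fintype.card_prod, Fintype.card_fin, Fintype.card_bool, Fintype.card_fin] at this
    omega
  · have h1 : ∀ i, ¬ (mx (e i)).val < 2 * t + 1 := by
      intro i hi
      have := hc i
      rw [if_pos hi] at this
      exact h0 this.symm
    have h2 : ∃ s, ∀ i, s ≤ (mx (e i)).val ∧ (mx (e i)).val < s + t := by
      by_cases hc1 : c = 1
      · refine ⟨2 * t + 1, fun i => ?_⟩
        have := hc i
        rw [if_neg (h1 i), hc1] at this
        by_cases h3 : (mx (e i)).val < 3 * t + 1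
        · have := h1 i; omega
        · rw [if_neg h3] at this; exact absurd this (by decide)
      · refine ⟨3 * t + 1, fun i => ?_⟩
        have := hc i
        rw [if_neg (h1 i)] at this
        by_cases h3 : (mx (e i)).val < 3 * t + 1
        · rw [if_pos h3] at this; exact absurd this.symm hc1
        · have := (mx (e i)).2; omega
    obtain ⟨s, hs⟩ := h2
    let f : Fin m → Fin t := fun i => ⟨(mx (e i)).val - s, by have := hs i; omega⟩
    have hf : Function.Injective f := by
      intro i j h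
      simp only [f, Fin.mk.injEq] at h
      have h' : mx (e i) = mx (e j) := Fin.ext (by have := hs i; have := hs j; omega)
      exact hshare i j _ (mx_mem _) (h' ▸ mx_mem _)
    have := Fintype.card_le_of_injective f hf
    rwa [Fintype.card_fin, Fintype.card_fin] at this

theorem two_le_card (h3 : 3 ≤ n) : 2 ≤ Nat.card (KE n) := by
  have h01 : (⟨0, by omega⟩ : Fin n) ≠ ⟨1, by omega⟩ := by simp
  have h02 : (⟨0, by omega⟩ : Fin n) ≠ ⟨2, by omega⟩ := by simp
  have hne : mkE h01 ≠ mkE h02 := by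
    intro e
    have := congrArg Subtype.val e
    simp [mkE] at this
  have : Nontrivial (KE n) := ⟨_, _, hne⟩
  exact Finite.one_lt_card

theorem upper {t : ℕ} (hn : n ≤ 4 * t + 1) (h3 : 3 ≤ n) :
    ∃ (N : Type) (_ : Finite N) (T : SimpleGraph N) (L : KE n → N), IsBranchDec T L ∧
      ∀ a b, T.Adj a b → simval (LK n) (cutSide T L a b) ≤ t := by
  classical
  have : Fintype (KE n) := Fintype.ofFinite _
  obtain ⟨N, hN, T, L, hT, hcut⟩ := BrDec.exists_branchDec (W := KE n) (col t)
    (by rw [← Nat.card_eq_fintype_card]; exact two_le_card h3)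
  refine ⟨N, hN, T, L, hT, fun a b hab => BrDec.simval_le ?_⟩
  rintro m ⟨x, y, h1, h2, h3, h4⟩
  obtain ⟨c, hc | hc⟩ := hcut a b hab
  · exact class_bound hn (e := x) (c := c) (fun i => hc _ (h1 i))
      (fun i j hij => ⟨(h4 i j hij).1, (h4 i j hij).2.2.1⟩)
  · exact class_bound hn (e := y) (c := c) (fun i => hc _ (h2 i))
      (fun i j hij => ⟨(h4 i j hij).2.1, (h4 i j hij).2.2.2.1⟩)

/-- The sim-width of the line graph of the complete graph. -/
theorem simWidth_lineGraph (h3 : 3 ≤ n) : simWidth (LK n) = (n + 2) / 4 := by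
  unfold simWidth
  rw [if_neg (by have := two_le_card h3; omega)]
  have hmem : (n + 2) / 4 ∈ {k | ∃ (N : Type) (_ : Finite N) (T : SimpleGraph N) (L : KE n → N),
      IsBranchDec T L ∧ ∀ a b, T.Adj a b → simval (LK n) (cutSide T L a b) ≤ k} :=
    upper (by omega) h3
  apply le_antisymm
  · exact Nat.sInf_le hmem
  · refine le_csInf ⟨_, hmem⟩ ?_
    rintro k ⟨N, hN, T, L, hT, hw⟩
    by_contra hcon
    exact lower (k := k) (by omega) h3 hT hw

end Pool.Agent.R37.SimLine
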