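import Mathlib
import Pool.Agent.R37.RedBw

set_option autoImplicit false

/-!
A lower bound for the reduced bandwidth of subdivisions of complete graphs.
-/

namespace Pool.Agent.R37

open Finset

/-- Paths `q a j` (`a ≠ j`) with ends `b a`, `b j` and `p` internal vertices, as in a subdivision
of a complete graph with branch vertices `b i`. -/
structure SubdivData {V : Type} (G : SimpleGraph V) (n p : ℕ) (b : Fin n → V)
    (q : Fin n → Fin n → ℕ → V) : Prop where
  inj : Function.Injective b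
  start : ∀ a j, a ≠ j → q a j 0 = b a
  stop : ∀ a j, a ≠ j → q a j (p + 1) = b j
  adj : ∀ a j, a ≠ j → ∀ k ≤ p, G.Adj (q a j k) (q a j (k + 1))
  nbr : ∀ a j, a ≠ j → ∀ k, 1 ≤ k → k ≤ p → ∀ z, G.Adj (q a j k) z →
    z = q a j (k - 1) ∨ z = q a j (k + 1)
  disj : ∀ a j j', a ≠ j → a ≠ j' → j ≠ j' → ∀ k k', 1 ≤ k → k ≤ p + 1 → k' ≤ p + 1 →
    q a j k ≠ q a j' k'
  branch : ∀ a j, a ≠ j → ∀ k, 1 ≤ k → k ≤ p → ∀ i, q a j k ≠ b i
  nadj : ∀ i j, ¬ G.Adj (b i) (b j)

theorem subdiv_stage {V : Type} [Fintype V] {G : SimpleGraph V} {n p : ℕ} {b : Fin n → V}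
    {q : Fin n → Fin n → ℕ → V} (h : SubdivData G n p b q) (hp : 1 ≤ p) (s : Setoid V)
    (c : ℕ) (hbw : bandwidth (redGraph G s) ≤ c) {a a' : Fin n} (haa : a ≠ a')
    (hs : s (b a) (b a'))
    (hu : ∀ i j, i ≠ j → s (b i) (b j) → (i = a ∧ j = a') ∨ (i = a' ∧ j = a)) :
    n ≤ 2 * (c * (p + 1)) + 3 := by
  classical
  obtain ⟨σ, hσ⟩ := exists_bandwidth (redGraph G s)
  have hσ' : ∀ X Y, (redGraph G s).Adj X Y → |((σ X : ℕ) : ℤ) - ((σ Y : ℕ) : ℤ)| ≤ c := by
    intro X Y hXY
    refine (hσ X Y hXY).trans ?_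
    exact_mod_cast hbw
  -- following the path towards `j`
  have key : ∀ j, j ≠ a → j ≠ a' → ∀ m ≤ p + 1,
      (∃ k, 1 ≤ k ∧ k ≤ p ∧
        |((σ (Quotient.mk s (q a j k)) : ℕ) : ℤ) - ((σ (Quotient.mk s (b a)) : ℕ) : ℤ)| ≤ c * k ∧
        ∀ x, s x (q a j k) → G.Adj x (q a j (k + 1))) ∨
      |((σ (Quotient.mk s (q a j m)) : ℕ) : ℤ) - ((σ (Quotient.mk s (b a)) : ℕ) : ℤ)| ≤ c * m := by
    intro j hja hja' m
    induction m with
    | zero =>
      intro _
      right
      rw [h.start a j hja.symm]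
      simp
    | succ m ih =>
      intro hm
      rcases ih (by omega) with h1 | h1
      · exact Or.inl h1
      · by_cases h2 : Quotient.mk s (q a j m) = Quotient.mk s (q a j (m + 1))
        · right
          rw [← h2]
          refine h1.trans ?_
          push_cast
          nlinarith
        · by_cases h3 : (redGraph G s).Adj (Quotient.mk s (q a j m)) (Quotient.mk s (q a j (m + 1)))
          · right
            have h4 := hσ' _ _ h3
            rw [abs_sub_comm] at h4
            push_cast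
            calc |((σ (Quotient.mk s (q a j (m + 1))) : ℕ) : ℤ) -
                  ((σ (Quotient.mk s (b a)) : ℕ) : ℤ)|
                ≤ |((σ (Quotient.mk s (q a j (m + 1))) : ℕ) : ℤ) -
                    ((σ (Quotient.mk s (q a j m)) : ℕ) : ℤ)| +
                  |((σ (Quotient.mk s (q a j m)) : ℕ) : ℤ) -
                  ((σ (Quotient.mk s (b a)) : ℕ) : ℤ)| := abs_sub_le _ _ _
              _ ≤ c + c * m := add_le_add h4 h1
              _ = c * (m + 1) := by ring
          · -- the pair is black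
            have hblack : ∀ x y, s x (q a j m) → s y (q a j (m + 1)) → G.Adj x y := by
              intro x y hx hy
              by_contra hxy
              apply h3
              refine ⟨h2, ⟨_, _, rfl, rfl, h.adj a j hja.symm m (by omega)⟩, ⟨x, y, ?_, ?_, hxy⟩⟩
              · exact Quotient.sound hx
              · exact Quotient.sound hy
            have hm1 : 1 ≤ m := by
              by_contra hm0
              have hm0' : m = 0 := by omega
              subst hm0'
              have h5 : G.Adj (b a') (q a j (0 + 1)) := by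
                apply hblack
                · rw [h.start a j hja.symm]
                  exact s.symm hs
                · exact s.refl _
              rcases h.nbr a j hja.symm 1 le_rfl hp _ h5.symm with h6 | h6
              · rw [Nat.sub_self, h.start a j hja.symm] at h6
                exact haa (h.inj h6).symm
              · by_cases hp1 : p = 1
                · subst hp1
                  rw [h.stop a j hja.symm] at h6
                  exact hja' (h.inj h6).symm
                · exact h.branch a j hja.symm 2 (by omega) (by omega) _ h6.symm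
            left
            exact ⟨m, hm1, by omega, h1, fun x hx => hblack x _ hx (s.refl _)⟩
  have key2 : ∀ j, j ≠ a → j ≠ a' → ∃ k, 1 ≤ k ∧ k ≤ p + 1 ∧
      |((σ (Quotient.mk s (q a j k)) : ℕ) : ℤ) - ((σ (Quotient.mk s (b a)) : ℕ) : ℤ)| ≤
        c * (p + 1) ∧ (k = p + 1 ∨ (k ≤ p ∧ ∀ x, s x (q a j k) → G.Adj x (q a j (k + 1)))) := by
    intro j hja hja'
    rcases key j hja hja' (p + 1) le_rfl with ⟨k, h1, h2, h3, h4⟩ | h1
    · refine ⟨k, h1, by omega, h3.trans ?_, Or.inr ⟨h2, h4⟩⟩
      have : (k : ℤ) ≤ p := by exact_mod_cast h2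
      nlinarith
    · refine ⟨p + 1, by omega, le_rfl, ?_, Or.inl rfl⟩
      push_cast at h1
      exact h1
  choose! K hK1 hK2 hK3 hK4 using key2
  obtain ⟨J, hJ⟩ : ∃ J : Finset (Fin n), J = (univ.erase a).erase a' := ⟨_, rfl⟩
  have hJmem : ∀ j, j ∈ J ↔ j ≠ a' ∧ j ≠ a := by
    intro j; rw [hJ]; simp
  have hJcard : n ≤ J.card + 2 := by
    rw [hJ]
    have h1 : (univ : Finset (Fin n)).card = n := by simp
    have h2 := Finset.card_erase_of_mem (Finset.mem_univ a)
    have h3 := Finset.card_erase_add_one (s := univ.erase a) (a := a')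
      (Finset.mem_erase.2 ⟨haa.symm, Finset.mem_univ _⟩)
    omega
  have hinj : Set.InjOn (fun j => ((σ (Quotient.mk s (q a j (K j))) : ℕ) : ℤ)) J := by
    intro j hj j' hj' hjj
    rw [Finset.mem_coe, hJmem] at hj hj'
    have h1 : Quotient.mk s (q a j (K j)) = Quotient.mk s (q a j' (K j')) := by
      apply σ.injective
      apply Fin.ext
      have h0 : ((σ (Quotient.mk s (q a j (K j))) : ℕ) : ℤ) =
        ((σ (Quotient.mk s (q a j' (K j'))) : ℕ) : ℤ) := hjj
      exact_mod_cast h0
    have h2 : s (q a j (K j)) (q a j' (K j')) := Quotient.exact h1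
    by_contra hne
    -- the asymmetric part of the argument
    have asym : ∀ j j', j ≠ a' → j ≠ a → j' ≠ a' → j' ≠ a → j ≠ j' →
        s (q a j (K j)) (q a j' (K j')) → K j' ≤ p →
        (∀ x, s x (q a j' (K j')) → G.Adj x (q a j' (K j' + 1))) → False := by
      intro j j' h1 h2 h3 h4 h5 h6 h7 h8
      have h9 := h8 _ h6
      by_cases hj : K j ≤ p
      · rcases h.nbr a j h2.symm (K j) (hK1 j h2 h1) hj _ h9 with h10 | h10
        · exact h.disj a j' j h4.symm h2.symm h5.symm (K j' + 1) (K j - 1) (by omega) (by omega)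
            (by omega) h10
        · exact h.disj a j' j h4.symm h2.symm h5.symm (K j' + 1) (K j + 1) (by omega) (by omega)
            (by omega) h10
      · have hj1 : K j = p + 1 := by
          have := hK2 j h2 h1
          omega
        rw [hj1, h.stop a j h2.symm] at h9
        by_cases hj2 : K j' + 1 ≤ p
        · rcases h.nbr a j' h4.symm (K j' + 1) (by omega) hj2 _ h9.symm with h10 | h10
          · rw [Nat.add_sub_cancel] at h10
            exact h.branch a j' h4.symm (K j') (hK1 j' h4 h3) h7 _ h10.symm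
          · by_cases hj3 : K j' + 1 + 1 ≤ p
            · exact h.branch a j' h4.symm _ (by omega) hj3 _ h10.symm
            · have : K j' + 1 + 1 = p + 1 := by omega
              rw [this, h.stop a j' h4.symm] at h10
              exact h5 (h.inj h10)
        · have : K j' + 1 = p + 1 := by omega
          rw [this, h.stop a j' h4.symm] at h9
          exact h.nadj _ _ h9
    rcases hK4 j' hj'.2 hj'.1 with h3 | ⟨h3, h4⟩
    · rcases hK4 j hj.2 hj.1 with h5 | ⟨h5, h6⟩
      · rw [h3, h5, h.stop a j hj.2.symm, h.stop a j' hj'.2.symm] at h2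
        rcases hu j j' hne h2 with ⟨h7, _⟩ | ⟨h7, _⟩
        · exact hj.2 h7
        · exact hj.1 h7
      · exact asym j' j hj'.1 hj'.2 hj.1 hj.2 (Ne.symm hne) (s.symm h2) h5 h6
    · exact asym j j' hj.1 hj.2 hj'.1 hj'.2 hne h2 h3 h4
  have hmaps : ∀ j ∈ J, ((σ (Quotient.mk s (q a j (K j))) : ℕ) : ℤ) ∈
      Finset.Icc (((σ (Quotient.mk s (b a)) : ℕ) : ℤ) - c * (p + 1))
        (((σ (Quotient.mk s (b a)) : ℕ) : ℤ) + c * (p + 1)) := by
    intro j hj
    rw [hJmem] at hj
    have h1 := hK3 j hj.2 hj.1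
    rw [abs_le] at h1
    rw [Finset.mem_Icc]
    constructor <;> linarith [h1.1, h1.2]
  have hcard := Finset.card_le_card_of_injOn _ hmaps hinj
  rw [Int.card_Icc] at hcard
  have h9 : (((σ (Quotient.mk s (b a)) : ℕ) : ℤ) + c * (p + 1) + 1 -
      (((σ (Quotient.mk s (b a)) : ℕ) : ℤ) - c * (p + 1))).toNat = 2 * (c * (p + 1)) + 1 := by
    have : (((σ (Quotient.mk s (b a)) : ℕ) : ℤ) + c * (p + 1) + 1 -
      (((σ (Quotient.mk s (b a)) : ℕ) : ℤ) - c * (p + 1))) =
        ((2 * (c * (p + 1)) + 1 : ℕ) : ℤ) := by push_cast; ring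
    rw [this, Int.toNat_natCast]
  omega

/-- If a subdivision of `K_n` with all edges subdivided exactly `p ≥ 1` times (or any graph
containing its paths in the same way) has reduced bandwidth `c` then `n ≤ 2c(p+1) + 3`. -/
theorem subdiv_bound {V : Type} [Fintype V] {G : SimpleGraph V} {n p : ℕ} {b : Fin n → V}
    {q : Fin n → Fin n → ℕ → V} (h : SubdivData G n p b q) (hp : 1 ≤ p) (c : ℕ)
    (hc : reducedBandwidth G ≤ c) : n ≤ 2 * (c * (p + 1)) + 3 := by
  classical
  by_cases hn : n ≤ 1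
  · omega
  obtain ⟨s, hs, hbw⟩ := exists_reducedBandwidth G
  have hex : ∃ i, i < Fintype.card V ∧ ∃ a a' : Fin n, a ≠ a' ∧ s i (b a) (b a') := by
    have h0 : (⟨0, by omega⟩ : Fin n) ≠ ⟨1, by omega⟩ := by
      intro h; simpa using congrArg Fin.val h
    have hpos : 0 < Fintype.card V := Fintype.card_pos_iff.2 ⟨b ⟨0, by omega⟩⟩
    refine ⟨Fintype.card V - 1, by omega, ⟨0, by omega⟩, ⟨1, by omega⟩, h0, ?_⟩
    rw [hs.last, Setoid.top_def]
    trivial
  obtain ⟨i, hi, hmin⟩ : ∃ i, (i < Fintype.card V ∧ ∃ a a' : Fin n, a ≠ a' ∧ s i (b a) (b a')) ∧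
      ∀ j < i, ¬ (j < Fintype.card V ∧ ∃ a a' : Fin n, a ≠ a' ∧ s j (b a) (b a')) :=
    ⟨Nat.find hex, Nat.find_spec hex, fun j hj => Nat.find_min hex hj⟩
  obtain ⟨hiV, a, a', haa, hsa⟩ := hi
  have hi0 : i ≠ 0 := by
    rintro rfl
    rw [hs.start, Setoid.bot_def] at hsa
    exact haa (h.inj hsa)
  obtain ⟨i', rfl⟩ := Nat.exists_eq_succ_of_ne_zero hi0
  obtain ⟨u, v, huv, hm⟩ := hs.merge i' hiV
  have hprev : ∀ x y : Fin n, s i' (b x) (b y) → x = y := by
    intro x y hxy
    by_contra hne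
    exact hmin i' (by omega) ⟨by omega, x, y, hne, hxy⟩
  have hmerged : ∀ x y : Fin n, x ≠ y → s (i' + 1) (b x) (b y) →
      (s i' (b x) u ∧ s i' (b y) v) ∨ (s i' (b x) v ∧ s i' (b y) u) := by
    intro x y hxy h1
    rcases (hm _ _).1 h1 with h2 | h2 | h2
    · exact absurd (hprev x y h2) hxy
    · exact Or.inl h2
    · exact Or.inr h2
  apply subdiv_stage h hp (s (i' + 1)) c ((hbw _ hiV).trans hc) haa hsa
  intro x y hxy h1
  rcases hmerged a a' haa hsa with ⟨h2, h3⟩ | ⟨h2, h3⟩
  · rcases hmerged x y hxy h1 with ⟨h4, h5⟩ | ⟨h4, h5⟩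
    · left
      exact ⟨hprev _ _ ((s i').trans h4 ((s i').symm h2)), hprev _ _ ((s i').trans h5 ((s i').symm h3))⟩
    · right
      exact ⟨hprev _ _ ((s i').trans h4 ((s i').symm h3)), hprev _ _ ((s i').trans h5 ((s i').symm h2))⟩
  · rcases hmerged x y hxy h1 with ⟨h4, h5⟩ | ⟨h4, h5⟩
    · right
      exact ⟨hprev _ _ ((s i').trans h4 ((s i').symm h3)), hprev _ _ ((s i').trans h5 ((s i').symm h2))⟩
    · left
      exact ⟨hprev _ _ ((s i').trans h4 ((s i').symm h2)), hprev _ _ ((s i').trans h5 ((s i').symm h3))⟩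

end Pool.Agent.R37
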