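import Mathlib
import Pool.Agent.R37.TD

set_option autoImplicit false

/-!
Width and treewidth.
-/

namespace Pool.Agent.R37

open Finset

/-- The width of a family of bags: the largest size of a bag minus one. -/
def width {V : Type} {n : ℕ} (X : Fin n → Finset V) : ℕ :=
  (Finset.univ.sup fun t => (X t).card) - 1

/-- The treewidth of a finite graph: the least width of a tree decomposition. -/
noncomputable def treewidth {V : Type} (G : SimpleGraph V) : ℕ :=
  sInf {w : ℕ | ∃ (n : ℕ) (T : SimpleGraph (Fin n)) (X : Fin n → Finset V),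
    IsTreeDecomposition G T X ∧ width X = w}

theorem card_le_width {V : Type} {n : ℕ} (X : Fin n → Finset V) (t : Fin n) :
    (X t).card ≤ width X + 1 := by
  unfold width
  have h := Finset.le_sup (f := fun t => (X t).card) (Finset.mem_univ t)
  omega

theorem width_le {V : Type} {n k : ℕ} {X : Fin n → Finset V} (h : ∀ t, (X t).card ≤ k + 1) :
    width X ≤ k := by
  unfold width
  have h1 : (Finset.univ.sup fun t => (X t).card) ≤ k + 1 := Finset.sup_le (fun t _ => h t)
  omega

theorem treewidth_le_width {V : Type} {G : SimpleGraph V} {n : ℕ} {T : SimpleGraph (Fin n)}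
    {X : Fin n → Finset V} (h : IsTreeDecomposition G T X) : treewidth G ≤ width X :=
  Nat.sInf_le ⟨n, T, X, h, rfl⟩

theorem exists_width_eq {V : Type} [Fintype V] (G : SimpleGraph V) :
    ∃ (n : ℕ) (T : SimpleGraph (Fin n)) (X : Fin n → Finset V),
    IsTreeDecomposition G T X ∧ width X = treewidth G := by
  have h : {w : ℕ | ∃ (n : ℕ) (T : SimpleGraph (Fin n)) (X : Fin n → Finset V),
      IsTreeDecomposition G T X ∧ width X = w}.Nonempty :=
    ⟨_, 1, ⊥, _, isTreeDecomposition_single G, rfl⟩
  exact Nat.sInf_mem h

end Pool.Agent.R37
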