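import Mathlib

/-! Disjoint non-monochromatic triples and matchings in 2-colourings of complete graphs. -/

set_option autoImplicit false
set_option linter.unusedSectionVars false

namespace Pool.Agent.R37.TwoCol

open Finset

variable {V : Type*} [Fintype V] [DecidableEq V]

/-- an involution exchanging the ends of the edges of a matching of `H` -/
def IsMat (H : SimpleGraph V) (μ : V → V) : Prop :=
  (∀ v, μ (μ v) = v) ∧ ∀ v, μ v ≠ v → H.Adj v (μ v)

/-- the vertices covered by the matching -/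
def moved (μ : V → V) : Finset V := univ.filter (fun v => μ v ≠ v)

theorem mem_moved {μ : V → V} {v : V} : v ∈ moved μ ↔ μ v ≠ v := by simp [moved]

/-- non-monochromatic triple -/
def Bi (H : SimpleGraph V) (T : Finset V) : Prop :=
  T.card = 3 ∧ (∃ x ∈ T, ∃ y ∈ T, H.Adj x y) ∧ (∃ x ∈ T, ∃ y ∈ T, Hᶜ.Adj x y)

theorem Bi.compl {H : SimpleGraph V} {T : Finset V} (h : Bi H T) : Bi Hᶜ T :=
  ⟨h.1, h.2.2, by rw [compl_compl]; exact h.2.1⟩

/-- families of disjoint non-monochromatic triples -/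
def Fam (H : SimpleGraph V) (𝒯 : Finset (Finset V)) : Prop :=
  (∀ T ∈ 𝒯, Bi H T) ∧ ∀ T ∈ 𝒯, ∀ T' ∈ 𝒯, T ≠ T' → Disjoint T T'

theorem Fam.compl {H : SimpleGraph V} {𝒯 : Finset (Finset V)} (h : Fam H 𝒯) : Fam Hᶜ 𝒯 :=
  ⟨fun T hT => (h.1 T hT).compl, h.2⟩

/-- the vertices outside the triples -/
def rest (𝒯 : Finset (Finset V)) : Finset V := univ \ 𝒯.biUnion id

theorem mem_rest {𝒯 : Finset (Finset V)} {v : V} : v ∈ rest 𝒯 ↔ ∀ T ∈ 𝒯, v ∉ T := by
  simp [rest]

theorem Fam.card_rest {H : SimpleGraph V} {𝒯 : Finset (Finset V)} (h : Fam H 𝒯) :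
    (rest 𝒯).card + 3 * 𝒯.card = Fintype.card V := by
  have h1 : (𝒯.biUnion id).card = 3 * 𝒯.card := by
    rw [card_biUnion]
    · have e : ∑ u ∈ 𝒯, (id u).card = ∑ u ∈ 𝒯, 3 :=
        Finset.sum_congr rfl (fun T hT => (h.1 T hT).1)
      rw [e, sum_const, smul_eq_mul, mul_comm]
    · intro T hT T' hT' hne
      exact h.2 T hT T' hT' hne
  have h2 := card_sdiff_add_card_eq_card (subset_univ (𝒯.biUnion id))
  unfold rest
  rw [card_univ] at h2
  omega

theorem bi_triple {H : SimpleGraph V} {x y z : V} (hxy : x ≠ y) (hxz : x ≠ z) (hyz : y ≠ z)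
    (h : ∃ u ∈ ({x, y, z} : Finset V), ∃ v ∈ ({x, y, z} : Finset V), H.Adj u v)
    (h' : ∃ u ∈ ({x, y, z} : Finset V), ∃ v ∈ ({x, y, z} : Finset V), u ≠ v ∧ ¬ H.Adj u v) :
    Bi H {x, y, z} := by
  refine ⟨card_eq_three.2 ⟨x, y, z, hxy, hxz, hyz, rfl⟩, h, ?_⟩
  obtain ⟨u, hu, v, hv, h1, h2⟩ := h'
  exact ⟨u, hu, v, hv, by rw [SimpleGraph.compl_adj]; exact ⟨h1, h2⟩⟩

/-- the triple `x, y, z` with `xy` an edge and `yz` a non-edge -/
theorem bi_path {H : SimpleGraph V} {x y z : V} (hxy : H.Adj x y) (hxz : x ≠ z) (hyz : y ≠ z)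
    (h : ¬ H.Adj y z) : Bi H {x, y, z} :=
  bi_triple hxy.ne hxz hyz ⟨x, by simp, y, by simp, hxy⟩ ⟨y, by simp, z, by simp, hyz, h⟩

/-- the family obtained by replacing `𝒮` by `𝒮'` -/
theorem Fam.replace {H : SimpleGraph V} {𝒯 𝒮 𝒮' : Finset (Finset V)} (h : Fam H 𝒯)
    (hS : 𝒮 ⊆ 𝒯) (h' : Fam H 𝒮') (hsub : ∀ T ∈ 𝒮', T ⊆ 𝒮.biUnion id ∪ rest 𝒯) :
    Fam H ((𝒯 \ 𝒮) ∪ 𝒮') ∧ ((𝒯 \ 𝒮) ∪ 𝒮').card + 𝒮.card = 𝒯.card + 𝒮'.card := by
  have hdis : ∀ T ∈ 𝒯 \ 𝒮, ∀ T' ∈ 𝒮', Disjoint T T' := by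
    intro T hT T' hT'
    rw [mem_sdiff] at hT
    rw [disjoint_left]
    intro v hv hv'
    have h1 := hsub T' hT' hv'
    rw [mem_union, mem_biUnion] at h1
    rcases h1 with ⟨S, hSS, hvS⟩ | h1
    · have hne : T ≠ S := fun e => hT.2 (e ▸ hSS)
      exact disjoint_left.1 (h.2 T hT.1 S (hS hSS) hne) hv hvS
    · exact mem_rest.1 h1 T hT.1 hv
  refine ⟨⟨?_, ?_⟩, ?_⟩
  · intro T hT
    rcases mem_union.1 hT with hT | hT
    · exact h.1 T (mem_sdiff.1 hT).1
    · exact h'.1 T hT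
  · intro T hT T' hT' hne
    rcases mem_union.1 hT with hT | hT <;> rcases mem_union.1 hT' with hT' | hT'
    · exact h.2 T (mem_sdiff.1 hT).1 T' (mem_sdiff.1 hT').1 hne
    · exact hdis T hT T' hT'
    · exact (hdis T' hT' T hT).symm
    · exact h'.2 T hT T' hT' hne
  · have h1 : Disjoint (𝒯 \ 𝒮) 𝒮' := by
      rw [disjoint_left]
      intro T hT hT'
      have h2 := hdis T hT T hT'
      rw [disjoint_self] at h2
      have h3 := (h'.1 T hT').1
      rw [h2] at h3
      simp at h3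
    rw [card_union_of_disjoint h1]
    have := card_sdiff_add_card_eq_card hS
    omega

section core

variable {H : SimpleGraph V} {t : ℕ}

theorem no_bi_rest (hmax : ∀ 𝒯, Fam H 𝒯 → 𝒯.card ≤ t) {𝒯 : Finset (Finset V)} (h : Fam H 𝒯)
    (hc : 𝒯.card = t) {T : Finset V} (hT : Bi H T) (hs : T ⊆ rest 𝒯) : False := by
  have h1 := h.replace (𝒮 := ∅) (𝒮' := {T}) (empty_subset _)
    ⟨by simpa using hT, by
      intro A hA B hB hne
      rw [mem_singleton] at hA hB
      exact absurd (hA.trans hB.symm) hne⟩ (by simpa using hs)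
  have h2 := hmax _ h1.1
  have h3 := h1.2
  rw [card_empty, card_singleton] at h3
  omega

theorem rest_mono (hmax : ∀ 𝒯, Fam H 𝒯 → 𝒯.card ≤ t) {𝒯 : Finset (Finset V)} (h : Fam H 𝒯)
    (hc : 𝒯.card = t) {u v : V} (hu : u ∈ rest 𝒯) (hv : v ∈ rest 𝒯) (huv : u ≠ v)
    (hn : ¬ H.Adj u v) : ∀ x ∈ rest 𝒯, ∀ y ∈ rest 𝒯, ¬ H.Adj x y := by
  have key : ∀ x y z, x ∈ rest 𝒯 → y ∈ rest 𝒯 → z ∈ rest 𝒯 → x ≠ y → x ≠ z → y ≠ z →
      ¬ H.Adj x y → ¬ H.Adj x z := by
    intro x y z hx hy hz hxy hxz hyz h1 h2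
    refine no_bi_rest hmax h hc (T := {x, y, z}) (bi_triple hxy hxz hyz
      ⟨x, by simp, z, by simp, h2⟩ ⟨x, by simp, y, by simp, hxy, h1⟩) ?_
    intro w hw
    simp only [mem_insert, mem_singleton] at hw
    rcases hw with rfl | rfl | rfl <;> assumption
  have key2 : ∀ z ∈ rest 𝒯, ¬ H.Adj u z := by
    intro z hz hadj
    by_cases hzv : z = v
    · exact hn (hzv ▸ hadj)
    · exact key u v z hu hv hz huv hadj.ne (Ne.symm hzv) hn hadj
  intro x hx y hy hadj
  by_cases hxu : x = u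
  · subst hxu; exact key2 y hy hadj
  · by_cases hyu : y = u
    · subst hyu; exact key2 x hx hadj.symm
    · exact key x u y hx hu hy hxu hadj.ne (Ne.symm hyu)
        (fun h => key2 x hx h.symm) hadj

/-- no two disjoint non-monochromatic triples inside a triple and the rest -/
theorem no_two (hmax : ∀ 𝒯, Fam H 𝒯 → 𝒯.card ≤ t) {𝒯 : Finset (Finset V)} (h : Fam H 𝒯)
    (hc : 𝒯.card = t) {T P Q : Finset V} (hT : T ∈ 𝒯) (hP : Bi H P) (hQ : Bi H Q)
    (hPQ : Disjoint P Q) (hPs : P ⊆ T ∪ rest 𝒯) (hQs : Q ⊆ T ∪ rest 𝒯) : False := by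
  have hne : P ≠ Q := by
    rintro rfl
    rw [disjoint_self] at hPQ
    have := hP.1
    rw [hPQ] at this
    simp at this
  have h1 := h.replace (𝒮 := {T}) (𝒮' := {P, Q}) (by simpa using hT)
    ⟨by
      intro A hA
      simp only [mem_insert, mem_singleton] at hA
      rcases hA with rfl | rfl <;> assumption, by
      intro A hA B hB hAB
      simp only [mem_insert, mem_singleton] at hA hB
      rcases hA with rfl | rfl <;> rcases hB with rfl | rfl
      · exact absurd rfl hAB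
      · exact hPQ
      · exact hPQ.symm
      · exact absurd rfl hAB⟩
    (by
      intro A hA
      simp only [mem_insert, mem_singleton] at hA
      rcases hA with rfl | rfl <;> simpa using by assumption)
  have h2 := hmax _ h1.1
  have h3 := h1.2
  rw [card_singleton, card_pair hne] at h3
  omega

omit [Fintype V] in
theorem disj3 {x y z u v w : V} (h : x ≠ u ∧ x ≠ v ∧ x ≠ w ∧ y ≠ u ∧ y ≠ v ∧ y ≠ w ∧
    z ≠ u ∧ z ≠ v ∧ z ≠ w) : Disjoint ({x, y, z} : Finset V) {u, v, w} := by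
  rw [disjoint_left]
  intro p hp hp'
  simp only [mem_insert, mem_singleton] at hp hp'
  obtain ⟨h1, h2, h3, h4, h5, h6, h7, h8, h9⟩ := h
  rcases hp with rfl | rfl | rfl <;> rcases hp' with h | h | h <;> first | exact h1 h | exact h2 h | exact h3 h | exact h4 h | exact h5 h | exact h6 h | exact h7 h | exact h8 h | exact h9 h

/-- the six point configuration -/
theorem six {a b c w₁ w₂ w₃ : V} (hab : a ≠ b) (hac : a ≠ c) (hbc : b ≠ c)
    (haw₁ : a ≠ w₁) (haw₂ : a ≠ w₂) (haw₃ : a ≠ w₃) (hbw₁ : b ≠ w₁) (hbw₂ : b ≠ w₂)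
    (hbw₃ : b ≠ w₃) (hcw₁ : c ≠ w₁) (hcw₂ : c ≠ w₂) (hcw₃ : c ≠ w₃) (h12 : w₁ ≠ w₂)
    (h13 : w₁ ≠ w₃) (h23 : w₂ ≠ w₃) (n12 : ¬ H.Adj w₁ w₂) (n13 : ¬ H.Adj w₁ w₃)
    (hno : ∀ P Q : Finset V, Bi H P → Bi H Q → Disjoint P Q →
      P ⊆ {a, b, c, w₁, w₂, w₃} → Q ⊆ {a, b, c, w₁, w₂, w₃} → False)
    (h1 : H.Adj a w₁) (h2 : H.Adj b w₂) : H.Adj a b ∧ H.Adj b c ∧ H.Adj a c := by
  have e1 : ¬ Bi H {b, c, w₂} := fun hb => hno {a, w₁, w₃} {b, c, w₂}
    (bi_path h1 haw₃ h13 n13) hb (disj3 (by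
      refine ⟨?_, ?_, ?_, ?_, ?_, ?_, ?_, ?_, ?_⟩ <;>
        first | assumption | exact Ne.symm (by assumption))) (by
        intro x hx; simp only [mem_insert, mem_singleton] at hx ⊢; tauto) (by
        intro x hx; simp only [mem_insert, mem_singleton] at hx ⊢; tauto)
  have f1 : H.Adj b c := by
    by_contra hn
    exact e1 (bi_triple hbc hbw₂ hcw₂ ⟨b, by simp, w₂, by simp, h2⟩ ⟨b, by simp, c, by simp, hbc, hn⟩)
  have f2 : H.Adj c w₂ := by
    by_contra hn
    exact e1 (bi_triple hbc hbw₂ hcw₂ ⟨b, by simp, w₂, by simp, h2⟩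
      ⟨c, by simp, w₂, by simp, hcw₂, hn⟩)
  have e2 : ¬ Bi H {b, c, w₃} := fun hb => hno {a, w₁, w₂} {b, c, w₃}
    (bi_path h1 haw₂ h12 n12) hb (disj3 (by
      refine ⟨?_, ?_, ?_, ?_, ?_, ?_, ?_, ?_, ?_⟩ <;>
        first | assumption | exact Ne.symm (by assumption))) (by
        intro x hx; simp only [mem_insert, mem_singleton] at hx ⊢; tauto) (by
        intro x hx; simp only [mem_insert, mem_singleton] at hx ⊢; tauto)
  have f3 : H.Adj b w₃ := by
    by_contra hn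
    exact e2 (bi_triple hbc hbw₃ hcw₃ ⟨b, by simp, c, by simp, f1⟩
      ⟨b, by simp, w₃, by simp, hbw₃, hn⟩)
  have f4 : H.Adj c w₃ := by
    by_contra hn
    exact e2 (bi_triple hbc hbw₃ hcw₃ ⟨b, by simp, c, by simp, f1⟩
      ⟨c, by simp, w₃, by simp, hcw₃, hn⟩)
  have e3 : ¬ Bi H {a, c, w₃} := fun hb => hno {b, w₂, w₁} {a, c, w₃}
    (bi_path h2 hbw₁ (Ne.symm h12) (fun h => n12 h.symm)) hb (disj3 (by
      refine ⟨?_, ?_, ?_, ?_, ?_, ?_, ?_, ?_, ?_⟩ <;>
        first | assumption | exact Ne.symm (by assumption))) (by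
        intro x hx; simp only [mem_insert, mem_singleton] at hx ⊢; tauto) (by
        intro x hx; simp only [mem_insert, mem_singleton] at hx ⊢; tauto)
  have f5 : H.Adj a c := by
    by_contra hn
    exact e3 (bi_triple hac haw₃ hcw₃ ⟨c, by simp, w₃, by simp, f4⟩
      ⟨a, by simp, c, by simp, hac, hn⟩)
  have f6 : H.Adj a w₃ := by
    by_contra hn
    exact e3 (bi_triple hac haw₃ hcw₃ ⟨c, by simp, w₃, by simp, f4⟩
      ⟨a, by simp, w₃, by simp, haw₃, hn⟩)
  have e4 : ¬ Bi H {a, b, w₃} := fun hb => hno {c, w₂, w₁} {a, b, w₃}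
    (bi_path f2 hcw₁ (Ne.symm h12) (fun h => n12 h.symm)) hb (disj3 (by
      refine ⟨?_, ?_, ?_, ?_, ?_, ?_, ?_, ?_, ?_⟩ <;>
        first | assumption | exact Ne.symm (by assumption))) (by
        intro x hx; simp only [mem_insert, mem_singleton] at hx ⊢; tauto) (by
        intro x hx; simp only [mem_insert, mem_singleton] at hx ⊢; tauto)
  have f7 : H.Adj a b := by
    by_contra hn
    exact e4 (bi_triple hab haw₃ hbw₃ ⟨a, by simp, w₃, by simp, f6⟩
      ⟨a, by simp, b, by simp, hab, hn⟩)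
  exact ⟨f7, f1, f5⟩

omit [Fintype V] in
theorem three_of_mem {T : Finset V} (hT : T.card = 3) {x : V} (hx : x ∈ T) :
    ∃ a b, x ≠ a ∧ x ≠ b ∧ a ≠ b ∧ T = {x, a, b} := by
  have h1 : (T.erase x).card = 2 := by rw [card_erase_of_mem hx, hT]
  obtain ⟨a, b, hab, h2⟩ := card_eq_two.1 h1
  have ha : a ∈ T.erase x := by rw [h2]; simp
  have hb : b ∈ T.erase x := by rw [h2]; simp
  refine ⟨a, b, (ne_of_mem_erase ha).symm, (ne_of_mem_erase hb).symm, hab, ?_⟩
  rw [← insert_erase hx, h2]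

omit [Fintype V] in
theorem choose3 {S : Finset V} (hS : 3 ≤ S.card) {P Q : V → Prop}
    (hP : ∀ w ∈ S, ∀ w' ∈ S, ¬ P w → ¬ P w' → w = w')
    (hQ : ∀ w ∈ S, ∀ w' ∈ S, ¬ Q w → ¬ Q w' → w = w') :
    ∃ w₁ ∈ S, ∃ w₂ ∈ S, ∃ w₃ ∈ S, w₁ ≠ w₂ ∧ w₁ ≠ w₃ ∧ w₂ ≠ w₃ ∧ P w₂ ∧ Q w₃ := by
  classical
  have h2 : ∃ w₂ ∈ S, P w₂ := by
    obtain ⟨u, hu, v, hv, huv⟩ := one_lt_card.1 (show 1 < S.card by omega)
    by_contra hcon
    push Not at hcon
    exact huv (hP u hu v hv (hcon u hu) (hcon v hv))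
  obtain ⟨w₂, hw₂, hPw⟩ := h2
  have h3 : ∃ w₃ ∈ S, w₂ ≠ w₃ ∧ Q w₃ := by
    have hc : 1 < (S.erase w₂).card := by rw [card_erase_of_mem hw₂]; omega
    obtain ⟨u, hu, v, hv, huv⟩ := one_lt_card.1 hc
    by_contra hcon
    push Not at hcon
    exact huv (hQ u (mem_of_mem_erase hu) v (mem_of_mem_erase hv)
      (hcon u (mem_of_mem_erase hu) (ne_of_mem_erase hu).symm)
      (hcon v (mem_of_mem_erase hv) (ne_of_mem_erase hv).symm))
  obtain ⟨w₃, hw₃, h23, hQw⟩ := h3
  have h1 : ((S.erase w₂).erase w₃).Nonempty := by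
    rw [← card_pos, card_erase_of_mem (mem_erase.2 ⟨h23.symm, hw₃⟩), card_erase_of_mem hw₂]
    omega
  obtain ⟨w₁, hw₁⟩ := h1
  refine ⟨w₁, mem_of_mem_erase (mem_of_mem_erase hw₁), w₂, hw₂, w₃, hw₃,
    ne_of_mem_erase (mem_of_mem_erase hw₁), ne_of_mem_erase hw₁, h23, hPw, hQw⟩

/-- two more elements -/
theorem two_more {S : Finset V} (hS : 3 ≤ S.card) {u : V} (hu : u ∈ S) :
    ∃ v ∈ S, ∃ w ∈ S, u ≠ v ∧ u ≠ w ∧ v ≠ w := by
  have hc : 1 < (S.erase u).card := by rw [card_erase_of_mem hu]; omega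
  obtain ⟨v, hv, w, hw, hvw⟩ := one_lt_card.1 hc
  exact ⟨v, mem_of_mem_erase hv, w, mem_of_mem_erase hw, (ne_of_mem_erase hv).symm,
    (ne_of_mem_erase hw).symm, hvw⟩

theorem ne_of_mem_rest {𝒯 : Finset (Finset V)} {T : Finset V} (hT : T ∈ 𝒯) {x y : V}
    (hx : x ∈ T) (hy : y ∈ rest 𝒯) : x ≠ y := by
  rintro rfl
  exact mem_rest.1 hy T hT hx

theorem p0a (hmax : ∀ 𝒯, Fam H 𝒯 → 𝒯.card ≤ t) {𝒯 : Finset (Finset V)} (h : Fam H 𝒯)
    (hc : 𝒯.card = t) (hW : ∀ x ∈ rest 𝒯, ∀ y ∈ rest 𝒯, ¬ H.Adj x y) (h3 : 3 ≤ (rest 𝒯).card)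
    {T : Finset V} (hT : T ∈ 𝒯) {a b w₁ w₂ : V} (ha : a ∈ T) (hb : b ∈ T) (hw₁ : w₁ ∈ rest 𝒯)
    (hw₂ : w₂ ∈ rest 𝒯) (hab : a ≠ b) (h12 : w₁ ≠ w₂) (h1 : H.Adj a w₁) (h2 : H.Adj b w₂) :
    False := by
  have hbi := h.1 T hT
  have hc1 : ((T.erase a).erase b).card = 1 := by
    rw [card_erase_of_mem (mem_erase.2 ⟨hab.symm, hb⟩), card_erase_of_mem ha, hbi.1]
  obtain ⟨c, hc'⟩ := card_eq_one.1 hc1
  have hcm : c ∈ (T.erase a).erase b := by rw [hc']; simp
  have hcb : c ≠ b := ne_of_mem_erase hcm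
  have hca : c ≠ a := ne_of_mem_erase (mem_of_mem_erase hcm)
  have hcT : c ∈ T := mem_of_mem_erase (mem_of_mem_erase hcm)
  have hTe : T = {a, b, c} := by
    rw [← insert_erase ha, ← insert_erase (mem_erase.2 ⟨hab.symm, hb⟩ : b ∈ T.erase a), hc']
  have hex : ∃ w₃ ∈ rest 𝒯, w₁ ≠ w₃ ∧ w₂ ≠ w₃ := by
    have : (((rest 𝒯).erase w₁).erase w₂).Nonempty := by
      rw [← card_pos, card_erase_of_mem (mem_erase.2 ⟨h12.symm, hw₂⟩), card_erase_of_mem hw₁]
      omega
    obtain ⟨w₃, hw₃⟩ := this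
    exact ⟨w₃, mem_of_mem_erase (mem_of_mem_erase hw₃),
      (ne_of_mem_erase (mem_of_mem_erase hw₃)).symm, (ne_of_mem_erase hw₃).symm⟩
  obtain ⟨w₃, hw₃, h13, h23⟩ := hex
  have hsub : ({a, b, c, w₁, w₂, w₃} : Finset V) ⊆ T ∪ rest 𝒯 := by
    intro x hx
    simp only [mem_insert, mem_singleton] at hx
    rcases hx with rfl | rfl | rfl | rfl | rfl | rfl
    · exact mem_union_left _ ha
    · exact mem_union_left _ hb
    · exact mem_union_left _ hcT
    · exact mem_union_right _ hw₁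
    · exact mem_union_right _ hw₂
    · exact mem_union_right _ hw₃
  obtain ⟨f1, f2, f3⟩ := six (H := H) hab hca.symm hcb.symm (ne_of_mem_rest hT ha hw₁)
    (ne_of_mem_rest hT ha hw₂) (ne_of_mem_rest hT ha hw₃) (ne_of_mem_rest hT hb hw₁)
    (ne_of_mem_rest hT hb hw₂) (ne_of_mem_rest hT hb hw₃) (ne_of_mem_rest hT hcT hw₁)
    (ne_of_mem_rest hT hcT hw₂) (ne_of_mem_rest hT hcT hw₃) h12 h13 h23 (hW _ hw₁ _ hw₂)
    (hW _ hw₁ _ hw₃) (fun P Q hP hQ hPQ hPs hQs => no_two hmax h hc hT hP hQ hPQ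
      (hPs.trans hsub) (hQs.trans hsub)) h1 h2
  obtain ⟨x, hx, y, hy, hxy⟩ := hbi.2.2
  rw [SimpleGraph.compl_adj] at hxy
  rw [hTe] at hx hy
  simp only [mem_insert, mem_singleton] at hx hy
  rcases hx with rfl | rfl | rfl <;> rcases hy with rfl | rfl | rfl
  · exact hxy.1 rfl
  · exact hxy.2 f1
  · exact hxy.2 f3
  · exact hxy.2 f1.symm
  · exact hxy.1 rfl
  · exact hxy.2 f2
  · exact hxy.2 f3.symm
  · exact hxy.2 f2.symm
  · exact hxy.1 rfl

theorem p0b (hmax : ∀ 𝒯, Fam H 𝒯 → 𝒯.card ≤ t) {𝒯 : Finset (Finset V)} (h : Fam H 𝒯)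
    (hc : 𝒯.card = t) (hW : ∀ x ∈ rest 𝒯, ∀ y ∈ rest 𝒯, ¬ H.Adj x y) (h3 : 3 ≤ (rest 𝒯).card)
    {T : Finset V} (hT : T ∈ 𝒯) {a b c w : V} (ha : a ∈ T) (hb : b ∈ T) (hcT : c ∈ T)
    (hw : w ∈ rest 𝒯) (hca : c ≠ a) (hcb : c ≠ b) (h1 : H.Adj a b) (h2 : H.Adj c w) :
    False := by
  obtain ⟨w', hw', w'', hw'', e1, e2, e3⟩ := two_more h3 hw
  by_cases hbad : H.Adj a w''
  · exact p0a hmax h hc hW h3 hT hcT ha hw hw'' hca e2 h2 hbad
  · have hP : Bi H {c, w, w'} := bi_path h2 (ne_of_mem_rest hT hcT hw') e1 (hW _ hw _ hw')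
    have hQ : Bi H {a, b, w''} := bi_triple h1.ne (ne_of_mem_rest hT ha hw'')
      (ne_of_mem_rest hT hb hw'') ⟨a, by simp, b, by simp, h1⟩
      ⟨a, by simp, w'', by simp, ne_of_mem_rest hT ha hw'', hbad⟩
    refine no_two hmax h hc hT hP hQ (disj3 ⟨hca, hcb, ne_of_mem_rest hT hcT hw'',
      (ne_of_mem_rest hT ha hw).symm, (ne_of_mem_rest hT hb hw).symm, e2,
      (ne_of_mem_rest hT ha hw').symm, (ne_of_mem_rest hT hb hw').symm, e3⟩) ?_ ?_
    · intro x hx
      simp only [mem_insert, mem_singleton] at hx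
      rcases hx with rfl | rfl | rfl
      · exact mem_union_left _ hcT
      · exact mem_union_right _ hw
      · exact mem_union_right _ hw'
    · intro x hx
      simp only [mem_insert, mem_singleton] at hx
      rcases hx with rfl | rfl | rfl
      · exact mem_union_left _ ha
      · exact mem_union_left _ hb
      · exact mem_union_right _ hw''

/-- the inside vertices -/
def inside (μ : V → V) (𝒯 : Finset (Finset V)) : Finset V :=
  univ.filter (fun v => μ v ≠ v ∧ ∃ T ∈ 𝒯, v ∈ T ∧ μ v ∈ T)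

theorem mem_inside {μ : V → V} {𝒯 : Finset (Finset V)} {v : V} :
    v ∈ inside μ 𝒯 ↔ μ v ≠ v ∧ ∃ T ∈ 𝒯, v ∈ T ∧ μ v ∈ T := by simp [inside]

/-- the standard situation -/
structure Sit (H : SimpleGraph V) (t : ℕ) (μ : V → V) (𝒯 : Finset (Finset V)) : Prop where
  hmax : ∀ 𝒯, Fam H 𝒯 → 𝒯.card ≤ t
  h : Fam H 𝒯
  hc : 𝒯.card = t
  hW : ∀ x ∈ rest 𝒯, ∀ y ∈ rest 𝒯, ¬ H.Adj x y
  h3 : 3 ≤ (rest 𝒯).card
  hμ : IsMat H μ
  hext : ∀ 𝒯', Fam H 𝒯' → 𝒯'.card = t → (∀ x ∈ rest 𝒯', ∀ y ∈ rest 𝒯', ¬ H.Adj x y) →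
    (inside μ 𝒯').card ≤ (inside μ 𝒯).card

/-- no edge of the matching between a triple and the rest -/
theorem Sit.claim1 {μ : V → V} {𝒯 : Finset (Finset V)} (S : Sit H t μ 𝒯) {T : Finset V}
    (hT : T ∈ 𝒯) {x : V} (hx : x ∈ T) (hy : μ x ∈ rest 𝒯) : False := by
  have hne : μ x ≠ x := (ne_of_mem_rest hT hx hy).symm
  have hadj := S.hμ.2 x hne
  obtain ⟨a, b, hxa, hxb, hab, hTe⟩ := three_of_mem (S.h.1 T hT).1 hx
  have haT : a ∈ T := by rw [hTe]; simp
  have hbT : b ∈ T := by rw [hTe]; simp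
  have hnab : ¬ H.Adj a b := fun hadj' =>
    p0b S.hmax S.h S.hc S.hW S.h3 hT haT hbT hx hy hxa hxb hadj' hadj
  obtain ⟨w, hw, w', hw', e1, e2, e3⟩ := two_more S.h3 hy
  have hbi : Bi H {x, μ x, w} := bi_path hadj (ne_of_mem_rest hT hx hw) e1 (S.hW _ hy _ hw)
  obtain ⟨r1, r2⟩ := S.h.replace (𝒮 := {T}) (𝒮' := {{x, μ x, w}}) (by simpa using hT)
    ⟨by simpa using hbi, by
      intro A hA B hB hne
      rw [mem_singleton] at hA hB
      exact absurd (hA.trans hB.symm) hne⟩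
    (by
      intro A hA
      rw [mem_singleton] at hA
      subst hA
      intro z hz
      simp only [mem_insert, mem_singleton] at hz
      rcases hz with rfl | rfl | rfl
      · exact mem_union_left _ (by simpa using hx)
      · exact mem_union_right _ hy
      · exact mem_union_right _ hw)
  set 𝒯' := (𝒯 \ {T}) ∪ {{x, μ x, w}} with h𝒯'
  have hcard : 𝒯'.card = t := by
    rw [card_singleton, card_singleton] at r2
    have := S.hc
    omega
  have hrest : ∀ z ∈ T, z ≠ x → z ∈ rest 𝒯' := by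
    intro z hz hzx
    rw [mem_rest]
    intro A hA
    rw [h𝒯', mem_union, mem_sdiff, mem_singleton, mem_singleton] at hA
    rcases hA with ⟨hA, hAT⟩ | rfl
    · exact fun hzA => disjoint_left.1 (S.h.2 A hA T hT hAT) hzA hz
    · simp only [mem_insert, mem_singleton, not_or]
      exact ⟨hzx, ne_of_mem_rest hT hz hy, ne_of_mem_rest hT hz hw⟩
  have hW' := rest_mono S.hmax r1 hcard (hrest a haT (Ne.symm hxa)) (hrest b hbT (Ne.symm hxb))
    hab hnab
  have hle := S.hext 𝒯' r1 hcard hW'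
  have hlt : inside μ 𝒯 ⊂ inside μ 𝒯' := by
    rw [ssubset_iff_of_subset]
    · refine ⟨x, mem_inside.2 ⟨hne, {x, μ x, w}, by simp [h𝒯'], by simp, by simp⟩, ?_⟩
      rw [mem_inside]
      rintro ⟨-, A, hA, -, hA2⟩
      exact mem_rest.1 hy A hA hA2
    · intro v hv
      rw [mem_inside] at hv ⊢
      obtain ⟨hv1, A, hA, hvA, hvA'⟩ := hv
      refine ⟨hv1, A, ?_, hvA, hvA'⟩
      have hAT : A ≠ T := by
        rintro rfl
        have h1 := S.hμ.2 v hv1
        have hvx : v ≠ x := by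
          rintro rfl
          exact mem_rest.1 hy A hA hvA'
        have hvx' : μ v ≠ x := by
          intro e
          have : v = μ x := by rw [← e, S.hμ.1]
          exact mem_rest.1 hy A hA (this ▸ hvA)
        rw [hTe] at hvA hvA'
        simp only [mem_insert, mem_singleton] at hvA hvA'
        rcases hvA with h | h | h
        · exact hvx h
        · rcases hvA' with h' | h' | h'
          · exact hvx' h'
          · exact hv1 (h'.trans h.symm)
          · rw [h', h] at h1; exact hnab h1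
        · rcases hvA' with h' | h' | h'
          · exact hvx' h'
          · rw [h', h] at h1; exact hnab h1.symm
          · exact hv1 (h'.trans h.symm)
      rw [h𝒯', mem_union, mem_sdiff, mem_singleton]
      exact Or.inl ⟨hA, hAT⟩
  have := card_lt_card hlt
  omega

/-- the vertex opposite to an edge in a triple is not matched to another triple -/
theorem Sit.claim2 {μ : V → V} {𝒯 : Finset (Finset V)} (S : Sit H t μ 𝒯) {T : Finset V}
    (hT : T ∈ 𝒯) {x a b : V} (hxa : x ≠ a) (hxb : x ≠ b) (hTe : T = {x, a, b})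
    (hab : H.Adj a b) (hy : μ x ∉ T) : False := by
  have hx : x ∈ T := by rw [hTe]; simp
  have haT : a ∈ T := by rw [hTe]; simp
  have hbT : b ∈ T := by rw [hTe]; simp
  have hne : μ x ≠ x := fun e => hy (by rw [e]; exact hx)
  have hadj := S.hμ.2 x hne
  by_cases hyr : μ x ∈ rest 𝒯
  · exact S.claim1 hT hx hyr
  rw [mem_rest] at hyr
  push Not at hyr
  obtain ⟨T', hT', hyT'⟩ := hyr
  have hTT : T ≠ T' := by rintro rfl; exact hy hyT'
  have hdis := disjoint_left.1 (S.h.2 T hT T' hT' hTT)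
  obtain ⟨c, d, hyc, hyd, hcd, hTe'⟩ := three_of_mem (S.h.1 T' hT').1 hyT'
  have hcT : c ∈ T' := by rw [hTe']; simp
  have hdT : d ∈ T' := by rw [hTe']; simp
  have hxw : ∀ w ∈ rest 𝒯, ¬ H.Adj x w := fun w hw hadj' =>
    p0b S.hmax S.h S.hc S.hW S.h3 hT haT hbT hx hw hxa hxb hab hadj'
  obtain ⟨w₁, hw₁, w₂, hw₂, w₃, hw₃, h12, h13, h23, hP, hQ⟩ := choose3 S.h3
    (P := fun w => ¬ H.Adj a w ∨ ¬ H.Adj b w) (Q := fun w => ¬ H.Adj c w ∨ ¬ H.Adj d w)
    (by
      intro w hw w' hw' h1 h2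
      push Not at h1 h2
      by_contra hne'
      exact p0a S.hmax S.h S.hc S.hW S.h3 hT haT hbT hw hw' hab.ne hne' h1.1 h2.2)
    (by
      intro w hw w' hw' h1 h2
      push Not at h1 h2
      by_contra hne'
      exact p0a S.hmax S.h S.hc S.hW S.h3 hT' hcT hdT hw hw' hcd hne' h1.1 h2.2)
  have n1 := fun {z : V} (hz : z ∈ T) => ne_of_mem_rest hT hz hw₁
  have n2 := fun {z : V} (hz : z ∈ T) => ne_of_mem_rest hT hz hw₂
  have n3 := fun {z : V} (hz : z ∈ T) => ne_of_mem_rest hT hz hw₃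
  have m1 := fun {z : V} (hz : z ∈ T') => ne_of_mem_rest hT' hz hw₁
  have m2 := fun {z : V} (hz : z ∈ T') => ne_of_mem_rest hT' hz hw₂
  have m3 := fun {z : V} (hz : z ∈ T') => ne_of_mem_rest hT' hz hw₃
  have k := fun {z z' : V} (hz : z ∈ T) (hz' : z' ∈ T') =>
    (show z ≠ z' from fun e => hdis hz (e ▸ hz'))
  have B1 : Bi H {x, μ x, w₁} := bi_triple hadj.ne (n1 hx) (m1 hyT')
    ⟨x, by simp, μ x, by simp, hadj⟩ ⟨x, by simp, w₁, by simp, n1 hx, hxw w₁ hw₁⟩
  have B2 : Bi H {a, b, w₂} := bi_triple hab.ne (n2 haT) (n2 hbT)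
    ⟨a, by simp, b, by simp, hab⟩ (by
      rcases hP with h | h
      · exact ⟨a, by simp, w₂, by simp, n2 haT, h⟩
      · exact ⟨b, by simp, w₂, by simp, n2 hbT, h⟩)
  have D12 : Disjoint ({x, μ x, w₁} : Finset V) {a, b, w₂} := disj3
    ⟨hxa, hxb, n2 hx, (k haT hyT').symm, (k hbT hyT').symm, m2 hyT', (n1 haT).symm,
      (n1 hbT).symm, h12⟩
  have sub1 : ({x, μ x, w₁} : Finset V) ⊆ ({T, T'} : Finset (Finset V)).biUnion id ∪ rest 𝒯 := by
    intro z hz
    simp only [mem_insert, mem_singleton] at hz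
    rcases hz with rfl | rfl | rfl
    · exact mem_union_left _ (mem_biUnion.2 ⟨T, by simp, hx⟩)
    · exact mem_union_left _ (mem_biUnion.2 ⟨T', by simp, hyT'⟩)
    · exact mem_union_right _ hw₁
  have sub2 : ({a, b, w₂} : Finset V) ⊆ ({T, T'} : Finset (Finset V)).biUnion id ∪ rest 𝒯 := by
    intro z hz
    simp only [mem_insert, mem_singleton] at hz
    rcases hz with rfl | rfl | rfl
    · exact mem_union_left _ (mem_biUnion.2 ⟨T, by simp, haT⟩)
    · exact mem_union_left _ (mem_biUnion.2 ⟨T, by simp, hbT⟩)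
    · exact mem_union_right _ hw₂
  have hss : ({T, T'} : Finset (Finset V)) ⊆ 𝒯 := by
    intro z hz
    simp only [mem_insert, mem_singleton] at hz
    rcases hz with rfl | rfl <;> assumption
  have hne12 : ({x, μ x, w₁} : Finset V) ≠ {a, b, w₂} := by
    intro e
    rw [e, disjoint_self] at D12
    have := B2.1
    rw [D12] at this
    simp at this
  by_cases hcdH : H.Adj c d
  · have B3 : Bi H {c, d, w₃} := bi_triple hcd (m3 hcT) (m3 hdT)
      ⟨c, by simp, d, by simp, hcdH⟩ (by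
        rcases hQ with h | h
        · exact ⟨c, by simp, w₃, by simp, m3 hcT, h⟩
        · exact ⟨d, by simp, w₃, by simp, m3 hdT, h⟩)
    have D13 : Disjoint ({x, μ x, w₁} : Finset V) {c, d, w₃} := disj3
      ⟨k hx hcT, k hx hdT, n3 hx, hyc, hyd, m3 hyT', (m1 hcT).symm, (m1 hdT).symm, h13⟩
    have D23 : Disjoint ({a, b, w₂} : Finset V) {c, d, w₃} := disj3
      ⟨k haT hcT, k haT hdT, n3 haT, k hbT hcT, k hbT hdT, n3 hbT, (m2 hcT).symm,
        (m2 hdT).symm, h23⟩
    have sub3 : ({c, d, w₃} : Finset V) ⊆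
        ({T, T'} : Finset (Finset V)).biUnion id ∪ rest 𝒯 := by
      intro z hz
      simp only [mem_insert, mem_singleton] at hz
      rcases hz with rfl | rfl | rfl
      · exact mem_union_left _ (mem_biUnion.2 ⟨T', by simp, hcT⟩)
      · exact mem_union_left _ (mem_biUnion.2 ⟨T', by simp, hdT⟩)
      · exact mem_union_right _ hw₃
    have hne13 : ({x, μ x, w₁} : Finset V) ≠ {c, d, w₃} := by
      intro e
      rw [e, disjoint_self] at D13
      have := B3.1
      rw [D13] at this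
      simp at this
    have hne23 : ({a, b, w₂} : Finset V) ≠ {c, d, w₃} := by
      intro e
      rw [e, disjoint_self] at D23
      have := B3.1
      rw [D23] at this
      simp at this
    obtain ⟨r1, r2⟩ := S.h.replace (𝒮 := {T, T'})
      (𝒮' := {{x, μ x, w₁}, {a, b, w₂}, {c, d, w₃}}) hss
      ⟨by
        intro A hA
        simp only [mem_insert, mem_singleton] at hA
        rcases hA with rfl | rfl | rfl <;> assumption, by
        intro A hA B hB hAB
        simp only [mem_insert, mem_singleton] at hA hB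
        rcases hA with rfl | rfl | rfl <;> rcases hB with rfl | rfl | rfl
        · exact absurd rfl hAB
        · exact D12
        · exact D13
        · exact D12.symm
        · exact absurd rfl hAB
        · exact D23
        · exact D13.symm
        · exact D23.symm
        · exact absurd rfl hAB⟩
      (by
        intro A hA
        simp only [mem_insert, mem_singleton] at hA
        rcases hA with rfl | rfl | rfl <;> assumption)
    have r3 := S.hmax _ r1
    have r4 : ({{x, μ x, w₁}, {a, b, w₂}, {c, d, w₃}} : Finset (Finset V)).card = 3 :=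
      card_eq_three.2 ⟨_, _, _, hne12, hne13, hne23, rfl⟩
    rw [card_pair hTT, r4] at r2
    have := S.hc
    omega
  · obtain ⟨r1, r2⟩ := S.h.replace (𝒮 := {T, T'})
      (𝒮' := {{x, μ x, w₁}, {a, b, w₂}}) hss
      ⟨by
        intro A hA
        simp only [mem_insert, mem_singleton] at hA
        rcases hA with rfl | rfl <;> assumption, by
        intro A hA B hB hAB
        simp only [mem_insert, mem_singleton] at hA hB
        rcases hA with rfl | rfl <;> rcases hB with rfl | rfl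
        · exact absurd rfl hAB
        · exact D12
        · exact D12.symm
        · exact absurd rfl hAB⟩
      (by
        intro A hA
        simp only [mem_insert, mem_singleton] at hA
        rcases hA with rfl | rfl <;> assumption)
    set 𝒯' := (𝒯 \ {T, T'}) ∪ {{x, μ x, w₁}, {a, b, w₂}} with h𝒯'
    have hcard : 𝒯'.card = t := by
      rw [card_pair hTT, card_pair hne12] at r2
      have := S.hc
      omega
    have hrest : ∀ z ∈ T', z ≠ μ x → z ∈ rest 𝒯' := by
      intro z hz hzx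
      rw [mem_rest]
      intro A hA
      rw [h𝒯', mem_union, mem_sdiff] at hA
      rcases hA with ⟨hA, hAT⟩ | hA
      · simp only [mem_insert, mem_singleton, not_or] at hAT
        exact fun hzA => disjoint_left.1 (S.h.2 A hA T' hT' hAT.2) hzA hz
      · simp only [mem_insert, mem_singleton] at hA
        rcases hA with rfl | rfl
        · simp only [mem_insert, mem_singleton, not_or]
          exact ⟨(k hx hz).symm, hzx, m1 hz⟩
        · simp only [mem_insert, mem_singleton, not_or]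
          exact ⟨(k haT hz).symm, (k hbT hz).symm, m2 hz⟩
    have hW' := rest_mono S.hmax r1 hcard (hrest c hcT (Ne.symm hyc)) (hrest d hdT (Ne.symm hyd))
      hcd hcdH
    have hle := S.hext 𝒯' r1 hcard hW'
    have hlt : inside μ 𝒯 ⊂ inside μ 𝒯' := by
      rw [ssubset_iff_of_subset]
      · refine ⟨x, mem_inside.2 ⟨hne, {x, μ x, w₁}, by simp [h𝒯'], by simp, by simp⟩, ?_⟩
        rw [mem_inside]
        rintro ⟨-, A, hA, hA1, hA2⟩
        by_cases hAT : A = T
        · rw [hAT] at hA2; exact hy hA2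
        · exact disjoint_left.1 (S.h.2 A hA T hT hAT) hA1 hx
      · intro v hv
        rw [mem_inside] at hv ⊢
        obtain ⟨hv1, A, hA, hvA, hvA'⟩ := hv
        have h1 := S.hμ.2 v hv1
        by_cases hAT : A = T
        · subst hAT
          have hvx : v ≠ x := by
            rintro rfl
            exact hy hvA'
          have hvx' : μ v ≠ x := by
            intro e
            have : v = μ x := by rw [← e, S.hμ.1]
            exact hy (this ▸ hvA)
          refine ⟨hv1, {a, b, w₂}, by simp [h𝒯'], ?_, ?_⟩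
          · rw [hTe] at hvA
            simp only [mem_insert, mem_singleton] at hvA ⊢
            tauto
          · rw [hTe] at hvA'
            simp only [mem_insert, mem_singleton] at hvA' ⊢
            tauto
        · by_cases hAT' : A = T'
          · exfalso
            subst hAT'
            have hvx : v ≠ μ x := by
              rintro rfl
              rw [S.hμ.1] at hvA'
              exact hdis hx hvA'
            have hvx' : μ v ≠ μ x := by
              intro e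
              have : v = x := by rw [← S.hμ.1 v, e, S.hμ.1]
              exact hdis hx (this ▸ hvA)
            rw [hTe'] at hvA hvA'
            simp only [mem_insert, mem_singleton] at hvA hvA'
            rcases hvA with h | h | h
            · exact hvx h
            · rcases hvA' with h' | h' | h'
              · exact hvx' h'
              · exact hv1 (h'.trans h.symm)
              · rw [h', h] at h1; exact hcdH h1
            · rcases hvA' with h' | h' | h'
              · exact hvx' h'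
              · rw [h', h] at h1; exact hcdH h1.symm
              · exact hv1 (h'.trans h.symm)
          · refine ⟨hv1, A, ?_, hvA, hvA'⟩
            rw [h𝒯', mem_union, mem_sdiff]
            left
            simp only [mem_insert, mem_singleton, not_or]
            exact ⟨hA, hAT, hAT'⟩
    have := card_lt_card hlt
    omega

/-- each triple has an uncovered vertex -/
theorem Sit.unmoved {μ : V → V} {𝒯 : Finset (Finset V)} (S : Sit H t μ 𝒯) {T : Finset V}
    (hT : T ∈ 𝒯) : ∃ x ∈ T, μ x = x := by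
  by_cases hin : ∃ v ∈ T, μ v ≠ v ∧ μ v ∈ T
  · obtain ⟨v, hv, hv1, hv2⟩ := hin
    obtain ⟨a, b, h1, h2, h3, hTe⟩ := three_of_mem (S.h.1 T hT).1 hv
    have key : ∀ x, x ∈ T → x ≠ v → x ≠ μ v → T = {x, v, μ v} → μ x = x := by
      intro x hx hxv hxv' hTx
      by_contra hne
      refine S.claim2 hT hxv hxv' hTx (S.hμ.2 v hv1) ?_
      intro hmem
      rw [hTx] at hmem
      simp only [mem_insert, mem_singleton] at hmem
      rcases hmem with h | h | h
      · exact hne h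
      · exact hxv' (by rw [← h, S.hμ.1])
      · exact hxv (by rw [← S.hμ.1 x, h, S.hμ.1])
    have hμv : μ v = a ∨ μ v = b := by
      rw [hTe] at hv2
      simp only [mem_insert, mem_singleton] at hv2
      rcases hv2 with h | h | h
      · exact absurd h hv1
      · exact Or.inl h
      · exact Or.inr h
    rcases hμv with h | h
    · refine ⟨b, by rw [hTe]; simp, key b (by rw [hTe]; simp) h2.symm (by rw [h]; exact h3.symm) ?_⟩
      rw [h, hTe]
      ext z; simp only [mem_insert, mem_singleton]; tauto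
    · refine ⟨a, by rw [hTe]; simp, key a (by rw [hTe]; simp) h1.symm (by rw [h]; exact h3) ?_⟩
      rw [h, hTe]
      ext z; simp only [mem_insert, mem_singleton]; tauto
  · push Not at hin
    obtain ⟨a, ha, b, hb, hab⟩ := (S.h.1 T hT).2.1
    have hc1 : ((T.erase a).erase b).card = 1 := by
      rw [card_erase_of_mem (mem_erase.2 ⟨hab.ne', hb⟩), card_erase_of_mem ha, (S.h.1 T hT).1]
    obtain ⟨c, hc'⟩ := card_eq_one.1 hc1
    have hcm : c ∈ (T.erase a).erase b := by rw [hc']; simp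
    have hcb : c ≠ b := ne_of_mem_erase hcm
    have hca : c ≠ a := ne_of_mem_erase (mem_of_mem_erase hcm)
    have hcT : c ∈ T := mem_of_mem_erase (mem_of_mem_erase hcm)
    have hTe : T = {c, a, b} := by
      rw [← insert_erase ha, ← insert_erase (mem_erase.2 ⟨hab.ne', hb⟩ : b ∈ T.erase a), hc']
      ext z; simp only [mem_insert, mem_singleton]; tauto
    refine ⟨c, hcT, ?_⟩
    by_contra hne
    exact S.claim2 hT hca hcb hTe hab (hin c hcT hne)

/-- the matching is small -/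
theorem Sit.bound {μ : V → V} {𝒯 : Finset (Finset V)} (S : Sit H t μ 𝒯) :
    (moved μ).card ≤ 2 * t := by
  have hsub : moved μ ⊆ 𝒯.biUnion (fun T => T.filter (fun v => μ v ≠ v)) := by
    intro v hv
    rw [mem_moved] at hv
    by_cases hr : v ∈ rest 𝒯
    · exfalso
      have h1 := S.hμ.2 v hv
      by_cases hr' : μ v ∈ rest 𝒯
      · exact S.hW _ hr _ hr' h1
      · rw [mem_rest] at hr'
        push Not at hr'
        obtain ⟨T, hT, hvT⟩ := hr'
        exact S.claim1 hT hvT (by rw [S.hμ.1]; exact hr)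
    · rw [mem_rest] at hr
      push Not at hr
      obtain ⟨T, hT, hvT⟩ := hr
      exact mem_biUnion.2 ⟨T, hT, mem_filter.2 ⟨hvT, hv⟩⟩
  calc (moved μ).card ≤ (𝒯.biUnion (fun T => T.filter (fun v => μ v ≠ v))).card :=
        card_le_card hsub
    _ ≤ ∑ T ∈ 𝒯, (T.filter (fun v => μ v ≠ v)).card := card_biUnion_le
    _ ≤ ∑ T ∈ 𝒯, 2 := by
        refine sum_le_sum (fun T hT => ?_)
        obtain ⟨x, hx, hμx⟩ := S.unmoved hT
        have h1 : T.filter (fun v => μ v ≠ v) ⊆ T.erase x := by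
          intro v hv
          rw [mem_filter] at hv
          rw [mem_erase]
          exact ⟨fun e => hv.2 (by rw [e]; exact hμx), hv.1⟩
        have h2 := card_le_card h1
        rw [card_erase_of_mem hx, (S.h.1 T hT).1] at h2
        exact h2
    _ = 2 * t := by rw [sum_const, smul_eq_mul, S.hc, mul_comm]

end core

theorem core_bound {H : SimpleGraph V} {t : ℕ} (hmax : ∀ 𝒯, Fam H 𝒯 → 𝒯.card ≤ t)
    {𝒯₀ : Finset (Finset V)} (h : Fam H 𝒯₀) (hc : 𝒯₀.card = t)
    (hW : ∀ x ∈ rest 𝒯₀, ∀ y ∈ rest 𝒯₀, ¬ H.Adj x y) (hn : 3 * t + 3 ≤ Fintype.card V)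
    {μ : V → V} (hμ : IsMat H μ) : (moved μ).card ≤ 2 * t := by
  classical
  obtain ⟨𝒯, h𝒯, hext⟩ := Finset.exists_max_image (univ.filter (fun 𝒯 : Finset (Finset V) =>
    Fam H 𝒯 ∧ 𝒯.card = t ∧ ∀ x ∈ rest 𝒯, ∀ y ∈ rest 𝒯, ¬ H.Adj x y))
    (fun 𝒯 => (inside μ 𝒯).card) ⟨𝒯₀, by simp only [mem_filter, mem_univ, true_and]
                                         exact ⟨h, hc, hW⟩⟩
  simp only [mem_filter, mem_univ, true_and] at h𝒯 hext
  refine Sit.bound (𝒯 := 𝒯) ⟨hmax, h𝒯.1, h𝒯.2.1, h𝒯.2.2, ?_, hμ, fun 𝒯' a b c => hext 𝒯' ⟨a, b, c⟩⟩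
  have := h𝒯.1.card_rest
  rw [h𝒯.2.1] at this
  omega

/-- In a 2-colouring of a complete graph on at least `3t+3` vertices with at most `t` disjoint
non-monochromatic triples, one of the colours has no matching with more than `t` edges. -/
theorem two_col {H : SimpleGraph V} {t : ℕ} (hmax : ∀ 𝒯, Fam H 𝒯 → 𝒯.card ≤ t)
    (hn : 3 * t + 3 ≤ Fintype.card V) :
    (∀ μ, IsMat H μ → (moved μ).card ≤ 2 * t) ∨ (∀ μ, IsMat Hᶜ μ → (moved μ).card ≤ 2 * t) := by
  classical
  obtain ⟨𝒯₀, h0, hext⟩ := Finset.exists_max_image (univ.filter (fun 𝒯 : Finset (Finset V) =>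
    Fam H 𝒯)) (fun 𝒯 => 𝒯.card) ⟨∅, mem_filter.2 ⟨mem_univ _,
      fun T hT => absurd hT (notMem_empty _), fun T hT => absurd hT (notMem_empty _)⟩⟩
  simp only [mem_filter, mem_univ, true_and] at h0 hext
  obtain ⟨s, hs⟩ : ∃ s, 𝒯₀.card = s := ⟨_, rfl⟩
  rw [hs] at hext
  have hst : s ≤ t := hs ▸ hmax 𝒯₀ h0
  have hcr := h0.card_rest
  rw [hs] at hcr
  obtain ⟨u, hu, v, hv, huv⟩ := one_lt_card.1 (show 1 < (rest 𝒯₀).card by omega)
  by_cases hadj : H.Adj u v
  · right
    intro μ hμ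
    have hm : ∀ 𝒯, Fam Hᶜ 𝒯 → 𝒯.card ≤ s := fun 𝒯 h => hext 𝒯 (by
      have := h.compl; rwa [compl_compl] at this)
    have hn' : ¬ Hᶜ.Adj u v := by rw [SimpleGraph.compl_adj]; exact fun h => h.2 hadj
    have := core_bound hm h0.compl hs (rest_mono hm h0.compl hs hu hv huv hn') (by omega) hμ
    omega
  · left
    intro μ hμ
    have := core_bound hext h0 hs (rest_mono hext h0 hs hu hv huv hadj) (by omega) hμ
    omega

end Pool.Agent.R37.TwoCol
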