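import Pool.Agent.R37.GenCyc
import Pool.Agent.R37.Treedepth

/-! Compactness: from finite graphs of diameter at most three with arbitrarily long paths to an
infinite graph of diameter at most three with a ray. -/

set_option autoImplicit false

universe u

namespace Pool.Agent.R37.GenLink

open Filter

/-- equality almost everywhere -/
def us (V : ℕ → Type u) : Setoid (∀ n, V n) where
  r a b := ∀ᶠ n in (U : Filter ℕ), a n = b n
  iseqv := ⟨fun _ => Filter.Eventually.of_forall (fun _ => rfl),
    fun h => h.mono (fun _ hn => hn.symm),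
    fun h h' => (h.and h').mono (fun _ hn => hn.1.trans hn.2)⟩

/-- the ultraproduct graph -/
def ug {V : ℕ → Type u} (G : ∀ n, SimpleGraph (V n)) : SimpleGraph (Quotient (us V)) where
  Adj := Quotient.lift₂ (fun a b => ∀ᶠ n in (U : Filter ℕ), (G n).Adj (a n) (b n)) (by
    intro a b a' b' ha hb
    have ha' : ∀ᶠ n in (U : Filter ℕ), a n = a' n := ha
    have hb' : ∀ᶠ n in (U : Filter ℕ), b n = b' n := hb
    apply propext
    constructor
    · intro h
      filter_upwards [h, ha', hb'] with n h1 h2 h3
      rw [← h2, ← h3]; exact h1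
    · intro h
      filter_upwards [h, ha', hb'] with n h1 h2 h3
      rw [h2, h3]; exact h1)
  symm := ⟨by
    intro a b
    refine Quotient.inductionOn₂ a b (fun a b h => ?_)
    have h' : ∀ᶠ n in (U : Filter ℕ), (G n).Adj (a n) (b n) := h
    exact h'.mono (fun _ hn => hn.symm)⟩
  loopless := ⟨by
    intro a
    refine Quotient.inductionOn a (fun a h => ?_)
    have h' : ∀ᶠ n in (U : Filter ℕ), (G n).Adj (a n) (a n) := h
    obtain ⟨n, hn⟩ := h'.exists
    exact hn.ne rfl⟩

theorem ug_adj {V : ℕ → Type u} (G : ∀ n, SimpleGraph (V n)) (a b : ∀ n, V n) :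
    (ug G).Adj (Quotient.mk (us V) a) (Quotient.mk (us V) b) ↔
      ∀ᶠ n in (U : Filter ℕ), (G n).Adj (a n) (b n) := Iff.rfl

theorem ug_dist3 {V : ℕ → Type u} {G : ∀ n, SimpleGraph (V n)} (h : ∀ n, Dist3 (G n)) :
    Dist3 (ug G) := by
  classical
  intro a b
  refine Quotient.inductionOn₂ a b (fun a b => ?_)
  have h0 : ∀ᶠ n in (U : Filter ℕ), a n = b n ∨ (G n).Adj (a n) (b n) ∨
      (∃ c, (G n).Adj (a n) c ∧ (G n).Adj c (b n)) ∨
      ∃ c d, (G n).Adj (a n) c ∧ (G n).Adj c d ∧ (G n).Adj d (b n) :=
    Filter.Eventually.of_forall (fun n => h n (a n) (b n))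
  rw [Ultrafilter.eventually_or, Ultrafilter.eventually_or, Ultrafilter.eventually_or] at h0
  rcases h0 with h1 | h1 | h1 | h1
  · left; exact Quotient.sound h1
  · right; left; exact h1
  · right; right; left
    have h2 : ∀ n, ∃ c, (∃ c, (G n).Adj (a n) c ∧ (G n).Adj c (b n)) →
        (G n).Adj (a n) c ∧ (G n).Adj c (b n) := by
      intro n
      by_cases hn : ∃ c, (G n).Adj (a n) c ∧ (G n).Adj c (b n)
      · obtain ⟨c, hc⟩ := hn
        exact ⟨c, fun _ => hc⟩
      · exact ⟨a n, fun h => absurd h hn⟩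
    choose c hc using h2
    refine ⟨Quotient.mk (us V) c, ?_, ?_⟩
    · rw [ug_adj]; exact h1.mono (fun n hn => (hc n hn).1)
    · rw [ug_adj]; exact h1.mono (fun n hn => (hc n hn).2)
  · right; right; right
    have h2 : ∀ n, ∃ c d, (∃ c d, (G n).Adj (a n) c ∧ (G n).Adj c d ∧ (G n).Adj d (b n)) →
        (G n).Adj (a n) c ∧ (G n).Adj c d ∧ (G n).Adj d (b n) := by
      intro n
      by_cases hn : ∃ c d, (G n).Adj (a n) c ∧ (G n).Adj c d ∧ (G n).Adj d (b n)
      · obtain ⟨c, d, hc⟩ := hn
        exact ⟨c, d, fun _ => hc⟩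
      · exact ⟨a n, a n, fun h => absurd h hn⟩
    choose c d hcd using h2
    refine ⟨Quotient.mk (us V) c, Quotient.mk (us V) d, ?_, ?_, ?_⟩
    · rw [ug_adj]; exact h1.mono (fun n hn => (hcd n hn).1)
    · rw [ug_adj]; exact h1.mono (fun n hn => (hcd n hn).2.1)
    · rw [ug_adj]; exact h1.mono (fun n hn => (hcd n hn).2.2)

/-- a closed path is a copy of the cycle graph -/
theorem cycleGraph_of_hasCyc {V : Type u} {G : SimpleGraph V} {n : ℕ} (hn : 2 ≤ n)
    (h : HasCyc G n) : (SimpleGraph.cycleGraph n).IsContained G := by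
  obtain ⟨a, I, h1, h2, h3, -, h5⟩ := h
  have hlen : (a :: (I ++ [a])).length = n + 1 := by simp; omega
  have hnd : (a :: I).Nodup := List.nodup_cons.2 ⟨h3, h2⟩
  have hlen' : (a :: I).length = n := by simp; omega
  have hget : ∀ (i : ℕ) (hi : i < n), (a :: (I ++ [a]))[i] = (a :: I)[i] := by
    intro i hi
    have e : a :: (I ++ [a]) = (a :: I) ++ [a] := by simp
    simp only [e]
    exact List.getElem_append_left (by omega)
  have hlast : (a :: (I ++ [a]))[n] = a := by
    have e : a :: (I ++ [a]) = (a :: I) ++ [a] := by simp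
    simp only [e]
    rw [List.getElem_append_right (by omega)]
    simp
  rw [List.isChain_iff_getElem] at h5
  let φ : Fin n → V := fun i => (a :: I)[i.val]'(by rw [hlen']; exact i.2)
  have hinj : Function.Injective φ := by
    intro i j hij
    have := (List.Nodup.getElem_inj_iff hnd).1 hij
    exact Fin.ext this
  have hstep : ∀ u v : Fin n, (u - v).val = 1 → G.Adj (φ v) (φ u) := by
    intro u v huv
    obtain ⟨m, rfl⟩ : ∃ m, n = m + 2 := ⟨n - 2, by omega⟩
    have e : u = v + 1 := by
      have : u - v = 1 := Fin.ext (by rw [huv]; rfl)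
      rw [← this]; abel
    by_cases hv : v.val + 1 < m + 2
    · have e' : u.val = v.val + 1 := by
        rw [e, Fin.val_add_one_of_lt]
        rw [Fin.lt_def, Fin.val_last]; omega
      have h6 := h5 v.val (by rw [hlen]; omega)
      rw [hget v.val v.2, hget (v.val + 1) hv] at h6
      have e2 : φ u = (a :: I)[v.val + 1]'(by rw [hlen']; exact hv) := by
        change (a :: I)[u.val]'_ = _
        congr 1
      rw [e2]
      exact h6
    · have e' : v.val = m + 1 := by have := v.2; omega
      have e2 : u.val = 0 := by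
        have : v = Fin.last (m + 1) := Fin.ext (by simpa using e')
        rw [e, this, Fin.last_add_one]; rfl
      have h6 := h5 (m + 1) (by rw [hlen]; omega)
      rw [hget (m + 1) (by omega)] at h6
      have e3 : φ v = (a :: I)[m + 1]'(by rw [hlen']; omega) := by
        change (a :: I)[v.val]'_ = _
        congr 1
      have e4 : φ u = a := by
        change (a :: I)[u.val]'_ = _
        simp only [e2]
        rfl
      rw [e3, e4]
      have e5 : (a :: (I ++ [a]))[m + 1 + 1]'(by rw [hlen]; omega) = a := hlast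
      rw [e5] at h6
      exact h6
  refine ⟨⟨⟨φ, ?_⟩, hinj⟩⟩
  intro u v huv
  rw [SimpleGraph.cycleGraph_adj'] at huv
  rcases huv with h | h
  · exact (hstep u v h).symm
  · exact hstep v u h

theorem contained_of_ug {V : ℕ → Type u} {G : ∀ n, SimpleGraph (V n)} {n : ℕ}
    {A : SimpleGraph (Fin n)} (h : A.IsContained (ug G)) : ∃ m, A.IsContained (G m) := by
  classical
  obtain ⟨φ⟩ := h
  have hrep : ∀ i, ∃ a : ∀ m, V m, Quotient.mk (us V) a = φ i := fun i => Quotient.exists_rep _
  choose rep hr using hrep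
  have h1 : ∀ᶠ m in (U : Filter ℕ), ∀ i j : Fin n, A.Adj i j → (G m).Adj (rep i m) (rep j m) := by
    rw [Filter.eventually_all]
    intro i
    rw [Filter.eventually_all]
    intro j
    by_cases hij : A.Adj i j
    · have := φ.toHom.map_adj hij
      change (ug G).Adj (φ i) (φ j) at this
      rw [← hr i, ← hr j, ug_adj] at this
      exact this.mono (fun m hm _ => hm)
    · exact Filter.Eventually.of_forall (fun m h => absurd h hij)
  have h2 : ∀ᶠ m in (U : Filter ℕ), ∀ i j : Fin n, i ≠ j → rep i m ≠ rep j m := by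
    rw [Filter.eventually_all]
    intro i
    rw [Filter.eventually_all]
    intro j
    by_cases hij : i = j
    · exact Filter.Eventually.of_forall (fun m h => absurd hij h)
    · rcases Ultrafilter.em U (fun m => rep i m = rep j m) with h | h
      · exfalso
        apply hij
        apply φ.injective
        change φ i = φ j
        rw [← hr i, ← hr j]
        exact Quotient.sound h
      · exact h.mono (fun m hm _ => hm)
  obtain ⟨m, h3, h4⟩ := (h1.and h2).exists
  refine ⟨m, ⟨⟨⟨fun i => rep i m, fun {i j} hij => h3 i j hij⟩, ?_⟩⟩⟩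
  intro i j hij
  by_contra hne
  exact h4 i j hne hij

theorem dist3_of_ediam {V : Type u} {G : SimpleGraph V} (h : G.ediam ≤ 3) : Dist3 G := by
  intro a b
  have h1 : G.edist a b ≤ 3 := le_trans SimpleGraph.edist_le_ediam h
  have h2 : G.edist a b ≠ ⊤ := ne_top_of_le_ne_top (by simp) h1
  obtain ⟨p, hp⟩ := SimpleGraph.exists_walk_of_edist_ne_top h2
  have h3 : p.length ≤ 3 := by
    rw [← hp] at h1
    exact_mod_cast h1
  match p, h3 with
  | .nil, _ => left; rfl
  | .cons hab .nil, _ => right; left; exact hab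
  | .cons hac (.cons hcb .nil), _ => right; right; left; exact ⟨_, hac, hcb⟩
  | .cons hac (.cons hcd (.cons hdb .nil)), _ => right; right; right; exact ⟨_, _, hac, hcd, hdb⟩
  | .cons _ (.cons _ (.cons _ (.cons _ q))), hl =>
    exfalso
    simp only [SimpleGraph.Walk.length_cons] at hl
    omega

/-- bounded treedepth -/
theorem treedepth_bound (r : ℕ) (hr : 4 ≤ r) : ∃ c : ℕ, ∀ (V : Type u) [Finite V]
    (G : SimpleGraph V), G.ediam ≤ 3 → (SimpleGraph.cycleGraph (2 * r)).Free G →
      TreedepthLE G c := by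
  by_contra hcon
  push Not at hcon
  choose V hfin G hdiam hfree htd using hcon
  have hpath := fun n => @TDepth.exists_path (V n) (G n) (hfin n) n (htd n)
  choose f hf1 hf2 using hpath
  let F : ℕ → Quotient (us V) := fun k => Quotient.mk (us V) (fun n => f n k)
  have hlarge : ∀ N : ℕ, ∀ᶠ n in (U : Filter ℕ), N < n := by
    intro N
    apply Filter.hyperfilter_le_cofinite
    rw [Filter.mem_cofinite]
    apply (Set.finite_Iic N).subset
    intro n hn
    simpa using hn
  have hFinj : Function.Injective F := by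
    intro i j hij
    have h1 : ∀ᶠ n in (U : Filter ℕ), f n i = f n j := Quotient.exact hij
    obtain ⟨n, h2, h3, h4⟩ := (h1.and ((hlarge i).and (hlarge j))).exists
    exact hf1 n i h3.le j h4.le h2
  have hFadj : ∀ k, (ug G).Adj (F k) (F (k + 1)) := by
    intro k
    rw [ug_adj]
    exact (hlarge k).mono (fun n hn => hf2 n k hn)
  have hd : Dist3 (ug G) := ug_dist3 (fun n => dist3_of_ediam (hdiam n))
  have hcyc := hasCyc_of_ray hFinj hFadj hr hd
  obtain ⟨m, hm⟩ := contained_of_ug (cycleGraph_of_hasCyc (by omega) hcyc)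
  exact (not_isEmpty_iff.2 hm) (hfree m)

end Pool.Agent.R37.GenLink
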